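import Mathlib

/-!
# Mod 2 chains and the intersection form attached to parity data
-/

namespace Pool.Agent.Lib.MP_ec8146_lc

variable {V : Type*}

lemma z2_add_self (a : ZMod 2) : a + a = 0 := CharTwo.add_self_eq_zero a

/-- A chain: a multiset of darts (ordered pairs of vertices). -/
abbrev Ch (V : Type*) := Multiset (V × V)

/-- `Bd P a b`: the mod 2 boundary of the chain `P` is `a + b`. -/
def Bd (P : Ch V) (a b : V) : Prop :=
  ∀ g : V → ZMod 2, (P.map (fun d => g d.1 + g d.2)).sum = g a + g b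

lemma Bd.zero (a : V) : Bd (0 : Ch V) a a := by
  intro g; simp [z2_add_self]

lemma Bd.single (a b : V) : Bd ({(a, b)} : Ch V) a b := by
  intro g; simp

lemma Bd.add {P Q : Ch V} {a b c : V} (hP : Bd P a b) (hQ : Bd Q b c) : Bd (P + Q) a c := by
  intro g
  rw [Multiset.map_add, Multiset.sum_add, hP g, hQ g]
  linear_combination z2_add_self (g b)

lemma Bd.symm {P : Ch V} {a b : V} (hP : Bd P a b) : Bd P b a := by
  intro g
  rw [hP g, add_comm]

/-- sum of a function over a chain -/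
def chSum (f : V → V → ZMod 2) (P : Ch V) : ZMod 2 := (P.map (fun d => f d.1 d.2)).sum

lemma chSum_add (f : V → V → ZMod 2) (P Q : Ch V) : chSum f (P + Q) = chSum f P + chSum f Q := by
  simp [chSum]

/-- intersection number of two darts -/
def c0 (eta : V → V → ZMod 2) (N : V → V → V → ZMod 2) (d e : V × V) : ZMod 2 :=
  eta e.1 d.2 + eta e.1 d.1 + eta e.2 d.2 + eta e.2 d.1 + N e.1 d.1 d.2 + N e.2 d.1 d.2
    + N d.2 e.1 e.2 + N d.1 e.1 e.2

/-- intersection number of two chains -/
def cr (eta : V → V → ZMod 2) (N : V → V → V → ZMod 2) (P Q : Ch V) : ZMod 2 :=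
  (P.map (fun d => (Q.map (fun e => c0 eta N d e)).sum)).sum

section

variable (eta : V → V → ZMod 2) (N : V → V → V → ZMod 2)

lemma cr_add_left (P P' Q : Ch V) : cr eta N (P + P') Q = cr eta N P Q + cr eta N P' Q := by
  simp [cr]

lemma cr_add_right (P Q Q' : Ch V) : cr eta N P (Q + Q') = cr eta N P Q + cr eta N P Q' := by
  simp [cr, Multiset.sum_map_add]

lemma cr_eq_zero (P Q : Ch V) (h : ∀ d ∈ P, ∀ e ∈ Q, c0 eta N d e = 0) : cr eta N P Q = 0 := by
  unfold cr
  apply Multiset.sum_eq_zero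
  intro x hx
  obtain ⟨d, hd, rfl⟩ := Multiset.mem_map.mp hx
  apply Multiset.sum_eq_zero
  intro y hy
  obtain ⟨e, he, rfl⟩ := Multiset.mem_map.mp hy
  exact h d hd e he

lemma cr_formula {P Q : Ch V} {u v x y : V} (hP : Bd P u v) (hQ : Bd Q x y) :
    cr eta N P Q = eta x v + eta x u + eta y v + eta y u + chSum (N x) P + chSum (N y) P
      + chSum (N v) Q + chSum (N u) Q := by
  have h1 : ∀ d : V × V, (Q.map (fun e => c0 eta N d e)).sum =
      (eta x d.2 + eta x d.1) + (eta y d.2 + eta y d.1) + N x d.1 d.2 + N y d.1 d.2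
        + (chSum (N d.2) Q + chSum (N d.1) Q) := by
    intro d
    have e1 := hQ (fun w => eta w d.2 + eta w d.1 + N w d.1 d.2)
    have e2 : (Q.map (fun e => c0 eta N d e)).sum =
        (Q.map (fun e => (eta e.1 d.2 + eta e.1 d.1 + N e.1 d.1 d.2)
          + (eta e.2 d.2 + eta e.2 d.1 + N e.2 d.1 d.2))).sum
        + ((Q.map (fun e => N d.2 e.1 e.2)).sum + (Q.map (fun e => N d.1 e.1 e.2)).sum) := by
      rw [← Multiset.sum_map_add, ← Multiset.sum_map_add]
      congr 1
      apply Multiset.map_congr rfl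
      intro e _
      unfold c0
      ring
    rw [e2, e1]
    unfold chSum
    ring
  have h2 : cr eta N P Q = (P.map (fun d : V × V => (eta x d.1 + eta y d.1 + chSum (N d.1) Q)
      + (eta x d.2 + eta y d.2 + chSum (N d.2) Q))).sum
      + ((P.map (fun d : V × V => N x d.1 d.2)).sum + (P.map (fun d : V × V => N y d.1 d.2)).sum)
      := by
    rw [← Multiset.sum_map_add, ← Multiset.sum_map_add]
    unfold cr
    congr 1
    apply Multiset.map_congr rfl
    intro d _
    rw [h1 d]
    ring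
  have h3 := hP (fun w => eta x w + eta y w + chSum (N w) Q)
  rw [h2, h3]
  unfold chSum
  ring

lemma cr_closed {P Q : Ch V} {u x : V} (hP : Bd P u u) (hQ : Bd Q x x) : cr eta N P Q = 0 := by
  rw [cr_formula eta N hP hQ]
  have := z2_add_self (eta x u)
  have h2 := z2_add_self (chSum (N x) P)
  have h3 := z2_add_self (chSum (N u) Q)
  linear_combination 2 * this + h2 + h3

lemma c0_comm (hη : ∀ x y, x ≠ y → eta x y + eta y x = 1) (d e : V × V)
    (h11 : d.1 ≠ e.1) (h12 : d.1 ≠ e.2) (h21 : d.2 ≠ e.1) (h22 : d.2 ≠ e.2) :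
    c0 eta N d e = c0 eta N e d := by
  unfold c0
  have a1 := hη _ _ h11
  have a2 := hη _ _ h12
  have a3 := hη _ _ h21
  have a4 := hη _ _ h22
  have b1 := z2_add_self (eta d.1 e.1)
  have b2 := z2_add_self (eta d.1 e.2)
  have b3 := z2_add_self (eta d.2 e.1)
  have b4 := z2_add_self (eta d.2 e.2)
  have t : (4 : ZMod 2) = 0 := by decide
  linear_combination a1 + a2 + a3 + a4 - b1 - b2 - b3 - b4 + t

end

/-- The van Kampen parity of a `K₅`-model: the sum of the intersection numbers over the 15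
independent pairs of edges is odd.  The edges of `K₅` are `(c, c+1)` and `(c, c+2)`,
`c : Fin 5`. -/
theorem k5_parity (eta : V → V → ZMod 2) (N : V → V → V → ZMod 2) (z : Fin 5 → V)
    (hη : ∀ i j, i ≠ j → eta (z i) (z j) + eta (z j) (z i) = 1)
    (A B : Fin 5 → Ch V) (hA : ∀ c, Bd (A c) (z c) (z (c + 1)))
    (hB : ∀ c, Bd (B c) (z c) (z (c + 2))) :
    (∑ c, cr eta N (A c) (A (c + 2))) + (∑ c, cr eta N (A c) (B (c + 2)))
      + (∑ c, cr eta N (B c) (B (c + 1))) = 1 := by
  simp only [Fin.sum_univ_five]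
  have f1 : ∀ c : Fin 5, Bd (A c) (z c) (z (c + 1)) := hA
  have g0 := hA 0
  have g1 := hA 1
  have g2 := hA 2
  have g3 := hA 3
  have g4 := hA 4
  have k0 := hB 0
  have k1 := hB 1
  have k2 := hB 2
  have k3 := hB 3
  have k4 := hB 4
  simp only [show (0 : Fin 5) + 1 = 1 from rfl, show (1 : Fin 5) + 1 = 2 from rfl,
    show (2 : Fin 5) + 1 = 3 from rfl, show (3 : Fin 5) + 1 = 4 from rfl,
    show (4 : Fin 5) + 1 = 0 from rfl, show (0 : Fin 5) + 2 = 2 from rfl,
    show (1 : Fin 5) + 2 = 3 from rfl, show (2 : Fin 5) + 2 = 4 from rfl,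
    show (3 : Fin 5) + 2 = 0 from rfl, show (4 : Fin 5) + 2 = 1 from rfl] at g0 g1 g2 g3 g4 k0 k1 k2 k3 k4 ⊢
  rw [cr_formula eta N g0 g2, cr_formula eta N g1 g3, cr_formula eta N g2 g4,
    cr_formula eta N g3 g0, cr_formula eta N g4 g1, cr_formula eta N g0 k2,
    cr_formula eta N g1 k3, cr_formula eta N g2 k4, cr_formula eta N g3 k0,
    cr_formula eta N g4 k1, cr_formula eta N k0 k1, cr_formula eta N k1 k2,
    cr_formula eta N k2 k3, cr_formula eta N k3 k4, cr_formula eta N k4 k0]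
  have sw : ∀ i j : Fin 5, i ≠ j → eta (z j) (z i) = 1 + eta (z i) (z j) := by
    intro i j hij
    have := hη i j hij
    linear_combination this - z2_add_self (eta (z i) (z j))
  rw [sw 0 1 (by decide), sw 0 2 (by decide), sw 0 3 (by decide), sw 0 4 (by decide),
    sw 1 2 (by decide), sw 1 3 (by decide), sw 1 4 (by decide), sw 2 3 (by decide),
    sw 2 4 (by decide), sw 3 4 (by decide)]
  ring_nf
  reduce_mod_char

end Pool.Agent.Lib.MP_ec8146_lc
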