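import Mathlib

/-!
# Drawings of graphs in topological spaces

Basic definitions: drawings of simple graphs in a topological space, crossing-free drawings,
toroidal graphs, and `k`-planar graphs.
-/

namespace Pool.Agent.Lib.MP_ec8146_lc

/-- A drawing of a simple graph `G` in a topological space `X`: vertices are placed at pairwise
distinct points, every edge is drawn as a simple (injective) arc joining its two endpoints (the
same arc, reversed, for the reversed edge), and no arc passes through a vertex which is not one
of its endpoints. -/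
structure Drawing {V : Type*} (G : SimpleGraph V) (X : Type*) [TopologicalSpace X] where
  /-- position of the vertices -/
  pos : V → X
  pos_injective : Function.Injective pos
  /-- the arc of an edge -/
  arc : ∀ u v, G.Adj u v → Path (pos u) (pos v)
  arc_symm : ∀ u v (h : G.Adj u v), arc v u h.symm = (arc u v h).symm
  arc_injective : ∀ u v (h : G.Adj u v), Function.Injective (arc u v h)
  arc_avoid : ∀ u v (h : G.Adj u v) w, w ≠ u → w ≠ v → ∀ t, arc u v h t ≠ pos w

variable {V : Type*} {G : SimpleGraph V} {X : Type*} [TopologicalSpace X]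

/-- The relative interior of the arc that draws the (unordered) pair `e` (empty if `e` is not an
edge). -/
def Drawing.interior (D : Drawing G X) (e : Sym2 V) : Set X :=
  {p | ∃ u v, ∃ h : G.Adj u v, e = s(u, v) ∧ ∃ t : unitInterval, t ≠ 0 ∧ t ≠ 1 ∧
    D.arc u v h t = p}

/-- The crossings on the edge `e`: pairs `(f, p)` of an edge `f ≠ e` and a common interior point
`p` of `e` and `f`. -/
def Drawing.crossings (D : Drawing G X) (e : Sym2 V) : Set (Sym2 V × X) :=
  {q | q.1 ∈ G.edgeSet ∧ q.1 ≠ e ∧ q.2 ∈ D.interior e ∧ q.2 ∈ D.interior q.1}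

/-- `G` can be drawn in the plane so that every edge is crossed at most `k` times. -/
def KPlanar {V : Type*} (k : ℕ) (G : SimpleGraph V) : Prop :=
  ∃ D : Drawing G (ℝ × ℝ), ∀ e ∈ G.edgeSet, (D.crossings e).encard ≤ k

/-- `G` can be drawn without crossings in the torus `ℝ/ℤ × ℝ/ℤ`. -/
def Toroidal {V : Type*} (G : SimpleGraph V) : Prop :=
  ∃ D : Drawing G (UnitAddCircle × UnitAddCircle), ∀ e ∈ G.edgeSet, D.crossings e = ∅

end Pool.Agent.Lib.MP_ec8146_lc
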