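import Pool.Agent.Lib.MP_ec8146_lc.Defs

/-!
# First-order transductions between graph classes

The first-order language of graphs with `c` colours, the graph `ψ(G⁺)` defined by a formula
`ψ(x,y)` in a coloured graph `G⁺`, and transducibility of a class of finite graphs from another.
-/

namespace Pool.Agent.Lib.MP_ec8146_lc

open FirstOrder

/-- Relation symbols: a binary adjacency symbol and `c` unary colour symbols. -/
inductive CGRel (c : ℕ) : ℕ → Type
  | adj : CGRel c 2
  | col (i : Fin c) : CGRel c 1

/-- The first-order language of graphs with `c` colours (no function symbols). -/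
def cgLang (c : ℕ) : Language := ⟨fun _ => Empty, CGRel c⟩

/-- A graph `G` with colours `C 0, …, C (c-1)` (arbitrary sets of vertices) as a first-order
structure. -/
@[reducible]
def cgStr {V : Type} (G : SimpleGraph V) {c : ℕ} (C : Fin c → Set V) : (cgLang c).Structure V where
  funMap := fun f => Empty.elim f
  RelMap := fun r x => match r with
    | CGRel.adj => G.Adj (x 0) (x 1)
    | CGRel.col i => x 0 ∈ C i

/-- truth of `ψ(u, v)` in the coloured graph `(G, C)` -/
def Holds {V : Type} (G : SimpleGraph V) {c : ℕ} (C : Fin c → Set V)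
    (ψ : (cgLang c).Formula (Fin 2)) (u v : V) : Prop :=
  letI := cgStr G C
  ψ.Realize ![u, v]

/-- The graph `ψ(G⁺)`: `u` and `v` are adjacent iff `u ≠ v` and `ψ(u, v)` or `ψ(v, u)` holds. -/
def interp {V : Type} (G : SimpleGraph V) {c : ℕ} (C : Fin c → Set V)
    (ψ : (cgLang c).Formula (Fin 2)) : SimpleGraph V where
  Adj u v := u ≠ v ∧ (Holds G C ψ u v ∨ Holds G C ψ v u)
  symm := ⟨fun _ _ h => ⟨h.1.symm, h.2.symm⟩⟩
  loopless := ⟨fun _ h => h.1 rfl⟩

/-- The class `𝒞` of finite graphs is first-order transducible from the class `𝒟`: for some number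
`c` of colours and some formula `ψ(x, y)`, every graph of `𝒞` is (isomorphic to) an induced
subgraph of `ψ(G⁺)` for some `c`-colouring `G⁺` of some `G` in `𝒟`. -/
def Transducible (𝒞 𝒟 : ∀ V : Type, SimpleGraph V → Prop) : Prop :=
  ∃ (c : ℕ) (ψ : (cgLang c).Formula (Fin 2)),
    ∀ (W : Type) (_ : Finite W) (H : SimpleGraph W), 𝒞 W H →
      ∃ (V : Type) (_ : Finite V) (G : SimpleGraph V), 𝒟 V G ∧
        ∃ C : Fin c → Set V, Nonempty (H ↪g interp G C ψ)

/-- `G` can be drawn without crossings in the plane. -/
def Planar {V : Type*} (G : SimpleGraph V) : Prop :=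
  ∃ D : Drawing G (ℝ × ℝ), ∀ e ∈ G.edgeSet, D.crossings e = ∅

end Pool.Agent.Lib.MP_ec8146_lc
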