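import Pool.Agent.Lib.MP_ec8146_lc.Transfer

/-!
# Neighbours of a vertex; degree bound
-/

namespace Pool.Agent.Lib.MP_ec8146_lc

open Vtx

/-- right neighbour -/
def nE (p : Par) : Vtx → Vtx
  | base c x y => if x + 1 < p.M then base c (x + 1) y else base (c + 1) 0 y
  | wall c i j r m => wall c i j r (m + 1)

open Classical in
/-- upper neighbour -/
noncomputable def nN (p : Par) : Vtx → Vtx
  | base c x y => if inWall p c x y then wall c (x / p.s) (y / p.s) 1 (2 * (x % p.s - 1))
      else if y + 1 < p.M then base c x (y + 1) else base (c + 2) x 0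
  | wall c i j r m => wall c i j (r + 1) (2 * m)

/-- left neighbour -/
def nW (p : Par) : Vtx → Vtx
  | base c x y => if x = 0 then base (c - 1) (p.M - 1) y else base c (x - 1) y
  | wall c i j r m => wall c i j r (m - 1)

/-- lower neighbour -/
def nS (p : Par) : Vtx → Vtx
  | base c x y => if y = 0 then base (c - 2) x (p.M - 1) else base c x (y - 1)
  | wall c i j r m => if r = 1 then base c (i * p.s + 1 + m / 2) (j * p.s + p.g)
      else wall c i j (r - 1) (m / 2)

/-- starting points of horizontal edges -/
def HG (p : Par) : Vtx → Prop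
  | base _ x y => x < p.M ∧ y < p.M
  | wall c i j r m => i < p.N ∧ j < p.N ∧ 1 ≤ r ∧ r ≤ p.D ∧ m + 1 ≤ p.w c * 2 ^ r

/-- starting points of vertical edges -/
def VG (p : Par) : Vtx → Prop
  | base _ x y => x < p.M ∧ y < p.M
  | wall c i j r m => i < p.N ∧ j < p.N ∧ 1 ≤ r ∧ r + 1 ≤ p.D ∧ m ≤ p.w c * 2 ^ r

lemma fin5_add_sub (c : Fin 5) : c + 1 - 1 = c ∧ c + 2 - 2 = c := by revert c; decide

lemma M_pred_mod {p : Par} (hM : 0 < p.M) : (p.M - 1) % p.s = p.s - 1 := by
  have hs : 0 < p.s := by
    rcases Nat.eq_zero_or_pos p.s with h | h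
    · simp [Par.M, h] at hM
    · exact h
  have hN : 0 < p.N := by
    rcases Nat.eq_zero_or_pos p.N with h | h
    · simp [Par.M, h] at hM
    · exact h
  have : p.M - 1 = (p.N - 1) * p.s + (p.s - 1) := by
    unfold Par.M
    obtain ⟨n, hn⟩ : ∃ n, p.N = n + 1 := ⟨p.N - 1, by omega⟩
    rw [hn]
    have : (n + 1) * p.s = n * p.s + p.s := by ring
    simp only [Nat.add_sub_cancel]
    omega
  rw [this, Nat.add_comm, Nat.add_mul_mod_self_right, Nat.mod_eq_of_lt (by omega)]

lemma mod_cell {i s t : ℕ} (ht : t < s) : (i * s + t) % s = t := by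
  rw [Nat.add_comm, Nat.add_mul_mod_self_right, Nat.mod_eq_of_lt ht]

lemma Gen.dirs {p : Par} (hs : ∀ c, p.w c + 1 < p.s) (hg : p.g + 1 < p.s) {u v : Vtx}
    (h : Gen p u v) :
    ((HG p u ∧ v = nE p u) ∨ (VG p u ∧ v = nN p u)) ∧ (u = nW p v ∨ u = nS p v) := by
  cases h with
  | hor c x y hx hy =>
    refine ⟨Or.inl ⟨⟨by omega, hy⟩, ?_⟩, Or.inl ?_⟩
    · simp [nE, hx]
    · simp [nW]
  | horc c y hy =>
    refine ⟨Or.inl ⟨⟨by omega, hy⟩, ?_⟩, Or.inl ?_⟩
    · simp only [nE]
      rw [if_neg (by omega)]
    · simp only [nW]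
      rw [if_pos trivial, (fin5_add_sub c).1]
  | ver c x y hx hy hw =>
    refine ⟨Or.inr ⟨⟨hx, by omega⟩, ?_⟩, Or.inr ?_⟩
    · simp only [nN]
      rw [if_neg hw, if_pos hy]
    · simp [nS]
  | verc c x hx =>
    have hM : 0 < p.M := by omega
    refine ⟨Or.inr ⟨⟨hx, by omega⟩, ?_⟩, Or.inr ?_⟩
    · have h1 : ¬ inWall p c x (p.M - 1) := by
        intro hw
        have := hw.1
        rw [M_pred_mod hM] at this
        omega
      simp only [nN]
      rw [if_neg h1, if_neg (by omega)]
    · simp only [nS]
      rw [if_pos trivial, (fin5_add_sub c).2]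
  | wbot c i j l hi hj hl =>
    have hc := hs c
    have e1 : (i * p.s + 1 + l) % p.s = 1 + l := by
      rw [add_assoc]; exact mod_cell (by omega)
    have e2 : (i * p.s + 1 + l) / p.s = i := by
      rw [add_assoc]; exact div_cell (by omega)
    have e3 : (j * p.s + p.g) % p.s = p.g := mod_cell (by omega)
    have e4 : (j * p.s + p.g) / p.s = j := div_cell (by omega)
    have hw : inWall p c (i * p.s + 1 + l) (j * p.s + p.g) := by
      refine ⟨e3, ?_, ?_⟩
      · rw [e1]; omega
      · rw [e1]; omega
    have hM : ∀ i t, i < p.N → t < p.s → i * p.s + t < p.M := by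
      intro i t hi ht
      unfold Par.M
      calc i * p.s + t < i * p.s + p.s := by omega
        _ = (i + 1) * p.s := by ring
        _ ≤ p.N * p.s := Nat.mul_le_mul_right _ hi
    refine ⟨Or.inr ⟨⟨?_, hM j p.g hj (by omega)⟩, ?_⟩, Or.inr ?_⟩
    · have := hM i (1 + l) hi (by omega)
      omega
    · simp only [nN]
      rw [if_pos hw, e1, e2, e4]
      simp
    · simp only [nS]
      simp
  | whor c i j r m hi hj hr hrD hm =>
    exact ⟨Or.inl ⟨⟨hi, hj, hr, hrD, hm⟩, rfl⟩, Or.inl (by simp [nW])⟩
  | wver c i j r m hi hj hr hrD hm =>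
    refine ⟨Or.inr ⟨⟨hi, hj, hr, hrD, hm⟩, rfl⟩, Or.inr ?_⟩
    simp only [nS]
    rw [if_neg (by omega)]
    simp

/-- every vertex has at most four neighbours -/
lemma degree_le {p : Par} (hs : ∀ c, p.w c + 1 < p.s) (hg : p.g + 1 < p.s) (v : TV p) :
    ((Tor p).neighborSet v).encard ≤ 4 := by
  have h1 : Subtype.val '' ((Tor p).neighborSet v)
      ⊆ ({nE p v.1, nN p v.1, nW p v.1, nS p v.1} : Set Vtx) := by
    rintro _ ⟨u, hu, rfl⟩
    have hu' : (T p).Adj v.1 u.1 := hu
    rcases (T_adj p).mp hu' with h | h
    · rcases (h.dirs hs hg).1 with h1 | h1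
      · rw [h1.2]; simp
      · rw [h1.2]; simp
    · rcases (h.dirs hs hg).2 with h1 | h1
      · rw [h1]; simp
      · rw [h1]; simp
  rw [← Subtype.val_injective.encard_image]
  refine (Set.encard_le_encard h1).trans ?_
  refine (Set.encard_insert_le _ _).trans ?_
  have e1 : ({nN p v.1, nW p v.1, nS p v.1} : Set Vtx).encard ≤ 3 := by
    refine (Set.encard_insert_le _ _).trans ?_
    have e2 : ({nW p v.1, nS p v.1} : Set Vtx).encard ≤ 2 := by
      refine (Set.encard_insert_le _ _).trans ?_
      rw [Set.encard_singleton]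
      norm_num
    calc ({nW p v.1, nS p v.1} : Set Vtx).encard + 1 ≤ 2 + 1 := by gcongr
      _ = 3 := by norm_num
  calc ({nN p v.1, nW p v.1, nS p v.1} : Set Vtx).encard + 1 ≤ 3 + 1 := by gcongr
    _ = 4 := by norm_num

/-- `Gen` is antisymmetric -/
lemma Gen.asymm {p : Par} {u v : Vtx} (h : Gen p u v) : ¬ Gen p v u := by
  have f5 : ∀ c : Fin 5, c + 1 ≠ c ∧ c + 2 ≠ c ∧ c + 1 + 1 ≠ c ∧ c + 1 + 2 ≠ c ∧ c + 2 + 1 ≠ c ∧
      c + 2 + 2 ≠ c := by decide
  intro h'
  cases h with
  | hor c x y hx hy =>
    generalize hu : base c x y = u' at h'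
    generalize hv : base c (x + 1) y = v' at h'
    cases h' with
    | hor c' x' y' hx' hy' =>
      injection hu with a1 a2 a3; injection hv with b1 b2 b3; omega
    | horc c' y' hy' =>
      injection hu with a1 a2 a3; injection hv with b1 b2 b3
      exact (f5 c').1 (by rw [← a1, ← b1])
    | ver c' x' y' hx' hy' hw' =>
      injection hu with a1 a2 a3; injection hv with b1 b2 b3; omega
    | verc c' x' hx' =>
      injection hu with a1 a2 a3; injection hv with b1 b2 b3
      exact (f5 c').2.1 (by rw [← a1, ← b1])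
    | wbot => cases hu
    | whor => cases hu
    | wver => cases hu
  | horc c y hy =>
    generalize hu : base c (p.M - 1) y = u' at h'
    generalize hv : base (c + 1) 0 y = v' at h'
    cases h' with
    | hor c' x' y' hx' hy' =>
      injection hu with a1 a2 a3; injection hv with b1 b2 b3
      exact (f5 c).1 (by rw [b1, a1])
    | horc c' y' hy' =>
      injection hu with a1 a2 a3; injection hv with b1 b2 b3
      exact (f5 c').2.2.1 (by rw [← a1, ← b1])
    | ver c' x' y' hx' hy' hw' =>
      injection hu with a1 a2 a3; injection hv with b1 b2 b3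
      exact (f5 c).1 (by rw [b1, a1])
    | verc c' x' hx' =>
      injection hu with a1 a2 a3; injection hv with b1 b2 b3
      exact (f5 c').2.2.2.2.1 (by rw [← a1, ← b1])
    | wbot => cases hu
    | whor => cases hu
    | wver => cases hu
  | ver c x y hx hy hw =>
    generalize hu : base c x y = u' at h'
    generalize hv : base c x (y + 1) = v' at h'
    cases h' with
    | hor c' x' y' hx' hy' =>
      injection hu with a1 a2 a3; injection hv with b1 b2 b3; omega
    | horc c' y' hy' =>
      injection hu with a1 a2 a3; injection hv with b1 b2 b3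
      exact (f5 c').1 (by rw [← a1, ← b1])
    | ver c' x' y' hx' hy' hw' =>
      injection hu with a1 a2 a3; injection hv with b1 b2 b3; omega
    | verc c' x' hx' =>
      injection hu with a1 a2 a3; injection hv with b1 b2 b3
      exact (f5 c').2.1 (by rw [← a1, ← b1])
    | wbot => cases hu
    | whor => cases hu
    | wver => cases hu
  | verc c x hx =>
    generalize hu : base c x (p.M - 1) = u' at h'
    generalize hv : base (c + 2) x 0 = v' at h'
    cases h' with
    | hor c' x' y' hx' hy' =>
      injection hu with a1 a2 a3; injection hv with b1 b2 b3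
      exact (f5 c).2.1 (by rw [b1, a1])
    | horc c' y' hy' =>
      injection hu with a1 a2 a3; injection hv with b1 b2 b3
      exact (f5 c').2.2.2.1 (by rw [← a1, ← b1])
    | ver c' x' y' hx' hy' hw' =>
      injection hu with a1 a2 a3; injection hv with b1 b2 b3
      exact (f5 c).2.1 (by rw [b1, a1])
    | verc c' x' hx' =>
      injection hu with a1 a2 a3; injection hv with b1 b2 b3
      exact (f5 c').2.2.2.2.2 (by rw [← a1, ← b1])
    | wbot => cases hu
    | whor => cases hu
    | wver => cases hu
  | wbot c i j l hi hj hl => cases h'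
  | whor c i j r m hi hj hr hrD hm =>
    generalize hu : wall c i j r m = u' at h'
    generalize hv : wall c i j r (m + 1) = v' at h'
    cases h' with
    | hor => cases hu
    | horc => cases hu
    | ver => cases hu
    | verc => cases hu
    | wbot => cases hv
    | whor => injection hu; injection hv; omega
    | wver => injection hu; injection hv; omega
  | wver c i j r m hi hj hr hrD hm =>
    generalize hu : wall c i j r m = u' at h'
    generalize hv : wall c i j (r + 1) (2 * m) = v' at h'
    cases h' with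
    | hor => cases hu
    | horc => cases hu
    | ver => cases hu
    | verc => cases hu
    | wbot => cases hv
    | whor => injection hu; injection hv; omega
    | wver => injection hu; injection hv; omega

end Pool.Agent.Lib.MP_ec8146_lc
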