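import Pool.Agent.Lib.MP_ec8146_lc.Half

/-!
# Edges of the `K₅`-model
-/

namespace Pool.Agent.Lib.MP_ec8146_lc

open Vtx

namespace Setup

variable {p : Par} {k a : ℕ} {S : Setup p k}

lemma Half.mono {hp : p.Good k a} {l : ℕ} {b : Fin 5} {P ω0 τ0 ω1 τ1 : Ch Vtx}
    {Ln Ln' : Sym2 Vtx → Prop} (h : Half S hp l b P ω0 τ0 ω1 τ1 Ln) (hL : ∀ e, Ln e → Ln' e) :
    Half S hp l b P ω0 τ0 ω1 τ1 Ln' where
  isH := h.isH
  inB := h.inB
  inLn := fun d hd => hL _ (h.inLn d hd)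
  tH0 := h.tH0
  tH1 := h.tH1
  tB0 := h.tB0
  tB1 := h.tB1
  low := h.low
  up := fun R hR => h.up R (fun J hJ hJL => hR J hJ (fun e he => hL _ (hJL e he)))

/-- data of an edge `uv` of the `K₅`-model realised by the chain `P`, inside the set `Ln` of
edges, with the protected object `O` -/
def EData (S : Setup p k) (hp : p.Good k a) (l : ℕ) (u v : Fin 5) (P O : Ch Vtx)
    (Ln : Sym2 Vtx → Prop) : Prop :=
  ∃ P1 κ P2 ω0 τ0 ω1 τ1 ω2 τ2 ω3 τ3, P = P1 + κ + P2 ∧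
    Half S hp l u P1 ω0 τ0 ω1 τ1 Ln ∧ Half S hp l v P2 ω2 τ2 ω3 τ3 Ln ∧
    S.IsH κ ∧ InB κ {u, v} ∧ (∀ d ∈ κ, Ln s(d.1, d.2)) ∧
    (κ ≤ O ∧ ω0 ≤ O ∧ τ0 ≤ O ∧ ω1 ≤ O ∧ τ1 ≤ O ∧ ω2 ≤ O ∧ τ2 ≤ O ∧ ω3 ≤ O ∧ τ3 ≤ O)

lemma crs_le {P Q : Ch Vtx} (h : P ≤ Q) : S.crs P ⊆ S.crs Q :=
  crs_mono (fun _ hd => Multiset.mem_of_le h hd)

/-- Independent edges have intersection number zero. -/
lemma edata_edata (hp : p.Good k a) {l : ℕ} {u v u' v' : Fin 5} {P O P' O' : Ch Vtx}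
    {Ln Ln' : Sym2 Vtx → Prop} (h : EData S hp l u v P O Ln) (h' : EData S hp l u' v' P' O' Ln')
    (h1 : u ≠ u') (h2 : u ≠ v') (h3 : v ≠ u') (h4 : v ≠ v')
    (hO : ∀ e ∈ S.crs O, ¬ Ln' e) (hO' : ∀ e ∈ S.crs O', ¬ Ln e) : S.X P P' = 0 := by
  obtain ⟨P1, κ, P2, ω0, τ0, ω1, τ1, ω2, τ2, ω3, τ3, rfl, H1, H2, hκH, hκB, hκL,
    i0, i1, i2, i3, i4, i5, i6, i7, i8⟩ := h
  obtain ⟨P1', κ', P2', ω0', τ0', ω1', τ1', ω2', τ2', ω3', τ3', rfl, H1', H2', hκH', hκB', hκL',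
    j0, j1, j2, j3, j4, j5, j6, j7, j8⟩ := h'
  have q : ∀ {W : Ch Vtx}, W ≤ O → ∀ e ∈ S.crs W, ¬ Ln' e := fun hW e he => hO e (crs_le hW he)
  have q' : ∀ {W : Ch Vtx}, W ≤ O' → ∀ e ∈ S.crs W, ¬ Ln e :=
    fun hW e he => hO' e (crs_le hW he)
  have d1 : Disjoint ({u, v} : Finset (Fin 5)) {u', v'} := by
    rw [Finset.disjoint_left]
    intro x hx hx'
    simp only [Finset.mem_insert, Finset.mem_singleton] at hx hx'
    rcases hx with rfl | rfl <;> rcases hx' with h | h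
    · exact h1 h
    · exact h2 h
    · exact h3 h
    · exact h4 h
  have a1 := half_half hp h1 H1 H1' (q i1) (q i3) (q i2) (q i4) (q' j1) (q' j3) (q' j2) (q' j4)
  have a2 := half_half hp h2 H1 H2' (q i1) (q i3) (q i2) (q i4) (q' j5) (q' j7) (q' j6) (q' j8)
  have a3 := half_half hp h3 H2 H1' (q i5) (q i7) (q i6) (q i8) (q' j1) (q' j3) (q' j2) (q' j4)
  have a4 := half_half hp h4 H2 H2' (q i5) (q i7) (q i6) (q i8) (q' j5) (q' j7) (q' j6) (q' j8)
  have B1 : InB P1 {u, v} := H1.inB.mono (by simp)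
  have B2 : InB P2 {u, v} := H2.inB.mono (by simp)
  have B1' : InB P1' {u', v'} := H1'.inB.mono (by simp)
  have B2' : InB P2' {u', v'} := H2'.inB.mono (by simp)
  have c1 : S.X κ P1' = 0 := S.X_zero_blk hκH H1'.isH hκB B1' d1
    (fun e he hc => q i0 _ hc (H1'.inLn e he))
  have c2 : S.X κ P2' = 0 := S.X_zero_blk hκH H2'.isH hκB B2' d1
    (fun e he hc => q i0 _ hc (H2'.inLn e he))
  have c3 : S.X κ κ' = 0 := S.X_zero_blk hκH hκH' hκB hκB' d1
    (fun e he hc => q i0 _ hc (hκL' e he))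
  have c4 : S.X P1 κ' = 0 := by
    rw [S.X_comm B1 hκB' d1]
    exact S.X_zero_blk hκH' H1.isH hκB' B1 d1.symm (fun e he hc => q' j0 _ hc (H1.inLn e he))
  have c5 : S.X P2 κ' = 0 := by
    rw [S.X_comm B2 hκB' d1]
    exact S.X_zero_blk hκH' H2.isH hκB' B2 d1.symm (fun e he hc => q' j0 _ hc (H2.inLn e he))
  simp only [X_add_left, X_add_right, a1, a2, a3, a4, c1, c2, c3, c4, c5, add_zero]

/-- connecting chain of a horizontal edge -/
def kapH (p : Par) (c : Fin 5) (t mR mL : ℕ) : Ch Vtx :=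
  hseg c (t * p.s) (mR * p.s) (p.M - 1)
    + {(base c (p.M - 1) (t * p.s), base (c + 1) 0 (t * p.s))}
    + hseg (c + 1) (t * p.s) (0 * p.s) (mL * p.s)

/-- connecting chain of a vertical edge -/
def kapV (p : Par) (c : Fin 5) (t mT mB : ℕ) : Ch Vtx :=
  vseg c (t * p.s) (mT * p.s) (p.M - 1)
    + {(base c (t * p.s) (p.M - 1), base (c + 2) (t * p.s) 0)}
    + vseg (c + 2) (t * p.s) (0 * p.s) (mB * p.s)

/-- chain of the horizontal edge from block `c` to block `c+1` -/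
def eH (p : Par) (c : Fin 5) (x y x' y' t mR mL : ℕ) : Ch Vtx :=
  (vseg c (x * p.s) (y * p.s) (t * p.s) + hseg c (t * p.s) (x * p.s) (mR * p.s))
    + kapH p c t mR mL
    + (vseg (c + 1) (x' * p.s) (y' * p.s) (t * p.s)
      + hseg (c + 1) (t * p.s) (x' * p.s) (mL * p.s))

/-- chain of the vertical edge from block `c` to block `c+2` -/
def eV (p : Par) (c : Fin 5) (x y x' y' t mT mB : ℕ) : Ch Vtx :=
  (hseg c (y * p.s) (x * p.s) (t * p.s) + vseg c (t * p.s) (y * p.s) (mT * p.s))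
    + kapV p c t mT mB
    + (hseg (c + 2) (y' * p.s) (x' * p.s) (t * p.s)
      + vseg (c + 2) (t * p.s) (y' * p.s) (mB * p.s))

/-- protected object of a centre -/
noncomputable def oP (S : Setup p k) (hp : p.Good k a) (L : ℕ) (c : Fin 5) (x y : ℕ) : Ch Vtx :=
  hseg c (y * p.s) (x * p.s) ((x + L) * p.s) + S.tau hp c x y

/-- protected object of a horizontal edge -/
noncomputable def oH (S : Setup p k) (hp : p.Good k a) (L : ℕ) (c : Fin 5) (t mR mL : ℕ) :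
    Ch Vtx :=
  kapH p c t mR mL
    + (hseg c (t * p.s) ((p.N - 1 - L) * p.s) ((p.N - 1 - L + L) * p.s) + S.tau hp c mR t)
    + (hseg (c + 1) (t * p.s) (0 * p.s) ((0 + L) * p.s) + S.tau hp (c + 1) mL t)

/-- protected object of a vertical edge -/
noncomputable def oV (S : Setup p k) (hp : p.Good k a) (L : ℕ) (c : Fin 5) (t mT mB : ℕ) :
    Ch Vtx :=
  kapV p c t mT mB
    + (vseg c (t * p.s) ((p.N - 1 - L) * p.s) ((p.N - 1 - L + L) * p.s) + S.tau hp c t mT)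
    + (vseg (c + 2) (t * p.s) (0 * p.s) ((0 + L) * p.s) + S.tau hp (c + 2) t mB)

lemma M_pos (hp : p.Good k a) : 0 < p.M := by
  have h1 := s_pos hp
  have h2 : 0 < p.N := by have := hp.gN; omega
  exact Nat.mul_pos h2 h1

lemma inRow_last (hp : p.Good k a) (c : Fin 5) (t : ℕ) :
    InRow p t s(base c (p.M - 1) (t * p.s), base (c + 1) 0 (t * p.s)) := by
  intro v hv
  rcases Sym2.mem_iff.mp hv with rfl | rfl
  · exact Nat.mul_div_cancel _ (s_pos hp)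
  · exact Nat.mul_div_cancel _ (s_pos hp)

lemma inCol_last (hp : p.Good k a) (c : Fin 5) (t : ℕ) :
    InCol p t s(base c (t * p.s) (p.M - 1), base (c + 2) (t * p.s) 0) := by
  intro v hv
  rcases Sym2.mem_iff.mp hv with rfl | rfl
  · exact Nat.mul_div_cancel _ (s_pos hp)
  · exact Nat.mul_div_cancel _ (s_pos hp)

lemma kapH_inRow (hp : p.Good k a) {c : Fin 5} {t mR mL : ℕ} :
    ∀ d ∈ kapH p c t mR mL, InRow p t s(d.1, d.2) := by
  intro d hd
  simp only [kapH, Multiset.mem_add, Multiset.mem_singleton] at hd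
  rcases hd with (hd | hd) | hd
  · exact inRow_hseg (s_pos hp) d hd
  · subst hd
    exact inRow_last hp c t
  · exact inRow_hseg (s_pos hp) d hd

lemma kapV_inCol (hp : p.Good k a) {c : Fin 5} {t mT mB : ℕ} :
    ∀ d ∈ kapV p c t mT mB, InCol p t s(d.1, d.2) := by
  intro d hd
  simp only [kapV, Multiset.mem_add, Multiset.mem_singleton] at hd
  rcases hd with (hd | hd) | hd
  · exact inCol_vseg (s_pos hp) d hd
  · subst hd
    exact inCol_last hp c t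
  · exact inCol_vseg (s_pos hp) d hd

lemma kapH_isH (hp : p.Good k a) {c : Fin 5} {t mR mL : ℕ} (ht : S.OKr t) (hR : mR < p.N)
    (hL : mL < p.N) : S.IsH (kapH p c t mR mL) := by
  have hs := s_pos hp
  have hM := M_pos hp
  refine Setup.IsH.add S (Setup.IsH.add S (hseg_isH (ht.good hs c) (coarse_lt hs hR)
    (by omega)) ?_) (hseg_isH (ht.good hs (c + 1)) (coarse_lt hs (by omega)) (coarse_lt hs hL))
  intro d hd
  rw [Multiset.mem_singleton.mp hd]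
  exact ⟨Or.inl (Gen.horc c _ (coarse_lt hs ht.1)), fun h => ht.2 _ h (inRow_last hp c t)⟩

lemma kapV_isH (hp : p.Good k a) {c : Fin 5} {t mT mB : ℕ} (ht : S.OKc t) (hT : mT < p.N)
    (hB : mB < p.N) : S.IsH (kapV p c t mT mB) := by
  have hs := s_pos hp
  have hM := M_pos hp
  refine Setup.IsH.add S (Setup.IsH.add S (vseg_isH (ht.good hs c) (coarse_lt hs hT)
    (by omega)) ?_) (vseg_isH (ht.good hs (c + 2)) (coarse_lt hs (by omega)) (coarse_lt hs hB))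
  intro d hd
  rw [Multiset.mem_singleton.mp hd]
  exact ⟨Or.inl (Gen.verc c _ (coarse_lt hs ht.1)), fun h => ht.2 _ h (inCol_last hp c t)⟩

lemma kapH_inB {c : Fin 5} {t mR mL : ℕ} : InB (kapH p c t mR mL) {c, c + 1} := by
  refine InB.add (InB.add (hseg_inB.mono (by simp)) ?_) (hseg_inB.mono (by simp))
  intro d hd
  rw [Multiset.mem_singleton.mp hd]
  simp [Vtx.blk]

lemma kapV_inB {c : Fin 5} {t mT mB : ℕ} : InB (kapV p c t mT mB) {c, c + 2} := by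
  refine InB.add (InB.add (vseg_inB.mono (by simp)) ?_) (vseg_inB.mono (by simp))
  intro d hd
  rw [Multiset.mem_singleton.mp hd]
  simp [Vtx.blk]

lemma Bd_eH (p : Par) (c : Fin 5) (x y x' y' t mR mL : ℕ) :
    Bd (eH p c x y x' y' t mR mL) (base c (x * p.s) (y * p.s))
      (base (c + 1) (x' * p.s) (y' * p.s)) := by
  have b1 : Bd (vseg c (x * p.s) (y * p.s) (t * p.s)) (base c (x * p.s) (y * p.s))
    (base c (x * p.s) (t * p.s)) := Bd_seg (fun m => base c (x * p.s) m) _ _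
  have b2 : Bd (hseg c (t * p.s) (x * p.s) (mR * p.s)) (base c (x * p.s) (t * p.s))
    (base c (mR * p.s) (t * p.s)) := Bd_seg (fun m => base c m (t * p.s)) _ _
  have b3 : Bd (hseg c (t * p.s) (mR * p.s) (p.M - 1)) (base c (mR * p.s) (t * p.s))
    (base c (p.M - 1) (t * p.s)) := Bd_seg (fun m => base c m (t * p.s)) _ _
  have b4 : Bd ({(base c (p.M - 1) (t * p.s), base (c + 1) 0 (t * p.s))} : Ch Vtx)
    (base c (p.M - 1) (t * p.s)) (base (c + 1) 0 (t * p.s)) := Bd.single _ _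
  have b5 : Bd (hseg (c + 1) (t * p.s) (0 * p.s) (mL * p.s)) (base (c + 1) (0 * p.s) (t * p.s))
    (base (c + 1) (mL * p.s) (t * p.s)) := Bd_seg (fun m => base (c + 1) m (t * p.s)) _ _
  rw [zero_mul] at b5
  have b6 : Bd (vseg (c + 1) (x' * p.s) (y' * p.s) (t * p.s))
    (base (c + 1) (x' * p.s) (y' * p.s)) (base (c + 1) (x' * p.s) (t * p.s)) :=
    Bd_seg (fun m => base (c + 1) (x' * p.s) m) _ _
  have b7 : Bd (hseg (c + 1) (t * p.s) (x' * p.s) (mL * p.s))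
    (base (c + 1) (x' * p.s) (t * p.s)) (base (c + 1) (mL * p.s) (t * p.s)) :=
    Bd_seg (fun m => base (c + 1) m (t * p.s)) _ _
  have b35 := (b3.add b4).add b5
  have e : 0 * p.s = 0 := zero_mul _
  unfold eH kapH
  rw [e]
  exact ((b1.add b2).add b35).add (b6.add b7).symm

lemma Bd_eV (p : Par) (c : Fin 5) (x y x' y' t mT mB : ℕ) :
    Bd (eV p c x y x' y' t mT mB) (base c (x * p.s) (y * p.s))
      (base (c + 2) (x' * p.s) (y' * p.s)) := by
  have b1 : Bd (hseg c (y * p.s) (x * p.s) (t * p.s)) (base c (x * p.s) (y * p.s))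
    (base c (t * p.s) (y * p.s)) := Bd_seg (fun m => base c m (y * p.s)) _ _
  have b2 : Bd (vseg c (t * p.s) (y * p.s) (mT * p.s)) (base c (t * p.s) (y * p.s))
    (base c (t * p.s) (mT * p.s)) := Bd_seg (fun m => base c (t * p.s) m) _ _
  have b3 : Bd (vseg c (t * p.s) (mT * p.s) (p.M - 1)) (base c (t * p.s) (mT * p.s))
    (base c (t * p.s) (p.M - 1)) := Bd_seg (fun m => base c (t * p.s) m) _ _
  have b4 : Bd ({(base c (t * p.s) (p.M - 1), base (c + 2) (t * p.s) 0)} : Ch Vtx)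
    (base c (t * p.s) (p.M - 1)) (base (c + 2) (t * p.s) 0) := Bd.single _ _
  have b5 : Bd (vseg (c + 2) (t * p.s) (0 * p.s) (mB * p.s)) (base (c + 2) (t * p.s) (0 * p.s))
    (base (c + 2) (t * p.s) (mB * p.s)) := Bd_seg (fun m => base (c + 2) (t * p.s) m) _ _
  rw [zero_mul] at b5
  have b6 : Bd (hseg (c + 2) (y' * p.s) (x' * p.s) (t * p.s))
    (base (c + 2) (x' * p.s) (y' * p.s)) (base (c + 2) (t * p.s) (y' * p.s)) :=
    Bd_seg (fun m => base (c + 2) m (y' * p.s)) _ _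
  have b7 : Bd (vseg (c + 2) (t * p.s) (y' * p.s) (mB * p.s))
    (base (c + 2) (t * p.s) (y' * p.s)) (base (c + 2) (t * p.s) (mB * p.s)) :=
    Bd_seg (fun m => base (c + 2) (t * p.s) m) _ _
  have b35 := (b3.add b4).add b5
  have e : 0 * p.s = 0 := zero_mul _
  unfold eV kapV
  rw [e]
  exact ((b1.add b2).add b35).add (b6.add b7).symm

/-- edge data of the horizontal edges -/
lemma edata_H (hp : p.Good k a) {c : Fin 5} {x y x' y' t mR mL L l : ℕ}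
    (hl : 2 * tmax p + p.s ≤ l) (hL : k * l + k < L + 1) (hLN : L + 1 ≤ p.N)
    (hx : S.OKc x) (hy : S.OKr y) (hx' : S.OKc x') (hy' : S.OKr y') (ht : S.OKr t)
    (hmR : S.OKc mR) (hmL : S.OKc mL) (hxL : x + L < p.N) (hxL' : x' + L < p.N)
    (h1 : p.N - 1 - L ≤ mR) (h2 : mL ≤ L) :
    EData S hp l c (c + 1) (eH p c x y x' y' t mR mL)
      (oH S hp L c t mR mL + oP S hp L c x y + oP S hp L (c + 1) x' y')
      (fun e => InRow p t e ∨ InCol p x e ∨ InCol p x' e) := by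
  have hR1 := hmR.1
  have H1 := half_VH (S := S) hp (b := c) (x := x) (y := y) (t := t) (m := mR)
    (m1 := p.N - 1 - L) (L := L) (l := l) hl hL hLN hx hy ht hmR hxL (by omega) h1 (by omega)
  have H2 := half_VH (S := S) hp (b := c + 1) (x := x') (y := y') (t := t) (m := mL)
    (m1 := 0) (L := L) (l := l) hl hL hLN hx' hy' ht hmL hxL' (by omega) (by omega) (by omega)
  refine ⟨_, kapH p c t mR mL, _, _, _, _, _, _, _, _, _, rfl,
    H1.mono (fun e he => by tauto), H2.mono (fun e he => by tauto),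
    kapH_isH hp ht hmR.1 hmL.1, kapH_inB, fun d hd => Or.inl (kapH_inRow hp d hd), ?_⟩
  have key : ∀ d1 d2 d3 d4 d5 d6 d7 d8 d9 : Ch Vtx,
      d1 ≤ d1 + (d2 + d3) + (d4 + d5) + (d6 + d7) + (d8 + d9) ∧
      d6 ≤ d1 + (d2 + d3) + (d4 + d5) + (d6 + d7) + (d8 + d9) ∧
      d7 ≤ d1 + (d2 + d3) + (d4 + d5) + (d6 + d7) + (d8 + d9) ∧
      d2 ≤ d1 + (d2 + d3) + (d4 + d5) + (d6 + d7) + (d8 + d9) ∧
      d3 ≤ d1 + (d2 + d3) + (d4 + d5) + (d6 + d7) + (d8 + d9) ∧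
      d8 ≤ d1 + (d2 + d3) + (d4 + d5) + (d6 + d7) + (d8 + d9) ∧
      d9 ≤ d1 + (d2 + d3) + (d4 + d5) + (d6 + d7) + (d8 + d9) ∧
      d4 ≤ d1 + (d2 + d3) + (d4 + d5) + (d6 + d7) + (d8 + d9) ∧
      d5 ≤ d1 + (d2 + d3) + (d4 + d5) + (d6 + d7) + (d8 + d9) := by
    intro d1 d2 d3 d4 d5 d6 d7 d8 d9
    refine ⟨?_, ?_, ?_, ?_, ?_, ?_, ?_, ?_, ?_⟩ <;>
    · rw [Multiset.le_iff_count]
      intro z
      simp only [Multiset.count_add]
      omega
  exact key _ _ _ _ _ _ _ _ _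

/-- edge data of the vertical edges -/
lemma edata_V (hp : p.Good k a) {c : Fin 5} {x y x' y' t mT mB L l : ℕ}
    (hl : 2 * tmax p + p.s ≤ l) (hL : k * l + k < L + 1) (hLN : L + 1 ≤ p.N)
    (hx : S.OKc x) (hy : S.OKr y) (hx' : S.OKc x') (hy' : S.OKr y') (ht : S.OKc t)
    (hmT : S.OKr mT) (hmB : S.OKr mB) (hxL : x + L < p.N) (hxL' : x' + L < p.N)
    (h1 : p.N - 1 - L ≤ mT) (h2 : mB ≤ L) :
    EData S hp l c (c + 2) (eV p c x y x' y' t mT mB)
      (oV S hp L c t mT mB + oP S hp L c x y + oP S hp L (c + 2) x' y')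
      (fun e => InCol p t e ∨ InRow p y e ∨ InRow p y' e) := by
  have hR1 := hmT.1
  have H1 := half_HV (S := S) hp (b := c) (x := x) (y := y) (t := t) (m := mT)
    (m1 := p.N - 1 - L) (L := L) (l := l) hl hL hLN hx hy ht hmT hxL (by omega) h1 (by omega)
  have H2 := half_HV (S := S) hp (b := c + 2) (x := x') (y := y') (t := t) (m := mB)
    (m1 := 0) (L := L) (l := l) hl hL hLN hx' hy' ht hmB hxL' (by omega) (by omega) (by omega)
  refine ⟨_, kapV p c t mT mB, _, _, _, _, _, _, _, _, _, rfl,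
    H1.mono (fun e he => by tauto), H2.mono (fun e he => by tauto),
    kapV_isH hp ht hmT.1 hmB.1, kapV_inB, fun d hd => Or.inl (kapV_inCol hp d hd), ?_⟩
  have key : ∀ d1 d2 d3 d4 d5 d6 d7 d8 d9 : Ch Vtx,
      d1 ≤ d1 + (d2 + d3) + (d4 + d5) + (d6 + d7) + (d8 + d9) ∧
      d6 ≤ d1 + (d2 + d3) + (d4 + d5) + (d6 + d7) + (d8 + d9) ∧
      d7 ≤ d1 + (d2 + d3) + (d4 + d5) + (d6 + d7) + (d8 + d9) ∧
      d2 ≤ d1 + (d2 + d3) + (d4 + d5) + (d6 + d7) + (d8 + d9) ∧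
      d3 ≤ d1 + (d2 + d3) + (d4 + d5) + (d6 + d7) + (d8 + d9) ∧
      d8 ≤ d1 + (d2 + d3) + (d4 + d5) + (d6 + d7) + (d8 + d9) ∧
      d9 ≤ d1 + (d2 + d3) + (d4 + d5) + (d6 + d7) + (d8 + d9) ∧
      d4 ≤ d1 + (d2 + d3) + (d4 + d5) + (d6 + d7) + (d8 + d9) ∧
      d5 ≤ d1 + (d2 + d3) + (d4 + d5) + (d6 + d7) + (d8 + d9) := by
    intro d1 d2 d3 d4 d5 d6 d7 d8 d9
    refine ⟨?_, ?_, ?_, ?_, ?_, ?_, ?_, ?_, ?_⟩ <;>
    · rw [Multiset.le_iff_count]
      intro z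
      simp only [Multiset.count_add]
      omega
  exact key _ _ _ _ _ _ _ _ _

end Setup

end Pool.Agent.Lib.MP_ec8146_lc
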