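import Pool.Agent.Lib.MP_ec8146_lc.Local

/-!
# The game step: local types determine arbitrary extensions
-/

namespace Pool.Agent.Lib.MP_ec8146_lc

variable {V : Type*} {κ : Type} {G : SimpleGraph V} {C : κ → Set V}

/-- **Game step.** Tuples with the same local type of large rank have the same extensions (also by
far away elements) up to a local type of smaller rank. -/
theorem tp_step {s q : ℕ} {ι : Type} [Nonempty ι] [Finite ι] (hι : Nat.card ι ≤ q) {a b : ι → V}
    (h : tp G C (s + q + 2) a = tp G C (s + q + 2) b) (c : V) :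
    ∃ d, tp G C s (ext a c) = tp G C s (ext b d) := by
  have hpow : 3 ^ (s + 1) = 3 ^ s + 3 ^ s + 3 ^ s := by rw [pow_succ]; omega
  have hpos : 0 < 3 ^ s := by positivity
  by_cases hnear : ∃ i, G.edist (a i) c ≤ ((3 ^ (s + 1) : ℕ) : ℕ∞)
  · obtain ⟨d, -, hd⟩ := tp_forth (l := s + 1) (tp_mono (l := s + 1 + 1) (by omega) h) c hnear
    exact ⟨d, tp_pred hd⟩
  · push Not at hnear
    by_contra hcon
    push Not at hcon
    set one : V → (Unit → V) := fun v _ => v with hone
    have hno : ∀ d, tp G C s (one c) = tp G C s (one d) →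
        ∃ i, G.edist (b i) d ≤ ((3 ^ s : ℕ) : ℕ∞) := by
      intro d hd
      by_contra hfar
      push Not at hfar
      have hab : tp G C s a = tp G C s b := tp_mono (by omega) h
      have key := tp_sum s hab hd (by
        intro i _ hh
        refine absurd (hh.trans ?_) (not_le.mpr (hnear i))
        exact_mod_cast (by omega : 3 ^ s ≤ 3 ^ (s + 1))) (by
        intro i _ hh
        exact absurd hh (not_le.mpr (hfar i)))
      have key2 := tp_comp s (fun o : Option ι => (match o with
        | none => Sum.inr ()
        | some i => Sum.inl i : ι ⊕ Unit)) key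
      have e1 : ∀ (a : ι → V) (c : V), Sum.elim a (one c) ∘ (fun o : Option ι => (match o with
          | none => Sum.inr ()
          | some i => Sum.inl i : ι ⊕ Unit)) = ext a c := by
        intro a c
        funext o
        cases o <;> rfl
      rw [e1, e1] at key2
      exact hcon d key2
    -- scattered sets
    set P : ℕ → Prop := fun j => ∃ x : Fin j → V, (∀ i, tp G C s (one c) = tp G C s (one (x i))) ∧
      ∀ i i', i ≠ i' → ¬ G.edist (x i) (x i') ≤ ((3 ^ s + 3 ^ s : ℕ) : ℕ∞) with hP
    have hPle : ∀ j, P j → j ≤ q := by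
      rintro j ⟨x, hx1, hx2⟩
      choose k hk using fun i => hno (x i) (hx1 i)
      have hinj : Function.Injective k := by
        intro i i' hii
        by_contra hne
        refine hx2 i i' hne (edist_tri (m := 3 ^ s) (n := 3 ^ s) (y := b (k i)) ?_ ?_ le_rfl)
        · rw [G.edist_comm]; exact hk i
        · rw [hii]; exact hk i'
      have := Nat.card_le_card_of_injective k hinj
      rw [Nat.card_eq_fintype_card, Fintype.card_fin] at this
      omega
    have hPstep : ∀ j, P j → P (j + 1) := by
      intro j hj
      have hjq := hPle j hj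
      obtain ⟨x, hx1, hx2⟩ := hj
      have hnearx : ∀ i, ∃ k, G.edist (b k) (x i) ≤ ((3 ^ (s + 1) : ℕ) : ℕ∞) := by
        intro i
        obtain ⟨k, hk⟩ := hno (x i) (hx1 i)
        exact ⟨k, hk.trans (by exact_mod_cast (by omega : 3 ^ s ≤ 3 ^ (s + 1)))⟩
      obtain ⟨x', hx'⟩ := tp_moves (s + 1) j (tp_mono (l := s + 1 + j) (by omega) h) x hnearx
      have hat := tp_at hx'
      have htype : ∀ i, tp G C s (one c) = tp G C s (one (x' i)) := by
        intro i
        rw [hx1 i]
        have h2 := tp_comp (s + 1) (fun _ : Unit => (Sum.inr i : ι ⊕ Fin j)) hx'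
        exact (tp_pred h2).symm
      have hfarc : ∀ i, ¬ G.edist (x' i) c ≤ ((3 ^ s + 3 ^ s : ℕ) : ℕ∞) := by
        intro i hh
        obtain ⟨k, hk⟩ := hno (x i) (hx1 i)
        have h3 : G.edist (a k) (x' i) ≤ ((3 ^ s : ℕ) : ℕ∞) :=
          (at_dist hat (Sum.inl k) (Sum.inr i) (3 ^ s) (by omega)).mpr hk
        exact absurd (edist_tri h3 hh (k := 3 ^ (s + 1)) (by omega)) (not_le.mpr (hnear k))
      refine ⟨Fin.snoc x' c, ?_, ?_⟩
      · intro i
        refine Fin.lastCases ?_ (fun i => ?_) i
        · rw [Fin.snoc_last]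
        · rw [Fin.snoc_castSucc]
          exact htype i
      · intro i i'
        refine Fin.lastCases ?_ (fun i => ?_) i <;> refine Fin.lastCases ?_ (fun i' => ?_) i'
        · intro hh; exact absurd rfl hh
        · intro _
          rw [Fin.snoc_last, Fin.snoc_castSucc, G.edist_comm]
          exact hfarc i'
        · intro _
          rw [Fin.snoc_last, Fin.snoc_castSucc]
          exact hfarc i
        · intro hne
          rw [Fin.snoc_castSucc, Fin.snoc_castSucc]
          intro hh
          have hne' : i ≠ i' := fun e => hne (by rw [e])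
          exact hx2 i i' hne'
            ((at_dist hat (Sum.inr i) (Sum.inr i') (3 ^ s + 3 ^ s) (by omega)).mp hh)
    have hall : ∀ j, P j := by
      intro j
      induction j with
      | zero => exact ⟨Fin.elim0, fun i => i.elim0, fun i => i.elim0⟩
      | succ j ih => exact hPstep j ih
    have := hPle (q + 1) (hall (q + 1))
    omega

end Pool.Agent.Lib.MP_ec8146_lc
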