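import Pool.Agent.Lib.MP_ec8146_lc.Defs2
import Pool.Agent.Lib.MP_ec8146_lc.Local2

/-!
# Locality of first-order formulas
-/

namespace Pool.Agent.Lib.MP_ec8146_lc

open FirstOrder FirstOrder.Language

/-- quantifier rank -/
def qd {c : ℕ} {α : Type} : ∀ {n : ℕ}, (cgLang c).BoundedFormula α n → ℕ
  | _, .falsum => 0
  | _, .equal _ _ => 0
  | _, .rel _ _ => 0
  | _, .imp f g => max (qd f) (qd g)
  | _, .all f => qd f + 1

/-- rank of local types needed for `t` quantifiers -/
def lev (q t : ℕ) : ℕ := t * (q + 2)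

lemma lev_succ (q t : ℕ) : lev q (t + 1) = lev q t + q + 2 := by
  unfold lev
  ring

lemma term_var {c : ℕ} {α : Type} (t : (cgLang c).Term α) : ∃ x, t = Term.var x := by
  cases t with
  | var x => exact ⟨x, rfl⟩
  | func f _ => exact Empty.elim f

/-- one-element tuple -/
def one {V : Type} (v : V) : Unit → V := fun _ => v

/-- two-element tuple -/
def two {V : Type} (u v : V) : Bool → V := fun b => if b then v else u

/-- Equality of local types implies equivalence for formulas of small rank. -/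
theorem realize_iff {V : Type} {G : SimpleGraph V} {c : ℕ} {C : Fin c → Set V} {κ : Type}
    {G' : SimpleGraph V} {C' : κ → Set V}
    (hadj : ∀ u v u' v' : V, at' G' C' 0 (two u v) = at' G' C' 0 (two u' v') →
      (G.Adj u v ↔ G.Adj u' v'))
    (hcol : ∀ i, ∀ u u' : V, at' G' C' 0 (one u) = at' G' C' 0 (one u') →
      (u ∈ C i ↔ u' ∈ C i)) {n : ℕ} (φ : (cgLang c).BoundedFormula (Fin 2) n) :
    ∀ t q : ℕ, qd φ ≤ t → 2 + n + t ≤ q → ∀ (v w : Fin 2 → V) (xs ys : Fin n → V),
      tp G' C' (lev q t) (Sum.elim v xs) = tp G' C' (lev q t) (Sum.elim w ys) →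
      ((letI := cgStr G C; φ.Realize v xs) ↔ (letI := cgStr G C; φ.Realize w ys)) := by
  let _ := cgStr G C
  induction φ with
  | falsum => intro t q _ _ v w xs ys _; exact Iff.rfl
  | equal t1 t2 =>
    intro t q _ _ v w xs ys h
    obtain ⟨x, rfl⟩ := term_var t1
    obtain ⟨y, rfl⟩ := term_var t2
    have h0 := at_dist (tp_at h) x y 0 (by positivity)
    simp only [Nat.cast_zero, nonpos_iff_eq_zero, SimpleGraph.edist_eq_zero_iff] at h0
    exact h0
  | rel R ts =>
    intro t q _ _ v w xs ys h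
    have h0 := at_mono (Nat.zero_le _) (tp_at h)
    cases R with
    | adj =>
      obtain ⟨x, hx⟩ := term_var (ts 0)
      obtain ⟨y, hy⟩ := term_var (ts 1)
      have h1 := at_comp h0 (fun b : Bool => if b then y else x)
      have e1 : ∀ (a : Fin 2 ⊕ Fin _ → V), a ∘ (fun b : Bool => if b then y else x)
          = two (a x) (a y) := by
        intro a
        funext b
        cases b <;> rfl
      rw [e1, e1] at h1
      have h2 := hadj _ _ _ _ h1
      change G.Adj ((ts 0).realize (Sum.elim v xs)) ((ts 1).realize (Sum.elim v xs)) ↔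
        G.Adj ((ts 0).realize (Sum.elim w ys)) ((ts 1).realize (Sum.elim w ys))
      rw [hx, hy]
      exact h2
    | col i =>
      obtain ⟨x, hx⟩ := term_var (ts 0)
      have h1 := at_comp h0 (fun _ : Unit => x)
      have h2 := hcol i _ _ h1
      change (ts 0).realize (Sum.elim v xs) ∈ C i ↔ (ts 0).realize (Sum.elim w ys) ∈ C i
      rw [hx]
      exact h2
  | imp f g ihf ihg =>
    intro t q ht hq v w xs ys h
    have h1 := ihf t q ((le_max_left _ _).trans ht) hq v w xs ys h
    have h2 := ihg t q ((le_max_right _ _).trans ht) hq v w xs ys h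
    change (f.Realize v xs → g.Realize v xs) ↔ (f.Realize w ys → g.Realize w ys)
    exact imp_congr h1 h2
  | @all n f ih =>
    intro t q ht hq v w xs ys h
    obtain ⟨t', rfl⟩ : ∃ t', t = t' + 1 := ⟨t - 1, by
      have : qd (BoundedFormula.all f) = qd f + 1 := rfl
      omega⟩
    have ht' : qd f ≤ t' := by
      have : qd (BoundedFormula.all f) = qd f + 1 := rfl
      omega
    have aux : ∀ (v w : Fin 2 → V) (xs ys : Fin n → V),
        tp G' C' (lev q (t' + 1)) (Sum.elim v xs) = tp G' C' (lev q (t' + 1)) (Sum.elim w ys) →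
        (∀ a, f.Realize v (Fin.snoc xs a)) → ∀ a, f.Realize w (Fin.snoc ys a) := by
      intro v w xs ys h hall y
      rw [lev_succ] at h
      obtain ⟨x, hx⟩ := tp_step (ι := Fin 2 ⊕ Fin n) (q := q)
        (by rw [Nat.card_eq_fintype_card, Fintype.card_sum, Fintype.card_fin, Fintype.card_fin]
            omega) h.symm y
      have h2 := tp_comp (lev q t') (fun z : Fin 2 ⊕ Fin (n + 1) => (Sum.elim
        (fun i => some (Sum.inl i)) (Fin.lastCases none (fun i => some (Sum.inr i))) z :
        Option (Fin 2 ⊕ Fin n))) hx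
      have e1 : ∀ (v : Fin 2 → V) (xs : Fin n → V) (x : V),
          ext (Sum.elim v xs) x ∘ (fun z : Fin 2 ⊕ Fin (n + 1) => (Sum.elim
          (fun i => some (Sum.inl i)) (Fin.lastCases none (fun i => some (Sum.inr i))) z :
          Option (Fin 2 ⊕ Fin n))) = Sum.elim v (Fin.snoc (α := fun _ => V) xs x) := by
        intro v xs x
        funext z
        rcases z with i | i
        · rfl
        · refine Fin.lastCases ?_ (fun i => ?_) i
          · simp [ext]
          · simp [ext]
      rw [e1, e1] at h2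
      exact (ih t' q ht' (by omega) v w _ _ h2.symm).mp (hall x)
    change (∀ a, f.Realize v (Fin.snoc xs a)) ↔ (∀ a, f.Realize w (Fin.snoc ys a))
    exact ⟨aux v w xs ys h, aux w v ys xs h.symm⟩

/-- rank of the local types attached to a formula -/
def rk {c : ℕ} (ψ : (cgLang c).Formula (Fin 2)) : ℕ := lev (2 + qd ψ) (qd ψ)

/-- **Locality**: for far apart pairs, the truth of `ψ` depends only on the local types. -/
theorem holds_iff {V : Type} {G : SimpleGraph V} {c : ℕ} {C : Fin c → Set V} {κ : Type}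
    {G' : SimpleGraph V} {C' : κ → Set V}
    (hadj : ∀ u v u' v' : V, at' G' C' 0 (two u v) = at' G' C' 0 (two u' v') →
      (G.Adj u v ↔ G.Adj u' v'))
    (hcol : ∀ i, ∀ u u' : V, at' G' C' 0 (one u) = at' G' C' 0 (one u') →
      (u ∈ C i ↔ u' ∈ C i)) (ψ : (cgLang c).Formula (Fin 2)) {u v u' v' : V}
    (hu : tp G' C' (rk ψ) (one u) = tp G' C' (rk ψ) (one u'))
    (hv : tp G' C' (rk ψ) (one v) = tp G' C' (rk ψ) (one v'))
    (hd : ¬ G'.edist u v ≤ ((3 ^ rk ψ : ℕ) : ℕ∞))
    (hd' : ¬ G'.edist u' v' ≤ ((3 ^ rk ψ : ℕ) : ℕ∞)) :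
    Holds G C ψ u v ↔ Holds G C ψ u' v' := by
  have h1 := tp_sum (rk ψ) hu hv (fun _ _ => hd) (fun _ _ => hd')
  have h2 := tp_comp (rk ψ) (fun z : Fin 2 ⊕ Fin 0 => (Sum.elim
    (fun i : Fin 2 => if i = 0 then Sum.inl () else Sum.inr ()) Fin.elim0 z : Unit ⊕ Unit)) h1
  have e1 : ∀ (u v : V), Sum.elim (one u) (one v) ∘ (fun z : Fin 2 ⊕ Fin 0 => (Sum.elim
      (fun i : Fin 2 => if i = 0 then Sum.inl () else Sum.inr ()) Fin.elim0 z : Unit ⊕ Unit))
      = Sum.elim ![u, v] (default : Fin 0 → V) := by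
    intro u v
    funext z
    rcases z with i | i
    · fin_cases i <;> rfl
    · exact i.elim0
  rw [e1, e1] at h2
  exact realize_iff hadj hcol ψ (qd ψ) (2 + qd ψ) le_rfl (by omega) ![u, v] ![u', v'] default
    default h2

end Pool.Agent.Lib.MP_ec8146_lc
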