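import Pool.Agent.Lib.MP_ec8146_lc.Minor

/-!
# Links, fans and the small fan lemma
-/

namespace Pool.Agent.Lib.MP_ec8146_lc

variable {V : Type*}

/-- there is a walk from `w` to `t` with list of internal vertices `l` -/
def Lnk (G : SimpleGraph V) : V → List V → V → Prop
  | w, [], t => G.Adj w t
  | w, x :: l, t => G.Adj w x ∧ Lnk G x l t

lemma Lnk_append {G : SimpleGraph V} {w x t : V} {l l' : List V} :
    Lnk G w (l ++ x :: l') t ↔ Lnk G w l x ∧ Lnk G x l' t := by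
  induction l generalizing w with
  | nil => rfl
  | cons y l ih =>
    simp only [List.cons_append, Lnk]
    rw [ih, and_assoc]

lemma Lnk_reverse {G : SimpleGraph V} {w t : V} {l : List V} (h : Lnk G w l t) :
    Lnk G t l.reverse w := by
  induction l generalizing w with
  | nil => exact G.symm.symm _ _ h
  | cons y l ih =>
    rw [List.reverse_cons]
    have h1 := ih h.2
    rw [show l.reverse ++ [y] = l.reverse ++ y :: [] from rfl, Lnk_append]
    exact ⟨h1, h.1.symm⟩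

lemma Lnk.rtg {G : SimpleGraph V} {w t : V} {l : List V} (h : Lnk G w l t) {A : Set V}
    (hw : w ∈ A) (hl : ∀ x ∈ l, x ∈ A) : ∀ x ∈ l, Relation.ReflTransGen (St G A) w x := by
  induction l generalizing w with
  | nil => intro x hx; exact absurd hx (by simp)
  | cons y l ih =>
    intro x hx
    have hy : y ∈ A := hl y (by simp)
    have h1 : Relation.ReflTransGen (St G A) w y := Relation.ReflTransGen.single ⟨h.1, hw, hy⟩
    rcases List.mem_cons.mp hx with rfl | hx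
    · exact h1
    · exact h1.trans (ih h.2 hy (fun z hz => hl z (List.mem_cons_of_mem _ hz)) x hx)

lemma Lnk.last {G : SimpleGraph V} {w t : V} {l : List V} (h : Lnk G w l t) :
    ∃ y, (y = w ∨ y ∈ l) ∧ G.Adj y t := by
  induction l generalizing w with
  | nil => exact ⟨w, Or.inl rfl, h⟩
  | cons y l ih =>
    obtain ⟨z, hz, hzt⟩ := ih h.2
    refine ⟨z, Or.inr ?_, hzt⟩
    rcases hz with rfl | hz
    · simp
    · exact List.mem_cons_of_mem _ hz

lemma exists_first {l : List V} {P : V → Prop} (h : ∃ x ∈ l, P x) :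
    ∃ l1 m l2, l = l1 ++ m :: l2 ∧ P m ∧ ∀ x ∈ l1, ¬ P x := by
  induction l with
  | nil => obtain ⟨x, hx, -⟩ := h; exact absurd hx (by simp)
  | cons y l ih =>
    by_cases hy : P y
    · exact ⟨[], y, l, rfl, hy, by simp⟩
    · obtain ⟨x, hx, hPx⟩ := h
      have hxl : x ∈ l := by
        rcases List.mem_cons.mp hx with rfl | hx
        · exact absurd hPx hy
        · exact hx
      obtain ⟨l1, m, l2, h1, h2, h3⟩ := ih ⟨x, hxl, hPx⟩
      refine ⟨y :: l1, m, l2, by rw [h1]; rfl, h2, ?_⟩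
      intro z hz
      rcases List.mem_cons.mp hz with rfl | hz
      · exact hy
      · exact h3 z hz

/-- a fan of `n` links of length at most `r` from `w` to `S`, disjoint except at `w` -/
def Fan (G : SimpleGraph V) (S : Set V) (w : V) (r n : ℕ) : Prop :=
  ∃ F : Fin n → List V × V, (∀ i, Lnk G w (F i).1 (F i).2) ∧ (∀ i, (F i).1.length < r) ∧
    (∀ i, (F i).2 ∈ S ∧ (F i).2 ≠ w) ∧ (∀ i, ∀ x ∈ (F i).1, x ∉ S) ∧
    (∀ i j, i ≠ j → List.Disjoint ((F i).1 ++ [(F i).2]) ((F j).1 ++ [(F j).2]))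

lemma exists_max_card {α : Type*} (P : Finset α → Prop) (h0 : ∃ Q, P Q) (B : ℕ)
    (hB : ∀ Q, P Q → Q.card ≤ B) : ∃ Q, P Q ∧ ∀ Q', P Q' → Q'.card ≤ Q.card := by
  classical
  obtain ⟨Q0, hQ0⟩ := h0
  have h1 := Nat.findGreatest_spec (P := fun n => ∃ Q, P Q ∧ Q.card = n) (hB Q0 hQ0)
    ⟨Q0, hQ0, rfl⟩
  obtain ⟨Q, hQ, hQc⟩ := h1
  refine ⟨Q, hQ, fun Q' hQ' => ?_⟩
  rw [hQc]
  exact Nat.le_findGreatest (hB Q' hQ') ⟨Q', hQ', rfl⟩

/-- a system of disjoint short links between pairs of `S` -/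
def Sys (G : SimpleGraph V) (S : Finset V) (r : ℕ) (Q : Finset (V × List V × V)) : Prop :=
  (∀ q ∈ Q, q.1 ∈ S ∧ q.2.2 ∈ S ∧ q.1 ≠ q.2.2 ∧ Lnk G q.1 q.2.1 q.2.2 ∧
    (∀ x ∈ q.2.1, x ∉ S) ∧ q.2.1.length < 2 * r) ∧
  (∀ q ∈ Q, ∀ q' ∈ Q, q ≠ q' → List.Disjoint q.2.1 q'.2.1 ∧ s(q.1, q.2.2) ≠ s(q'.1, q'.2.2))

/-- graph of the pairs of a system -/
def sysG (Q : Finset (V × List V × V)) : SimpleGraph V where
  Adj a b := a ≠ b ∧ ∃ q ∈ Q, s(q.1, q.2.2) = s(a, b)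
  symm := ⟨by
    rintro a b ⟨h1, q, h2, h3⟩
    exact ⟨h1.symm, q, h2, by rw [h3, Sym2.eq_swap]⟩⟩
  loopless := ⟨fun a h => h.1 rfl⟩

lemma Sys.minor {G : SimpleGraph V} {S : Finset V} {r : ℕ} {Q : Finset (V × List V × V)}
    (h : Sys G S r Q) : MinorOn G S (sysG Q) := by
  obtain ⟨h1, h2⟩ := h
  refine ⟨fun a => {a} ∪ {x | ∃ q ∈ Q, q.1 = a ∧ x ∈ q.2.1}, ?_, ?_, ?_⟩
  · intro a ha
    refine CS.of_root (x0 := a) (Or.inl rfl) ?_
    rintro y (hy | ⟨q, hq, rfl, hy⟩)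
    · rw [Set.mem_singleton_iff] at hy
      subst hy
      exact Relation.ReflTransGen.refl
    · exact (h1 q hq).2.2.2.1.rtg (Or.inl rfl) (fun x hx => Or.inr ⟨q, hq, rfl, hx⟩) y hy
  · intro a ha b hb hab
    rw [Set.disjoint_left]
    rintro x (hx | ⟨q, hq, hqa, hx⟩) (hx' | ⟨q', hq', hqb, hx'⟩)
    · rw [Set.mem_singleton_iff] at hx hx'
      exact hab (hx.symm.trans hx')
    · rw [Set.mem_singleton_iff] at hx
      subst hx
      exact (h1 q' hq').2.2.2.2.1 x hx' ha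
    · rw [Set.mem_singleton_iff] at hx'
      subst hx'
      exact (h1 q hq).2.2.2.2.1 x hx hb
    · have hne : q ≠ q' := by
        rintro rfl
        exact hab (hqa.symm.trans hqb)
      exact (h2 q hq q' hq' hne).1 hx hx'
  · rintro a ha b hb ⟨hab, q, hq, he⟩
    have hl := (h1 q hq).2.2.2.1
    rcases Sym2.eq_iff.mp he with ⟨e1, e2⟩ | ⟨e1, e2⟩
    · obtain ⟨y, hy, hyt⟩ := hl.last
      refine ⟨y, ?_, b, Or.inl rfl, by rw [← e2]; exact hyt⟩
      rcases hy with hy | hy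
      · rw [hy, e1]; exact Or.inl rfl
      · exact Or.inr ⟨q, hq, e1, hy⟩
    · obtain ⟨y, hy, hyt⟩ := hl.last
      refine ⟨a, Or.inl rfl, y, ?_, by rw [← e2]; exact hyt.symm⟩
      rcases hy with hy | hy
      · rw [hy, e1]; exact Or.inl rfl
      · exact Or.inr ⟨q, hq, e1, hy⟩

lemma Sys.card_le {G : SimpleGraph V} {S : Finset V} {r : ℕ} {Q : Finset (V × List V × V)}
    (h : Sys G S r Q) : Q.card ≤ dg (sysG Q) S := by
  classical
  obtain ⟨h1, h2⟩ := h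
  unfold dg
  refine Finset.card_le_card_of_injOn (fun q => (q.1, q.2.2)) ?_ ?_
  · intro q hq
    have hq' : q ∈ Q := hq
    have := h1 q hq'
    simp only [Finset.coe_filter, Finset.mem_product, Set.mem_ofPred_eq]
    exact ⟨⟨this.1, this.2.1⟩, this.2.2.1, q, hq', rfl⟩
  · intro q hq q' hq' he
    by_contra hne
    have hq1 : q ∈ Q := hq
    have hq2 : q' ∈ Q := hq'
    apply (h2 q hq1 q' hq2 hne).2
    simp only [Prod.mk.injEq] at he
    rw [he.1, he.2]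

lemma Sys.insert {G : SimpleGraph V} {S : Finset V} {r : ℕ} {Q : Finset (V × List V × V)}
    [DecidableEq V] (h : Sys G S r Q) {a b : V} {l : List V} (ha : a ∈ S) (hb : b ∈ S)
    (hab : a ≠ b) (hl : Lnk G a l b) (hS : ∀ x ∈ l, x ∉ S) (hr : l.length < 2 * r)
    (hM : ∀ x ∈ l, ∀ q ∈ Q, x ∉ q.2.1) (hadj : ¬ (sysG Q).Adj a b) :
    Sys G S r (insert (a, l, b) Q) ∧ (a, l, b) ∉ Q := by
  have hne : ∀ q ∈ Q, s(a, b) ≠ s(q.1, q.2.2) := fun q hq he => hadj ⟨hab, q, hq, he.symm⟩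
  refine ⟨⟨?_, ?_⟩, fun hq => hne _ hq rfl⟩
  · intro q hq
    rcases Finset.mem_insert.mp hq with rfl | hq
    · exact ⟨ha, hb, hab, hl, hS, hr⟩
    · exact h.1 q hq
  · intro q hq q' hq' hqq
    rcases Finset.mem_insert.mp hq with rfl | hq <;> rcases Finset.mem_insert.mp hq' with rfl | hq'
    · exact absurd rfl hqq
    · exact ⟨fun x hx hx' => hM x hx q' hq' hx', hne q' hq'⟩
    · exact ⟨fun x hx hx' => hM x hx' q hq hx, (hne q hq).symm⟩
    · exact h.2 q hq q' hq' hqq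

end Pool.Agent.Lib.MP_ec8146_lc
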