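import Pool.Agent.Lib.MP_ec8146_lc.Fan

/-!
# The small fan lemma
-/

namespace Pool.Agent.Lib.MP_ec8146_lc

variable {V : Type*}

/-- a graph all of whose minors are sparse -/
def SparseMinors (G : SimpleGraph V) : Prop :=
  ∀ (S : Finset V) (H : SimpleGraph V), MinorOn G S H → dg H S ≤ 8 * S.card

open Classical in
/-- degree inside a set -/
noncomputable def degIn (H : SimpleGraph V) (S : Finset V) (v : V) : ℕ :=
  (S.filter (fun w => H.Adj v w)).card

lemma sum_degIn (H : SimpleGraph V) (S : Finset V) : ∑ v ∈ S, degIn H S v = dg H S := by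
  classical
  unfold dg
  rw [Finset.card_filter, Finset.sum_product]
  refine Finset.sum_congr rfl (fun y _ => ?_)
  unfold degIn
  rw [Finset.card_filter]

/-- half of the vertices have degree at most 16 -/
lemma half_low (H : SimpleGraph V) (S : Finset V) (h : dg H S ≤ 8 * S.card) [DecidableEq V] :
    S.card ≤ 2 * (S.filter (fun v => degIn H S v ≤ 16)).card := by
  classical
  have h1 := Finset.card_filter_add_card_filter_not (s := S) (fun v => degIn H S v ≤ 16)
  have h2 : 17 * (S.filter (fun v => ¬ degIn H S v ≤ 16)).card ≤ 8 * S.card := by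
    calc 17 * (S.filter (fun v => ¬ degIn H S v ≤ 16)).card
        = ∑ _v ∈ S.filter (fun v => ¬ degIn H S v ≤ 16), 17 := by
          rw [Finset.sum_const, smul_eq_mul, mul_comm]
      _ ≤ ∑ v ∈ S.filter (fun v => ¬ degIn H S v ≤ 16), degIn H S v := by
          refine Finset.sum_le_sum (fun v hv => ?_)
          have := (Finset.mem_filter.mp hv).2
          omega
      _ ≤ ∑ v ∈ S, degIn H S v :=
          Finset.sum_le_sum_of_subset (Finset.filter_subset _ _)
      _ = dg H S := sum_degIn H S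
      _ ≤ 8 * S.card := h
  omega

/-- maximal independent sets are large -/
lemma exists_indep (H : SimpleGraph V) (S S2 : Finset V) (hS : S2 ⊆ S)
    (hdeg : ∀ v ∈ S2, degIn H S v ≤ 16) [DecidableEq V] :
    ∃ S1 ⊆ S2, (∀ a ∈ S1, ∀ b ∈ S1, ¬ H.Adj a b) ∧ S2.card ≤ 17 * S1.card := by
  classical
  obtain ⟨S1, ⟨h1, h2⟩, h3⟩ := exists_max_card
    (fun Q : Finset V => Q ⊆ S2 ∧ ∀ a ∈ Q, ∀ b ∈ Q, ¬ H.Adj a b) ⟨∅, by simp⟩ S2.card
    (fun Q hQ => Finset.card_le_card hQ.1)
  refine ⟨S1, h1, h2, ?_⟩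
  have hcov : S2 ⊆ S1 ∪ S1.biUnion (fun u => S.filter (fun w => H.Adj u w)) := by
    intro v hv
    by_cases hvS : v ∈ S1
    · exact Finset.mem_union_left _ hvS
    · by_contra hcon
      have hna : ∀ u ∈ S1, ¬ H.Adj u v := by
        intro u hu hadj
        apply hcon
        exact Finset.mem_union_right _ (Finset.mem_biUnion.mpr ⟨u, hu,
          Finset.mem_filter.mpr ⟨hS hv, hadj⟩⟩)
      have := h3 (insert v S1) ⟨Finset.insert_subset hv h1, by
        intro a ha b hb
        rcases Finset.mem_insert.mp ha with ha1 | ha1 <;>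
          rcases Finset.mem_insert.mp hb with hb1 | hb1
        · rw [ha1, hb1]
          exact H.loopless.irrefl _
        · rw [ha1]
          exact fun h => hna b hb1 h.symm
        · rw [hb1]
          exact hna a ha1
        · exact h2 a ha1 b hb1⟩
      rw [Finset.card_insert_of_notMem hvS] at this
      omega
  calc S2.card ≤ (S1 ∪ S1.biUnion (fun u => S.filter (fun w => H.Adj u w))).card :=
        Finset.card_le_card hcov
    _ ≤ S1.card + (S1.biUnion (fun u => S.filter (fun w => H.Adj u w))).card :=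
        Finset.card_union_le _ _
    _ ≤ S1.card + ∑ u ∈ S1, 16 := by
        gcongr
        refine Finset.card_biUnion_le.trans (Finset.sum_le_sum (fun u hu => ?_))
        exact hdeg u (h1 hu)
    _ = 17 * S1.card := by
        rw [Finset.sum_const, smul_eq_mul]
        ring

/-- **Small fan lemma.** -/
theorem small_fan {G : SimpleGraph V} (hG : SparseMinors G) (r : ℕ) (S : Finset V)
    (hS : S.Nonempty) : ∃ v ∈ S, ¬ Fan G S v r (25 + 4352 * r) := by
  classical
  by_contra hcon
  push Not at hcon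
  set n := 25 + 4352 * r with hn
  choose! F f1 f2 f3 f4 f5 using hcon
  -- a maximal system
  obtain ⟨Q, hQ, hmax⟩ := exists_max_card (Sys G S r) ⟨∅, by simp [Sys]⟩ (S.card * S.card)
    (fun Q hQ => hQ.card_le.trans (by
      unfold dg
      exact (Finset.card_filter_le _ _).trans (by rw [Finset.card_product])))
  set H := sysG Q with hH
  have hdgH : dg H S ≤ 8 * S.card := hG S H hQ.minor
  have hQc : Q.card ≤ 8 * S.card := hQ.card_le.trans hdgH
  set M : Finset V := Q.biUnion (fun q => q.2.1.toFinset) with hM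
  have hMmem : ∀ x, x ∈ M ↔ ∃ q ∈ Q, x ∈ q.2.1 := by
    intro x
    simp [hM]
  have hMc : M.card ≤ 16 * r * S.card := by
    calc M.card ≤ ∑ q ∈ Q, q.2.1.toFinset.card := Finset.card_biUnion_le
      _ ≤ ∑ _q ∈ Q, 2 * r := Finset.sum_le_sum (fun q hq =>
          (List.toFinset_card_le _).trans (hQ.1 q hq).2.2.2.2.2.le)
      _ = Q.card * (2 * r) := by rw [Finset.sum_const, smul_eq_mul]
      _ ≤ 8 * S.card * (2 * r) := Nat.mul_le_mul_right _ hQc
      _ = 16 * r * S.card := by ring
  have hMS : ∀ x ∈ M, x ∉ S := by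
    intro x hx
    obtain ⟨q, hq, hxq⟩ := (hMmem x).mp hx
    exact (hQ.1 q hq).2.2.2.2.1 x hxq
  -- maximality
  have nomore : ∀ a ∈ S, ∀ b ∈ S, a ≠ b → ∀ l : List V, Lnk G a l b → (∀ x ∈ l, x ∉ S) →
      l.length < 2 * r → (∀ x ∈ l, x ∉ M) → H.Adj a b := by
    intro a ha b hb hab l hl hlS hlr hlM
    by_contra hadj
    obtain ⟨g1, g2⟩ := hQ.insert ha hb hab hl hlS hlr
      (fun x hx q hq hxq => hlM x hx ((hMmem x).mpr ⟨q, hq, hxq⟩)) hadj
    have := hmax _ g1
    rw [Finset.card_insert_of_notMem g2] at this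
    omega
  -- low degree vertices and an independent set
  have hlow := half_low H S hdgH
  obtain ⟨S1, hS1, hind, hS1c⟩ := exists_indep H S (S.filter (fun v => degIn H S v ≤ 16))
    (Finset.filter_subset _ _) (fun v hv => (Finset.mem_filter.mp hv).2)
  have hS1S : ∀ v ∈ S1, v ∈ S := fun v hv => (Finset.mem_filter.mp (hS1 hv)).1
  have hS1d : ∀ v ∈ S1, degIn H S v ≤ 16 := fun v hv => (Finset.mem_filter.mp (hS1 hv)).2
  have hSc : S.card ≤ 34 * S1.card := by omega
  -- good indices
  set good : V → Finset (Fin n) := fun v => Finset.univ.filter (fun i => ¬ H.Adj v (F v i).2)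
    with hgood
  have hgc : ∀ v ∈ S1, n ≤ (good v).card + 16 := by
    intro v hv
    have hvS := hS1S v hv
    have e1 := Finset.card_filter_add_card_filter_not (s := (Finset.univ : Finset (Fin n)))
      (fun i => H.Adj v (F v i).2)
    have e2 : (Finset.univ.filter (fun i : Fin n => H.Adj v (F v i).2)).card ≤ degIn H S v := by
      unfold degIn
      refine Finset.card_le_card_of_injOn (fun i => (F v i).2) ?_ ?_
      · intro i hi
        have hi' : H.Adj v (F v i).2 := by simpa using hi
        simp only [Finset.coe_filter, Set.mem_ofPred_eq]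
        exact ⟨(f3 v hvS i).1, hi'⟩
      · intro i _ j _ hij
        by_contra hne
        refine f5 v hvS i j hne (a := (F v i).2) (by simp) ?_
        have hij' : (F v i).2 = (F v j).2 := hij
        rw [hij']
        simp
    have e3 := hS1d v hv
    rw [Finset.card_univ, Fintype.card_fin] at e1
    simp only [hgood]
    omega
  -- each good link hits M
  have hits : ∀ v ∈ S1, ∀ i ∈ good v, ∃ x ∈ (F v i).1, x ∈ M := by
    intro v hv i hi
    have hvS := hS1S v hv
    by_contra hno
    push Not at hno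
    refine (Finset.mem_filter.mp hi).2 ?_
    exact nomore v hvS _ (f3 v hvS i).1 (f3 v hvS i).2.symm _ (f1 v hvS i) (f4 v hvS i)
      (by have := f2 v hvS i; omega) hno
  have split : ∀ v i, ∃ (l1 : List V) (m : V), (v ∈ S1 ∧ i ∈ good v) →
      ∃ l2, (F v i).1 = l1 ++ m :: l2 ∧ m ∈ M ∧ ∀ x ∈ l1, x ∉ M := by
    intro v i
    by_cases h : v ∈ S1 ∧ i ∈ good v
    · obtain ⟨l1, m, l2, g1, g2, g3⟩ := exists_first (hits v h.1 i h.2)
      exact ⟨l1, m, fun _ => ⟨l2, g1, g2, g3⟩⟩
    · exact ⟨[], v, fun h' => absurd h' h⟩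
  choose pre hit hsplit using split
  have hpre : ∀ v ∈ S1, ∀ i ∈ good v, Lnk G v (pre v i) (hit v i) ∧ hit v i ∈ M ∧
      (∀ x ∈ pre v i, x ∉ M) ∧ (∀ x ∈ pre v i, x ∉ S) ∧ (pre v i).length + 1 ≤ r ∧
      (∀ x ∈ pre v i, x ∈ (F v i).1) ∧ hit v i ∈ (F v i).1 := by
    intro v hv i hi
    have hvS := hS1S v hv
    obtain ⟨l2, g1, g2, g3⟩ := hsplit v i ⟨hv, hi⟩
    have h1 := f1 v hvS i
    rw [g1, Lnk_append] at h1
    have h2 := f2 v hvS i
    rw [g1, List.length_append, List.length_cons] at h2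
    have hmem : ∀ x ∈ pre v i, x ∈ (F v i).1 := by
      intro x hx
      rw [g1]
      exact List.mem_append_left _ hx
    exact ⟨h1.1, g2, g3, fun x hx => f4 v hvS i x (hmem x hx), by omega, hmem,
      by rw [g1]; simp⟩
  have hhit_inj : ∀ v ∈ S1, ∀ i ∈ good v, ∀ j ∈ good v, hit v i = hit v j → i = j := by
    intro v hv i hi j hj hij
    by_contra hne
    have h1 := (hpre v hv i hi).2.2.2.2.2.2
    have h2 := (hpre v hv j hj).2.2.2.2.2.2
    refine f5 v (hS1S v hv) i j hne (a := hit v i) (List.mem_append_left _ h1) ?_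
    rw [hij]
    exact List.mem_append_left _ h2
  have cross : ∀ v ∈ S1, ∀ v' ∈ S1, v ≠ v' → ∀ i ∈ good v, ∀ j ∈ good v',
      List.Disjoint (pre v i) (pre v' j) := by
    intro v hv v' hv' hne i hi j hj x hx hx'
    obtain ⟨p1, p2, p3, p4, p5, -, -⟩ := hpre v hv i hi
    obtain ⟨q1, q2, q3, q4, q5, -, -⟩ := hpre v' hv' j hj
    obtain ⟨a, b, hab⟩ := List.append_of_mem hx
    obtain ⟨a', b', hab'⟩ := List.append_of_mem hx'
    rw [hab, Lnk_append] at p1
    rw [hab', Lnk_append] at q1
    have hl : Lnk G v (a ++ x :: a'.reverse) v' := Lnk_append.mpr ⟨p1.1, Lnk_reverse q1.1⟩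
    rw [hab, List.length_append, List.length_cons] at p5
    rw [hab', List.length_append, List.length_cons] at q5
    have hmem : ∀ y ∈ a ++ x :: a'.reverse, y ∈ pre v i ∨ y ∈ pre v' j := by
      intro y hy
      rcases List.mem_append.mp hy with hy | hy
      · left; rw [hab]; exact List.mem_append_left _ hy
      · rcases List.mem_cons.mp hy with rfl | hy
        · left; exact hx
        · right
          rw [List.mem_reverse] at hy
          rw [hab']; exact List.mem_append_left _ hy
    refine hind v hv v' hv' (nomore v (hS1S v hv) v' (hS1S v' hv') hne _ hl ?_ ?_ ?_)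
    · intro y hy
      rcases hmem y hy with h | h
      · exact p4 y h
      · exact q4 y h
    · simp only [List.length_append, List.length_cons, List.length_reverse]
      omega
    · intro y hy
      rcases hmem y hy with h | h
      · exact p3 y h
      · exact q3 y h
  -- the bipartite minor
  let H2 : SimpleGraph V :=
    { Adj := fun a b => (a ∈ S1 ∧ b ∈ M ∧ ∃ i ∈ good a, hit a i = b) ∨
        (b ∈ S1 ∧ a ∈ M ∧ ∃ i ∈ good b, hit b i = a)
      symm := ⟨fun a b h => h.symm⟩
      loopless := ⟨fun a h => by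
        rcases h with ⟨h1, h2, -⟩ | ⟨h1, h2, -⟩
        · exact hMS a h2 (hS1S a h1)
        · exact hMS a h2 (hS1S a h1)⟩ }
  have hminor : MinorOn G ((S1 ∪ M : Finset V) : Set V) H2 := by
    refine ⟨fun a => {a} ∪ {x | a ∈ S1 ∧ ∃ i ∈ good a, x ∈ pre a i}, ?_, ?_, ?_⟩
    · intro a _
      refine CS.of_root (x0 := a) (Or.inl rfl) ?_
      rintro y (hy | ⟨haS, i, hi, hy⟩)
      · rw [Set.mem_singleton_iff] at hy
        subst hy
        exact Relation.ReflTransGen.refl
      · exact (hpre a haS i hi).1.rtg (Or.inl rfl) (fun x hx => Or.inr ⟨haS, i, hi, hx⟩) y hy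
    · intro a ha b hb hab
      have hnot : ∀ c ∈ ((S1 ∪ M : Finset V) : Set V), ∀ d ∈ S1, ∀ i ∈ good d,
          c ∉ pre d i := by
        intro c hc d hd i hi hcd
        obtain ⟨-, -, p3, p4, -, -, -⟩ := hpre d hd i hi
        rcases Finset.mem_union.mp hc with hc | hc
        · exact p4 c hcd (hS1S c hc)
        · exact p3 c hcd hc
      rw [Set.disjoint_left]
      rintro x (hx | ⟨haS, i, hi, hx⟩) (hx' | ⟨hbS, j, hj, hx'⟩)
      · rw [Set.mem_singleton_iff] at hx hx'
        exact hab (hx.symm.trans hx')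
      · rw [Set.mem_singleton_iff] at hx
        subst hx
        exact hnot x ha b hbS j hj hx'
      · rw [Set.mem_singleton_iff] at hx'
        subst hx'
        exact hnot x hb a haS i hi hx
      · exact cross a haS b hbS hab i hi j hj hx hx'
    · have tt : ∀ a b, (a ∈ S1 ∧ b ∈ M ∧ ∃ i ∈ good a, hit a i = b) →
          ∃ x ∈ ({a} ∪ {x | a ∈ S1 ∧ ∃ i ∈ good a, x ∈ pre a i} : Set V), G.Adj x b := by
        rintro a b ⟨haS, hbM, i, hi, rfl⟩
        obtain ⟨y, hy, hyt⟩ := (hpre a haS i hi).1.last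
        refine ⟨y, ?_, hyt⟩
        rcases hy with hy | hy
        · rw [hy]; exact Or.inl rfl
        · exact Or.inr ⟨haS, i, hi, hy⟩
      rintro a ha b hb (h | h)
      · obtain ⟨x, hx, hxb⟩ := tt a b h
        exact ⟨x, hx, b, Or.inl rfl, hxb⟩
      · obtain ⟨x, hx, hxb⟩ := tt b a h
        exact ⟨a, Or.inl rfl, x, hx, hxb.symm⟩
  have hup := hG (S1 ∪ M) H2 hminor
  have hdown : S1.card * (n - 16) ≤ dg H2 (S1 ∪ M) := by
    have e1 : (S1.sigma good).card ≤ dg H2 (S1 ∪ M) := by
      unfold dg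
      refine Finset.card_le_card_of_injOn (fun z => (z.1, hit z.1 z.2)) ?_ ?_
      · rintro ⟨v, i⟩ hz
        obtain ⟨hv, hi⟩ := Finset.mem_sigma.mp (Finset.mem_coe.mp hz)
        have h2 := (hpre v hv i hi).2.1
        simp only [Finset.coe_filter, Finset.mem_product, Finset.mem_union, Set.mem_ofPred_eq]
        exact ⟨⟨Or.inl hv, Or.inr h2⟩, Or.inl ⟨hv, h2, i, hi, rfl⟩⟩
      · rintro ⟨v, i⟩ hz ⟨v', i'⟩ hz' he
        obtain ⟨hv, hi⟩ := Finset.mem_sigma.mp (Finset.mem_coe.mp hz)
        obtain ⟨hv', hi'⟩ := Finset.mem_sigma.mp (Finset.mem_coe.mp hz')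
        simp only [Prod.mk.injEq] at he hv hi hv' hi'
        obtain ⟨rfl, he⟩ := he
        rw [hhit_inj v hv i hi i' hi' he]
    calc S1.card * (n - 16) = ∑ _v ∈ S1, (n - 16) := by rw [Finset.sum_const, smul_eq_mul]
      _ ≤ ∑ v ∈ S1, (good v).card := by
          refine Finset.sum_le_sum (fun v hv => ?_)
          have := hgc v hv
          omega
      _ = (S1.sigma good).card := (Finset.card_sigma _ _).symm
      _ ≤ _ := e1
  have hS1pos : 0 < S1.card := by
    have := hS.card_pos
    omega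
  have hcu := Finset.card_union_le S1 M
  have h1 : S1.card * (n - 16) ≤ S1.card * (8 + 4352 * r) := by
    calc S1.card * (n - 16) ≤ 8 * (S1 ∪ M).card := hdown.trans hup
      _ ≤ 8 * (S1.card + 16 * r * S.card) := by omega
      _ ≤ 8 * (S1.card + 16 * r * (34 * S1.card)) := by gcongr
      _ = S1.card * (8 + 4352 * r) := by ring
  have h2 := Nat.le_of_mul_le_mul_left h1 hS1pos
  omega

end Pool.Agent.Lib.MP_ec8146_lc
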