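import Pool.Agent.Lib.MP_ec8146_lc.Torus2

/-!
# The drawing in the torus: conclusion
-/

namespace Pool.Agent.Lib.MP_ec8146_lc

open Vtx

lemma nN_ne_nE (p : Par) (u : Vtx) : nN p u ≠ nE p u := by
  have f5 : ∀ c : Fin 5, c + 1 ≠ c ∧ c + 2 ≠ c ∧ c + 2 ≠ c + 1 := by decide
  cases u with
  | base c x y =>
    simp only [nN, nE]
    obtain ⟨g1, g2, g3⟩ := f5 c
    split_ifs
    · simp
    · simp
    · intro h
      injection h with h1
      omega
    · intro h
      injection h with h1
      exact g1 h1.symm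
    · intro h
      injection h with h1
      exact g2 h1
    · intro h
      injection h with h1
      exact g3 h1
  | wall c i j r m =>
    simp only [nN, nE]
    intro h
    injection h with h1
    omega

open Classical in
/-- horizontal coordinate along the edge from `u` to `v` -/
noncomputable def epX (p : Par) (u v : Vtx) (t : ℝ) : ℝ :=
  if v = nE p u then PX p u + t * lenH u else PX p u

open Classical in
/-- vertical coordinate along the edge from `u` to `v` -/
noncomputable def epY (p : Par) (u v : Vtx) (t : ℝ) : ℝ :=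
  if v = nE p u then PY p u else PY p u + t * lenV p u

open Classical in
/-- type of the edge -/
noncomputable def dirT (p : Par) (u v : Vtx) : Fin 3 := if v = nE p u then 1 else 2

section

variable {p : Par} (hs : ∀ c, p.w c + 1 < p.s) (hg : p.g + 1 < p.s)

include hs hg

lemma ep_addr {u v : Vtx} (h : Gen p u v) {t : ℝ} (h0 : 0 < t) (h1 : t < 1) :
    addr p (epX p u v t) (epY p u v t) = (u, dirT p u v) := by
  rcases (h.dirs hs hg).1 with ⟨h2, rfl⟩ | ⟨h2, rfl⟩
  · rw [epX, epY, dirT, if_pos rfl, if_pos rfl, if_pos rfl]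
    exact addr_hor hs hg h2 h0 h1
  · rw [epX, epY, dirT, if_neg (nN_ne_nE p u), if_neg (nN_ne_nE p u), if_neg (nN_ne_nE p u)]
    exact addr_ver hs hg h2 h0 h1

lemma ep_dom {u v : Vtx} (h : Gen p u v) {t : ℝ} (h0 : 0 ≤ t) (h1 : t < 1) :
    Dom p (epX p u v t) (epY p u v t) := by
  rcases (h.dirs hs hg).1 with ⟨h2, rfl⟩ | ⟨h2, rfl⟩
  · rw [epX, epY, if_pos rfl, if_pos rfl]
    exact dom_hor hs hg h2 h0 h1
  · rw [epX, epY, if_neg (nN_ne_nE p u), if_neg (nN_ne_nE p u)]
    exact dom_ver hs hg h2 h0 h1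

lemma ep_one {u v : Vtx} (h : Gen p u v) :
    phi p (epX p u v 1) (epY p u v 1) = phi p (PX p v) (PY p v) := by
  rcases (h.dirs hs hg).1 with ⟨h2, rfl⟩ | ⟨h2, rfl⟩
  · rw [epX, epY, if_pos rfl, if_pos rfl]
    exact phi_E h2
  · rw [epX, epY, if_neg (nN_ne_nE p u), if_neg (nN_ne_nE p u)]
    exact phi_N h2

omit hs hg in
lemma ep_zero (u v : Vtx) : epX p u v 0 = PX p u ∧ epY p u v 0 = PY p u := by
  unfold epX epY
  constructor <;> split_ifs <;> simp

omit hs hg in
lemma ep_inj {u v : Vtx} {t t' : ℝ} (hX : epX p u v t = epX p u v t')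
    (hY : epY p u v t = epY p u v t') : t = t' := by
  unfold epX at hX
  unfold epY at hY
  by_cases h : v = nE p u
  · rw [if_pos h, if_pos h] at hX
    have := lenH_pos u
    have h2 : (t - t') * lenH u = 0 := by linarith
    rcases mul_eq_zero.mp h2 with h3 | h3
    · linarith
    · linarith
  · rw [if_neg h, if_neg h] at hY
    have := lenV_pos p u
    have h2 : (t - t') * lenV p u = 0 := by linarith
    rcases mul_eq_zero.mp h2 with h3 | h3
    · linarith
    · linarith

omit hs hg in
lemma continuous_ep (u v : Vtx) :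
    Continuous (fun t : ℝ => phi p (epX p u v t) (epY p u v t)) := by
  apply continuous_phi
  · unfold epX
    split_ifs <;> fun_prop
  · unfold epY
    split_ifs <;> fun_prop

/-- interior points of edges determine the edges -/
lemma ep_key {u v u' v' : Vtx} (h : Gen p u v) (h' : Gen p u' v') {t t' : ℝ} (h0 : 0 < t)
    (h1 : t < 1) (h0' : 0 < t') (h1' : t' < 1)
    (he : phi p (epX p u v t) (epY p u v t) = phi p (epX p u' v' t') (epY p u' v' t')) :
    u = u' ∧ v = v' := by
  obtain ⟨eX, eY⟩ := phi_inj (ep_dom hs hg h h0.le h1) (ep_dom hs hg h' h0'.le h1') he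
  have e1 := ep_addr hs hg h h0 h1
  have e2 := ep_addr hs hg h' h0' h1'
  rw [eX, eY, e2] at e1
  have e3 : u' = u := congrArg Prod.fst e1
  have e4 : dirT p u' v' = dirT p u v := congrArg Prod.snd e1
  subst e3
  refine ⟨rfl, ?_⟩
  unfold dirT at e4
  by_cases hv : v = nE p u'
  · by_cases hv' : v' = nE p u'
    · rw [hv, hv']
    · rw [if_pos hv, if_neg hv'] at e4
      exact absurd e4 (by decide)
  · by_cases hv' : v' = nE p u'
    · rw [if_neg hv, if_pos hv'] at e4
      exact absurd e4 (by decide)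
    · have f1 : v = nN p u' := by
        rcases (h.dirs hs hg).1 with h2 | h2
        · exact absurd h2.2 hv
        · exact h2.2
      have f2 : v' = nN p u' := by
        rcases (h'.dirs hs hg).1 with h2 | h2
        · exact absurd h2.2 hv'
        · exact h2.2
      rw [f1, f2]

/-- interior points of edges are not vertices -/
lemma ep_vertex {u v w : Vtx} (h : Gen p u v) (hw : Valid p w) {t : ℝ} (h0 : 0 < t)
    (h1 : t < 1) : phi p (epX p u v t) (epY p u v t) ≠ phi p (PX p w) (PY p w) := by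
  intro he
  obtain ⟨eX, eY⟩ := phi_inj (ep_dom hs hg h h0.le h1) (dom_vertex hs hg hw) he
  have e1 := ep_addr hs hg h h0 h1
  have e2 := addr_vertex hs hg hw
  rw [eX, eY, e2] at e1
  have e4 : (0 : Fin 3) = dirT p u v := congrArg Prod.snd e1
  unfold dirT at e4
  split_ifs at e4
  · exact absurd e4 (by decide)
  · exact absurd e4 (by decide)

lemma pos_inj {v w : Vtx} (hv : Valid p v) (hw : Valid p w)
    (he : phi p (PX p v) (PY p v) = phi p (PX p w) (PY p w)) : v = w := by
  obtain ⟨eX, eY⟩ := phi_inj (dom_vertex hs hg hv) (dom_vertex hs hg hw) he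
  have e1 := addr_vertex hs hg hv
  have e2 := addr_vertex hs hg hw
  rw [eX, eY, e2] at e1
  exact (congrArg Prod.fst e1).symm

/-- the path drawing a generating edge -/
noncomputable def gpath {u v : Vtx} (h : Gen p u v) :
    Path (phi p (PX p u) (PY p u)) (phi p (PX p v) (PY p v)) where
  toFun t := phi p (epX p u v t) (epY p u v t)
  continuous_toFun := (continuous_ep u v).comp continuous_subtype_val
  source' := by
    simp only [Set.Icc.coe_zero]
    rw [(ep_zero u v).1, (ep_zero u v).2]
  target' := by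
    simp only [Set.Icc.coe_one]
    exact ep_one hs hg h

open Classical in
/-- the arcs -/
noncomputable def tarc (u v : TV p) (h : (Tor p).Adj u v) :
    Path (phi p (PX p u.1) (PY p u.1)) (phi p (PX p v.1) (PY p v.1)) :=
  if hh : Gen p u.1 v.1 then gpath hs hg hh
  else (gpath hs hg (((T_adj p).mp h).resolve_left hh)).symm

lemma gpath_avoid (hD : 1 ≤ p.D) {u v w : Vtx} (h : Gen p u v) (hw : Valid p w) (h1 : w ≠ u)
    (h2 : w ≠ v) (t : unitInterval) : gpath hs hg h t ≠ phi p (PX p w) (PY p w) := by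
  intro he
  obtain ⟨hu, hv⟩ := h.valid hs (by omega) hD
  by_cases ht0 : t = 0
  · rw [ht0, Path.source] at he
    exact h1 (pos_inj hs hg hu hw he).symm
  by_cases ht1 : t = 1
  · rw [ht1, Path.target] at he
    exact h2 (pos_inj hs hg hv hw he).symm
  have h0' : (0 : ℝ) < t := unitInterval.pos_iff_ne_zero.mpr ht0
  have h1' : (t : ℝ) < 1 := unitInterval.lt_one_iff_ne_one.mpr ht1
  exact ep_vertex hs hg h hw h0' h1' he

lemma gpath_injective (hD : 1 ≤ p.D) {u v : Vtx} (h : Gen p u v) :
    Function.Injective (gpath hs hg h) := by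
  obtain ⟨hu, hv⟩ := h.valid hs (by omega) hD
  have main : ∀ t t' : unitInterval, gpath hs hg h t = gpath hs hg h t' → t' = 1 → t = 1 := by
    intro t t' he ht'
    by_contra ht1
    rw [ht', Path.target] at he
    by_cases ht0 : t = 0
    · rw [ht0, Path.source] at he
      exact h.ne p (pos_inj hs hg hu hv he)
    · have h0' : (0 : ℝ) < t := unitInterval.pos_iff_ne_zero.mpr ht0
      have h1' : (t : ℝ) < 1 := unitInterval.lt_one_iff_ne_one.mpr ht1
      exact ep_vertex hs hg h hv h0' h1' he
  intro t t' he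
  by_cases h1 : t' = 1
  · rw [main t t' he h1, h1]
  by_cases h2 : t = 1
  · rw [main t' t he.symm h2, h2]
  have h1' : (t' : ℝ) < 1 := unitInterval.lt_one_iff_ne_one.mpr h1
  have h2' : (t : ℝ) < 1 := unitInterval.lt_one_iff_ne_one.mpr h2
  have he' : phi p (epX p u v t) (epY p u v t) = phi p (epX p u v t') (epY p u v t') := he
  obtain ⟨eX, eY⟩ := phi_inj (ep_dom hs hg h t.2.1 h2') (ep_dom hs hg h t'.2.1 h1') he'
  exact Subtype.ext (ep_inj eX eY)

/-- the drawing -/
noncomputable def torusDrawing (hD : 1 ≤ p.D) :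
    Drawing (Tor p) (UnitAddCircle × UnitAddCircle) where
  pos v := phi p (PX p v.1) (PY p v.1)
  pos_injective u v h := Subtype.ext (pos_inj hs hg u.2 v.2 h)
  arc u v h := tarc hs hg u v h
  arc_symm u v h := by
    by_cases hh : Gen p u.1 v.1
    · have h2 : ¬ Gen p v.1 u.1 := hh.asymm
      rw [tarc, dif_neg h2, tarc, dif_pos hh]
    · have h2 : Gen p v.1 u.1 := ((T_adj p).mp h).resolve_left hh
      rw [tarc, dif_pos h2, tarc, dif_neg hh, Path.symm_symm]
  arc_injective u v h := by
    unfold tarc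
    split_ifs with hh
    · exact gpath_injective hs hg hD hh
    · intro t t' he
      have he' := gpath_injective hs hg hD (((T_adj p).mp h).resolve_left hh) he
      simpa using he'
  arc_avoid u v h w hwu hwv t := by
    unfold tarc
    split_ifs with hh
    · exact gpath_avoid hs hg hD hh w.2 (fun e => hwu (Subtype.ext e))
        (fun e => hwv (Subtype.ext e)) t
    · exact gpath_avoid hs hg hD (((T_adj p).mp h).resolve_left hh) w.2
        (fun e => hwv (Subtype.ext e)) (fun e => hwu (Subtype.ext e)) _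

lemma mem_interior (hD : 1 ≤ p.D) {e : Sym2 (TV p)} {q : UnitAddCircle × UnitAddCircle}
    (hq : q ∈ (torusDrawing hs hg hD).interior e) :
    ∃ u v : TV p, Gen p u.1 v.1 ∧ e = s(u, v) ∧ ∃ t : ℝ, 0 < t ∧ t < 1 ∧
      q = phi p (epX p u.1 v.1 t) (epY p u.1 v.1 t) := by
  obtain ⟨u, v, h, he, t, ht0, ht1, hq⟩ := hq
  have h0' : (0 : ℝ) < t := unitInterval.pos_iff_ne_zero.mpr ht0
  have h1' : (t : ℝ) < 1 := unitInterval.lt_one_iff_ne_one.mpr ht1
  by_cases hh : Gen p u.1 v.1
  · refine ⟨u, v, hh, he, t, h0', h1', ?_⟩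
    rw [← hq]
    change tarc hs hg u v h t = _
    rw [tarc, dif_pos hh]
    rfl
  · have h2 : Gen p v.1 u.1 := ((T_adj p).mp h).resolve_left hh
    refine ⟨v, u, h2, by rw [he, Sym2.eq_swap], 1 - t, by linarith, by linarith, ?_⟩
    rw [← hq]
    change tarc hs hg u v h t = _
    rw [tarc, dif_neg hh]
    rfl

/-- **The graph is toroidal.** -/
theorem toroidal_Tor (hD : 1 ≤ p.D) : Toroidal (Tor p) := by
  refine ⟨torusDrawing hs hg hD, ?_⟩
  intro e _
  rw [Set.eq_empty_iff_forall_notMem]
  rintro ⟨f, q⟩ ⟨-, hne, hq1, hq2⟩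
  obtain ⟨u, v, h, he, t, h0, h1, hq⟩ := mem_interior hs hg hD hq1
  obtain ⟨u', v', h', he', t', h0', h1', hq'⟩ := mem_interior hs hg hD hq2
  obtain ⟨e1, e2⟩ := ep_key hs hg h h' h0 h1 h0' h1' (hq.symm.trans hq')
  apply hne
  change f = s(u', v') at he'
  change f = e
  rw [he, he', Subtype.ext e1, Subtype.ext e2]

end

end Pool.Agent.Lib.MP_ec8146_lc
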