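import Pool.Agent.Lib.MP_ec8146_lc.Route
import Pool.Agent.Lib.MP_ec8146_lc.Torus3

/-!
# Toroidal graphs are not transducible from planar graphs
-/

namespace Pool.Agent.Lib.MP_ec8146_lc

open FirstOrder FirstOrder.Language Vtx

/-- General transfer: parity data on the finite graph give a parity setup. -/
theorem setup_of_data {p : Par} {k : ℕ} (hs : ∀ c, p.w c + 1 < p.s) (hg : p.g < p.s)
    (hD : 1 ≤ p.D) (e : TV p → TV p → ZMod 2) (he : ∀ x y, x ≠ y → e x y + e y x = 1)
    (n : TV p → TV p → TV p → ZMod 2) (S0 : Finset (Sym2 (TV p))) (hS0 : S0.card ≤ k)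
    (F : Sym2 (TV p) → Finset (Sym2 (TV p))) (hF : ∀ e, (F e).card ≤ k)
    (rel : ∀ u v x y, (Tor p).Adj u v → s(u, v) ∉ S0 → (Tor p).Adj x y → s(x, y) ∉ S0 →
      u ≠ x → u ≠ y → v ≠ x → v ≠ y → s(x, y) ∉ F s(u, v) → c0 e n (u, v) (x, y) = 0) :
    Nonempty (Setup p k) := by
  classical
  set ι : Sym2 (TV p) → Sym2 Vtx := Sym2.map Subtype.val with hι
  have hι_inj : Function.Injective ι := Sym2.map.injective Subtype.val_injective
  set Fc : Sym2 Vtx → Finset (Sym2 Vtx) := fun e =>
    if h : ∃ e', ι e' = e then (F h.choose).image ι else ∅ with hFc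
  have hFceq : ∀ e', Fc (ι e') = (F e').image ι := by
    intro e'
    have h : ∃ e'', ι e'' = ι e' := ⟨e', rfl⟩
    simp only [hFc]
    rw [dif_pos h, hι_inj h.choose_spec]
  have hFcard : ∀ e, (Fc e).card ≤ k := by
    intro e
    by_cases h : ∃ e', ι e' = e
    · simp only [hFc]
      rw [dif_pos h]
      exact Finset.card_image_le.trans (hF _)
    · simp only [hFc]
      rw [dif_neg h]
      simp
  refine ⟨⟨S0.image ι, Finset.card_image_le.trans hS0, etaX e, NX n,
    etaX_add e he, Fc, hFcard, ?_⟩⟩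
  intro u v x y huv huv0 hxy hxy0 hux huy hvx hvy hc
  obtain ⟨hu, hv⟩ := adj_valid hs hg hD huv
  obtain ⟨hx, hy⟩ := adj_valid hs hg hD hxy
  have key := rel ⟨u, hu⟩ ⟨v, hv⟩ ⟨x, hx⟩ ⟨y, hy⟩ huv
    (fun hh => huv0 (Finset.mem_image.mpr ⟨_, hh, rfl⟩)) hxy
    (fun hh => hxy0 (Finset.mem_image.mpr ⟨_, hh, rfl⟩))
    (fun hh => hux (congrArg Subtype.val hh)) (fun hh => huy (congrArg Subtype.val hh))
    (fun hh => hvx (congrArg Subtype.val hh)) (fun hh => hvy (congrArg Subtype.val hh)) (by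
      intro hcr
      apply hc
      have h1 : s(u, v) = ι s(⟨u, hu⟩, ⟨v, hv⟩) := rfl
      rw [h1, hFceq]
      exact Finset.mem_image.mpr ⟨_, hcr, rfl⟩)
  unfold c0 at key ⊢
  simp only [etaX, NX, hu, hv, hx, hy, and_self, dite_true]
  exact key

/-- planar graphs are parity-planar -/
theorem PP_of_planar {V : Type*} {G : SimpleGraph V} (h : Planar G) : Nonempty (PP G) := by
  obtain ⟨D, hD⟩ := h
  refine ⟨⟨D.parityData.eta, D.parityData.N, D.parityData.eta_add, ?_⟩⟩
  intro u v x y huv hxy hux huy hvx hvy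
  have key := D.parityData.rel u v x y huv hxy hux huy hvx hvy (by
    rintro ⟨q, hq1, hq2⟩
    have h1 : (s(x, y), q) ∈ D.crossings s(u, v) := by
      refine ⟨hxy, ?_, hq1, hq2⟩
      intro hh
      rcases Sym2.eq_iff.mp hh with ⟨h1, -⟩ | ⟨h1, -⟩
      · exact hux h1.symm
      · exact hvx h1.symm
    rw [hD _ huv] at h1
    exact h1)
  exact key

/-- **Main theorem**: the class of toroidal graphs is not first-order transducible from the class
of planar graphs. -/
theorem not_transducible :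
    ¬ Transducible (fun _ G => Toroidal G) (fun _ G => Planar G) := by
  classical
  rintro ⟨c, ψ, hall⟩
  set m := hB (2 * 3 ^ rk ψ) (2 * 3 ^ rk ψ) with hmdef
  set cb := CB c m (rk ψ) with hcb
  set K1 := m * (2 ^ m * cb) with hK1
  set k := cb + 2 * (2 * (3 ^ rk ψ + 1) * K1) with hk
  obtain ⟨p, a, L0, n0, hp, p1, p2, p3⟩ := exists_params k
  have hs : ∀ c, p.w c + 1 < p.s := fun c => by have := hp.ws c; omega
  have hgs := hp.gs
  have hD : 1 ≤ p.D := by have := hp.aD; omega
  obtain ⟨V, hfin, G, hplanar, C, ⟨f⟩⟩ :=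
    hall (TV p) inferInstance (Tor p) (toroidal_Tor hs hgs hD)
  let _ : Fintype V := Fintype.ofFinite V
  obtain ⟨D⟩ := PP_of_planar hplanar
  have hsparse : SparseMinors G := fun S H h => D.minor_bound h
  obtain ⟨ρ, hρ, hm⟩ := exists_wcol hsparse (2 * 3 ^ rk ψ)
  -- the image of the toroidal graph
  let K : SimpleGraph V :=
    { Adj := fun u v => u ∈ Set.range f ∧ v ∈ Set.range f ∧ (interp G C ψ).Adj u v
      symm := ⟨fun u v h => ⟨h.2.1, h.1, h.2.2.symm⟩⟩
      loopless := ⟨fun u h => (interp G C ψ).loopless.irrefl u h.2.2⟩ }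
  have hKf : ∀ a b, K.Adj (f a) (f b) ↔ (Tor p).Adj a b := by
    intro a b
    constructor
    · rintro ⟨-, -, h⟩
      exact f.map_adj_iff.mp h
    · intro h
      exact ⟨⟨a, rfl⟩, ⟨b, rfl⟩, f.map_adj_iff.mpr h⟩
  have hdeg : ∀ v, (nbh K v).card ≤ 4 := by
    intro v
    by_cases hv : v ∈ Set.range f
    · obtain ⟨a, rfl⟩ := hv
      have h1 : (nbh K (f a) : Set V) ⊆ f '' ((Tor p).neighborSet a) := by
        intro w hw
        have hw' : K.Adj (f a) w := by
          exact mem_nbh.mp (Finset.mem_coe.mp hw)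
        obtain ⟨b, rfl⟩ := hw'.2.1
        exact ⟨b, (hKf a b).mp hw', rfl⟩
      have h2 : (nbh K (f a) : Set V).encard ≤ 4 :=
        (Set.encard_le_encard h1).trans ((Set.encard_image_le _ _).trans (degree_le hs hgs a))
      rw [Set.encard_coe_eq_coe_finsetCard] at h2
      exact_mod_cast h2
    · have : nbh K v = ∅ := by
        apply Finset.eq_empty_of_forall_notMem
        intro w hw
        exact hv (mem_nbh.mp hw).1
      rw [this]
      simp
  obtain ⟨E0, P, L, hE0, hroute, hcong⟩ := exists_routes (G := G) (C := C) (ψ := ψ) (K := K)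
    (X := Set.range f) hρ (fun u v => Iff.rfl) hdeg hm
  have hne : Nonempty (TV p) := ⟨⟨base 0 0 0, Setup.M_pos hp, Setup.M_pos hp⟩⟩
  set g : V × V → Sym2 (TV p) := fun z => s(Function.invFun f z.1, Function.invFun f z.2) with hg
  have hinv : ∀ a, Function.invFun f (f a) = a := Function.leftInverse_invFun f.injective
  have hgf : ∀ a b, g (f a, f b) = s(a, b) := by
    intro a b
    simp only [hg, hinv]
  -- the exceptional edges
  set S0 : Finset (Sym2 (TV p)) := E0.image g with hS0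
  -- the routes through a vertex
  set T : V → Finset (V × V) := fun w =>
    Finset.univ.filter (fun z => K.Adj z.1 z.2 ∧ z ∉ E0 ∧ w ∈ L z.1 z.2) with hT
  have hTc : ∀ w, (T w).card ≤ K1 := fun w => hcong w (T w) (fun z hz =>
    (Finset.mem_filter.mp hz).2)
  set U : V × V → Finset (V × V) := fun z =>
    if K.Adj z.1 z.2 ∧ z ∉ E0 then (L z.1 z.2).biUnion T else ∅ with hU
  have hUc : ∀ z, (U z).card ≤ 2 * (3 ^ rk ψ + 1) * K1 := by
    intro z
    simp only [hU]
    split_ifs with h
    · calc ((L z.1 z.2).biUnion T).card ≤ ∑ w ∈ L z.1 z.2, (T w).card := Finset.card_biUnion_le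
        _ ≤ ∑ _w ∈ L z.1 z.2, K1 := Finset.sum_le_sum (fun w _ => hTc w)
        _ = (L z.1 z.2).card * K1 := by rw [Finset.sum_const, smul_eq_mul]
        _ ≤ 2 * (3 ^ rk ψ + 1) * K1 := Nat.mul_le_mul_right _ (hroute z.1 z.2 h.1 h.2).2.2
    · simp
  set F : Sym2 (TV p) → Finset (Sym2 (TV p)) := fun e =>
    Finset.univ.filter (fun e' => ∃ a b : TV p, e = s(a, b) ∧ e' ∈ (U (f a, f b)).image g)
    with hF
  have hFc : ∀ e, (F e).card ≤ k := by
    intro e
    induction e using Sym2.ind with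
    | _ a b =>
      have hsub : F s(a, b) ⊆ (U (f a, f b)).image g ∪ (U (f b, f a)).image g := by
        intro e' he'
        obtain ⟨-, a', b', he, hmem⟩ := Finset.mem_filter.mp he'
        rcases Sym2.eq_iff.mp he with ⟨rfl, rfl⟩ | ⟨rfl, rfl⟩
        · exact Finset.mem_union_left _ hmem
        · exact Finset.mem_union_right _ hmem
      have h1 := Finset.card_le_card hsub
      have h2 := Finset.card_union_le ((U (f a, f b)).image g) ((U (f b, f a)).image g)
      have h3 := (Finset.card_image_le (s := U (f a, f b)) (f := g)).trans (hUc _)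
      have h4 := (Finset.card_image_le (s := U (f b, f a)) (f := g)).trans (hUc _)
      omega
  obtain ⟨S⟩ := setup_of_data (k := k) hs (by omega) hD (fun a b => D.eta (f a) (f b))
    (fun x y hxy => D.eta_add _ _ (fun h => hxy (f.injective h)))
    (fun w a b => chSum (D.N (f w)) (P (f a) (f b))) S0
    ((Finset.card_image_le.trans hE0).trans (Nat.le_add_right _ _)) F hFc (by
      intro u v x y huv huv0 hxy hxy0 hux huy hvx hvy hnF
      have a1 : K.Adj (f u) (f v) := (hKf u v).mpr huv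
      have a2 : K.Adj (f x) (f y) := (hKf x y).mpr hxy
      have n1 : (f u, f v) ∉ E0 := fun h => huv0 (Finset.mem_image.mpr ⟨_, h, hgf u v⟩)
      have n2 : (f x, f y) ∉ E0 := fun h => hxy0 (Finset.mem_image.mpr ⟨_, h, hgf x y⟩)
      obtain ⟨b1, i1, -⟩ := hroute _ _ a1 n1
      obtain ⟨b2, i2, -⟩ := hroute _ _ a2 n2
      have hdis : Disjoint ((L (f u) (f v) : Finset V) : Set V) (L (f x) (f y) : Finset V) := by
        rw [Set.disjoint_left]
        intro w hw hw'
        apply hnF
        refine Finset.mem_filter.mpr ⟨Finset.mem_univ _, u, v, rfl,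
          Finset.mem_image.mpr ⟨(f x, f y), ?_, hgf x y⟩⟩
        simp only [hU]
        rw [if_pos ⟨a1, n1⟩]
        exact Finset.mem_biUnion.mpr ⟨w, hw, Finset.mem_filter.mpr ⟨Finset.mem_univ _, a2, n2,
          hw'⟩⟩
      have hcr := D.cr_zero hdis i1 i2
      rw [cr_formula D.eta D.N b1 b2] at hcr
      exact hcr)
  exact S.no_setup hp p1 p2 p3

end Pool.Agent.Lib.MP_ec8146_lc
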