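import Pool.Agent.Lib.MP_ec8146_lc.Chains

/-!
# The toroidal graphs used in the construction
-/

namespace Pool.Agent.Lib.MP_ec8146_lc

/-- Vertices: base vertices `(c, x, y)` (block `c`, local coordinates `x, y`), and wall vertices
`(c, i, j, r, m)` (block `c`, cell `(i, j)`, row `r` of the wall, position `m` in that row). -/
inductive Vtx : Type
  | base (c : Fin 5) (x y : ℕ) : Vtx
  | wall (c : Fin 5) (i j r m : ℕ) : Vtx
  deriving DecidableEq

open Vtx

/-- The block of a vertex. -/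
def Vtx.blk : Vtx → Fin 5
  | base c _ _ => c
  | wall c _ _ _ _ => c

/-- Parameters of the construction. -/
structure Par where
  /-- side length of a cell -/
  s : ℕ
  /-- number of cells per row of a block -/
  N : ℕ
  /-- number of rows in a wall -/
  D : ℕ
  /-- height of the walls inside the cells -/
  g : ℕ
  /-- width of the walls in block `c` -/
  w : Fin 5 → ℕ

/-- side length of a block -/
def Par.M (p : Par) : ℕ := p.N * p.s

variable (p : Par)

/-- the base edge from `(c,x,y)` to `(c,x,y+1)` is removed (replaced by a wall) -/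
def inWall (c : Fin 5) (x y : ℕ) : Prop := y % p.s = p.g ∧ 1 ≤ x % p.s ∧ x % p.s ≤ p.w c + 1

/-- Generating (oriented) edges. -/
inductive Gen : Vtx → Vtx → Prop
  | hor (c : Fin 5) (x y : ℕ) (hx : x + 1 < p.M) (hy : y < p.M) :
      Gen (base c x y) (base c (x + 1) y)
  | horc (c : Fin 5) (y : ℕ) (hy : y < p.M) : Gen (base c (p.M - 1) y) (base (c + 1) 0 y)
  | ver (c : Fin 5) (x y : ℕ) (hx : x < p.M) (hy : y + 1 < p.M) (hw : ¬ inWall p c x y) :
      Gen (base c x y) (base c x (y + 1))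
  | verc (c : Fin 5) (x : ℕ) (hx : x < p.M) : Gen (base c x (p.M - 1)) (base (c + 2) x 0)
  | wbot (c : Fin 5) (i j l : ℕ) (hi : i < p.N) (hj : j < p.N) (hl : l ≤ p.w c) :
      Gen (base c (i * p.s + 1 + l) (j * p.s + p.g)) (wall c i j 1 (2 * l))
  | whor (c : Fin 5) (i j r m : ℕ) (hi : i < p.N) (hj : j < p.N) (hr : 1 ≤ r) (hrD : r ≤ p.D)
      (hm : m + 1 ≤ p.w c * 2 ^ r) : Gen (wall c i j r m) (wall c i j r (m + 1))
  | wver (c : Fin 5) (i j r m : ℕ) (hi : i < p.N) (hj : j < p.N) (hr : 1 ≤ r) (hrD : r + 1 ≤ p.D)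
      (hm : m ≤ p.w c * 2 ^ r) : Gen (wall c i j r m) (wall c i j (r + 1) (2 * m))

/-- The graph. -/
def T : SimpleGraph Vtx := SimpleGraph.fromRel (Gen p)

lemma Gen.ne {u v : Vtx} (h : Gen p u v) : u ≠ v := by
  have hc1 : ∀ c : Fin 5, c ≠ c + 1 := by decide
  have hc2 : ∀ c : Fin 5, c ≠ c + 2 := by decide
  cases h with
  | hor c x y hx hy => simp
  | horc c y hy => intro h; injection h with h1; exact hc1 _ h1
  | ver c x y hx hy hw => simp
  | verc c x hx => intro h; injection h with h1; exact hc2 _ h1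
  | wbot c i j l hi hj hl => simp
  | whor c i j r m hi hj hr hrD hm => simp
  | wver c i j r m hi hj hr hrD hm => simp

lemma T_adj {u v : Vtx} : (T p).Adj u v ↔ Gen p u v ∨ Gen p v u := by
  rw [T, SimpleGraph.fromRel_adj]
  constructor
  · exact fun h => h.2
  · rintro (h | h)
    · exact ⟨h.ne, Or.inl h⟩
    · exact ⟨h.ne.symm, Or.inr h⟩

/-! ### Segments -/

/-- the chain of consecutive darts along a sequence of vertices -/
def seg (f : ℕ → Vtx) (x x' : ℕ) : Ch Vtx :=
  (Finset.Ico (min x x') (max x x')).val.map (fun i => (f i, f (i + 1)))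

lemma mem_seg {f : ℕ → Vtx} {x x' : ℕ} {d : Vtx × Vtx} :
    d ∈ seg f x x' ↔ ∃ i, min x x' ≤ i ∧ i < max x x' ∧ d = (f i, f (i + 1)) := by
  unfold seg
  simp only [Multiset.mem_map, Finset.mem_val, Finset.mem_Ico]
  constructor
  · rintro ⟨i, ⟨h1, h2⟩, h3⟩; exact ⟨i, h1, h2, h3.symm⟩
  · rintro ⟨i, h1, h2, h3⟩; exact ⟨i, ⟨h1, h2⟩, h3.symm⟩

lemma sum_Ico_minmax (F : ℕ → ZMod 2) (x x' : ℕ) :
    ∑ i ∈ Finset.Ico (min x x') (max x x'), F i
      = (∑ i ∈ Finset.range x, F i) + ∑ i ∈ Finset.range x', F i := by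
  wlog h : x ≤ x' generalizing x x' with H
  · rw [min_comm, max_comm, H x' x (by omega), add_comm]
  rw [min_eq_left h, max_eq_right h, Finset.sum_Ico_eq_sub _ h, sub_eq_add_neg,
    ZMod.neg_eq_self_mod_two, add_comm]

lemma seg_sum (f : ℕ → Vtx) (x x' : ℕ) (F : Vtx × Vtx → ZMod 2) :
    ((seg f x x').map F).sum = (∑ i ∈ Finset.range x, F (f i, f (i + 1)))
      + ∑ i ∈ Finset.range x', F (f i, f (i + 1)) := by
  rw [← sum_Ico_minmax, seg, Multiset.map_map]
  rfl

lemma sum_range_telescope (F : ℕ → ZMod 2) (x : ℕ) :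
    ∑ i ∈ Finset.range x, (F i + F (i + 1)) = F 0 + F x := by
  induction x with
  | zero => simp [z2_add_self]
  | succ n ih =>
    rw [Finset.sum_range_succ, ih]
    linear_combination z2_add_self (F n)

lemma Bd_seg (f : ℕ → Vtx) (x x' : ℕ) : Bd (seg f x x') (f x) (f x') := by
  intro g
  rw [seg_sum]
  simp only [sum_range_telescope (fun i => g (f i))]
  linear_combination z2_add_self (g (f 0))

lemma card_seg (f : ℕ → Vtx) (x x' : ℕ) : (seg f x x').card = max x x' - min x x' := by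
  simp [seg]

/-- horizontal base segment in block `c`, row `y` -/
def hseg (c : Fin 5) (y x x' : ℕ) : Ch Vtx := seg (fun i => base c i y) x x'

/-- vertical base segment in block `c`, column `x` -/
def vseg (c : Fin 5) (x y y' : ℕ) : Ch Vtx := seg (fun i => base c x i) y y'

/-! ### Connectivity avoiding a set of vertices and edges -/

/-- a step avoiding the vertices `AV` and the edges `AE` -/
def Step (AV : Finset Vtx) (AE : Finset (Sym2 Vtx)) (u v : Vtx) : Prop :=
  (Gen p u v ∨ Gen p v u) ∧ u ∉ AV ∧ v ∉ AV ∧ s(u, v) ∉ AE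

/-- connectivity avoiding the vertices `AV` and the edges `AE` -/
def Conn (AV : Finset Vtx) (AE : Finset (Sym2 Vtx)) : Vtx → Vtx → Prop :=
  Relation.ReflTransGen (Step p AV AE)

variable {p}

lemma Step.symm {AV : Finset Vtx} {AE : Finset (Sym2 Vtx)} {u v : Vtx} (h : Step p AV AE u v) :
    Step p AV AE v u := by
  obtain ⟨h1, h2, h3, h4⟩ := h
  exact ⟨h1.symm, h3, h2, by rwa [Sym2.eq_swap]⟩

lemma Conn.symm {AV : Finset Vtx} {AE : Finset (Sym2 Vtx)} {u v : Vtx} (h : Conn p AV AE u v) :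
    Conn p AV AE v u := by
  induction h with
  | refl => exact Relation.ReflTransGen.refl
  | tail _ h2 ih => exact Relation.ReflTransGen.head h2.symm ih

lemma Conn.trans {AV : Finset Vtx} {AE : Finset (Sym2 Vtx)} {u v w : Vtx}
    (h : Conn p AV AE u v) (h' : Conn p AV AE v w) : Conn p AV AE u w :=
  Relation.ReflTransGen.trans h h'

lemma Conn.refl {AV : Finset Vtx} {AE : Finset (Sym2 Vtx)} (u : Vtx) : Conn p AV AE u u :=
  Relation.ReflTransGen.refl

lemma Conn.exists_chain {AV : Finset Vtx} {AE : Finset (Sym2 Vtx)} {u v : Vtx}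
    (h : Conn p AV AE u v) : ∃ P : Ch Vtx, Bd P u v ∧ ∀ d ∈ P, Step p AV AE d.1 d.2 := by
  induction h with
  | refl => exact ⟨0, Bd.zero u, by simp⟩
  | @tail b c _ h2 ih =>
    obtain ⟨P, hP, hP'⟩ := ih
    refine ⟨P + {(b, c)}, hP.add (Bd.single _ _), ?_⟩
    intro d hd
    rcases Multiset.mem_add.mp hd with hd | hd
    · exact hP' d hd
    · rw [Multiset.mem_singleton.mp hd]
      exact h2

lemma conn_line {AV : Finset Vtx} {AE : Finset (Sym2 Vtx)} (f : ℕ → Vtx) (a b : ℕ)
    (h : ∀ i, a ≤ i → i < b → Step p AV AE (f i) (f (i + 1))) (x x' : ℕ) (hx : a ≤ x)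
    (hxb : x ≤ b) (hx' : a ≤ x') (hxb' : x' ≤ b) : Conn p AV AE (f x) (f x') := by
  wlog hle : x ≤ x' generalizing x x' with H
  · exact (H x' x hx' hxb' hx hxb (by omega)).symm
  obtain ⟨n, rfl⟩ := Nat.exists_eq_add_of_le hle
  clear hle
  induction n with
  | zero => exact Conn.refl _
  | succ n ih =>
    refine (ih (by omega) (by omega)).trans (Relation.ReflTransGen.single ?_)
    exact h (x + n) (by omega) (by omega)

/-- Pigeonhole: among more than `|AV| + |AE|` vertex-disjoint lines, one avoids `AV` and `AE`. -/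
lemma exists_intact {ι : Type*} (I : Finset ι) (mem : ι → Vtx → Prop)
    (disj : ∀ i ∈ I, ∀ j ∈ I, ∀ v, mem i v → mem j v → i = j) (AV : Finset Vtx)
    (AE : Finset (Sym2 Vtx)) (h : AV.card + AE.card < I.card) :
    ∃ i ∈ I, (∀ v ∈ AV, ¬ mem i v) ∧ ∀ e ∈ AE, ¬ (∀ v ∈ e, mem i v) := by
  classical
  by_contra hcon
  push Not at hcon
  have hx : ∀ i : ι, ∃ z : Vtx ⊕ Sym2 Vtx, i ∈ I →
      (z ∈ AV.disjSum AE ∧ (∀ v, z = Sum.inl v → mem i v) ∧
        (∀ e, z = Sum.inr e → ∀ v ∈ e, mem i v)) := by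
    intro i
    by_cases hi : i ∈ I
    · by_cases h1 : ∀ v ∈ AV, ¬ mem i v
      · obtain ⟨e, he, he'⟩ := hcon i hi h1
        refine ⟨Sum.inr e, fun _ => ⟨by simpa using he, by simp, ?_⟩⟩
        intro e' hee
        injection hee with hee
        subst hee
        exact he'
      · push Not at h1
        obtain ⟨v, hv, hv'⟩ := h1
        refine ⟨Sum.inl v, fun _ => ⟨by simpa using hv, ?_, by simp⟩⟩
        intro v' hvv
        injection hvv with hvv
        subst hvv
        exact hv'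
    · exact ⟨Sum.inl (base 0 0 0), fun h => absurd h hi⟩
  choose z hz using hx
  have hinj : Set.InjOn z I := by
    intro i hi j hj hij
    have hi' := hz i hi
    have hj' := hz j hj
    rcases hzi : z i with v | e
    · exact disj i hi j hj v (hi'.2.1 v hzi) (hj'.2.1 v (hij ▸ hzi))
    · induction e using Sym2.ind with
      | _ a b =>
        exact disj i hi j hj a (hi'.2.2 _ hzi a (by simp))
          (hj'.2.2 _ (hij ▸ hzi) a (by simp))
  have hcard : I.card ≤ (AV.disjSum AE).card := by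
    refine Finset.card_le_card_of_injOn z (fun i hi => ?_) hinj
    exact (hz i hi).1
  rw [Finset.card_disjSum] at hcard
  omega

end Pool.Agent.Lib.MP_ec8146_lc
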