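import Pool.Agent.Lib.MP_ec8146_lc.Lines

/-!
# Half-edges of the `K₅`-model
-/

namespace Pool.Agent.Lib.MP_ec8146_lc

open Vtx

namespace Setup

variable {p : Par} {k a : ℕ} (S : Setup p k)

/-- A half-edge in block `b`: a chain `P` of block `b` inside the set `Ln` of edges, with anchors
`ω0`, `ω1` and tethers `τ0`, `τ1` at its two ends. -/
structure Half (S : Setup p k) (hp : p.Good k a) (l : ℕ) (b : Fin 5) (P ω0 τ0 ω1 τ1 : Ch Vtx)
    (Ln : Sym2 Vtx → Prop) : Prop where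
  isH : S.IsH P
  inB : InB P {b}
  inLn : ∀ d ∈ P, Ln s(d.1, d.2)
  tH0 : S.IsH τ0
  tH1 : S.IsH τ1
  tB0 : InB τ0 {b}
  tB1 : InB τ1 {b}
  low : ∀ q, b < q → ∀ J, Jump S hp q l J → (∀ e ∈ J, s(e.1, e.2) ∉ S.crs ω0) →
    (∀ e ∈ J, s(e.1, e.2) ∉ S.crs ω1) → S.X P J = 0
  up : ∀ R, (∀ J, Jump S hp b l J → (∀ e ∈ J, Ln s(e.1, e.2)) → S.X R J = 0) →
    S.X R P = S.X R τ0 + S.X R τ1

variable {S}

lemma half_half_lt (hp : p.Good k a) {l : ℕ} {b q : Fin 5} (hbq : b < q)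
    {P ω0 τ0 ω1 τ1 P' ω0' τ0' ω1' τ1' : Ch Vtx} {Ln Ln' : Sym2 Vtx → Prop}
    (h : Half S hp l b P ω0 τ0 ω1 τ1 Ln) (h' : Half S hp l q P' ω0' τ0' ω1' τ1' Ln')
    (hω0 : ∀ e ∈ S.crs ω0, ¬ Ln' e) (hω1 : ∀ e ∈ S.crs ω1, ¬ Ln' e)
    (hτ0 : ∀ e ∈ S.crs τ0', ¬ Ln e) (hτ1 : ∀ e ∈ S.crs τ1', ¬ Ln e) : S.X P P' = 0 := by
  rw [h'.up P (fun J hJ hJL => h.low q hbq J hJ (fun e he hc => hω0 _ hc (hJL e he))
    (fun e he hc => hω1 _ hc (hJL e he)))]
  rw [S.X_comm h.inB h'.tB0 (disj_singleton hbq.ne), S.X_comm h.inB h'.tB1 (disj_singleton hbq.ne),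
    S.X_zero_blk h'.tH0 h.isH h'.tB0 h.inB (disj_singleton hbq.ne')
      (fun e he hc => hτ0 _ hc (h.inLn e he)),
    S.X_zero_blk h'.tH1 h.isH h'.tB1 h.inB (disj_singleton hbq.ne')
      (fun e he hc => hτ1 _ hc (h.inLn e he)), add_zero]

/-- Two half-edges in different blocks have intersection number zero. -/
lemma half_half (hp : p.Good k a) {l : ℕ} {b q : Fin 5} (hbq : b ≠ q)
    {P ω0 τ0 ω1 τ1 P' ω0' τ0' ω1' τ1' : Ch Vtx} {Ln Ln' : Sym2 Vtx → Prop}
    (h : Half S hp l b P ω0 τ0 ω1 τ1 Ln) (h' : Half S hp l q P' ω0' τ0' ω1' τ1' Ln')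
    (hω0 : ∀ e ∈ S.crs ω0, ¬ Ln' e) (hω1 : ∀ e ∈ S.crs ω1, ¬ Ln' e)
    (hτ0 : ∀ e ∈ S.crs τ0, ¬ Ln' e) (hτ1 : ∀ e ∈ S.crs τ1, ¬ Ln' e)
    (hω0' : ∀ e ∈ S.crs ω0', ¬ Ln e) (hω1' : ∀ e ∈ S.crs ω1', ¬ Ln e)
    (hτ0' : ∀ e ∈ S.crs τ0', ¬ Ln e) (hτ1' : ∀ e ∈ S.crs τ1', ¬ Ln e) : S.X P P' = 0 := by
  rcases lt_or_gt_of_ne hbq with hlt | hgt
  · exact half_half_lt hp hlt h h' hω0 hω1 hτ0' hτ1'
  · rw [S.X_comm h.inB h'.inB (disj_singleton hbq)]
    exact half_half_lt hp hgt h' h hω0' hω1' hτ0 hτ1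

/-- Half-edge which leaves the centre `(x, y)` vertically along cell column `x`, then
horizontally along cell row `t` to the point `(m, t)`. -/
lemma half_VH (hp : p.Good k a) {b : Fin 5} {x y t m m1 L l : ℕ} (hl : 2 * tmax p + p.s ≤ l)
    (hL : k * l + k < L + 1) (hLN : L + 1 ≤ p.N)
    (hx : S.OKc x) (hy : S.OKr y) (ht : S.OKr t) (hm : S.OKc m) (hxL : x + L < p.N)
    (hm1 : m1 + L < p.N) (hm2 : m1 ≤ m) (hm3 : m ≤ m1 + L) :
    Half S hp l b
      (vseg b (x * p.s) (y * p.s) (t * p.s) + hseg b (t * p.s) (x * p.s) (m * p.s))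
      (hseg b (y * p.s) (x * p.s) ((x + L) * p.s)) (S.tau hp b x y)
      (hseg b (t * p.s) (m1 * p.s) ((m1 + L) * p.s)) (S.tau hp b m t)
      (fun e => InCol p x e ∨ InRow p t e) := by
  have hs := s_pos hp
  refine ⟨?_, InB.add vseg_inB hseg_inB, ?_, tau_isH_row hp hx.1 hy, tau_isH_row hp hm.1 ht,
    tau_inB hp hx.1 hy.1, tau_inB hp hm.1 ht.1, ?_, ?_⟩
  · exact Setup.IsH.add S (vseg_isH (hx.good hs b) (coarse_lt hs hy.1) (coarse_lt hs ht.1))
      (hseg_isH (ht.good hs b) (coarse_lt hs hx.1) (coarse_lt hs hm.1))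
  · intro d hd
    rcases Multiset.mem_add.mp hd with h | h
    · exact Or.inl (inCol_vseg hs d h)
    · exact Or.inr (inRow_hseg hs d h)
  · intro q hbq J hJ h0 h1
    obtain ⟨φ, φ0, f1, f2, f3, f4⟩ := generic hp hbq hJ hL hLN
    rw [X_add_left, f2 x y t hx hy ht, f1 x m t hx hm ht,
      f3 x y x hx hy hxL le_rfl (by omega) h0, f3 m t m1 hm ht hm1 hm2 hm3 h1]
    linear_combination z2_add_self φ0 + z2_add_self (φ x t)
  · intro R hR
    have e1 : S.X R (vseg b (x * p.s) (y * p.s) (t * p.s))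
        = S.X R (S.tau hp b x y) + S.X R (S.tau hp b x t) := by
      refine telesV hp (j1 := min y t) (j2 := max y t) R (fun j g1 g2 => hR _ ?_ ?_)
        (by omega) (by omega) (by omega) (by omega)
      · have := hy.1
        have := ht.1
        exact jmpV_jump hp hx (by omega) hl
      · have := hy.1
        have := ht.1
        intro e he
        exact Or.inl (jmpV_inCol hp hx.1 (by omega) e he)
    have e2 : S.X R (hseg b (t * p.s) (x * p.s) (m * p.s))
        = S.X R (S.tau hp b x t) + S.X R (S.tau hp b m t) := by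
      refine telesH hp (i1 := min x m) (i2 := max x m) R (fun j g1 g2 => hR _ ?_ ?_)
        (by omega) (by omega) (by omega) (by omega)
      · have := hx.1
        have := hm.1
        exact jmpH_jump hp (by omega) ht hl
      · have := hx.1
        have := hm.1
        intro e he
        exact Or.inr (jmpH_inRow hp (by omega) ht.1 e he)
    rw [X_add_right, e1, e2]
    linear_combination z2_add_self (S.X R (S.tau hp b x t))

/-- Half-edge which leaves the centre `(x, y)` horizontally along cell row `y`, then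
vertically along cell column `t` to the point `(t, m)`. -/
lemma half_HV (hp : p.Good k a) {b : Fin 5} {x y t m m1 L l : ℕ} (hl : 2 * tmax p + p.s ≤ l)
    (hL : k * l + k < L + 1) (hLN : L + 1 ≤ p.N)
    (hx : S.OKc x) (hy : S.OKr y) (ht : S.OKc t) (hm : S.OKr m) (hxL : x + L < p.N)
    (hm1 : m1 + L < p.N) (hm2 : m1 ≤ m) (hm3 : m ≤ m1 + L) :
    Half S hp l b
      (hseg b (y * p.s) (x * p.s) (t * p.s) + vseg b (t * p.s) (y * p.s) (m * p.s))
      (hseg b (y * p.s) (x * p.s) ((x + L) * p.s)) (S.tau hp b x y)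
      (vseg b (t * p.s) (m1 * p.s) ((m1 + L) * p.s)) (S.tau hp b t m)
      (fun e => InRow p y e ∨ InCol p t e) := by
  have hs := s_pos hp
  refine ⟨?_, InB.add hseg_inB vseg_inB, ?_, tau_isH_row hp hx.1 hy, tau_isH_row hp ht.1 hm,
    tau_inB hp hx.1 hy.1, tau_inB hp ht.1 hm.1, ?_, ?_⟩
  · exact Setup.IsH.add S (hseg_isH (hy.good hs b) (coarse_lt hs hx.1) (coarse_lt hs ht.1))
      (vseg_isH (ht.good hs b) (coarse_lt hs hy.1) (coarse_lt hs hm.1))
  · intro d hd
    rcases Multiset.mem_add.mp hd with h | h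
    · exact Or.inl (inRow_hseg hs d h)
    · exact Or.inr (inCol_vseg hs d h)
  · intro q hbq J hJ h0 h1
    obtain ⟨φ, φ0, f1, f2, f3, f4⟩ := generic hp hbq hJ hL hLN
    rw [X_add_left, f1 x t y hx ht hy, f2 t y m ht hy hm,
      f3 x y x hx hy hxL le_rfl (by omega) h0, f4 t m m1 ht hm hm1 hm2 hm3 h1]
    linear_combination z2_add_self φ0 + z2_add_self (φ t y)
  · intro R hR
    have e1 : S.X R (hseg b (y * p.s) (x * p.s) (t * p.s))
        = S.X R (S.tau hp b x y) + S.X R (S.tau hp b t y) := by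
      refine telesH hp (i1 := min x t) (i2 := max x t) R (fun j g1 g2 => hR _ ?_ ?_)
        (by omega) (by omega) (by omega) (by omega)
      · have := hx.1
        have := ht.1
        exact jmpH_jump hp (by omega) hy hl
      · have := hx.1
        have := ht.1
        intro e he
        exact Or.inl (jmpH_inRow hp (by omega) hy.1 e he)
    have e2 : S.X R (vseg b (t * p.s) (y * p.s) (m * p.s))
        = S.X R (S.tau hp b t y) + S.X R (S.tau hp b t m) := by
      refine telesV hp (j1 := min y m) (j2 := max y m) R (fun j g1 g2 => hR _ ?_ ?_)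
        (by omega) (by omega) (by omega) (by omega)
      · have := hy.1
        have := hm.1
        exact jmpV_jump hp ht (by omega) hl
      · have := hy.1
        have := hm.1
        intro e he
        exact Or.inr (jmpV_inCol hp ht.1 (by omega) e he)
    rw [X_add_right, e1, e2]
    linear_combination z2_add_self (S.X R (S.tau hp b t y))

end Setup

end Pool.Agent.Lib.MP_ec8146_lc
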