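import Pool.Agent.Lib.MP_ec8146_lc.Tether

/-!
# Coarse lines, jumps and the anchoring lemma
-/

namespace Pool.Agent.Lib.MP_ec8146_lc

open Vtx

/-- all vertices of the edge lie in cell row `t` -/
def InRow (p : Par) (t : ℕ) (e : Sym2 Vtx) : Prop := ∀ v ∈ e, rowIx p v = t

/-- all vertices of the edge lie in cell column `t` -/
def InCol (p : Par) (t : ℕ) (e : Sym2 Vtx) : Prop := ∀ v ∈ e, colIx p v = t

lemma exists_free_row (p : Par) (E : Finset (Sym2 Vtx)) (t0 L : ℕ) (h : E.card < L + 1) :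
    ∃ t, t0 ≤ t ∧ t ≤ t0 + L ∧ ∀ e ∈ E, ¬ InRow p t e := by
  obtain ⟨t, ht, -, h2⟩ := exists_intact (Finset.Icc t0 (t0 + L)) (fun t v => rowIx p v = t)
    (fun i _ j _ v h1 h2 => h1.symm.trans h2) ∅ E (by
      simp only [Finset.card_empty, Nat.card_Icc]; omega)
  have := Finset.mem_Icc.mp ht
  exact ⟨t, this.1, this.2, h2⟩

lemma exists_free_col (p : Par) (E : Finset (Sym2 Vtx)) (t0 L : ℕ) (h : E.card < L + 1) :
    ∃ t, t0 ≤ t ∧ t ≤ t0 + L ∧ ∀ e ∈ E, ¬ InCol p t e := by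
  obtain ⟨t, ht, -, h2⟩ := exists_intact (Finset.Icc t0 (t0 + L)) (fun t v => colIx p v = t)
    (fun i _ j _ v h1 h2 => h1.symm.trans h2) ∅ E (by
      simp only [Finset.card_empty, Nat.card_Icc]; omega)
  have := Finset.mem_Icc.mp ht
  exact ⟨t, this.1, this.2, h2⟩

lemma inRow_hor (p : Par) (hs : 0 < p.s) (b : Fin 5) (x j : ℕ) :
    InRow p j s(base b x (j * p.s), base b (x + 1) (j * p.s)) := by
  intro v hv
  rcases Sym2.mem_iff.mp hv with rfl | rfl
  · exact Nat.mul_div_cancel _ hs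
  · exact Nat.mul_div_cancel _ hs

lemma inCol_ver (p : Par) (hs : 0 < p.s) (b : Fin 5) (i y : ℕ) :
    InCol p i s(base b (i * p.s) y, base b (i * p.s) (y + 1)) := by
  intro v hv
  rcases Sym2.mem_iff.mp hv with rfl | rfl
  · exact Nat.mul_div_cancel _ hs
  · exact Nat.mul_div_cancel _ hs

lemma inRow_hseg {p : Par} (hs : 0 < p.s) {b : Fin 5} {x x' j : ℕ} :
    ∀ d ∈ hseg b (j * p.s) x x', InRow p j s(d.1, d.2) := by
  intro d hd
  obtain ⟨i, h1, h2, rfl⟩ := mem_seg.mp hd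
  exact inRow_hor p hs b i j

lemma inCol_vseg {p : Par} (hs : 0 < p.s) {b : Fin 5} {y y' i : ℕ} :
    ∀ d ∈ vseg b (i * p.s) y y', InCol p i s(d.1, d.2) := by
  intro d hd
  obtain ⟨m, h1, h2, rfl⟩ := mem_seg.mp hd
  exact inCol_ver p hs b i m

lemma CellDart.inRow {p : Par} {c : Fin 5} {i j : ℕ} {d : Vtx × Vtx} (h : CellDart p c i j d) :
    InRow p j s(d.1, d.2) := by
  intro v hv
  rcases Sym2.mem_iff.mp hv with rfl | rfl
  · exact h.2.1.2.2
  · exact h.2.2.2.2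

lemma CellDart.inCol {p : Par} {c : Fin 5} {i j : ℕ} {d : Vtx × Vtx} (h : CellDart p c i j d) :
    InCol p i s(d.1, d.2) := by
  intro v hv
  rcases Sym2.mem_iff.mp hv with rfl | rfl
  · exact h.2.1.2.1
  · exact h.2.2.2.1

namespace Setup

variable {p : Par} {k a : ℕ} (S : Setup p k)

/-- the cell row contains no edge of `S0` -/
def OKr (j : ℕ) : Prop := j < p.N ∧ ∀ e ∈ S.S0, ¬ InRow p j e

/-- the cell column contains no edge of `S0` -/
def OKc (i : ℕ) : Prop := i < p.N ∧ ∀ e ∈ S.S0, ¬ InCol p i e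

variable {S}

lemma coarse_lt (hs : 0 < p.s) {i : ℕ} (hi : i < p.N) : i * p.s < p.M := by
  unfold Par.M
  exact Nat.mul_lt_mul_of_pos_right hi hs

lemma OKr.good (hs : 0 < p.s) {j : ℕ} (h : S.OKr j) (b : Fin 5) : S.goodRow b (j * p.s) := by
  refine ⟨coarse_lt hs h.1, ?_⟩
  intro x _ hx
  exact h.2 _ hx (inRow_hor p hs b x j)

lemma OKc.good (hs : 0 < p.s) {i : ℕ} (h : S.OKc i) (b : Fin 5) : S.goodCol b (i * p.s) := by
  refine ⟨coarse_lt hs h.1, ?_, ?_⟩
  · simp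
  · intro y _ hy
    exact h.2 _ hy (inCol_ver p hs b i y)

/-- jumps: short chains joining two holes of block `q` -/
structure Jump (S : Setup p k) (hp : p.Good k a) (q : Fin 5) (l : ℕ) (J : Ch Vtx) : Prop where
  jh : S.JH hp q J
  isH : S.IsH J
  inB : InB J {q}
  card : J.card ≤ l

lemma s_pos (hp : p.Good k a) : 0 < p.s := by have := hp.gs; omega

lemma disj_singleton {b q : Fin 5} (h : b ≠ q) : Disjoint ({b} : Finset (Fin 5)) {q} := by
  simpa using h

lemma crs_mono {P Q : Ch Vtx} (h : ∀ d ∈ P, d ∈ Q) : S.crs P ⊆ S.crs Q := by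
  intro e he
  obtain ⟨d, hd, hd'⟩ := S.mem_crs.mp he
  exact S.mem_crs.mpr ⟨d, h d hd, hd'⟩

/-- The anchoring lemma. -/
lemma generic (hp : p.Good k a) {b q : Fin 5} (hbq : b < q) {J : Ch Vtx} {l L : ℕ}
    (hJ : Jump S hp q l J) (hL : k * l + k < L + 1) (hLN : L + 1 ≤ p.N) :
    ∃ φ : ℕ → ℕ → ZMod 2, ∃ φ0 : ZMod 2,
      (∀ i i' j, S.OKc i → S.OKc i' → S.OKr j →
        S.X (hseg b (j * p.s) (i * p.s) (i' * p.s)) J = φ i j + φ i' j) ∧
      (∀ i j j', S.OKc i → S.OKr j → S.OKr j' →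
        S.X (vseg b (i * p.s) (j * p.s) (j' * p.s)) J = φ i j + φ i j') ∧
      (∀ i j i1, S.OKc i → S.OKr j → i1 + L < p.N → i1 ≤ i → i ≤ i1 + L →
        (∀ e ∈ J, s(e.1, e.2) ∉ S.crs (hseg b (j * p.s) (i1 * p.s) ((i1 + L) * p.s))) →
        φ i j = φ0) ∧
      (∀ i j j1, S.OKc i → S.OKr j → j1 + L < p.N → j1 ≤ j → j ≤ j1 + L →
        (∀ e ∈ J, s(e.1, e.2) ∉ S.crs (vseg b (i * p.s) (j1 * p.s) ((j1 + L) * p.s))) →
        φ i j = φ0) := by
  classical
  have hs := s_pos hp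
  obtain ⟨φ, h1, h2⟩ := exists_potential hp hbq hJ.jh
  have hE : (S.crs J ∪ S.S0).card < L + 1 := by
    have e1 := Finset.card_union_le (S.crs J) S.S0
    have e2 := S.card_crs J
    have e3 := S.S0_card
    have e4 : k * J.card ≤ k * l := Nat.mul_le_mul_left _ hJ.card
    omega
  have hh : ∀ i i' j, S.OKc i → S.OKc i' → S.OKr j →
      S.X (hseg b (j * p.s) (i * p.s) (i' * p.s)) J = φ (i * p.s) (j * p.s)
        + φ (i' * p.s) (j * p.s) :=
    fun i i' j g1 g2 g3 => h1 _ _ _ (g1.good hs b) (g2.good hs b) (g3.good hs b)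
  have hv : ∀ i j j', S.OKc i → S.OKr j → S.OKr j' →
      S.X (vseg b (i * p.s) (j * p.s) (j' * p.s)) J = φ (i * p.s) (j * p.s)
        + φ (i * p.s) (j' * p.s) :=
    fun i j j' g1 g2 g3 => h2 _ _ _ (g1.good hs b) (g2.good hs b) (g3.good hs b)
  have heq : ∀ u v : ZMod 2, u + v = 0 → u = v := by decide
  -- free rows and columns
  have okr : ∀ j, j < p.N → (∀ e ∈ S.crs J ∪ S.S0, ¬ InRow p j e) → S.OKr j :=
    fun j hj h => ⟨hj, fun e he => h e (Finset.mem_union_right _ he)⟩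
  have okc : ∀ i, i < p.N → (∀ e ∈ S.crs J ∪ S.S0, ¬ InCol p i e) → S.OKc i :=
    fun i hi h => ⟨hi, fun e he => h e (Finset.mem_union_right _ he)⟩
  have F1 : ∀ i i' j, S.OKc i → S.OKc i' → j < p.N → (∀ e ∈ S.crs J ∪ S.S0, ¬ InRow p j e) →
      φ (i * p.s) (j * p.s) = φ (i' * p.s) (j * p.s) := by
    intro i i' j g1 g2 hj g3
    apply heq
    rw [← hh i i' j g1 g2 (okr j hj g3)]
    have hHH : S.IsH (hseg b (j * p.s) (i * p.s) (i' * p.s)) :=
      hseg_isH ((okr j hj g3).good hs b) (coarse_lt hs g1.1) (coarse_lt hs g2.1)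
    rw [S.X_comm hseg_inB hJ.inB (disj_singleton hbq.ne)]
    refine S.X_zero_blk hJ.isH hHH hJ.inB hseg_inB (disj_singleton hbq.ne') ?_
    intro e he hc
    exact g3 _ (Finset.mem_union_left _ hc) (inRow_hseg hs e he)
  have F2 : ∀ i j j', i < p.N → (∀ e ∈ S.crs J ∪ S.S0, ¬ InCol p i e) → S.OKr j → S.OKr j' →
      φ (i * p.s) (j * p.s) = φ (i * p.s) (j' * p.s) := by
    intro i j j' hi g3 g1 g2
    apply heq
    rw [← hv i j j' (okc i hi g3) g1 g2]
    have hHH : S.IsH (vseg b (i * p.s) (j * p.s) (j' * p.s)) :=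
      vseg_isH ((okc i hi g3).good hs b) (coarse_lt hs g1.1) (coarse_lt hs g2.1)
    rw [S.X_comm vseg_inB hJ.inB (disj_singleton hbq.ne)]
    refine S.X_zero_blk hJ.isH hHH hJ.inB vseg_inB (disj_singleton hbq.ne') ?_
    intro e he hc
    exact g3 _ (Finset.mem_union_left _ hc) (inCol_vseg hs e he)
  obtain ⟨iF, -, hiF, giF⟩ := exists_free_col p (S.crs J ∪ S.S0) 0 L hE
  obtain ⟨jF, -, hjF, gjF⟩ := exists_free_row p (S.crs J ∪ S.S0) 0 L hE
  have hiN : iF < p.N := by omega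
  have hjN : jF < p.N := by omega
  refine ⟨fun i j => φ (i * p.s) (j * p.s), φ (iF * p.s) (jF * p.s), hh, hv, ?_, ?_⟩
  · intro i j i1 hi hj hi1 h3 h4 hω
    obtain ⟨i2, h5, h6, h7⟩ := exists_free_col p (S.crs J ∪ S.S0) i1 L hE
    have hi2 : S.OKc i2 := okc i2 (by omega) h7
    have e1 : φ (i * p.s) (j * p.s) = φ (i2 * p.s) (j * p.s) := by
      apply heq
      rw [← hh i i2 j hi hi2 hj]
      refine S.X_zero_blk (hseg_isH (hj.good hs b) (coarse_lt hs hi.1) (coarse_lt hs hi2.1))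
        hJ.isH hseg_inB hJ.inB (disj_singleton hbq.ne) ?_
      intro e he hc
      refine hω e he (crs_mono ?_ hc)
      intro d hd
      obtain ⟨m, m1, m2, rfl⟩ := mem_seg.mp hd
      have n1 : i1 * p.s ≤ i * p.s := Nat.mul_le_mul_right _ h3
      have n2 : i * p.s ≤ (i1 + L) * p.s := Nat.mul_le_mul_right _ h4
      have n3 : i1 * p.s ≤ i2 * p.s := Nat.mul_le_mul_right _ h5
      have n4 : i2 * p.s ≤ (i1 + L) * p.s := Nat.mul_le_mul_right _ h6
      exact mem_seg.mpr ⟨m, by omega, by omega, rfl⟩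
    rw [show (fun i j => φ (i * p.s) (j * p.s)) i j = φ (i * p.s) (j * p.s) from rfl, e1,
      F2 i2 j jF (by omega) h7 hj (okr jF hjN gjF)]
    exact F1 i2 iF jF hi2 (okc iF hiN giF) hjN gjF
  · intro i j j1 hi hj hj1 h3 h4 hω
    obtain ⟨j2, h5, h6, h7⟩ := exists_free_row p (S.crs J ∪ S.S0) j1 L hE
    have hj2 : S.OKr j2 := okr j2 (by omega) h7
    have e1 : φ (i * p.s) (j * p.s) = φ (i * p.s) (j2 * p.s) := by
      apply heq
      rw [← hv i j j2 hi hj hj2]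
      refine S.X_zero_blk (vseg_isH (hi.good hs b) (coarse_lt hs hj.1) (coarse_lt hs hj2.1))
        hJ.isH vseg_inB hJ.inB (disj_singleton hbq.ne) ?_
      intro e he hc
      refine hω e he (crs_mono ?_ hc)
      intro d hd
      obtain ⟨m, m1, m2, rfl⟩ := mem_seg.mp hd
      have n1 : j1 * p.s ≤ j * p.s := Nat.mul_le_mul_right _ h3
      have n2 : j * p.s ≤ (j1 + L) * p.s := Nat.mul_le_mul_right _ h4
      have n3 : j1 * p.s ≤ j2 * p.s := Nat.mul_le_mul_right _ h5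
      have n4 : j2 * p.s ≤ (j1 + L) * p.s := Nat.mul_le_mul_right _ h6
      exact mem_seg.mpr ⟨m, by omega, by omega, rfl⟩
    rw [show (fun i j => φ (i * p.s) (j * p.s)) i j = φ (i * p.s) (j * p.s) from rfl, e1,
      F1 i iF j2 hi (okc iF hiN giF) (by omega) h7]
    exact F2 iF j2 jF hiN giF hj2 (okr jF hjN gjF)

/-! ### tethers of the chosen holes -/

/-- the tether of a cell -/
noncomputable def tau (S : Setup p k) (hp : p.Good k a) (c : Fin 5) (i j : ℕ) : Ch Vtx :=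
  teth p c i j (p.D - a) (S.hol a hp c i j * p.w c)

lemma hol_bound (hp : p.Good k a) (c : Fin 5) (i j : ℕ) :
    S.hol a hp c i j * p.w c ≤ p.w c * 2 ^ (p.D - a) := by
  rw [mul_comm]
  exact Nat.mul_le_mul_left _ (S.hol_lt hp c i j).le

lemma Bd_tau (hp : p.Good k a) (c : Fin 5) (i j : ℕ) :
    Bd (S.tau hp c i j) (base c (i * p.s) (j * p.s)) (S.cnr hp c i j) :=
  Bd_teth p c i j _ _ (by have := hp.aD; omega)

/-- uniform bound for the length of the tethers -/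
def tmax (p : Par) : ℕ := 3 * p.g + 2 + 2 * p.D

lemma card_tau (hp : p.Good k a) (c : Fin 5) (i j : ℕ) : (S.tau hp c i j).card ≤ tmax p := by
  have h1 := card_teth p c i j (p.D - a) (S.hol a hp c i j * p.w c)
    (by have := hp.aD; omega) (hol_bound hp c i j)
  have h2 := hp.wg c
  unfold tau tmax
  omega

lemma cell_tau (hp : p.Good k a) {c : Fin 5} {i j : ℕ} (hi : i < p.N) (hj : j < p.N) :
    ∀ d ∈ S.tau hp c i j, CellDart p c i j d :=
  cell_teth p hp.gs hi hj (by have := hp.aD; omega) (by omega) (hol_bound hp c i j)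

lemma tau_inB (hp : p.Good k a) {c : Fin 5} {i j : ℕ} (hi : i < p.N) (hj : j < p.N) :
    InB (S.tau hp c i j) {c} := by
  intro d hd
  have := cell_tau hp hi hj d hd
  simp [this.2.1.1, this.2.2.1]

lemma tau_isH_row (hp : p.Good k a) {c : Fin 5} {i j : ℕ} (hi : i < p.N) (hj : S.OKr j) :
    S.IsH (S.tau hp c i j) := by
  intro d hd
  have := cell_tau hp hi hj.1 d hd
  exact ⟨Or.inl this.1, fun h => hj.2 _ h this.inRow⟩

lemma tau_isH_col (hp : p.Good k a) {c : Fin 5} {i j : ℕ} (hi : S.OKc i) (hj : j < p.N) :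
    S.IsH (S.tau hp c i j) := by
  intro d hd
  have := cell_tau hp hi.1 hj d hd
  exact ⟨Or.inl this.1, fun h => hi.2 _ h this.inCol⟩

/-- unit horizontal jump -/
noncomputable def jmpH (S : Setup p k) (hp : p.Good k a) (c : Fin 5) (i j : ℕ) : Ch Vtx :=
  S.tau hp c i j + hseg c (j * p.s) (i * p.s) ((i + 1) * p.s) + S.tau hp c (i + 1) j

/-- unit vertical jump -/
noncomputable def jmpV (S : Setup p k) (hp : p.Good k a) (c : Fin 5) (i j : ℕ) : Ch Vtx :=
  S.tau hp c i j + vseg c (i * p.s) (j * p.s) ((j + 1) * p.s) + S.tau hp c i (j + 1)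

lemma jmpH_jump (hp : p.Good k a) {c : Fin 5} {i j l : ℕ} (hi : i + 1 < p.N) (hj : S.OKr j)
    (hl : 2 * tmax p + p.s ≤ l) : Jump S hp c l (S.jmpH hp c i j) := by
  have hs := s_pos hp
  refine ⟨⟨i, j, i + 1, j, by omega, hj.1, hi, hj.1, ?_⟩, ?_, ?_, ?_⟩
  · exact ((Bd_tau hp c i j).symm.add (Bd_seg (fun m => base c m (j * p.s)) _ _)).add
      (Bd_tau hp c (i + 1) j)
  · exact Setup.IsH.add S (Setup.IsH.add S (tau_isH_row hp (by omega) hj)
      (hseg_isH (hj.good hs c) (coarse_lt hs (by omega)) (coarse_lt hs hi)))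
      (tau_isH_row hp hi hj)
  · exact InB.add (InB.add (tau_inB hp (by omega) hj.1) hseg_inB) (tau_inB hp hi hj.1)
  · have h1 := card_tau (S := S) hp c i j
    have h2 := card_tau (S := S) hp c (i + 1) j
    have h3 : (i + 1) * p.s = i * p.s + p.s := by ring
    simp only [jmpH, hseg, Multiset.card_add, card_seg]
    omega

lemma jmpV_jump (hp : p.Good k a) {c : Fin 5} {i j l : ℕ} (hi : S.OKc i) (hj : j + 1 < p.N)
    (hl : 2 * tmax p + p.s ≤ l) : Jump S hp c l (S.jmpV hp c i j) := by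
  have hs := s_pos hp
  refine ⟨⟨i, j, i, j + 1, hi.1, by omega, hi.1, hj, ?_⟩, ?_, ?_, ?_⟩
  · exact ((Bd_tau hp c i j).symm.add (Bd_seg (fun m => base c (i * p.s) m) _ _)).add
      (Bd_tau hp c i (j + 1))
  · exact Setup.IsH.add S (Setup.IsH.add S (tau_isH_col hp hi (by omega))
      (vseg_isH (hi.good hs c) (coarse_lt hs (by omega)) (coarse_lt hs hj)))
      (tau_isH_col hp hi hj)
  · exact InB.add (InB.add (tau_inB hp hi.1 (by omega)) vseg_inB) (tau_inB hp hi.1 hj)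
  · have h1 := card_tau (S := S) hp c i j
    have h2 := card_tau (S := S) hp c i (j + 1)
    have h3 : (j + 1) * p.s = j * p.s + p.s := by ring
    simp only [jmpV, vseg, Multiset.card_add, card_seg]
    omega

lemma jmpH_inRow (hp : p.Good k a) {c : Fin 5} {i j : ℕ} (hi : i + 1 < p.N) (hj : j < p.N) :
    ∀ d ∈ S.jmpH hp c i j, InRow p j s(d.1, d.2) := by
  have hs := s_pos hp
  intro d hd
  simp only [jmpH, Multiset.mem_add] at hd
  rcases hd with (hd | hd) | hd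
  · exact (cell_tau hp (by omega) hj d hd).inRow
  · exact inRow_hseg hs d hd
  · exact (cell_tau hp hi hj d hd).inRow

lemma jmpV_inCol (hp : p.Good k a) {c : Fin 5} {i j : ℕ} (hi : i < p.N) (hj : j + 1 < p.N) :
    ∀ d ∈ S.jmpV hp c i j, InCol p i s(d.1, d.2) := by
  have hs := s_pos hp
  intro d hd
  simp only [jmpV, Multiset.mem_add] at hd
  rcases hd with (hd | hd) | hd
  · exact (cell_tau hp hi (by omega) d hd).inCol
  · exact inCol_vseg hs d hd
  · exact (cell_tau hp hi hj d hd).inCol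

/-! ### telescoping -/

lemma X_seg_right (R : Ch Vtx) (f : ℕ → Vtx) : ∃ F : ℕ → ZMod 2, ∀ x x',
    S.X R (seg f x x') = F x + F x' := by
  refine ⟨fun x => ∑ i ∈ Finset.range x, (R.map (fun d => c0 S.eta S.N d (f i, f (i + 1)))).sum,
    ?_⟩
  intro x x'
  unfold X cr
  rw [Multiset.sum_map_sum_map]
  exact seg_sum f x x' (fun e => (R.map (fun d => c0 S.eta S.N d e)).sum)

lemma const_of_step (G : ℕ → ZMod 2) (i1 i2 : ℕ) (h : ∀ i, i1 ≤ i → i + 1 ≤ i2 → G i + G (i + 1) = 0)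
    (i i' : ℕ) (h1 : i1 ≤ i) (h2 : i ≤ i2) (h3 : i1 ≤ i') (h4 : i' ≤ i2) : G i + G i' = 0 := by
  wlog hle : i ≤ i' generalizing i i' with H
  · rw [add_comm]; exact H i' i h3 h4 h1 h2 (by omega)
  obtain ⟨n, rfl⟩ := Nat.exists_eq_add_of_le hle
  clear hle
  induction n with
  | zero => exact z2_add_self _
  | succ n ih =>
    have e1 := ih (by omega) (by omega)
    have e2 := h (i + n) (by omega) (by omega)
    rw [show i + (n + 1) = i + n + 1 by ring]
    linear_combination e1 + e2 - z2_add_self (G (i + n))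

lemma telesH (hp : p.Good k a) {c : Fin 5} {j i1 i2 : ℕ} (R : Ch Vtx)
    (h : ∀ i, i1 ≤ i → i + 1 ≤ i2 → S.X R (S.jmpH hp c i j) = 0)
    {i i' : ℕ} (h1 : i1 ≤ i) (h2 : i ≤ i2) (h3 : i1 ≤ i') (h4 : i' ≤ i2) :
    S.X R (hseg c (j * p.s) (i * p.s) (i' * p.s))
      = S.X R (S.tau hp c i j) + S.X R (S.tau hp c i' j) := by
  obtain ⟨F, hF⟩ := X_seg_right (S := S) R (fun m => base c m (j * p.s))
  have key := const_of_step (fun i => F (i * p.s) + S.X R (S.tau hp c i j)) i1 i2 (by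
    intro i g1 g2
    have := h i g1 g2
    rw [jmpH, X_add_right, X_add_right, hseg, hF] at this
    linear_combination this) i i' h1 h2 h3 h4
  rw [hseg, hF]
  linear_combination key - z2_add_self (S.X R (S.tau hp c i j))
    - z2_add_self (S.X R (S.tau hp c i' j))

lemma telesV (hp : p.Good k a) {c : Fin 5} {i j1 j2 : ℕ} (R : Ch Vtx)
    (h : ∀ j, j1 ≤ j → j + 1 ≤ j2 → S.X R (S.jmpV hp c i j) = 0)
    {j j' : ℕ} (h1 : j1 ≤ j) (h2 : j ≤ j2) (h3 : j1 ≤ j') (h4 : j' ≤ j2) :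
    S.X R (vseg c (i * p.s) (j * p.s) (j' * p.s))
      = S.X R (S.tau hp c i j) + S.X R (S.tau hp c i j') := by
  obtain ⟨F, hF⟩ := X_seg_right (S := S) R (fun m => base c (i * p.s) m)
  have key := const_of_step (fun j => F (j * p.s) + S.X R (S.tau hp c i j)) j1 j2 (by
    intro j g1 g2
    have := h j g1 g2
    rw [jmpV, X_add_right, X_add_right, vseg, hF] at this
    linear_combination this) j j' h1 h2 h3 h4
  rw [vseg, hF]
  linear_combination key - z2_add_self (S.X R (S.tau hp c i j))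
    - z2_add_self (S.X R (S.tau hp c i j'))

end Setup

end Pool.Agent.Lib.MP_ec8146_lc
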