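import Mathlib

/-!
# Local types of tuples in a coloured graph
-/

namespace Pool.Agent.Lib.MP_ec8146_lc

variable {V : Type*} {κ : Type}

/-- atomic information about an `ι`-tuple: colours and distances up to `3 ^ l` -/
def At (κ : Type) (l : ℕ) (ι : Type) : Type :=
  (ι → κ → Prop) × (ι → ι → Fin (3 ^ l + 1) → Prop)

/-- local types of rank `l` -/
def Tp (κ : Type) : ℕ → Type → Type
  | 0, ι => At κ 0 ι
  | l + 1, ι => At κ (l + 1) ι × Set (Tp κ l (Option ι))

lemma finite_At (κ : Type) [Finite κ] (l : ℕ) (ι : Type) [Finite ι] : Finite (At κ l ι) := by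
  unfold At
  infer_instance

lemma finite_Tp (κ : Type) [Finite κ] (l : ℕ) : ∀ (ι : Type) [Finite ι], Finite (Tp κ l ι) := by
  induction l with
  | zero => intro ι _; exact finite_At κ 0 ι
  | succ l ih =>
    intro ι _
    have h1 := finite_At κ (l + 1) ι
    have h2 := ih (Option ι)
    change Finite (At κ (l + 1) ι × Set (Tp κ l (Option ι)))
    infer_instance

/-- extension of a tuple by one element -/
def ext {ι : Type} (a : ι → V) (c : V) : Option ι → V := fun o => o.elim c a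

section

variable (G : SimpleGraph V) (C : κ → Set V)

/-- the atomic type of a tuple -/
noncomputable def at' (l : ℕ) {ι : Type} (a : ι → V) : At κ l ι :=
  (fun i k => a i ∈ C k, fun i j t => G.edist (a i) (a j) ≤ (t.val : ℕ∞))

/-- the local type of a tuple -/
noncomputable def tp : (l : ℕ) → {ι : Type} → (ι → V) → Tp κ l ι
  | 0, _, a => at' G C 0 a
  | l + 1, _, a => (at' G C (l + 1) a,
      {τ | ∃ c, (∃ i, G.edist (a i) c ≤ ((3 ^ l : ℕ) : ℕ∞)) ∧ τ = tp l (ext a c)})

variable {G C}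

lemma at_dist {l : ℕ} {ι : Type} {a b : ι → V} (h : at' G C l a = at' G C l b) (i j : ι) (t : ℕ)
    (ht : t ≤ 3 ^ l) : G.edist (a i) (a j) ≤ (t : ℕ∞) ↔ G.edist (b i) (b j) ≤ (t : ℕ∞) := by
  have h2 := congrArg Prod.snd h
  have h3 := congrFun (congrFun (congrFun h2 i) j) ⟨t, by omega⟩
  exact iff_of_eq h3

lemma at_col {l : ℕ} {ι : Type} {a b : ι → V} (h : at' G C l a = at' G C l b) (i : ι) (k : κ) :
    a i ∈ C k ↔ b i ∈ C k := by
  have h2 := congrArg Prod.fst h
  exact iff_of_eq (congrFun (congrFun h2 i) k)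

lemma at_ext {l : ℕ} {ι : Type} {a b : ι → V} (h1 : ∀ i k, a i ∈ C k ↔ b i ∈ C k)
    (h2 : ∀ i j, ∀ t : ℕ, t ≤ 3 ^ l →
      (G.edist (a i) (a j) ≤ (t : ℕ∞) ↔ G.edist (b i) (b j) ≤ (t : ℕ∞))) :
    at' G C l a = at' G C l b := by
  unfold at'
  congr 1
  · funext i k
    exact propext (h1 i k)
  · funext i j t
    exact propext (h2 i j t.val (by have := t.2; omega))

lemma at_mono {l l' : ℕ} (hl : l ≤ l') {ι : Type} {a b : ι → V}
    (h : at' G C l' a = at' G C l' b) : at' G C l a = at' G C l b :=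
  at_ext (at_col h) (fun i j t ht => at_dist h i j t
    (ht.trans (Nat.pow_le_pow_right (by norm_num) hl)))

lemma at_comp {l : ℕ} {ι ι' : Type} {a b : ι → V} (h : at' G C l a = at' G C l b) (f : ι' → ι) :
    at' G C l (a ∘ f) = at' G C l (b ∘ f) :=
  at_ext (fun i k => at_col h (f i) k) (fun i j t ht => at_dist h (f i) (f j) t ht)

lemma tp_at {l : ℕ} {ι : Type} {a b : ι → V} (h : tp G C l a = tp G C l b) :
    at' G C l a = at' G C l b := by
  cases l with
  | zero => exact h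
  | succ l => exact congrArg Prod.fst h

lemma tp_forth {l : ℕ} {ι : Type} {a b : ι → V} (h : tp G C (l + 1) a = tp G C (l + 1) b) (c : V)
    (hc : ∃ i, G.edist (a i) c ≤ ((3 ^ l : ℕ) : ℕ∞)) :
    ∃ d, (∃ i, G.edist (b i) d ≤ ((3 ^ l : ℕ) : ℕ∞)) ∧
      tp G C l (ext a c) = tp G C l (ext b d) := by
  have h2 : {τ | ∃ c, (∃ i, G.edist (a i) c ≤ ((3 ^ l : ℕ) : ℕ∞)) ∧ τ = tp G C l (ext a c)}
      = {τ | ∃ c, (∃ i, G.edist (b i) c ≤ ((3 ^ l : ℕ) : ℕ∞)) ∧ τ = tp G C l (ext b c)} :=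
    congrArg Prod.snd h
  have h3 : tp G C l (ext a c) ∈
      {τ | ∃ c, (∃ i, G.edist (a i) c ≤ ((3 ^ l : ℕ) : ℕ∞)) ∧ τ = tp G C l (ext a c)} :=
    ⟨c, hc, rfl⟩
  rw [h2] at h3
  exact h3

lemma tp_succ_of {l : ℕ} {ι : Type} {a b : ι → V} (h0 : at' G C (l + 1) a = at' G C (l + 1) b)
    (h1 : ∀ c, (∃ i, G.edist (a i) c ≤ ((3 ^ l : ℕ) : ℕ∞)) →
      ∃ d, (∃ i, G.edist (b i) d ≤ ((3 ^ l : ℕ) : ℕ∞)) ∧ tp G C l (ext a c) = tp G C l (ext b d))
    (h2 : ∀ c, (∃ i, G.edist (b i) c ≤ ((3 ^ l : ℕ) : ℕ∞)) →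
      ∃ d, (∃ i, G.edist (a i) d ≤ ((3 ^ l : ℕ) : ℕ∞)) ∧
        tp G C l (ext b c) = tp G C l (ext a d)) :
    tp G C (l + 1) a = tp G C (l + 1) b := by
  refine Prod.ext h0 ?_
  ext τ
  constructor
  · rintro ⟨c, hc, rfl⟩
    obtain ⟨d, hd, he⟩ := h1 c hc
    exact ⟨d, hd, he⟩
  · rintro ⟨c, hc, rfl⟩
    obtain ⟨d, hd, he⟩ := h2 c hc
    exact ⟨d, hd, he⟩

/-- restriction of types -/
lemma tp_comp (l : ℕ) : ∀ {ι ι' : Type} {a b : ι → V} (f : ι' → ι),
    tp G C l a = tp G C l b → tp G C l (a ∘ f) = tp G C l (b ∘ f) := by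
  induction l with
  | zero => intro ι ι' a b f h; exact at_comp h f
  | succ l ih =>
    intro ι ι' a b f h
    have aux : ∀ {a b : ι → V}, tp G C (l + 1) a = tp G C (l + 1) b → ∀ c,
        (∃ i, G.edist ((a ∘ f) i) c ≤ ((3 ^ l : ℕ) : ℕ∞)) →
        ∃ d, (∃ i, G.edist ((b ∘ f) i) d ≤ ((3 ^ l : ℕ) : ℕ∞)) ∧
          tp G C l (ext (a ∘ f) c) = tp G C l (ext (b ∘ f) d) := by
      intro a b h c hc
      obtain ⟨i, hi⟩ := hc
      obtain ⟨d, -, hd⟩ := tp_forth h c ⟨f i, hi⟩
      refine ⟨d, ⟨i, ?_⟩, ?_⟩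
      · exact (at_dist (tp_at hd) (some (f i)) none (3 ^ l) le_rfl).mp hi
      · have h3 := ih (Option.map f) hd
        have e1 : ∀ (a : ι → V) (c : V), ext a c ∘ Option.map f = ext (a ∘ f) c := by
          intro a c
          funext o
          cases o <;> rfl
        rwa [e1, e1] at h3
    exact tp_succ_of (at_comp (tp_at h) f) (aux h) (aux h.symm)

lemma tp_pred {l : ℕ} {ι : Type} [Nonempty ι] {a b : ι → V}
    (h : tp G C (l + 1) a = tp G C (l + 1) b) : tp G C l a = tp G C l b := by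
  obtain ⟨i0⟩ := ‹Nonempty ι›
  obtain ⟨d, -, hd⟩ := tp_forth h (a i0) ⟨i0, by simp⟩
  exact tp_comp l some hd

lemma tp_mono {l l' : ℕ} (hl : l ≤ l') {ι : Type} [Nonempty ι] {a b : ι → V}
    (h : tp G C l' a = tp G C l' b) : tp G C l a = tp G C l b := by
  induction l', hl using Nat.le_induction with
  | base => exact h
  | succ n _ ih => exact ih (tp_pred h)

lemma edist_tri {x y z : V} {m n k : ℕ} (h1 : G.edist x y ≤ (m : ℕ∞)) (h2 : G.edist y z ≤ (n : ℕ∞))
    (hk : m + n ≤ k) : G.edist x z ≤ (k : ℕ∞) := by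
  calc G.edist x z ≤ G.edist x y + G.edist y z := G.edist_triangle
    _ ≤ (m : ℕ∞) + n := add_le_add h1 h2
    _ = ((m + n : ℕ) : ℕ∞) := by push_cast; rfl
    _ ≤ (k : ℕ∞) := by exact_mod_cast hk

/-- composition of far apart tuples -/
theorem tp_sum (l : ℕ) : ∀ {ι ι' : Type} [Nonempty ι] [Nonempty ι'] {a b : ι → V} {c d : ι' → V},
    tp G C l a = tp G C l b → tp G C l c = tp G C l d →
    (∀ i j, ¬ G.edist (a i) (c j) ≤ ((3 ^ l : ℕ) : ℕ∞)) →
    (∀ i j, ¬ G.edist (b i) (d j) ≤ ((3 ^ l : ℕ) : ℕ∞)) →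
    tp G C l (Sum.elim a c) = tp G C l (Sum.elim b d) := by
  have atsum : ∀ l : ℕ, ∀ {ι ι' : Type} {a b : ι → V} {c d : ι' → V},
      at' G C l a = at' G C l b → at' G C l c = at' G C l d →
      (∀ i j, ¬ G.edist (a i) (c j) ≤ ((3 ^ l : ℕ) : ℕ∞)) →
      (∀ i j, ¬ G.edist (b i) (d j) ≤ ((3 ^ l : ℕ) : ℕ∞)) →
      at' G C l (Sum.elim a c) = at' G C l (Sum.elim b d) := by
    intro l ι ι' a b c d h1 h2 h3 h4
    refine at_ext ?_ ?_
    · rintro (i | i) k
      · exact at_col h1 i k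
      · exact at_col h2 i k
    · have far : ∀ {x y : V} {t : ℕ}, t ≤ 3 ^ l → ¬ G.edist x y ≤ ((3 ^ l : ℕ) : ℕ∞) →
          ¬ G.edist x y ≤ (t : ℕ∞) := by
        intro x y t ht h hh
        exact h (hh.trans (by exact_mod_cast ht))
      rintro (i | i) (j | j) t ht
      · exact at_dist h1 i j t ht
      · exact iff_of_false (far ht (h3 i j)) (far ht (h4 i j))
      · simp only [Sum.elim_inr, Sum.elim_inl]
        rw [G.edist_comm, G.edist_comm (u := d i)]
        exact iff_of_false (far ht (h3 j i)) (far ht (h4 j i))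
      · exact at_dist h2 i j t ht
  induction l with
  | zero => intro ι ι' _ _ a b c d h1 h2 h3 h4; exact atsum 0 h1 h2 h3 h4
  | succ l ih =>
    have aux : ∀ {ι ι' : Type} [Nonempty ι] [Nonempty ι'] {a b : ι → V} {c d : ι' → V},
        tp G C (l + 1) a = tp G C (l + 1) b → tp G C (l + 1) c = tp G C (l + 1) d →
        (∀ i j, ¬ G.edist (a i) (c j) ≤ ((3 ^ (l + 1) : ℕ) : ℕ∞)) →
        (∀ i j, ¬ G.edist (b i) (d j) ≤ ((3 ^ (l + 1) : ℕ) : ℕ∞)) →
        ∀ e, (∃ i, G.edist (Sum.elim a c i) e ≤ ((3 ^ l : ℕ) : ℕ∞)) →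
        ∃ e', (∃ i, G.edist (Sum.elim b d i) e' ≤ ((3 ^ l : ℕ) : ℕ∞)) ∧
          tp G C l (ext (Sum.elim a c) e) = tp G C l (ext (Sum.elim b d) e') := by
      intro ι ι' _ _ a b c d h1 h2 h3 h4 e he
      have hpow : 3 ^ l + 3 ^ l ≤ 3 ^ (l + 1) := by rw [pow_succ]; omega
      have hpow' : 3 ^ l ≤ 3 ^ (l + 1) := by omega
      have weak : ∀ {x y : V}, ¬ G.edist x y ≤ ((3 ^ (l + 1) : ℕ) : ℕ∞) →
          ¬ G.edist x y ≤ ((3 ^ l : ℕ) : ℕ∞) := by
        intro x y h hh
        exact h (hh.trans (by exact_mod_cast hpow'))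
      obtain ⟨i | j, hi⟩ := he
      · obtain ⟨e', ⟨i', hi'⟩, he'⟩ := tp_forth h1 e ⟨i, hi⟩
        refine ⟨e', ⟨Sum.inl i', hi'⟩, ?_⟩
        have key := ih he' (tp_pred h2) (c := c) (d := d) (by
          rintro (_ | o) j
          · intro hh
            exact h3 i j (edist_tri hi hh hpow)
          · exact weak (h3 o j)) (by
          rintro (_ | o) j
          · intro hh
            exact h4 i' j (edist_tri hi' hh hpow)
          · exact weak (h4 o j))
        have key2 := tp_comp l (fun o : Option (ι ⊕ ι') => (match o with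
          | none => Sum.inl none
          | some (Sum.inl i) => Sum.inl (some i)
          | some (Sum.inr j) => Sum.inr j : (Option ι) ⊕ ι')) key
        have e1 : ∀ (a : ι → V) (c : ι' → V) (e : V), Sum.elim (ext a e) c ∘
            (fun o : Option (ι ⊕ ι') => (match o with
            | none => Sum.inl none
            | some (Sum.inl i) => Sum.inl (some i)
            | some (Sum.inr j) => Sum.inr j : (Option ι) ⊕ ι')) = ext (Sum.elim a c) e := by
          intro a c e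
          funext o
          rcases o with _ | (i | j) <;> rfl
        rwa [e1, e1] at key2
      · obtain ⟨e', ⟨j', hj'⟩, he'⟩ := tp_forth h2 e ⟨j, hi⟩
        refine ⟨e', ⟨Sum.inr j', hj'⟩, ?_⟩
        have key := ih (tp_pred h1) he' (a := a) (b := b) (by
          rintro i (_ | o)
          · intro hh
            rw [G.edist_comm] at hi
            exact h3 i j (edist_tri hh hi hpow)
          · exact weak (h3 i o)) (by
          rintro i (_ | o)
          · intro hh
            rw [G.edist_comm] at hj'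
            exact h4 i j' (edist_tri hh hj' hpow)
          · exact weak (h4 i o))
        have key2 := tp_comp l (fun o : Option (ι ⊕ ι') => (match o with
          | none => Sum.inr none
          | some (Sum.inl i) => Sum.inl i
          | some (Sum.inr j) => Sum.inr (some j) : ι ⊕ (Option ι'))) key
        have e1 : ∀ (a : ι → V) (c : ι' → V) (e : V), Sum.elim a (ext c e) ∘
            (fun o : Option (ι ⊕ ι') => (match o with
            | none => Sum.inr none
            | some (Sum.inl i) => Sum.inl i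
            | some (Sum.inr j) => Sum.inr (some j) : ι ⊕ (Option ι'))) = ext (Sum.elim a c) e := by
          intro a c e
          funext o
          rcases o with _ | (i | j) <;> rfl
        rwa [e1, e1] at key2
    intro ι ι' _ _ a b c d h1 h2 h3 h4
    exact tp_succ_of (atsum (l + 1) (tp_at h1) (tp_at h2) h3 h4) (aux h1 h2 h3 h4)
      (aux h1.symm h2.symm h4 h3)

/-- several local moves -/
lemma tp_moves (l : ℕ) (j : ℕ) : ∀ {ι : Type} {a b : ι → V}, tp G C (l + j) a = tp G C (l + j) b →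
    ∀ x : Fin j → V, (∀ i, ∃ k, G.edist (b k) (x i) ≤ ((3 ^ l : ℕ) : ℕ∞)) →
    ∃ x' : Fin j → V, tp G C l (Sum.elim a x') = tp G C l (Sum.elim b x) := by
  induction j with
  | zero =>
    intro ι a b h x _
    refine ⟨Fin.elim0, ?_⟩
    have h2 := tp_comp l (fun z : ι ⊕ Fin 0 => Sum.elim id Fin.elim0 z) h
    have e1 : ∀ (a : ι → V) (x : Fin 0 → V), a ∘ (fun z : ι ⊕ Fin 0 => Sum.elim id Fin.elim0 z)
        = Sum.elim a x := by
      intro a x
      funext z
      rcases z with i | i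
      · rfl
      · exact i.elim0
    rwa [e1 a Fin.elim0, e1 b x] at h2
  | succ j ih =>
    intro ι a b h x hx
    obtain ⟨k, hk⟩ := hx (Fin.last j)
    have hpow : 3 ^ l ≤ 3 ^ (l + j) := Nat.pow_le_pow_right (by norm_num) (by omega)
    obtain ⟨c, -, hc⟩ := tp_forth (l := l + j) h.symm (x (Fin.last j))
      ⟨k, hk.trans (by exact_mod_cast hpow)⟩
    obtain ⟨x', hx'⟩ := ih hc.symm (fun i => x i.castSucc) (fun i => by
      obtain ⟨k, hk⟩ := hx i.castSucc
      exact ⟨some k, hk⟩)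
    refine ⟨Fin.snoc x' c, ?_⟩
    have h2 := tp_comp l (fun z : ι ⊕ Fin (j + 1) =>
      (Sum.elim (fun i => Sum.inl (some i))
        (Fin.lastCases (Sum.inl none) (fun i => Sum.inr i)) z : (Option ι) ⊕ Fin j)) hx'
    have e1 : ∀ (a : ι → V) (c : V) (x : Fin j → V), Sum.elim (ext a c) x ∘
        (fun z : ι ⊕ Fin (j + 1) => (Sum.elim (fun i => Sum.inl (some i))
          (Fin.lastCases (Sum.inl none) (fun i => Sum.inr i)) z : (Option ι) ⊕ Fin j))
        = Sum.elim a (Fin.snoc (α := fun _ => V) x c) := by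
      intro a c x
      funext z
      rcases z with i | i
      · rfl
      · refine Fin.lastCases ?_ (fun i => ?_) i
        · simp [ext]
        · simp
    rw [e1, e1] at h2
    have e2 : Fin.snoc (α := fun _ => V) (fun i : Fin j => x i.castSucc) (x (Fin.last j)) = x :=
      Fin.snoc_init_self x
    rw [e2] at h2
    exact h2

end

end Pool.Agent.Lib.MP_ec8146_lc
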