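import Mathlib

/-!
# Minors (as branch-set models) and Mader's linear edge bound
-/

namespace Pool.Agent.Lib.MP_ec8146_lc

variable {V : Type*}

/-- a step inside the set `A` -/
def St (G : SimpleGraph V) (A : Set V) (a b : V) : Prop := G.Adj a b ∧ a ∈ A ∧ b ∈ A

/-- the set `A` is nonempty and connected in `G` -/
def CS (G : SimpleGraph V) (A : Set V) : Prop :=
  A.Nonempty ∧ ∀ x ∈ A, ∀ y ∈ A, Relation.ReflTransGen (St G A) x y

lemma St.symm {G : SimpleGraph V} {A : Set V} {a b : V} (h : St G A a b) : St G A b a :=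
  ⟨h.1.symm, h.2.2, h.2.1⟩

lemma rtg_symm {G : SimpleGraph V} {A : Set V} {a b : V}
    (h : Relation.ReflTransGen (St G A) a b) : Relation.ReflTransGen (St G A) b a := by
  induction h with
  | refl => exact Relation.ReflTransGen.refl
  | tail _ h2 ih => exact Relation.ReflTransGen.head h2.symm ih

lemma rtg_mono {G : SimpleGraph V} {A A' : Set V} (hA : A ⊆ A') {a b : V}
    (h : Relation.ReflTransGen (St G A) a b) : Relation.ReflTransGen (St G A') a b := by
  induction h with
  | refl => exact Relation.ReflTransGen.refl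
  | tail _ h2 ih => exact ih.tail ⟨h2.1, hA h2.2.1, hA h2.2.2⟩

lemma CS.of_root {G : SimpleGraph V} {A : Set V} {x0 : V} (h0 : x0 ∈ A)
    (h : ∀ y ∈ A, Relation.ReflTransGen (St G A) x0 y) : CS G A :=
  ⟨⟨x0, h0⟩, fun x hx y hy => (rtg_symm (h x hx)).trans (h y hy)⟩

lemma CS.singleton (G : SimpleGraph V) (x : V) : CS G {x} := by
  refine CS.of_root (x0 := x) rfl ?_
  intro y hy
  rw [Set.mem_singleton_iff] at hy
  subst hy
  exact Relation.ReflTransGen.refl

/-- `H` restricted to `S` is a minor of `G` -/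
def MinorOn (G : SimpleGraph V) (S : Set V) (H : SimpleGraph V) : Prop :=
  ∃ B : V → Set V, (∀ v ∈ S, CS G (B v)) ∧
    (∀ v ∈ S, ∀ v' ∈ S, v ≠ v' → Disjoint (B v) (B v')) ∧
    ∀ v ∈ S, ∀ v' ∈ S, H.Adj v v' → ∃ x ∈ B v, ∃ y ∈ B v', G.Adj x y

/-- a model of the complete graph on `t` vertices inside `S` -/
def KModel (G : SimpleGraph V) (S : Set V) (t : ℕ) : Prop :=
  ∃ B : Fin t → Set V, (∀ i, CS G (B i)) ∧ (∀ i, B i ⊆ S) ∧
    (∀ i j, i ≠ j → Disjoint (B i) (B j)) ∧ ∀ i j, i ≠ j → ∃ x ∈ B i, ∃ y ∈ B j, G.Adj x y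

/-- union of connected sets along a connected set -/
lemma CS.biUnion {G H : SimpleGraph V} {A : Set V} {B : V → Set V} (hA : CS H A)
    (hB : ∀ v ∈ A, CS G (B v))
    (hT : ∀ v ∈ A, ∀ v' ∈ A, H.Adj v v' → ∃ x ∈ B v, ∃ y ∈ B v', G.Adj x y) :
    CS G (⋃ v ∈ A, B v) := by
  have hsub : ∀ v ∈ A, B v ⊆ ⋃ v ∈ A, B v := fun v hv => Set.subset_biUnion_of_mem hv
  obtain ⟨v0, hv0⟩ := hA.1
  obtain ⟨x0, hx0⟩ := (hB v0 hv0).1
  have key : ∀ v, Relation.ReflTransGen (St H A) v0 v → v ∈ A →
      ∀ y ∈ B v, Relation.ReflTransGen (St G (⋃ v ∈ A, B v)) x0 y := by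
    intro v hv
    induction hv with
    | refl => intro _ y hy; exact rtg_mono (hsub v0 hv0) ((hB v0 hv0).2 x0 hx0 y hy)
    | @tail b c hb hs ih =>
      intro hc y hy
      have hbA : b ∈ A := hs.2.1
      obtain ⟨x1, hx1, y1, hy1, hadj⟩ := hT b hbA c hc hs.1
      have h1 := ih hbA x1 hx1
      have h2 : Relation.ReflTransGen (St G (⋃ v ∈ A, B v)) x1 y1 :=
        Relation.ReflTransGen.single ⟨hadj, hsub b hbA hx1, hsub c hc hy1⟩
      exact (h1.trans h2).trans (rtg_mono (hsub c hc) ((hB c hc).2 y1 hy1 y hy))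
  refine CS.of_root (x0 := x0) (hsub v0 hv0 hx0) ?_
  intro y hy
  obtain ⟨v, hv, hyv⟩ := Set.mem_iUnion₂.mp hy
  exact key v (hA.2 v0 hv0 v hv) hv y hyv

/-- a model in a minor is a model in the graph -/
lemma KModel.of_minor {G : SimpleGraph V} {S : Set V} {H : SimpleGraph V} (h : MinorOn G S H)
    {t : ℕ} (hK : KModel H S t) : KModel G Set.univ t := by
  obtain ⟨B, h1, h2, h3⟩ := h
  obtain ⟨K, k1, k2, k3, k4⟩ := hK
  refine ⟨fun i => ⋃ v ∈ K i, B v, ?_, fun i => Set.subset_univ _, ?_, ?_⟩
  · intro i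
    exact CS.biUnion (k1 i) (fun v hv => h1 v (k2 i hv))
      (fun v hv v' hv' ha => h3 v (k2 i hv) v' (k2 i hv') ha)
  · intro i j hij
    rw [Set.disjoint_left]
    intro x hx hx'
    obtain ⟨v, hv, hxv⟩ := Set.mem_iUnion₂.mp hx
    obtain ⟨v', hv', hxv'⟩ := Set.mem_iUnion₂.mp hx'
    have hne : v ≠ v' := by
      rintro rfl
      exact Set.disjoint_left.mp (k3 i j hij) hv hv'
    exact Set.disjoint_left.mp (h2 v (k2 i hv) v' (k2 j hv') hne) hxv hxv'
  · intro i j hij
    obtain ⟨v, hv, v', hv', ha⟩ := k4 i j hij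
    obtain ⟨x, hx, y, hy, hxy⟩ := h3 v (k2 i hv) v' (k2 j hv') ha
    exact ⟨x, Set.mem_biUnion hv hx, y, Set.mem_biUnion hv' hy, hxy⟩

open Classical in
/-- number of ordered adjacent pairs in `S` -/
noncomputable def dg (H : SimpleGraph V) (S : Finset V) : ℕ :=
  ((S ×ˢ S).filter (fun z => H.Adj z.1 z.2)).card

open Classical in
/-- common neighbours in `S` -/
noncomputable def cnb (H : SimpleGraph V) (S : Finset V) (x y : V) : Finset V :=
  S.filter (fun w => H.Adj x w ∧ H.Adj y w)

/-- contraction of `y` into `x` -/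
def ctr (H : SimpleGraph V) (x y : V) : SimpleGraph V where
  Adj a b := a ≠ b ∧ a ≠ y ∧ b ≠ y ∧ (H.Adj a b ∨ (a = x ∧ H.Adj y b) ∨ (b = x ∧ H.Adj y a))
  symm := ⟨by
    rintro a b ⟨h1, h2, h3, h4⟩
    refine ⟨h1.symm, h3, h2, ?_⟩
    rcases h4 with h | h | h
    · exact Or.inl h.symm
    · exact Or.inr (Or.inr h)
    · exact Or.inr (Or.inl h)⟩
  loopless := ⟨fun a h => h.1 rfl⟩

lemma KModel.of_ctr {H : SimpleGraph V} {S : Finset V} {x y : V} (hx : x ∈ S) (hy : y ∈ S)
    (hxy : H.Adj x y) {t : ℕ} [DecidableEq V] (hK : KModel (ctr H x y) (S.erase y : Finset V) t) :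
    KModel H S t := by
  obtain ⟨K, k1, k2, k3, k4⟩ := hK
  have hyK : ∀ i, y ∉ K i := fun i h => by
    have := k2 i h
    simp at this
  refine ⟨fun i => K i ∪ {v | v = y ∧ x ∈ K i}, ?_, ?_, ?_, ?_⟩
  · intro i
    obtain ⟨v0, hv0⟩ := (k1 i).1
    have sub : K i ⊆ K i ∪ {v | v = y ∧ x ∈ K i} := Set.subset_union_left
    have key : ∀ v, Relation.ReflTransGen (St (ctr H x y) (K i)) v0 v →
        Relation.ReflTransGen (St H (K i ∪ {v | v = y ∧ x ∈ K i})) v0 v := by
      intro v hv
      induction hv with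
      | refl => exact Relation.ReflTransGen.refl
      | @tail b c hb hs ih =>
        obtain ⟨⟨-, -, -, h4⟩, hb', hc'⟩ := hs
        rcases h4 with h | ⟨rfl,  h⟩ | ⟨rfl, h⟩
        · exact ih.tail ⟨h, sub hb', sub hc'⟩
        · have e : y ∈ K i ∪ {v | v = y ∧ b ∈ K i} := Or.inr ⟨rfl, hb'⟩
          exact (ih.tail ⟨hxy, sub hb', e⟩).tail ⟨h, e, sub hc'⟩
        · have e : y ∈ K i ∪ {v | v = y ∧ c ∈ K i} := Or.inr ⟨rfl, hc'⟩
          exact (ih.tail ⟨h.symm, sub hb', e⟩).tail ⟨hxy.symm, e, sub hc'⟩
    refine CS.of_root (x0 := v0) (sub hv0) ?_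
    rintro v (hv | ⟨rfl, hxK⟩)
    · exact key v ((k1 i).2 v0 hv0 v hv)
    · exact (key x ((k1 i).2 v0 hv0 x hxK)).tail ⟨hxy, sub hxK, Or.inr ⟨rfl, hxK⟩⟩
  · rintro i v (hv | ⟨rfl, -⟩)
    · have := k2 i hv
      simp only [Finset.coe_erase, Set.mem_sdiff, Finset.mem_coe, Set.mem_singleton_iff] at this
      exact this.1
    · exact hy
  · intro i j hij
    rw [Set.disjoint_left]
    rintro v (hv | ⟨rfl, hxi⟩) (hv' | ⟨h, hxj⟩)
    · exact Set.disjoint_left.mp (k3 i j hij) hv hv'
    · subst h
      exact hyK i hv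
    · exact hyK j hv'
    · exact Set.disjoint_left.mp (k3 i j hij) hxi hxj
  · intro i j hij
    obtain ⟨a, ha, b, hb, ⟨-, -, -, h4⟩⟩ := k4 i j hij
    rcases h4 with h | ⟨rfl, h⟩ | ⟨rfl, h⟩
    · exact ⟨a, Or.inl ha, b, Or.inl hb, h⟩
    · exact ⟨y, Or.inr ⟨rfl, ha⟩, b, Or.inl hb, h⟩
    · exact ⟨a, Or.inl ha, y, Or.inr ⟨rfl, hb⟩, h.symm⟩

lemma dg_ctr {H : SimpleGraph V} {S : Finset V} {x y : V} (hx : x ∈ S) (hy : y ∈ S)
    (hxy : H.Adj x y) [DecidableEq V] :
    dg H S ≤ dg (ctr H x y) (S.erase y) + 2 * ((cnb H S x y).card + 1) := by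
  classical
  set A := (S ×ˢ S).filter (fun z => H.Adj z.1 z.2) with hA
  set bad : V × V → Prop := fun z => (z.1 = y ∧ (z.2 = x ∨ H.Adj x z.2)) ∨
    (z.2 = y ∧ (z.1 = x ∨ H.Adj x z.1)) with hbad
  have h1 : A.card = (A.filter (fun z => ¬ bad z)).card + (A.filter bad).card := by
    rw [add_comm]
    exact (Finset.card_filter_add_card_filter_not bad).symm
  have h2 : (A.filter bad).card ≤ 2 * ((cnb H S x y).card + 1) := by
    have hsub : A.filter bad ⊆ ((insert x (cnb H S x y)).image (fun w => (y, w))) ∪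
        ((insert x (cnb H S x y)).image (fun w => (w, y))) := by
      rintro ⟨a, b⟩ hz
      simp only [hA, hbad, Finset.mem_filter, Finset.mem_product] at hz
      obtain ⟨⟨⟨ha, hb⟩, hab⟩, h | h⟩ := hz
      · obtain ⟨rfl, h⟩ := h
        refine Finset.mem_union_left _ (Finset.mem_image.mpr ⟨b, ?_, rfl⟩)
        rcases h with h | h
        · rw [h]; exact Finset.mem_insert_self _ _
        · exact Finset.mem_insert_of_mem (Finset.mem_filter.mpr ⟨hb, h, hab⟩)
      · obtain ⟨rfl, h⟩ := h
        refine Finset.mem_union_right _ (Finset.mem_image.mpr ⟨a, ?_, rfl⟩)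
        rcases h with h | h
        · rw [h]; exact Finset.mem_insert_self _ _
        · exact Finset.mem_insert_of_mem (Finset.mem_filter.mpr ⟨ha, h, hab.symm⟩)
    refine (Finset.card_le_card hsub).trans ((Finset.card_union_le _ _).trans ?_)
    have e1 := Finset.card_insert_le x (cnb H S x y)
    have e2 := Finset.card_image_le (s := insert x (cnb H S x y)) (f := fun w => (y, w))
    have e3 := Finset.card_image_le (s := insert x (cnb H S x y)) (f := fun w => (w, y))
    omega
  have h3 : (A.filter (fun z => ¬ bad z)).card ≤ dg (ctr H x y) (S.erase y) := by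
    unfold dg
    set π : V → V := fun v => if v = y then x else v with hπ
    have hxy' : x ≠ y := hxy.ne
    refine Finset.card_le_card_of_injOn (fun z => (π z.1, π z.2)) ?_ ?_
    · rintro ⟨a, b⟩ hz
      simp only [Finset.coe_filter, hA, hbad, Finset.mem_filter, Finset.mem_product,
        Set.mem_ofPred_eq, not_or, not_and] at hz
      obtain ⟨⟨⟨ha, hb⟩, hab⟩, h5, h6⟩ := hz
      simp only [Finset.coe_filter, Finset.mem_product, Finset.mem_erase, Set.mem_ofPred_eq, hπ]
      by_cases hay : a = y
      · subst hay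
        obtain ⟨h7, h8⟩ := h5 rfl
        have hby : b ≠ a := hab.ne'
        rw [if_pos rfl, if_neg hby]
        exact ⟨⟨⟨hxy', hx⟩, ⟨hby, hb⟩⟩, Ne.symm h7, hxy', hby, Or.inr (Or.inl ⟨rfl, hab⟩)⟩
      · rw [if_neg hay]
        by_cases hby : b = y
        · subst hby
          obtain ⟨h7, h8⟩ := h6 rfl
          rw [if_pos rfl]
          exact ⟨⟨⟨hay, ha⟩, ⟨hxy', hx⟩⟩, h7, hay, hxy', Or.inr (Or.inr ⟨rfl, hab.symm⟩)⟩
        · rw [if_neg hby]
          exact ⟨⟨⟨hay, ha⟩, ⟨hby, hb⟩⟩, hab.ne, hay, hby, Or.inl hab⟩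
    · have key : ∀ a b a' b', H.Adj a b → ¬ bad (a, b) → H.Adj a' b' → ¬ bad (a', b') →
          π a = π a' → π b = π b' → a = y → a' = y := by
        intro a b a' b' hab hnb hab' hnb' e1 e2 hay
        by_contra ha'y
        subst hay
        simp only [hbad, true_and, not_or, not_and] at hnb hnb'
        have hb : b ≠ a := hab.ne'
        simp only [hπ, if_true, if_neg ha'y, if_neg hb] at e1 e2
        by_cases hb' : b' = a
        · exact (hnb'.2 hb').1 e1.symm
        · rw [if_neg hb'] at e2
          subst e1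
          subst e2
          exact hnb.1.2 hab'
      rintro ⟨a, b⟩ hz ⟨a', b'⟩ hz' heq
      have hz1 := Finset.mem_filter.mp (Finset.mem_coe.mp hz)
      have hz2 := Finset.mem_filter.mp (Finset.mem_coe.mp hz')
      have hab : H.Adj a b := (Finset.mem_filter.mp hz1.1).2
      have hab' : H.Adj a' b' := (Finset.mem_filter.mp hz2.1).2
      have nb := hz1.2
      have nb' := hz2.2
      simp only [Prod.mk.injEq] at heq
      obtain ⟨e1, e2⟩ := heq
      have swap : ∀ a b, ¬ bad (a, b) → ¬ bad (b, a) := by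
        intro a b h h'
        exact h h'.symm
      have ea : a = a' := by
        by_cases h1 : a = y
        · rw [h1, key a b a' b' hab nb hab' nb' e1 e2 h1]
        · by_cases h2 : a' = y
          · exact absurd (key a' b' a b hab' nb' hab nb e1.symm e2.symm h2) h1
          · simpa only [hπ, if_neg h1, if_neg h2] using e1
      have eb : b = b' := by
        by_cases h1 : b = y
        · rw [h1, key b a b' a' hab.symm (swap _ _ nb) hab'.symm (swap _ _ nb') e2 e1 h1]
        · by_cases h2 : b' = y
          · exact absurd (key b' a' b a hab'.symm (swap _ _ nb') hab.symm (swap _ _ nb) e2.symm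
              e1.symm h2) h1
          · simpa only [hπ, if_neg h1, if_neg h2] using e2
      rw [ea, eb]
  unfold dg
  rw [← hA]
  have h3' := h3
  unfold dg at h3'
  omega

/-- Mader's theorem: dense graphs have large complete models. -/
theorem mader (t : ℕ) : ∀ (H : SimpleGraph V) (S : Finset V), S.Nonempty →
    2 ^ t * S.card ≤ dg H S → KModel H S (t + 2) := by
  classical
  induction t with
  | zero =>
    intro H S hS h
    have hpos : 0 < dg H S := by
      have := hS.card_pos
      omega
    obtain ⟨⟨x, y⟩, hz⟩ := Finset.card_pos.mp hpos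
    simp only [Finset.mem_filter, Finset.mem_product] at hz
    obtain ⟨⟨hx, hy⟩, hxy⟩ := hz
    refine ⟨![{x}, {y}], ?_, ?_, ?_, ?_⟩
    · intro i
      fin_cases i
      · exact CS.singleton H x
      · exact CS.singleton H y
    · intro i
      fin_cases i
      · simpa using hx
      · simpa using hy
    · intro i j hij
      fin_cases i <;> fin_cases j
      · exact absurd rfl hij
      · simpa using hxy.ne
      · simpa using hxy.ne'
      · exact absurd rfl hij
    · intro i j hij
      fin_cases i <;> fin_cases j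
      · exact absurd rfl hij
      · exact ⟨x, rfl, y, rfl, hxy⟩
      · exact ⟨y, rfl, x, rfl, hxy.symm⟩
      · exact absurd rfl hij
  | succ t ih =>
    have main : ∀ n : ℕ, ∀ (H : SimpleGraph V) (S : Finset V), S.card = n → S.Nonempty →
        2 ^ (t + 1) * S.card ≤ dg H S → KModel H S (t + 1 + 2) := by
      intro n
      induction n with
      | zero =>
        intro H S hc hS _
        exact absurd (Finset.card_eq_zero.mp hc) hS.ne_empty
      | succ n ihn =>
        intro H S hc hS h
        by_cases hcase : ∃ x ∈ S, ∃ y ∈ S, H.Adj x y ∧ (cnb H S x y).card < 2 ^ t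
        · obtain ⟨x, hx, y, hy, hxy, hcn⟩ := hcase
          apply KModel.of_ctr hx hy hxy
          have h1 := dg_ctr hx hy hxy
          have h2 : (S.erase y).card = n := by rw [Finset.card_erase_of_mem hy, hc]; rfl
          refine ihn (ctr H x y) (S.erase y) h2 ⟨x, by simp [hxy.ne, hx]⟩ ?_
          rw [h2]
          rw [hc] at h
          have h3 : 2 ^ (t + 1) = 2 * 2 ^ t := by ring
          have h4 : 2 ^ (t + 1) * (n + 1) = 2 ^ (t + 1) * n + 2 ^ (t + 1) := by ring
          omega
        · push Not at hcase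
          have hpos : 0 < dg H S := by
            have := hS.card_pos
            have h5 : 0 < 2 ^ (t + 1) * S.card := by positivity
            omega
          obtain ⟨⟨x, y0⟩, hz⟩ := Finset.card_pos.mp hpos
          simp only [Finset.mem_filter, Finset.mem_product] at hz
          obtain ⟨⟨hx, hy0⟩, hxy0⟩ := hz
          set Nx := S.filter (fun w => H.Adj x w) with hNx
          have hNne : Nx.Nonempty := ⟨y0, by simp [hNx, hy0, hxy0]⟩
          have hdg : 2 ^ t * Nx.card ≤ dg H Nx := by
            have e1 : dg H Nx = ∑ y ∈ Nx, (Nx.filter (fun w => H.Adj y w)).card := by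
              unfold dg
              rw [Finset.card_filter, Finset.sum_product]
              refine Finset.sum_congr rfl (fun y _ => ?_)
              rw [Finset.card_filter]
            rw [e1]
            calc 2 ^ t * Nx.card = ∑ _y ∈ Nx, 2 ^ t := by
                  rw [Finset.sum_const, smul_eq_mul, mul_comm]
              _ ≤ _ := by
                refine Finset.sum_le_sum (fun y hy => ?_)
                have hy' := Finset.mem_filter.mp hy
                have := hcase x hx y hy'.1 hy'.2
                refine this.trans (Finset.card_le_card ?_)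
                intro w hw
                simp only [cnb, Finset.mem_filter] at hw
                simp only [hNx, Finset.mem_filter]
                exact ⟨⟨hw.1, hw.2.1⟩, hw.2.2⟩
          obtain ⟨B, b1, b2, b3, b4⟩ := ih H Nx hNne hdg
          have hB : ∀ i, ∀ v ∈ B i, v ∈ S ∧ H.Adj x v := fun i v hv => by
            have := b2 i hv
            simpa [hNx] using this
          refine ⟨Fin.cons {x} B, ?_, ?_, ?_, ?_⟩
          · intro i
            refine Fin.cases ?_ (fun i => ?_) i
            · exact CS.singleton H x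
            · exact b1 i
          · intro i
            refine Fin.cases ?_ (fun i => ?_) i
            · simpa using hx
            · intro v hv
              exact (hB i v hv).1
          · intro i j
            refine Fin.cases ?_ (fun i => ?_) i <;> refine Fin.cases ?_ (fun j => ?_) j
            · intro h; exact absurd rfl h
            · intro _
              simp only [Fin.cons_zero, Fin.cons_succ, Set.disjoint_singleton_left]
              intro hx'
              exact H.loopless.irrefl x (hB j x hx').2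
            · intro _
              simp only [Fin.cons_zero, Fin.cons_succ, Set.disjoint_singleton_right]
              intro hx'
              exact H.loopless.irrefl x (hB i x hx').2
            · intro hij
              exact b3 i j (fun h => hij (by rw [h]))
          · intro i j
            refine Fin.cases ?_ (fun i => ?_) i <;> refine Fin.cases ?_ (fun j => ?_) j
            · intro h; exact absurd rfl h
            · intro _
              obtain ⟨v, hv⟩ := (b1 j).1
              exact ⟨x, rfl, v, hv, (hB j v hv).2⟩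
            · intro _
              obtain ⟨v, hv⟩ := (b1 i).1
              exact ⟨v, hv, x, rfl, (hB i v hv).2.symm⟩
            · intro hij
              exact b4 i j (fun h => hij (by rw [h]))
    exact fun H S hS h => main S.card H S rfl hS h

end Pool.Agent.Lib.MP_ec8146_lc
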