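import Pool.Agent.Lib.MP_ec8146_lc.Fan2

/-!
# Orders with bounded weak colouring numbers
-/

namespace Pool.Agent.Lib.MP_ec8146_lc

variable {V : Type*}

lemma exists_order_aux {G : SimpleGraph V} (hG : SparseMinors G) (r : ℕ) (n : ℕ) :
    ∀ S : Finset V, S.card = n → ∃ ρ : V → ℕ, Set.InjOn ρ S ∧ (∀ v ∈ S, ρ v < S.card) ∧
      ∀ v ∈ S, ¬ Fan G {x | x ∈ S ∧ ρ x ≤ ρ v} v r (25 + 4352 * r) := by
  classical
  induction n with
  | zero =>
    intro S hS
    have : S = ∅ := Finset.card_eq_zero.mp hS
    subst this
    exact ⟨fun _ => 0, by simp, by simp, by simp⟩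
  | succ n ih =>
    intro S hS
    have hne : S.Nonempty := Finset.card_pos.mp (by omega)
    obtain ⟨v0, hv0, hfan⟩ := small_fan hG r S hne
    have hc : (S.erase v0).card = n := by rw [Finset.card_erase_of_mem hv0, hS]; rfl
    obtain ⟨ρ, h1, h2, h3⟩ := ih (S.erase v0) hc
    have hv0' : ∀ v ∈ S, v ≠ v0 → v ∈ S.erase v0 := fun v hv hne =>
      Finset.mem_erase.mpr ⟨hne, hv⟩
    refine ⟨Function.update ρ v0 n, ?_, ?_, ?_⟩
    · intro a ha b hb hab
      by_cases e1 : a = v0 <;> by_cases e2 : b = v0
      · rw [e1, e2]
      · rw [e1, Function.update_self, Function.update_of_ne e2] at hab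
        have := h2 b (hv0' b hb e2)
        omega
      · rw [e2, Function.update_self, Function.update_of_ne e1] at hab
        have := h2 a (hv0' a ha e1)
        omega
      · rw [Function.update_of_ne e1, Function.update_of_ne e2] at hab
        exact h1 (hv0' a ha e1) (hv0' b hb e2) hab
    · intro v hv
      by_cases e1 : v = v0
      · rw [e1, Function.update_self]; omega
      · rw [Function.update_of_ne e1]
        have := h2 v (hv0' v hv e1)
        omega
    · intro v hv
      by_cases e1 : v = v0
      · have : {x | x ∈ S ∧ Function.update ρ v0 n x ≤ Function.update ρ v0 n v} = (S : Set V) := by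
          ext x
          simp only [Set.mem_ofPred_eq, Finset.mem_coe]
          constructor
          · exact fun h => h.1
          · intro hx
            refine ⟨hx, ?_⟩
            rw [e1, Function.update_self]
            by_cases e2 : x = v0
            · rw [e2, Function.update_self]
            · rw [Function.update_of_ne e2]
              have := h2 x (hv0' x hx e2)
              omega
        rw [this, e1]
        exact hfan
      · have hvS := hv0' v hv e1
        have : {x | x ∈ S ∧ Function.update ρ v0 n x ≤ Function.update ρ v0 n v}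
            = {x | x ∈ S.erase v0 ∧ ρ x ≤ ρ v} := by
          ext x
          simp only [Set.mem_ofPred_eq]
          rw [Function.update_of_ne e1]
          constructor
          · rintro ⟨hx, hle⟩
            by_cases e2 : x = v0
            · rw [e2, Function.update_self] at hle
              have := h2 v hvS
              omega
            · rw [Function.update_of_ne e2] at hle
              exact ⟨hv0' x hx e2, hle⟩
          · rintro ⟨hx, hle⟩
            have e2 : x ≠ v0 := (Finset.mem_erase.mp hx).1
            rw [Function.update_of_ne e2]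
            exact ⟨(Finset.mem_erase.mp hx).2, hle⟩
        rw [this]
        exact h3 v hvS

theorem exists_order [Fintype V] {G : SimpleGraph V} (hG : SparseMinors G) (r : ℕ) :
    ∃ ρ : V → ℕ, Function.Injective ρ ∧
      ∀ v, ¬ Fan G {x | ρ x ≤ ρ v} v r (25 + 4352 * r) := by
  obtain ⟨ρ, h1, -, h3⟩ := exists_order_aux hG r _ Finset.univ rfl
  refine ⟨ρ, fun a b h => h1 (by simp) (by simp) h, fun v => ?_⟩
  have := h3 v (Finset.mem_univ v)
  simpa using this

open Classical in
/-- vertices below `θ` reachable from `w` by a walk of length at most `n` above `θ` -/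
noncomputable def Rset [Fintype V] (G : SimpleGraph V) (ρ : V → ℕ) (θ : ℕ) (w : V) (n : ℕ) :
    Finset V :=
  Finset.univ.filter (fun t => ρ t < θ ∧ ∃ l : List V, l.length < n ∧ Lnk G w l t ∧
    ∀ x ∈ l, θ ≤ ρ x)

open Classical in
/-- weakly reachable vertices -/
noncomputable def Wset [Fintype V] (G : SimpleGraph V) (ρ : V → ℕ) (n : ℕ) (v : V) : Finset V :=
  Finset.univ.filter (fun z => z = v ∨ ∃ l : List V, l.length < n ∧ Lnk G v l z ∧ ρ z < ρ v ∧
    ∀ x ∈ l, ρ z < ρ x)

/-- bound for the reach sets -/
def gB (r : ℕ) : ℕ → ℕ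
  | 0 => 0
  | n + 1 => (25 + 4352 * r) * r * (1 + gB r n)

/-- bound for the weak reach sets -/
def hB (r : ℕ) : ℕ → ℕ
  | 0 => 1
  | n + 1 => 1 + gB r r * hB r n

lemma Lnk.avoid {G : SimpleGraph V} {w t : V} (n : ℕ) : ∀ l : List V, l.length = n → Lnk G w l t →
    ∃ l', Lnk G w l' t ∧ w ∉ l' ∧ l'.length ≤ l.length ∧ ∀ x ∈ l', x ∈ l := by
  induction n using Nat.strong_induction_on with
  | _ n ih =>
    intro l hl h
    by_cases hw : w ∈ l
    · obtain ⟨a, b, hab⟩ := List.append_of_mem hw
      rw [hab, Lnk_append] at h
      have hlen : b.length < n := by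
        rw [← hl, hab, List.length_append, List.length_cons]
        omega
      obtain ⟨l', h1, h2, h3, h4⟩ := ih b.length hlen b rfl h.2
      refine ⟨l', h1, h2, by omega, fun x hx => ?_⟩
      rw [hab]
      exact List.mem_append_right _ (List.mem_cons_of_mem _ (h4 x hx))
    · exact ⟨l, h, hw, le_rfl, fun x hx => hx⟩

lemma Rset_card [Fintype V] {G : SimpleGraph V} {ρ : V → ℕ} (hρ : Function.Injective ρ) {r : ℕ}
    (hfan : ∀ v, ¬ Fan G {x | ρ x ≤ ρ v} v r (25 + 4352 * r)) (θ : ℕ) (n : ℕ) (hn : n ≤ r) :
    ∀ w, θ ≤ ρ w → (Rset G ρ θ w n).card ≤ gB r n := by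
  classical
  induction n with
  | zero =>
    intro w _
    have : Rset G ρ θ w 0 = ∅ := by
      unfold Rset
      apply Finset.filter_eq_empty_iff.mpr
      rintro t - ⟨-, l, hl, -⟩
      omega
    rw [this]
    simp
  | succ n ih =>
    intro w hw
    have ih := ih (by omega)
    set p := 25 + 4352 * r with hp
    -- families of disjoint links
    set Fam : Finset (List V × V) → Prop := fun Q =>
      (∀ q ∈ Q, ρ q.2 < θ ∧ q.1.length < n + 1 ∧ Lnk G w q.1 q.2 ∧ (∀ x ∈ q.1, θ ≤ ρ x) ∧
        w ∉ q.1) ∧
      (∀ q ∈ Q, ∀ q' ∈ Q, q ≠ q' → List.Disjoint (q.1 ++ [q.2]) (q'.1 ++ [q'.2])) with hFam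
    have hFc : ∀ Q, Fam Q → Q.card ≤ p := by
      intro Q hQ
      by_contra hc
      push Not at hc
      apply hfan w
      obtain ⟨Q', hQ', hQc⟩ := Finset.exists_subset_card_eq hc.le
      have trunc : ∀ q : List V × V, ∃ z : List V × V, q ∈ Q → (Lnk G w z.1 z.2 ∧ ρ z.2 < ρ w ∧
          (∀ x ∈ z.1, ρ w < ρ x) ∧ z.1.length ≤ q.1.length ∧
          ∀ x ∈ z.1 ++ [z.2], x ∈ q.1 ++ [q.2]) := by
        intro q
        by_cases hq : q ∈ Q
        · obtain ⟨g1, g2, g3, g4, g5⟩ := hQ.1 q hq
          by_cases hex : ∃ x ∈ q.1, ρ x < ρ w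
          · obtain ⟨l1, m, l2, e1, e2, e3⟩ := exists_first hex
            rw [e1, Lnk_append] at g3
            refine ⟨(l1, m), fun _ => ⟨g3.1, e2, ?_, ?_, ?_⟩⟩
            · intro x hx
              have h1 := e3 x hx
              have h2 : x ≠ w := by
                rintro rfl
                apply g5
                rw [e1]
                exact List.mem_append_left _ hx
              have h3 : ρ x ≠ ρ w := fun h => h2 (hρ h)
              omega
            · change l1.length ≤ q.1.length
              rw [e1, List.length_append]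
              omega
            · intro x hx
              refine List.mem_append_left _ ?_
              rw [e1]
              rcases List.mem_append.mp hx with hx | hx
              · exact List.mem_append_left _ hx
              · rw [List.mem_singleton] at hx
                rw [hx]
                simp
          · push Not at hex
            refine ⟨q, fun _ => ⟨g3, by omega, ?_, le_rfl, fun x hx => hx⟩⟩
            intro x hx
            have h1 := hex x hx
            have h2 : x ≠ w := by
              rintro rfl
              exact g5 hx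
            have h3 : ρ x ≠ ρ w := fun h => h2 (hρ h)
            omega
        · exact ⟨q, fun h => absurd h hq⟩
      choose tr htr using trunc
      have e : Fin p ≃ Q' := (Finset.equivFinOfCardEq hQc).symm
      have heQ : ∀ i, (e i : List V × V) ∈ Q := fun i => hQ' (e i).2
      refine ⟨fun i => tr (e i), fun i => (htr _ (heQ i)).1, fun i => ?_, fun i => ⟨?_, ?_⟩,
        fun i x hx => ?_, fun i j hij => ?_⟩
      · have h1 := (htr _ (heQ i)).2.2.2.1
        have h2 := (hQ.1 _ (heQ i)).2.1
        change (tr (e i)).1.length < r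
        omega
      · have h1 := (htr _ (heQ i)).2.1
        exact h1.le
      · intro h
        have h1 := (htr _ (heQ i)).2.1
        rw [h] at h1
        omega
      · have h1 := (htr _ (heQ i)).2.2.1 x hx
        simp only [Set.mem_ofPred_eq]
        omega
      · intro x hx hx'
        have h1 := (htr _ (heQ i)).2.2.2.2 x hx
        have h2 := (htr _ (heQ j)).2.2.2.2 x hx'
        refine hQ.2 _ (heQ i) _ (heQ j) ?_ h1 h2
        intro hh
        exact hij (e.injective (Subtype.ext hh))
    obtain ⟨Q, hQ, hmax⟩ := exists_max_card Fam ⟨∅, by simp [hFam]⟩ p hFc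
    set U : Finset V := Q.biUnion (fun q => (q.1 ++ [q.2]).toFinset) with hU
    have hUmem : ∀ x, x ∈ U ↔ ∃ q ∈ Q, x ∈ q.1 ++ [q.2] := by
      intro x
      simp [hU, or_comm]
    have hUc : U.card ≤ p * r := by
      calc U.card ≤ ∑ q ∈ Q, (q.1 ++ [q.2]).toFinset.card := Finset.card_biUnion_le
        _ ≤ ∑ _q ∈ Q, r := by
            refine Finset.sum_le_sum (fun q hq => (List.toFinset_card_le _).trans ?_)
            have := (hQ.1 q hq).2.1
            rw [List.length_append, List.length_singleton]
            omega
        _ = Q.card * r := by rw [Finset.sum_const, smul_eq_mul]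
        _ ≤ p * r := Nat.mul_le_mul_right _ (hFc Q hQ)
    have hcov : Rset G ρ θ w (n + 1) ⊆
        U ∪ (U.filter (fun x => θ ≤ ρ x)).biUnion (fun x => Rset G ρ θ x n) := by
      intro t ht
      obtain ⟨-, ht1, l0, hl0, hlnk0, hab0⟩ := Finset.mem_filter.mp ht
      obtain ⟨l, hlnk, hwl, hlen, hsub⟩ := Lnk.avoid _ l0 rfl hlnk0
      have habove : ∀ x ∈ l, θ ≤ ρ x := fun x hx => hab0 x (hsub x hx)
      by_cases htU : t ∈ U
      · exact Finset.mem_union_left _ htU
      · have hhit : ∃ x ∈ l, x ∈ U := by
          by_contra hno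
          push Not at hno
          have hnm : (l, t) ∉ Q := fun h => htU ((hUmem t).mpr ⟨(l, t), h, by simp⟩)
          have hdis : ∀ q ∈ Q, List.Disjoint (l ++ [t]) (q.1 ++ [q.2]) := by
            intro q hq x hx hx'
            have hxU : x ∈ U := (hUmem x).mpr ⟨q, hq, hx'⟩
            rcases List.mem_append.mp hx with hx | hx
            · exact hno x hx hxU
            · rw [List.mem_singleton] at hx
              exact htU (hx ▸ hxU)
          have := hmax (insert (l, t) Q) ⟨by
            intro q hq
            rcases Finset.mem_insert.mp hq with rfl | hq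
            · exact ⟨ht1, by simp only; omega, hlnk, habove, hwl⟩
            · exact hQ.1 q hq, by
            intro q hq q' hq' hne
            rcases Finset.mem_insert.mp hq with h1 | h1 <;>
              rcases Finset.mem_insert.mp hq' with h2 | h2
            · exact absurd (h1.trans h2.symm) hne
            · rw [h1]
              exact hdis q' h2
            · rw [h2]
              exact (hdis q h1).symm
            · exact hQ.2 q h1 q' h2 hne⟩
          rw [Finset.card_insert_of_notMem hnm] at this
          omega
        obtain ⟨x, hx, hxU⟩ := hhit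
        obtain ⟨a, b, hab⟩ := List.append_of_mem hx
        have hlnk' := hlnk
        rw [hab, Lnk_append] at hlnk'
        refine Finset.mem_union_right _ (Finset.mem_biUnion.mpr ⟨x,
          Finset.mem_filter.mpr ⟨hxU, habove x hx⟩, Finset.mem_filter.mpr ⟨Finset.mem_univ _, ht1,
          b, ?_, hlnk'.2, ?_⟩⟩)
        · rw [hab, List.length_append, List.length_cons] at hlen
          omega
        · intro y hy
          apply habove
          rw [hab]
          exact List.mem_append_right _ (List.mem_cons_of_mem _ hy)
    calc (Rset G ρ θ w (n + 1)).card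
        ≤ (U ∪ (U.filter (fun x => θ ≤ ρ x)).biUnion (fun x => Rset G ρ θ x n)).card :=
          Finset.card_le_card hcov
      _ ≤ U.card + ((U.filter (fun x => θ ≤ ρ x)).biUnion (fun x => Rset G ρ θ x n)).card :=
          Finset.card_union_le _ _
      _ ≤ U.card + ∑ _x ∈ U.filter (fun x => θ ≤ ρ x), gB r n := by
          gcongr
          refine Finset.card_biUnion_le.trans (Finset.sum_le_sum (fun x hx => ?_))
          exact ih x (Finset.mem_filter.mp hx).2
      _ ≤ U.card + U.card * gB r n := by
          rw [Finset.sum_const, smul_eq_mul]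
          gcongr
          exact Finset.filter_subset _ _
      _ = U.card * (1 + gB r n) := by ring
      _ ≤ p * r * (1 + gB r n) := Nat.mul_le_mul_right _ hUc
      _ = gB r (n + 1) := by rw [gB]

lemma Wset_card [Fintype V] {G : SimpleGraph V} {ρ : V → ℕ} (hρ : Function.Injective ρ) {r : ℕ}
    (hfan : ∀ v, ¬ Fan G {x | ρ x ≤ ρ v} v r (25 + 4352 * r)) (n : ℕ) (hn : n ≤ r) :
    ∀ v, (Wset G ρ n v).card ≤ hB r n := by
  classical
  induction n with
  | zero =>
    intro v
    have : Wset G ρ 0 v ⊆ {v} := by
      intro z hz
      obtain ⟨-, h | ⟨l, hl, -⟩⟩ := Finset.mem_filter.mp hz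
      · rw [h]; simp
      · omega
    exact (Finset.card_le_card this).trans (by simp [hB])
  | succ n ih =>
    intro v
    have ih := ih (by omega)
    have hcov : Wset G ρ (n + 1) v ⊆
        insert v ((Rset G ρ (ρ v) v r).biUnion (fun x => Wset G ρ n x)) := by
      intro z hz
      obtain ⟨-, h | ⟨l, hl, hlnk, hzv, hab⟩⟩ := Finset.mem_filter.mp hz
      · rw [h]; exact Finset.mem_insert_self _ _
      · apply Finset.mem_insert_of_mem
        by_cases hex : ∃ x ∈ l, ρ x < ρ v
        · obtain ⟨l1, m, l2, e1, e2, e3⟩ := exists_first hex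
          have hlnk' := hlnk
          rw [e1, Lnk_append] at hlnk'
          rw [e1, List.length_append, List.length_cons] at hl
          refine Finset.mem_biUnion.mpr ⟨m, Finset.mem_filter.mpr ⟨Finset.mem_univ _, e2, l1,
            by omega, hlnk'.1, fun x hx => not_lt.mp (e3 x hx)⟩,
            Finset.mem_filter.mpr ⟨Finset.mem_univ _, Or.inr ⟨l2, by omega, hlnk'.2, ?_, ?_⟩⟩⟩
          · apply hab
            rw [e1]
            simp
          · intro x hx
            apply hab
            rw [e1]
            exact List.mem_append_right _ (List.mem_cons_of_mem _ hx)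
        · push Not at hex
          refine Finset.mem_biUnion.mpr ⟨z, Finset.mem_filter.mpr ⟨Finset.mem_univ _, hzv, l,
            by omega, hlnk, hex⟩, Finset.mem_filter.mpr ⟨Finset.mem_univ _, Or.inl rfl⟩⟩
    calc (Wset G ρ (n + 1) v).card
        ≤ (insert v ((Rset G ρ (ρ v) v r).biUnion (fun x => Wset G ρ n x))).card :=
          Finset.card_le_card hcov
      _ ≤ ((Rset G ρ (ρ v) v r).biUnion (fun x => Wset G ρ n x)).card + 1 :=
          Finset.card_insert_le _ _
      _ ≤ (∑ _x ∈ Rset G ρ (ρ v) v r, hB r n) + 1 := by
          gcongr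
          exact Finset.card_biUnion_le.trans (Finset.sum_le_sum (fun x _ => ih x))
      _ = (Rset G ρ (ρ v) v r).card * hB r n + 1 := by rw [Finset.sum_const, smul_eq_mul]
      _ ≤ gB r r * hB r n + 1 := by
          gcongr
          exact Rset_card hρ hfan (ρ v) r le_rfl v le_rfl
      _ = hB r (n + 1) := by rw [hB, add_comm]

/-- **Bounded weak colouring numbers.** -/
theorem exists_wcol [Fintype V] {G : SimpleGraph V} (hG : SparseMinors G) (r : ℕ) :
    ∃ ρ : V → ℕ, Function.Injective ρ ∧ ∀ v, (Wset G ρ r v).card ≤ hB r r := by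
  obtain ⟨ρ, h1, h2⟩ := exists_order hG r
  exact ⟨ρ, h1, Wset_card h1 h2 r le_rfl⟩

end Pool.Agent.Lib.MP_ec8146_lc
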