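import Pool.Agent.Lib.MP_ec8146_lc.Minor
import Pool.Agent.Lib.MP_ec8146_lc.Chains

/-!
# Parity-planar graphs exclude `K₅`-models, hence have sparse minors
-/

namespace Pool.Agent.Lib.MP_ec8146_lc

variable {V : Type*}

/-- Parity data showing that a graph is planar modulo 2. -/
structure PP (G : SimpleGraph V) where
  eta : V → V → ZMod 2
  N : V → V → V → ZMod 2
  eta_add : ∀ x y, x ≠ y → eta x y + eta y x = 1
  rel : ∀ u v x y, G.Adj u v → G.Adj x y → u ≠ x → u ≠ y → v ≠ x → v ≠ y →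
    c0 eta N (u, v) (x, y) = 0

/-- chain all of whose darts are edges of `G` inside `A` -/
def InG (G : SimpleGraph V) (A : Set V) (P : Ch V) : Prop :=
  ∀ d ∈ P, G.Adj d.1 d.2 ∧ d.1 ∈ A ∧ d.2 ∈ A

lemma InG.add {G : SimpleGraph V} {A : Set V} {P Q : Ch V} (hP : InG G A P) (hQ : InG G A Q) :
    InG G A (P + Q) := by
  intro d hd
  rcases Multiset.mem_add.mp hd with h | h
  · exact hP d h
  · exact hQ d h

lemma InG.mono {G : SimpleGraph V} {A A' : Set V} {P : Ch V} (hP : InG G A P) (h : A ⊆ A') :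
    InG G A' P := fun d hd => ⟨(hP d hd).1, h (hP d hd).2.1, h (hP d hd).2.2⟩

lemma exists_chain_of_rtg {G : SimpleGraph V} {A : Set V} {x y : V}
    (h : Relation.ReflTransGen (St G A) x y) : ∃ P : Ch V, Bd P x y ∧ InG G A P := by
  induction h with
  | refl => exact ⟨0, Bd.zero x, fun d hd => absurd hd (by simp)⟩
  | @tail b c _ h2 ih =>
    obtain ⟨P, hP, hP'⟩ := ih
    refine ⟨P + {(b, c)}, hP.add (Bd.single _ _), hP'.add ?_⟩
    intro d hd
    rw [Multiset.mem_singleton.mp hd]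
    exact h2

lemma PP.cr_zero {G : SimpleGraph V} (D : PP G) {A B : Set V} (hAB : Disjoint A B) {P Q : Ch V}
    (hP : InG G A P) (hQ : InG G B Q) : cr D.eta D.N P Q = 0 := by
  apply cr_eq_zero
  intro d hd e he
  obtain ⟨h1, h2, h3⟩ := hP d hd
  obtain ⟨g1, g2, g3⟩ := hQ e he
  have ne : ∀ {a b : V}, a ∈ A → b ∈ B → a ≠ b := by
    rintro a b ha hb rfl
    exact Set.disjoint_left.mp hAB ha hb
  exact D.rel d.1 d.2 e.1 e.2 h1 g1 (ne h2 g2) (ne h2 g3) (ne h3 g2) (ne h3 g3)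

/-- a parity-planar graph has no `K₅`-model -/
theorem PP.no_K5 {G : SimpleGraph V} (D : PP G) : ¬ KModel G Set.univ 5 := by
  rintro ⟨B, b1, -, b3, b4⟩
  choose z hz using fun c => (b1 c).1
  have edge : ∀ c c' : Fin 5, c ≠ c' →
      ∃ P : Ch V, Bd P (z c) (z c') ∧ InG G (B c ∪ B c') P := by
    intro c c' hcc
    obtain ⟨x, hx, y, hy, hxy⟩ := b4 c c' hcc
    obtain ⟨P1, h1, h1'⟩ := exists_chain_of_rtg ((b1 c).2 (z c) (hz c) x hx)
    obtain ⟨P2, h2, h2'⟩ := exists_chain_of_rtg ((b1 c').2 y hy (z c') (hz c'))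
    refine ⟨P1 + {(x, y)} + P2, (h1.add (Bd.single _ _)).add h2, ?_⟩
    refine InG.add (InG.add (h1'.mono Set.subset_union_left) ?_)
      (h2'.mono Set.subset_union_right)
    intro d hd
    rw [Multiset.mem_singleton.mp hd]
    exact ⟨hxy, Or.inl hx, Or.inr hy⟩
  have f5 : ∀ c : Fin 5, c ≠ c + 1 ∧ c ≠ c + 2 ∧ c + 2 ≠ c ∧ c + 2 ≠ c + 1 ∧ c + 2 + 1 ≠ c ∧
      c + 2 + 1 ≠ c + 1 ∧ c + 2 + 2 ≠ c ∧ c + 2 + 2 ≠ c + 1 ∧ c + 1 ≠ c ∧ c + 1 ≠ c + 2 ∧
      c + 1 + 2 ≠ c ∧ c + 1 + 2 ≠ c + 2 := by decide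
  choose A hA hA' using fun c => edge c (c + 1) (f5 c).1
  choose C hC hC' using fun c => edge c (c + 2) (f5 c).2.1
  have dis : ∀ a b c d : Fin 5, a ≠ c → a ≠ d → b ≠ c → b ≠ d →
      Disjoint (B a ∪ B b) (B c ∪ B d) := by
    intro a b c d h1 h2 h3 h4
    rw [Set.disjoint_union_left, Set.disjoint_union_right, Set.disjoint_union_right]
    exact ⟨⟨b3 _ _ h1, b3 _ _ h2⟩, ⟨b3 _ _ h3, b3 _ _ h4⟩⟩
  have hpar := k5_parity D.eta D.N z (by
      intro i j hij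
      apply D.eta_add
      intro h
      exact Set.disjoint_left.mp (b3 i j hij) (hz i) (h ▸ hz j)) A C hA hC
  have s1 : ∀ c : Fin 5, cr D.eta D.N (A c) (A (c + 2)) = 0 := by
    intro c
    obtain ⟨g0, g0', g1, g2, g3, g4, g5, g6, g7, g8, g9, g10⟩ := f5 c
    exact D.cr_zero (dis _ _ _ _ g1.symm g3.symm g2.symm g4.symm) (hA' c) (hA' (c + 2))
  have s2 : ∀ c : Fin 5, cr D.eta D.N (A c) (C (c + 2)) = 0 := by
    intro c
    obtain ⟨g0, g0', g1, g2, g3, g4, g5, g6, g7, g8, g9, g10⟩ := f5 c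
    exact D.cr_zero (dis _ _ _ _ g1.symm g5.symm g2.symm g6.symm) (hA' c) (hC' (c + 2))
  have s3 : ∀ c : Fin 5, cr D.eta D.N (C c) (C (c + 1)) = 0 := by
    intro c
    obtain ⟨g0, g0', g1, g2, g3, g4, g5, g6, g7, g8, g9, g10⟩ := f5 c
    exact D.cr_zero (dis _ _ _ _ g7.symm g9.symm g8.symm g10.symm) (hC' c) (hC' (c + 1))
  rw [Finset.sum_eq_zero (fun c _ => s1 c), Finset.sum_eq_zero (fun c _ => s2 c),
    Finset.sum_eq_zero (fun c _ => s3 c)] at hpar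
  simp at hpar

/-- minors of parity-planar graphs are sparse -/
theorem PP.minor_bound {G : SimpleGraph V} (D : PP G) {S : Finset V} {H : SimpleGraph V}
    (h : MinorOn G S H) : dg H S ≤ 8 * S.card := by
  rcases S.eq_empty_or_nonempty with hS | hS
  · subst hS
    simp [dg]
  · by_contra hc
    have h1 : 2 ^ 3 * S.card ≤ dg H S := by omega
    exact D.no_K5 ((mader 3 H S hS h1).of_minor h)

end Pool.Agent.Lib.MP_ec8146_lc
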