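import Pool.Agent.Lib.MP_ec8146_lc.Sep

/-!
# Few edges with a given intersection of weak reachability sets
-/

namespace Pool.Agent.Lib.MP_ec8146_lc

open FirstOrder FirstOrder.Language

/-- bound for the set pair lemma -/
def NP (a τ : ℕ) : ℕ → ℕ
  | 0 => τ + 1
  | b + 1 => a * NP a τ b + τ + 1

lemma set_pairs {ι V : Type*} [DecidableEq V] (a τ : ℕ) (b : ℕ) : ∀ (J : Finset ι)
    (A B : ι → Finset V), (∀ i ∈ J, (A i).card ≤ a) → (∀ i ∈ J, (B i).card ≤ b) →
    (∀ i ∈ J, Disjoint (A i) (B i)) → NP a τ b ≤ J.card →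
    ∃ i ∈ J, τ ≤ (J.filter (fun j => Disjoint (A i) (B j))).card := by
  classical
  induction b with
  | zero =>
    intro J A B _ hB _ hJ
    rw [NP] at hJ
    obtain ⟨i, hi⟩ := Finset.card_pos.mp (by omega : 0 < J.card)
    refine ⟨i, hi, ?_⟩
    have : J.filter (fun j => Disjoint (A i) (B j)) = J := by
      apply Finset.filter_true_of_mem
      intro j hj
      have h1 : B j = ∅ := Finset.card_eq_zero.mp (by have := hB j hj; omega)
      rw [h1]
      exact Finset.disjoint_empty_right _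
    rw [this]
    omega
  | succ b ih =>
    intro J A B hA hB hd hJ
    rw [NP] at hJ
    obtain ⟨i, hi⟩ := Finset.card_pos.mp (by omega : 0 < J.card)
    by_cases hi2 : τ ≤ (J.filter (fun j => Disjoint (A i) (B j))).card
    · exact ⟨i, hi, hi2⟩
    · have h1 := Finset.card_filter_add_card_filter_not (s := J) (fun j => Disjoint (A i) (B j))
      have h2 : a * NP a τ b < (J.filter (fun j => ¬ Disjoint (A i) (B j))).card := by omega
      have h3 : ∃ x ∈ A i, NP a τ b ≤ (J.filter (fun j => x ∈ B j)).card := by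
        by_contra hno
        push Not at hno
        have hsub : J.filter (fun j => ¬ Disjoint (A i) (B j)) ⊆
            (A i).biUnion (fun x => J.filter (fun j => x ∈ B j)) := by
          intro j hj
          obtain ⟨hj1, hj2⟩ := Finset.mem_filter.mp hj
          obtain ⟨x, hx1, hx2⟩ := Finset.not_disjoint_iff.mp hj2
          exact Finset.mem_biUnion.mpr ⟨x, hx1, Finset.mem_filter.mpr ⟨hj1, hx2⟩⟩
        have h4 : (J.filter (fun j => ¬ Disjoint (A i) (B j))).card ≤ a * NP a τ b := by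
          calc _ ≤ ((A i).biUnion (fun x => J.filter (fun j => x ∈ B j))).card :=
                Finset.card_le_card hsub
            _ ≤ ∑ x ∈ A i, (J.filter (fun j => x ∈ B j)).card := Finset.card_biUnion_le
            _ ≤ ∑ _x ∈ A i, NP a τ b := Finset.sum_le_sum (fun x hx => (hno x hx).le)
            _ = (A i).card * NP a τ b := by rw [Finset.sum_const, smul_eq_mul]
            _ ≤ a * NP a τ b := Nat.mul_le_mul_right _ (hA i hi)
        omega
      obtain ⟨x, hxA, hx⟩ := h3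
      obtain ⟨i', hi', hτ⟩ := ih (J.filter (fun j => x ∈ B j)) A (fun j => (B j).erase x)
        (fun j hj => hA j (Finset.mem_filter.mp hj).1)
        (fun j hj => by
          obtain ⟨hj1, hj2⟩ := Finset.mem_filter.mp hj
          rw [Finset.card_erase_of_mem hj2]
          have := hB j hj1
          omega)
        (fun j hj => (hd j (Finset.mem_filter.mp hj).1).mono_right (Finset.erase_subset _ _)) hx
      obtain ⟨hi1, hi2'⟩ := Finset.mem_filter.mp hi'
      refine ⟨i', hi1, hτ.trans (Finset.card_le_card ?_)⟩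
      intro j hj
      obtain ⟨hj1, hj2⟩ := Finset.mem_filter.mp hj
      refine Finset.mem_filter.mpr ⟨(Finset.mem_filter.mp hj1).1, ?_⟩
      have hxi' : x ∉ A i' := fun h => Finset.disjoint_left.mp (hd i' hi1) h hi2'
      rw [Finset.disjoint_left]
      intro y hy hy'
      have hyx : y ≠ x := by
        rintro rfl
        exact hxi' hy
      exact Finset.disjoint_left.mp hj2 hy (Finset.mem_erase.mpr ⟨hyx, hy'⟩)

/-- number of local types of single vertices -/
noncomputable def TN (c m s : ℕ) : ℕ := Nat.card (Tp (Fin c ⊕ (Fin m × Bool)) s Unit)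

/-- bound for the number of pairs with a given intersection -/
noncomputable def CB (c m s : ℕ) : ℕ := TN c m s * TN c m s * NP m 21 m

section

variable {V : Type} [Fintype V] {G : SimpleGraph V} {ρ : V → ℕ} {c : ℕ} {C : Fin c → Set V}
  {ψ : (cgLang c).Formula (Fin 2)} {K : SimpleGraph V} {X : Set V}

open Classical in
/-- neighbourhood as a finset -/
noncomputable def nbh (K : SimpleGraph V) (v : V) : Finset V := Finset.univ.filter (fun w => K.Adj v w)

lemma mem_nbh {v w : V} : w ∈ nbh K v ↔ K.Adj v w := by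
  simp [nbh]

open Classical in
/-- ordered adjacent pairs with a given intersection of the weak reachability sets -/
noncomputable def prs (G : SimpleGraph V) (ρ : V → ℕ) (n : ℕ) (K : SimpleGraph V) (I : Finset V) :
    Finset (V × V) :=
  Finset.univ.filter (fun z => K.Adj z.1 z.2 ∧ Wset G ρ n z.1 ∩ Wset G ρ n z.2 = I)

open Classical in
lemma mem_prs {n : ℕ} {I : Finset V} {z : V × V} : z ∈ prs G ρ n K I ↔
    K.Adj z.1 z.2 ∧ Wset G ρ n z.1 ∩ Wset G ρ n z.2 = I := by
  unfold prs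
  rw [Finset.mem_filter]
  simp only [Finset.mem_univ, true_and]

omit [Fintype V] in
lemma exists_enum [DecidableEq V] (I : Finset V) {m : ℕ} (h : I.card ≤ m) :
    ∃ f : Fin m → Set V, (∀ k, (f k).Subsingleton) ∧ ∀ x, x ∈ (I : Set V) ↔ ∃ k, x ∈ f k := by
  refine ⟨fun k => {x | ∃ hx : x ∈ I, (I.equivFin ⟨x, hx⟩).val = k.val}, ?_, ?_⟩
  · rintro k x ⟨hx, hx'⟩ y ⟨hy, hy'⟩
    have h1 : I.equivFin ⟨x, hx⟩ = I.equivFin ⟨y, hy⟩ := Fin.ext (hx'.trans hy'.symm)
    have h2 := I.equivFin.injective h1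
    exact congrArg Subtype.val h2
  · intro x
    constructor
    · intro hx
      have := (I.equivFin ⟨x, hx⟩).2
      exact ⟨⟨(I.equivFin ⟨x, hx⟩).val, by omega⟩, hx, rfl⟩
    · rintro ⟨k, hx, -⟩
      exact hx

/-- **Few pairs.** -/
theorem card_prs (hρ : Function.Injective ρ)
    (hK : ∀ u v, K.Adj u v ↔ u ∈ X ∧ v ∈ X ∧ (interp G C ψ).Adj u v)
    (hdeg : ∀ v, (nbh K v).card ≤ 4) {m : ℕ} (hm : ∀ v, (Wset G ρ (3 ^ rk ψ) v).card ≤ m)
    (I : Finset V) : (prs G ρ (3 ^ rk ψ) K I).card ≤ CB c m (rk ψ) := by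
  classical
  by_contra hcon
  push Not at hcon
  set R : V → Finset V := Wset G ρ (3 ^ rk ψ) with hR
  have hne : (prs G ρ (3 ^ rk ψ) K I).Nonempty := Finset.card_pos.mp (by omega)
  obtain ⟨w0, hw0⟩ := hne
  have hIR : ∀ z ∈ prs G ρ (3 ^ rk ψ) K I, K.Adj z.1 z.2 ∧ R z.1 ∩ R z.2 = I := by
    intro z hz
    exact mem_prs.mp hz
  have hIm : I.card ≤ m := by
    rw [← (hIR w0 hw0).2]
    exact (Finset.card_le_card Finset.inter_subset_left).trans (hm w0.1)
  obtain ⟨f, hf1, hf2⟩ := exists_enum I hIm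
  set G' := cutG G (I : Set V) with hG'
  set C' := cutC G C f with hC'
  have hfin : Finite (Tp (Fin c ⊕ (Fin m × Bool)) (rk ψ) Unit) := finite_Tp _ _ _
  let _ : Fintype (Tp (Fin c ⊕ (Fin m × Bool)) (rk ψ) Unit) := Fintype.ofFinite _
  obtain ⟨⟨t1, t2⟩, -, hJ⟩ := Finset.exists_lt_card_fiber_of_mul_lt_card_of_maps_to
    (s := prs G ρ (3 ^ rk ψ) K I)
    (t := (Finset.univ : Finset (Tp (Fin c ⊕ (Fin m × Bool)) (rk ψ) Unit ×
      Tp (Fin c ⊕ (Fin m × Bool)) (rk ψ) Unit)))
    (f := fun z => (tp G' C' (rk ψ) (one z.1), tp G' C' (rk ψ) (one z.2)))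
    (n := NP m 21 m) (fun _ _ => Finset.mem_univ _) (by
      rw [Finset.card_univ, Fintype.card_prod, ← Nat.card_eq_fintype_card]
      exact hcon)
  set J := (prs G ρ (3 ^ rk ψ) K I).filter
    (fun z => (tp G' C' (rk ψ) (one z.1), tp G' C' (rk ψ) (one z.2)) = (t1, t2)) with hJdef
  have hJmem : ∀ z ∈ J, K.Adj z.1 z.2 ∧ R z.1 ∩ R z.2 = I ∧
      tp G' C' (rk ψ) (one z.1) = t1 ∧ tp G' C' (rk ψ) (one z.2) = t2 := by
    intro z hz
    obtain ⟨h1, h2⟩ := Finset.mem_filter.mp hz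
    obtain ⟨h3, h4⟩ := hIR z h1
    simp only [Prod.mk.injEq] at h2
    exact ⟨h3, h4, h2.1, h2.2⟩
  obtain ⟨z0, hz0, hT⟩ := set_pairs m 21 m J (fun z => R z.1 \ I) (fun z => R z.2 \ I)
    (fun z _ => (Finset.card_le_card Finset.sdiff_subset).trans (hm z.1))
    (fun z _ => (Finset.card_le_card Finset.sdiff_subset).trans (hm z.2))
    (fun z hz => by
      rw [Finset.disjoint_left]
      intro x hx hx'
      rw [Finset.mem_sdiff] at hx hx'
      apply hx.2
      rw [← (hJmem z hz).2.1]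
      exact Finset.mem_inter.mpr ⟨hx.1, hx'.1⟩) hJ.le
  obtain ⟨a1, a2, a3, a4⟩ := hJmem z0 hz0
  have key : ∀ z ∈ J.filter (fun j => Disjoint (R z0.1 \ I) (R j.2 \ I)),
      z.2 = z0.1 ∨ K.Adj z0.1 z.2 := by
    intro z hz
    obtain ⟨hzJ, hzd⟩ := Finset.mem_filter.mp hz
    obtain ⟨b1, b2, b3, b4⟩ := hJmem z hzJ
    by_cases hzz : z.2 = z0.1
    · exact Or.inl hzz
    right
    have s1 : ¬ G'.edist z0.1 z.2 ≤ ((3 ^ rk ψ : ℕ) : ℕ∞) := by
      apply separation hρ (Ne.symm hzz)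
      intro x hx hx'
      by_contra hxI
      exact Finset.disjoint_left.mp hzd (Finset.mem_sdiff.mpr ⟨hx, hxI⟩)
        (Finset.mem_sdiff.mpr ⟨hx', hxI⟩)
    have s2 : ¬ G'.edist z0.1 z0.2 ≤ ((3 ^ rk ψ : ℕ) : ℕ∞) := by
      apply separation hρ a1.ne
      intro x hx hx'
      change x ∈ I
      rw [← a2]
      exact Finset.mem_inter.mpr ⟨hx, hx'⟩
    have hI1 := cut_hadj G C f hf1 hf2
    have hI2 := cut_hcol (I := (I : Set V)) G C f
    have tv : tp G' C' (rk ψ) (one z.2) = tp G' C' (rk ψ) (one z0.2) := b4.trans a4.symm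
    have e1 : Holds G C ψ z0.1 z.2 ↔ Holds G C ψ z0.1 z0.2 :=
      holds_iff hI1 hI2 ψ rfl tv s1 s2
    have e2 : Holds G C ψ z.2 z0.1 ↔ Holds G C ψ z0.2 z0.1 :=
      holds_iff hI1 hI2 ψ tv rfl (by rw [G'.edist_comm]; exact s1)
        (by rw [G'.edist_comm]; exact s2)
    obtain ⟨x1, x2, x3, x4⟩ := (hK _ _).mp a1
    obtain ⟨y1, y2, -⟩ := (hK _ _).mp b1
    refine (hK _ _).mpr ⟨x1, y2, Ne.symm hzz, ?_⟩
    rw [e1, e2]
    exact x4
  have hsub : J.filter (fun j => Disjoint (R z0.1 \ I) (R j.2 \ I)) ⊆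
      (insert z0.1 (nbh K z0.1)).biUnion (fun v => (nbh K v).image (fun u => (u, v))) := by
    intro z hz
    have hzJ := (Finset.mem_filter.mp hz).1
    obtain ⟨b1, -, -, -⟩ := hJmem z hzJ
    refine Finset.mem_biUnion.mpr ⟨z.2, ?_, Finset.mem_image.mpr ⟨z.1, ?_, rfl⟩⟩
    · rcases key z hz with h | h
      · rw [h]; exact Finset.mem_insert_self _ _
      · exact Finset.mem_insert_of_mem (Finset.mem_filter.mpr ⟨Finset.mem_univ _, h⟩)
    · exact Finset.mem_filter.mpr ⟨Finset.mem_univ _, b1.symm⟩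
  have hcard : (J.filter (fun j => Disjoint (R z0.1 \ I) (R j.2 \ I))).card ≤ 20 := by
    calc _ ≤ ((insert z0.1 (nbh K z0.1)).biUnion
          (fun v => (nbh K v).image (fun u => (u, v)))).card := Finset.card_le_card hsub
      _ ≤ ∑ v ∈ insert z0.1 (nbh K z0.1), ((nbh K v).image (fun u => (u, v))).card :=
          Finset.card_biUnion_le
      _ ≤ ∑ _v ∈ insert z0.1 (nbh K z0.1), 4 :=
          Finset.sum_le_sum (fun v _ => Finset.card_image_le.trans (hdeg v))
      _ = (insert z0.1 (nbh K z0.1)).card * 4 := by rw [Finset.sum_const, smul_eq_mul]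
      _ ≤ 5 * 4 := by
          have h1 := Finset.card_insert_le z0.1 (nbh K z0.1)
          have h2 := hdeg z0.1
          omega
      _ = 20 := by norm_num
  omega

end

end Pool.Agent.Lib.MP_ec8146_lc
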