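import Pool.Agent.Lib.MP_ec8146_lc.Select

/-!
# Existence of the parameters
-/

namespace Pool.Agent.Lib.MP_ec8146_lc

/-- growth function of the widths -/
def gw (k : ℕ) : ℕ → ℕ
  | 0 => k + 1
  | n + 1 => 2 * (gw k n + 2 * k + 3) * (k + 2) + k

lemma gw_succ_ge (k n : ℕ) : gw k n ≤ gw k (n + 1) := by
  rw [gw]
  nlinarith [Nat.zero_le (gw k n), Nat.zero_le k]

lemma gw_mono (k : ℕ) : Monotone (gw k) := monotone_nat_of_le_succ (gw_succ_ge k)

lemma quad_lt_pow (C a : ℕ) : ∃ D, a ≤ D ∧ C * (D + 1) ^ 2 < 2 ^ (D - a) := by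
  set m := C + a + 30 with hm
  refine ⟨a + 4 * m, by omega, ?_⟩
  rw [show a + 4 * m - a = 4 * m by omega]
  have h1 : m + 1 ≤ 2 ^ m := Nat.lt_two_pow_self
  have h2 : (m + 1) ^ 4 ≤ (2 ^ m) ^ 4 := Nat.pow_le_pow_left h1 4
  have h3 : (2 ^ m) ^ 4 = 2 ^ (4 * m) := by rw [← pow_mul, mul_comm]
  rw [h3] at h2
  have h4 : (a + 4 * m + 1) ^ 2 ≤ (5 * m) ^ 2 := Nat.pow_le_pow_left (by omega) 2
  have h5 : C * (a + 4 * m + 1) ^ 2 ≤ m * (5 * m) ^ 2 := Nat.mul_le_mul (by omega) h4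
  have h6 : m * (5 * m) ^ 2 ≤ m ^ 4 := by
    have : 25 ≤ m := by omega
    calc m * (5 * m) ^ 2 = 25 * m ^ 3 := by ring
      _ ≤ m * m ^ 3 := Nat.mul_le_mul_right _ this
      _ = m ^ 4 := by ring
  have h7 : m ^ 4 < (m + 1) ^ 4 := Nat.pow_lt_pow_left (by omega) (by omega)
  omega

/-- For every `k` there are good parameters satisfying all requirements of the main
contradiction. -/
theorem exists_params (k : ℕ) : ∃ (p : Par) (a L n : ℕ), p.Good k a ∧
    k * (2 * Setup.tmax p + p.s) + k < L + 1 ∧ n + L < p.N ∧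
    300 * (k * ((2 * k + 2) * p.s + 2 * L * p.s + 2 * Setup.tmax p + 1) + k) < n := by
  set W := gw k 4 with hW
  set s := 2 * W + 3 with hs
  set T := 3 * W + 4 with hT
  set C1 := k * (2 * T + s) + k with hC1
  set C2 := 300 * (k * ((2 * k + 2) * s + 2 * C1 * s + 2 * T + 1) + k) + 1 with hC2
  set C3 := C1 + C2 + 1 + W with hC3
  obtain ⟨D, hD1, hD2⟩ := quad_lt_pow (10 * (C3 * s) ^ 2 * k + k) (W + 2)
  -- the parameters
  set t := 3 * W + 2 + 2 * D with ht
  set L := k * (2 * t + s) + k with hL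
  set n := 300 * (k * ((2 * k + 2) * s + 2 * L * s + 2 * t + 1) + k) + 1 with hn
  set N := n + L + 1 + W with hN
  have ht' : t ≤ T * (D + 1) := by
    rw [ht, hT]; nlinarith [Nat.zero_le W, Nat.zero_le D]
  have one_le : ∀ x, x ≤ x * (D + 1) := fun x => Nat.le_mul_of_pos_right x (by omega)
  have hL' : L ≤ C1 * (D + 1) := by
    rw [hL, hC1]
    have e1 : 2 * t + s ≤ (2 * T + s) * (D + 1) := by
      have := one_le s
      calc 2 * t + s ≤ 2 * (T * (D + 1)) + s * (D + 1) := by omega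
        _ = (2 * T + s) * (D + 1) := by ring
    calc k * (2 * t + s) + k ≤ k * ((2 * T + s) * (D + 1)) + k * (D + 1) :=
          Nat.add_le_add (Nat.mul_le_mul_left _ e1) (one_le k)
      _ = (k * (2 * T + s) + k) * (D + 1) := by ring
  have hn' : n ≤ C2 * (D + 1) := by
    rw [hn, hC2]
    have e0 : L * s ≤ C1 * (D + 1) * s := Nat.mul_le_mul_right _ hL'
    have e1 : (2 * k + 2) * s + 2 * L * s + 2 * t + 1
        ≤ ((2 * k + 2) * s + 2 * C1 * s + 2 * T + 1) * (D + 1) := by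
      have := one_le ((2 * k + 2) * s)
      calc (2 * k + 2) * s + 2 * L * s + 2 * t + 1
          = (2 * k + 2) * s + 2 * (L * s) + 2 * t + 1 := by ring
        _ ≤ (2 * k + 2) * s * (D + 1) + 2 * (C1 * (D + 1) * s) + 2 * (T * (D + 1))
            + 1 * (D + 1) := by omega
        _ = ((2 * k + 2) * s + 2 * C1 * s + 2 * T + 1) * (D + 1) := by ring
    have e2 : k * ((2 * k + 2) * s + 2 * L * s + 2 * t + 1)
        ≤ k * (((2 * k + 2) * s + 2 * C1 * s + 2 * T + 1) * (D + 1)) := Nat.mul_le_mul_left _ e1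
    have e3 := one_le k
    calc 300 * (k * ((2 * k + 2) * s + 2 * L * s + 2 * t + 1) + k) + 1
        ≤ 300 * (k * (((2 * k + 2) * s + 2 * C1 * s + 2 * T + 1) * (D + 1)) + k * (D + 1))
          + 1 * (D + 1) := by omega
      _ = (300 * (k * ((2 * k + 2) * s + 2 * C1 * s + 2 * T + 1) + k) + 1) * (D + 1) := by ring
  have hN' : N ≤ C3 * (D + 1) := by
    rw [hN, hC3]
    have e1 := one_le W
    calc n + L + 1 + W ≤ C2 * (D + 1) + C1 * (D + 1) + 1 * (D + 1) + W * (D + 1) := by omega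
      _ = (C1 + C2 + 1 + W) * (D + 1) := by ring
  have hwle : ∀ c : Fin 5, gw k c.val ≤ W := fun c => gw_mono k (by omega)
  have hk : ∀ c : Fin 5, k + 1 ≤ gw k c.val := fun c => by
    have := gw_mono k (Nat.zero_le c.val)
    simpa [gw] using this
  refine ⟨⟨s, N, D, W, fun c => gw k c.val⟩, W + 1, L, n, ?_, ?_, ?_, ?_⟩
  · refine ⟨hk, ?_, ?_, hwle, ?_, ?_, ?_, ?_, ?_⟩
    · intro c
      have := hwle c
      change 2 * gw k c.val + 3 ≤ s
      omega
    · change W + 1 < s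
      omega
    · intro c
      have := hwle c
      change gw k c.val < W + 1
      omega
    · change W + 1 + 1 ≤ D
      omega
    · change W < N
      omega
    · intro b c hbc
      change 2 * (gw k b.val + 2 * k + 3) * (k + 2) + k ≤ gw k c.val
      have h1 : gw k (b.val + 1) ≤ gw k c.val := gw_mono k (by
        have : b.val < c.val := hbc
        omega)
      rw [gw] at h1
      exact h1
    · change 10 * (N * s) ^ 2 * k + k < 2 ^ (D - (W + 1))
      have e1 : N * s ≤ C3 * s * (D + 1) := by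
        calc N * s ≤ C3 * (D + 1) * s := Nat.mul_le_mul_right _ hN'
          _ = C3 * s * (D + 1) := by ring
      have e2 : (N * s) ^ 2 ≤ (C3 * s * (D + 1)) ^ 2 := Nat.pow_le_pow_left e1 2
      have e3 : 10 * (N * s) ^ 2 * k + k ≤ (10 * (C3 * s) ^ 2 * k + k) * (D + 1) ^ 2 := by
        have e4 : 10 * (N * s) ^ 2 * k ≤ 10 * (C3 * s * (D + 1)) ^ 2 * k :=
          Nat.mul_le_mul_right _ (Nat.mul_le_mul_left _ e2)
        have e5 : k ≤ k * (D + 1) ^ 2 := Nat.le_mul_of_pos_right _ (by positivity)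
        calc 10 * (N * s) ^ 2 * k + k ≤ 10 * (C3 * s * (D + 1)) ^ 2 * k + k * (D + 1) ^ 2 := by
              omega
          _ = (10 * (C3 * s) ^ 2 * k + k) * (D + 1) ^ 2 := by ring
      have e6 : 2 ^ (D - (W + 2)) ≤ 2 ^ (D - (W + 1)) := Nat.pow_le_pow_right (by omega) (by omega)
      omega
  · change k * (2 * t + s) + k < L + 1
    omega
  · change n + L < N
    omega
  · change 300 * (k * ((2 * k + 2) * s + 2 * L * s + 2 * t + 1) + k) < n
    omega

end Pool.Agent.Lib.MP_ec8146_lc
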