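import Pool.Agent.Lib.MP_ec8146_lc.Defs

/-!
# Parity data of a plane drawing
-/

namespace Pool.Agent.Lib.MP_ec8146_lc

open Complex

lemma exists_log_real (γ : ℝ → ℂ) (hγ : Continuous γ) (h0 : ∀ t, γ t ≠ 0) :
    ∃ L : ℝ → ℂ, Continuous L ∧ ∀ t, exp (L t) = γ t := by
  obtain ⟨F, ⟨-, hF⟩, -⟩ := isCoveringMapOn_exp.existsUnique_continuousMap_lifts
    (⟨γ, hγ⟩ : C(ℝ, ℂ)) (a₀ := 0) (e₀ := Complex.log (γ 0)) (exp_log (h0 0))
    (fun t => by simpa using h0 t)
  exact ⟨F, F.continuous, fun t => congrFun hF t⟩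

lemma exists_log_sq (γ : ℝ × ℝ → ℂ) (hγ : Continuous γ) (h0 : ∀ t, γ t ≠ 0) :
    ∃ L : ℝ × ℝ → ℂ, Continuous L ∧ ∀ t, exp (L t) = γ t := by
  obtain ⟨F, ⟨-, hF⟩, -⟩ := isCoveringMapOn_exp.existsUnique_continuousMap_lifts
    (⟨γ, hγ⟩ : C(ℝ × ℝ, ℂ)) (a₀ := 0) (e₀ := Complex.log (γ 0)) (exp_log (h0 0))
    (fun t => by simpa using h0 t)
  exact ⟨F, F.continuous, fun t => congrFun hF t⟩

lemma log_unique (L L' : ℝ → ℂ) (hL : Continuous L) (hL' : Continuous L')
    (h : ∀ t, exp (L t) = exp (L' t)) (s t : ℝ) : L s - L t = L' s - L' t := by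
  have key : L = fun t => L' t + (L 0 - L' 0) := by
    refine isCoveringMap_exp.eq_of_comp_eq hL (by fun_prop) ?_ 0 (by simp)
    funext t
    apply Subtype.ext
    simp only [Function.comp]
    rw [Complex.exp_add, Complex.exp_sub, h t, h 0, div_self (exp_ne_zero _), mul_one]
  rw [congrFun key s, congrFun key t]
  ring

/-- Total variation of the logarithm along a nonvanishing path (parametrised by `[0,1]`). -/
noncomputable def vari (γ : ℝ → ℂ) : ℂ :=
  open Classical in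
  if h : Continuous γ ∧ ∀ t, γ t ≠ 0 then
    (exists_log_real γ h.1 h.2).choose 1 - (exists_log_real γ h.1 h.2).choose 0
  else 0

lemma vari_eq (γ : ℝ → ℂ) (hγ : Continuous γ) (L : ℝ → ℂ) (hL : Continuous L)
    (h : ∀ t, exp (L t) = γ t) : vari γ = L 1 - L 0 := by
  have h0 : ∀ t, γ t ≠ 0 := fun t => by rw [← h t]; exact exp_ne_zero _
  have hh : Continuous γ ∧ ∀ t, γ t ≠ 0 := ⟨hγ, h0⟩
  rw [vari, dif_pos hh]
  obtain ⟨h1, h2⟩ := (exists_log_real γ hh.1 hh.2).choose_spec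
  exact log_unique _ _ h1 hL (fun t => by rw [h2, h]) 1 0

lemma vari_neg (γ : ℝ → ℂ) (hγ : Continuous γ) (h0 : ∀ t, γ t ≠ 0) :
    vari (fun t => - γ t) = vari γ := by
  obtain ⟨L, hL, hL'⟩ := exists_log_real γ hγ h0
  rw [vari_eq γ hγ L hL hL', vari_eq (fun t => - γ t) (by fun_prop)
    (fun t => L t + Real.pi * I) (by fun_prop)]
  · ring
  · intro t
    rw [Complex.exp_add, hL', exp_pi_mul_I]
    ring

lemma vari_rev (γ : ℝ → ℂ) (hγ : Continuous γ) (h0 : ∀ t, γ t ≠ 0) :
    vari (fun t => γ (1 - t)) = - vari γ := by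
  obtain ⟨L, hL, hL'⟩ := exists_log_real γ hγ h0
  rw [vari_eq γ hγ L hL hL', vari_eq (fun t => γ (1 - t)) (by fun_prop)
    (fun t => L (1 - t)) (by fun_prop)]
  · simp
  · intro t
    rw [hL']

lemma vari_quant (γ : ℝ → ℂ) (hγ : Continuous γ) (h0 : ∀ t, γ t ≠ 0) :
    ∃ n : ℤ, vari γ = Complex.log (γ 1) - Complex.log (γ 0) + n * (2 * Real.pi * I) := by
  obtain ⟨L, hL, hL'⟩ := exists_log_real γ hγ h0
  rw [vari_eq γ hγ L hL hL']
  have h1 : exp (L 1 - L 0) = exp (Complex.log (γ 1) - Complex.log (γ 0)) := by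
    rw [Complex.exp_sub, Complex.exp_sub, hL', hL', exp_log (h0 1), exp_log (h0 0)]
  exact Complex.exp_eq_exp_iff_exists_int.mp h1

/-- The square lemma: the boundary variation of a nonvanishing function on a square is zero. -/
lemma vari_square (A B : ℝ → ℂ) (hA : Continuous A) (hB : Continuous B)
    (h : ∀ s t, A s ≠ B t) :
    vari (fun s => A s - B 0) + vari (fun t => B t - A 1)
      - vari (fun s => A s - B 1) - vari (fun t => B t - A 0) = 0 := by
  obtain ⟨L, hL, hL'⟩ := exists_log_sq (fun p => A p.1 - B p.2) (by fun_prop)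
    (fun p => sub_ne_zero.mpr (h p.1 p.2))
  have e1 : vari (fun s => A s - B 0) = L (1, 0) - L (0, 0) :=
    vari_eq _ (by fun_prop) (fun s => L (s, 0)) (by fun_prop) (fun s => hL' (s, 0))
  have e2 : vari (fun s => A s - B 1) = L (1, 1) - L (0, 1) :=
    vari_eq _ (by fun_prop) (fun s => L (s, 1)) (by fun_prop) (fun s => hL' (s, 1))
  have e3 : vari (fun t => B t - A 1) = L (1, 1) - L (1, 0) := by
    rw [← vari_eq (fun t => A 1 - B t) (by fun_prop) (fun t => L (1, t)) (by fun_prop)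
      (fun t => hL' (1, t)), ← vari_neg _ (by fun_prop) (fun t => sub_ne_zero.mpr (h 1 t))]
    simp only [neg_sub]
  have e4 : vari (fun t => B t - A 0) = L (0, 1) - L (0, 0) := by
    rw [← vari_eq (fun t => A 0 - B t) (by fun_prop) (fun t => L (0, t)) (by fun_prop)
      (fun t => hL' (0, t)), ← vari_neg _ (by fun_prop) (fun t => sub_ne_zero.mpr (h 0 t))]
    simp only [neg_sub]
  rw [e1, e2, e3, e4]
  ring

/-- `log z - log (-z) = πi (1 - 2 η)` with `η ∈ {0,1}`. -/
lemma log_sub_log_neg (z : ℂ) (hz : z ≠ 0) :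
    Complex.log z - Complex.log (-z) = Real.pi * I ∨
    Complex.log z - Complex.log (-z) = - (Real.pi * I) := by
  have h1 : exp (Complex.log z - Complex.log (-z)) = exp (Real.pi * I) := by
    rw [Complex.exp_sub, exp_log hz, exp_log (neg_ne_zero.mpr hz), exp_pi_mul_I, div_neg,
      div_self hz]
  obtain ⟨n, hn⟩ := Complex.exp_eq_exp_iff_exists_int.mp h1
  have him := congrArg Complex.im hn
  have e1 : (Complex.log z - Complex.log (-z)).im = z.arg - (-z).arg := by
    simp [Complex.log_im]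
  have e2 : ((Real.pi : ℂ) * I + n * (2 * Real.pi * I)).im = Real.pi + n * (2 * Real.pi) := by
    simp
  rw [e1, e2] at him
  have b1 := Complex.arg_le_pi z
  have b2 := Complex.neg_pi_lt_arg z
  have b3 := Complex.arg_le_pi (-z)
  have b4 := Complex.neg_pi_lt_arg (-z)
  have hpi := Real.pi_pos
  have c1 : (n : ℝ) < 1 := by
    by_contra hc
    push Not at hc
    nlinarith
  have c2 : (-2 : ℝ) < n := by
    by_contra hc
    push Not at hc
    nlinarith
  have c1' : n < 1 := by exact_mod_cast c1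
  have c2' : -2 < n := by exact_mod_cast c2
  have : n = 0 ∨ n = -1 := by omega
  rcases this with rfl | rfl
  · left; rw [hn]; simp
  · right; rw [hn]; push_cast; ring

end Pool.Agent.Lib.MP_ec8146_lc
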