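import Pool.Agent.Lib.MP_ec8146_lc.Parity

/-!
# Parity data of a plane drawing: main statement
-/

namespace Pool.Agent.Lib.MP_ec8146_lc

open Complex

/-- Identification of the plane with the complex numbers. -/
def toC (p : ℝ × ℝ) : ℂ := ⟨p.1, p.2⟩

lemma toC_injective : Function.Injective toC := by
  intro p q h
  have h1 := congrArg Complex.re h
  have h2 := congrArg Complex.im h
  exact Prod.ext h1 h2

lemma continuous_toC : Continuous toC :=
  Complex.equivRealProdCLM.symm.continuous

variable {V : Type*} {G : SimpleGraph V}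

namespace Drawing

variable (D : Drawing G (ℝ × ℝ))

/-- position as a complex number -/
noncomputable def cpos (v : V) : ℂ := toC (D.pos v)

lemma cpos_injective : Function.Injective D.cpos := toC_injective.comp D.pos_injective

/-- an arc as a function `ℝ → ℂ` -/
noncomputable def carc (u v : V) (h : G.Adj u v) (s : ℝ) : ℂ := toC ((D.arc u v h).extend s)

lemma continuous_carc (u v : V) (h : G.Adj u v) : Continuous (D.carc u v h) :=
  continuous_toC.comp (Path.continuous_extend _)

@[simp] lemma carc_zero (u v : V) (h : G.Adj u v) : D.carc u v h 0 = D.cpos u := by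
  simp [carc, cpos]

@[simp] lemma carc_one (u v : V) (h : G.Adj u v) : D.carc u v h 1 = D.cpos v := by
  simp [carc, cpos]

lemma carc_symm (u v : V) (h : G.Adj u v) (s : ℝ) :
    D.carc v u h.symm s = D.carc u v h (1 - s) := by
  simp [carc, D.arc_symm u v h]

lemma carc_ne (u v : V) (h : G.Adj u v) (w : V) (hu : w ≠ u) (hv : w ≠ v) (s : ℝ) :
    D.carc u v h s ≠ D.cpos w := by
  intro hh
  have := toC_injective hh
  exact D.arc_avoid u v h w hu hv (Set.projIcc (0 : ℝ) 1 zero_le_one s) this

/-- winding variation of an edge around a vertex -/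
noncomputable def theta (w u v : V) (h : G.Adj u v) : ℂ :=
  vari (fun s => D.carc u v h s - D.cpos w)

lemma theta_symm (w u v : V) (h : G.Adj u v) (hu : w ≠ u) (hv : w ≠ v) :
    D.theta w v u h.symm = - D.theta w u v h := by
  have := vari_rev (fun s => D.carc u v h s - D.cpos w)
    ((D.continuous_carc u v h).sub continuous_const)
    (fun t => sub_ne_zero.mpr (D.carc_ne u v h w hu hv t))
  unfold theta
  rw [← this]
  congr 1
  funext s
  rw [D.carc_symm u v h]

lemma theta_quant (w u v : V) (h : G.Adj u v) (hu : w ≠ u) (hv : w ≠ v) :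
    ∃ n : ℤ, D.theta w u v h = Complex.log (D.cpos v - D.cpos w)
      - Complex.log (D.cpos u - D.cpos w) + n * (2 * Real.pi * I) := by
  obtain ⟨n, hn⟩ := vari_quant (fun s => D.carc u v h s - D.cpos w)
    ((D.continuous_carc u v h).sub continuous_const)
    (fun t => sub_ne_zero.mpr (D.carc_ne u v h w hu hv t))
  refine ⟨n, ?_⟩
  simp only [carc_zero, carc_one] at hn
  exact hn

open Classical in
/-- integer winding correction -/
noncomputable def wn (w u v : V) : ℤ :=
  if h : G.Adj u v ∧ w ≠ u ∧ w ≠ v then (D.theta_quant w u v h.1 h.2.1 h.2.2).choose else 0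

lemma wn_spec (w u v : V) (h : G.Adj u v) (hu : w ≠ u) (hv : w ≠ v) :
    D.theta w u v h = Complex.log (D.cpos v - D.cpos w)
      - Complex.log (D.cpos u - D.cpos w) + (D.wn w u v : ℂ) * (2 * Real.pi * I) := by
  have hh : G.Adj u v ∧ w ≠ u ∧ w ≠ v := ⟨h, hu, hv⟩
  rw [wn, dif_pos hh]
  exact (D.theta_quant w u v hh.1 hh.2.1 hh.2.2).choose_spec

lemma two_pi_I_ne : (2 * Real.pi * I : ℂ) ≠ 0 := by
  simp [Real.pi_ne_zero]

lemma wn_symm (w u v : V) : D.wn w v u = - D.wn w u v := by
  by_cases h : G.Adj u v ∧ w ≠ u ∧ w ≠ v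
  · obtain ⟨h, hu, hv⟩ := h
    have e1 := D.wn_spec w u v h hu hv
    have e2 := D.wn_spec w v u h.symm hv hu
    rw [D.theta_symm w u v h hu hv, e1] at e2
    have e3 : ((D.wn w v u : ℂ) + D.wn w u v) * (2 * Real.pi * I) = 0 := by
      linear_combination -e2
    have e4 := (mul_eq_zero.mp e3).resolve_right two_pi_I_ne
    have e5 : D.wn w v u + D.wn w u v = 0 := by exact_mod_cast e4
    omega
  · have h' : ¬ (G.Adj v u ∧ w ≠ v ∧ w ≠ u) := fun hh => h ⟨hh.1.symm, hh.2.2, hh.2.1⟩
    rw [wn, dif_neg h', wn, dif_neg h]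
    simp

open Classical in
/-- orientation bit of a pair of vertices -/
noncomputable def et (x y : V) : ℤ :=
  if Complex.log (D.cpos y - D.cpos x) - Complex.log (D.cpos x - D.cpos y) = Real.pi * I
  then 0 else 1

lemma et_spec (x y : V) (h : x ≠ y) :
    Complex.log (D.cpos y - D.cpos x) - Complex.log (D.cpos x - D.cpos y)
      = (1 - 2 * (D.et x y : ℂ)) * (Real.pi * I) := by
  have hz : D.cpos y - D.cpos x ≠ 0 := sub_ne_zero.mpr (fun hh => h (D.cpos_injective hh).symm)
  have h1 := log_sub_log_neg _ hz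
  rw [neg_sub] at h1
  unfold et
  split_ifs with hc
  · rw [hc]; simp
  · rw [h1.resolve_left hc]; push_cast; ring

lemma et_add (x y : V) (h : x ≠ y) : D.et x y + D.et y x = 1 := by
  have e1 := D.et_spec x y h
  have e2 := D.et_spec y x h.symm
  have e3 : (2 - 2 * ((D.et x y : ℂ) + D.et y x)) * (Real.pi * I) = 0 := by
    linear_combination -e1 - e2
  have hpi : (Real.pi * I : ℂ) ≠ 0 := by simp [Real.pi_ne_zero]
  have e4 := (mul_eq_zero.mp e3).resolve_right hpi
  have e5 : (2 : ℤ) - 2 * (D.et x y + D.et y x) = 0 := by exact_mod_cast e4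
  omega

/-- two arcs cross if their interiors meet -/
def Cross (e f : Sym2 V) : Prop := (D.interior e ∩ D.interior f).Nonempty

lemma carc_disjoint (u v x y : V) (h : G.Adj u v) (h' : G.Adj x y) (hux : u ≠ x) (huy : u ≠ y)
    (hvx : v ≠ x) (hvy : v ≠ y) (hc : ¬ D.Cross s(u, v) s(x, y)) (s t : ℝ) :
    D.carc u v h s ≠ D.carc x y h' t := by
  intro hh
  have h1 := toC_injective hh
  set s' := Set.projIcc (0 : ℝ) 1 zero_le_one s
  set t' := Set.projIcc (0 : ℝ) 1 zero_le_one t
  change D.arc u v h s' = D.arc x y h' t' at h1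
  by_cases hs0 : s' = 0
  · rw [hs0, Path.source] at h1
    exact D.arc_avoid x y h' u hux huy _ h1.symm
  by_cases hs1 : s' = 1
  · rw [hs1, Path.target] at h1
    exact D.arc_avoid x y h' v hvx hvy _ h1.symm
  by_cases ht0 : t' = 0
  · rw [ht0, Path.source] at h1
    exact D.arc_avoid u v h x hux.symm hvx.symm _ h1
  by_cases ht1 : t' = 1
  · rw [ht1, Path.target] at h1
    exact D.arc_avoid u v h y huy.symm hvy.symm _ h1
  exact hc ⟨D.arc u v h s', ⟨u, v, h, rfl, s', hs0, hs1, rfl⟩, ⟨x, y, h', rfl, t', ht0, ht1,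
    h1.symm⟩⟩

lemma parity_int (u v x y : V) (h : G.Adj u v) (h' : G.Adj x y) (hux : u ≠ x) (huy : u ≠ y)
    (hvx : v ≠ x) (hvy : v ≠ y) (hc : ¬ D.Cross s(u, v) s(x, y)) :
    - D.et x v + D.et x u + D.et y v - D.et y u + D.wn x u v - D.wn y u v + D.wn v x y
      - D.wn u x y = 0 := by
  have key := vari_square (D.carc u v h) (D.carc x y h') (D.continuous_carc u v h)
    (D.continuous_carc x y h') (D.carc_disjoint u v x y h h' hux huy hvx hvy hc)
  simp only [carc_zero, carc_one] at key
  change D.theta x u v h + D.theta v x y h' - D.theta y u v h - D.theta u x y h' = 0 at key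
  rw [D.wn_spec x u v h hux.symm hvx.symm, D.wn_spec v x y h' hvx hvy,
    D.wn_spec y u v h huy.symm hvy.symm, D.wn_spec u x y h' hux huy] at key
  have a1 := D.et_spec x v hvx.symm
  have a2 := D.et_spec x u hux.symm
  have a3 := D.et_spec y v hvy.symm
  have a4 := D.et_spec y u huy.symm
  have e3 : ((- D.et x v + D.et x u + D.et y v - D.et y u + D.wn x u v - D.wn y u v + D.wn v x y
      - D.wn u x y : ℤ) : ℂ) * (2 * Real.pi * I) = 0 := by
    push_cast
    linear_combination key - a1 + a2 + a3 - a4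
  have e4 := (mul_eq_zero.mp e3).resolve_right two_pi_I_ne
  exact_mod_cast e4

end Drawing

/-- Parity data on a graph with respect to a symmetric crossing relation on edges. -/
structure ParityData (G : SimpleGraph V) (cross : Sym2 V → Sym2 V → Prop) where
  eta : V → V → ZMod 2
  N : V → V → V → ZMod 2
  eta_add : ∀ x y, x ≠ y → eta x y + eta y x = 1
  N_symm : ∀ w u v, N w u v = N w v u
  rel : ∀ u v x y, G.Adj u v → G.Adj x y → u ≠ x → u ≠ y → v ≠ x → v ≠ y →
    ¬ cross s(u, v) s(x, y) →
    eta x v + eta x u + eta y v + eta y u + N x u v + N y u v + N v x y + N u x y = 0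

/-- A plane drawing yields parity data. -/
noncomputable def Drawing.parityData (D : Drawing G (ℝ × ℝ)) : ParityData G D.Cross where
  eta x y := (D.et x y : ZMod 2)
  N w u v := (D.wn w u v : ZMod 2)
  eta_add x y h := by
    have := D.et_add x y h
    rw [← Int.cast_add, this, Int.cast_one]
  N_symm w u v := by
    rw [D.wn_symm w v u, Int.cast_neg, ZMod.neg_eq_self_mod_two]
  rel u v x y h h' hux huy hvx hvy hc := by
    have := D.parity_int u v x y h h' hux huy hvx hvy hc
    have h2 := congrArg (Int.cast : ℤ → ZMod 2) this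
    push_cast at h2
    simp only [sub_eq_add_neg, ZMod.neg_eq_self_mod_two] at h2
    exact h2

end Pool.Agent.Lib.MP_ec8146_lc
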