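import Pool.Agent.Lib.MP_ec8146_lc.Setup

/-!
# Potentials on the base grid of a block
-/

namespace Pool.Agent.Lib.MP_ec8146_lc

open Vtx

/-- If a transitive relation holds for close pairs of good elements, it holds for all pairs. -/
lemma chain_all (P : ℕ → Prop) (R : ℕ → ℕ → Prop) (L B : ℕ)
    (trans : ∀ x y z, P x → P y → P z → R x y → R y z → R x z)
    (window : ∀ x0, x0 + L < B → ∃ x1, x0 ≤ x1 ∧ x1 ≤ x0 + L ∧ P x1)
    (close : ∀ x x', P x → P x' → x < x' → x' ≤ x + L + 1 → R x x') :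
    ∀ n x x', x' - x ≤ n → P x → P x' → x < x' → x' < B → R x x' := by
  intro n
  induction n with
  | zero => intro x x' h _ _ hlt _; omega
  | succ n ih =>
    intro x x' hn hx hx' hlt hB
    by_cases hc : x' ≤ x + L + 1
    · exact close x x' hx hx' hlt hc
    · obtain ⟨x1, h1, h2, h3⟩ := window (x + 1) (by omega)
      have r1 : R x x1 := close x x1 hx h3 (by omega) (by omega)
      have r2 : R x1 x' := ih x1 x' (by omega) h3 hx' (by omega) hB
      exact trans x x1 x' hx h3 hx' r1 r2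

namespace Setup

variable {p : Par} {k a : ℕ} (S : Setup p k)

/-- value of a dart -/
def xd (J : Ch Vtx) (d : Vtx × Vtx) : ZMod 2 := (J.map (fun e => c0 S.eta S.N d e)).sum

lemma X_eq (P J : Ch Vtx) : S.X P J = (P.map (S.xd J)).sum := rfl

/-- horizontal partial sums -/
def Hs (J : Ch Vtx) (b : Fin 5) (y x : ℕ) : ZMod 2 :=
  ∑ i ∈ Finset.range x, S.xd J (base b i y, base b (i + 1) y)

/-- vertical partial sums -/
def Vs (J : Ch Vtx) (b : Fin 5) (x y : ℕ) : ZMod 2 :=
  ∑ i ∈ Finset.range y, S.xd J (base b x i, base b x (i + 1))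

lemma X_hseg (J : Ch Vtx) (b : Fin 5) (y x x' : ℕ) :
    S.X (hseg b y x x') J = S.Hs J b y x + S.Hs J b y x' := by
  rw [X_eq, hseg, seg_sum]
  rfl

lemma X_vseg (J : Ch Vtx) (b : Fin 5) (x y y' : ℕ) :
    S.X (vseg b x y y') J = S.Vs J b x y + S.Vs J b x y' := by
  rw [X_eq, vseg, seg_sum]
  rfl

/-- a row none of whose edges is in `S0` -/
def goodRow (b : Fin 5) (y : ℕ) : Prop :=
  y < p.M ∧ ∀ x, x + 1 < p.M → s(base b x y, base b (x + 1) y) ∉ S.S0

/-- a column avoiding walls, none of whose edges is in `S0` -/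
def goodCol (b : Fin 5) (x : ℕ) : Prop :=
  x < p.M ∧ ¬ (1 ≤ x % p.s ∧ x % p.s ≤ p.w b + 1) ∧
    ∀ y, y + 1 < p.M → s(base b x y, base b x (y + 1)) ∉ S.S0

variable {S}

lemma hseg_isH {b : Fin 5} {y x x' : ℕ} (hy : S.goodRow b y) (hx : x < p.M) (hx' : x' < p.M) :
    S.IsH (hseg b y x x') := by
  intro d hd
  obtain ⟨i, h1, h2, rfl⟩ := mem_seg.mp hd
  have : i + 1 < p.M := by omega
  exact ⟨Or.inl (Gen.hor b i y this hy.1), hy.2 i this⟩

lemma vseg_isH {b : Fin 5} {x y y' : ℕ} (hx : S.goodCol b x) (hy : y < p.M) (hy' : y' < p.M) :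
    S.IsH (vseg b x y y') := by
  intro d hd
  obtain ⟨i, h1, h2, rfl⟩ := mem_seg.mp hd
  have : i + 1 < p.M := by omega
  exact ⟨Or.inl (Gen.ver b x i hx.1 this (fun hw => hx.2.1 hw.2)), hx.2.2 i this⟩

lemma hseg_inB {b : Fin 5} {y x x' : ℕ} : InB (hseg b y x x') {b} := by
  intro d hd
  obtain ⟨i, h1, h2, rfl⟩ := mem_seg.mp hd
  simp [Vtx.blk]

lemma vseg_inB {b : Fin 5} {x y y' : ℕ} : InB (vseg b x y y') {b} := by
  intro d hd
  obtain ⟨i, h1, h2, rfl⟩ := mem_seg.mp hd
  simp [Vtx.blk]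

lemma hseg_base {b : Fin 5} {y x x' : ℕ} (hy : y < p.M) (hx : x < p.M) (hx' : x' < p.M) :
    ∀ d ∈ hseg b y x x', s(d.1, d.2) ∈ BE p ∧ (∃ x y, d.1 = base b x y) ∧
      ∃ x y, d.2 = base b x y := by
  intro d hd
  obtain ⟨i, h1, h2, rfl⟩ := mem_seg.mp hd
  exact ⟨hor_mem_BE (by omega) hy, ⟨_, _, rfl⟩, ⟨_, _, rfl⟩⟩

lemma vseg_base {b : Fin 5} {x y y' : ℕ} (hx : x < p.M) (hy : y < p.M) (hy' : y' < p.M) :
    ∀ d ∈ vseg b x y y', s(d.1, d.2) ∈ BE p ∧ (∃ x y, d.1 = base b x y) ∧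
      ∃ x y, d.2 = base b x y := by
  intro d hd
  obtain ⟨i, h1, h2, rfl⟩ := mem_seg.mp hd
  exact ⟨ver_mem_BE hx (by omega), ⟨_, _, rfl⟩, ⟨_, _, rfl⟩⟩

/-- hypothesis: `J` joins two holes of the block `q` -/
def JH (S : Setup p k) (hp : p.Good k a) (q : Fin 5) (J : Ch Vtx) : Prop :=
  ∃ i j i' j', i < p.N ∧ j < p.N ∧ i' < p.N ∧ j' < p.N ∧
    Bd J (S.cnr hp q i j) (S.cnr hp q i' j')

lemma rect_small (hp : p.Good k a) {b q : Fin 5} (hbq : b < q) {J : Ch Vtx}
    (hJ : S.JH hp q J) {x x' y y' : ℕ} (hx : S.goodCol b x) (hx' : S.goodCol b x')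
    (hy : S.goodRow b y) (hy' : S.goodRow b y') (h1 : max x x' ≤ min x x' + (p.w b + k + 2))
    (h2 : max y y' ≤ min y y' + (k + 1)) :
    S.Hs J b y x + S.Hs J b y x' + (S.Vs J b x' y + S.Vs J b x' y')
      + (S.Hs J b y' x' + S.Hs J b y' x) + (S.Vs J b x y' + S.Vs J b x y) = 0 := by
  obtain ⟨i, j, i', j', hi, hj, hi', hj', hJ⟩ := hJ
  have b1 : Bd (hseg b y x x') (base b x y) (base b x' y) := Bd_seg (fun i => base b i y) x x'
  have b2 : Bd (vseg b x' y y') (base b x' y) (base b x' y') :=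
    Bd_seg (fun i => base b x' i) y y'
  have b3 : Bd (hseg b y' x' x) (base b x' y') (base b x y') :=
    Bd_seg (fun i => base b i y') x' x
  have b4 : Bd (vseg b x y' y) (base b x y') (base b x y) := Bd_seg (fun i => base b x i) y' y
  have h3 := hp.w_lt b q hbq
  have hcard : (hseg b y x x' + vseg b x' y y' + hseg b y' x' x + vseg b x y' y).card
      ≤ 2 * (p.w b + 2 * k + 3) := by
    simp only [Multiset.card_add, hseg, vseg, card_seg]
    rw [max_comm x' x, min_comm x' x, max_comm y' y, min_comm y' y]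
    clear h3 b1 b2 b3 b4 hJ
    generalize max x x' = A at *
    generalize min x x' = B at *
    generalize max y y' = C at *
    generalize min y y' = E at *
    omega
  have key := S.short_closed hp (b := b) (q := q) hbq.ne
    (R := hseg b y x x' + vseg b x' y y' + hseg b y' x' x + vseg b x y' y) (J := J)
    (u := base b x y) (((b1.add b2).add b3).add b4)
    (Setup.IsH.add S (Setup.IsH.add S (Setup.IsH.add S (hseg_isH hy hx.1 hx'.1)
      (vseg_isH hx' hy.1 hy'.1)) (hseg_isH hy' hx'.1 hx.1)) (vseg_isH hx hy'.1 hy.1))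
    (InB.add (InB.add (InB.add hseg_inB vseg_inB) hseg_inB) vseg_inB)
    (by
      intro d hd
      simp only [Multiset.mem_add] at hd
      rcases hd with ((h | h) | h) | h
      · exact hseg_base hy.1 hx.1 hx'.1 d h
      · exact vseg_base hx'.1 hy.1 hy'.1 d h
      · exact hseg_base hy'.1 hx'.1 hx.1 d h
      · exact vseg_base hx.1 hy'.1 hy.1 d h)
    ((Nat.add_le_add_right (Nat.mul_le_mul_right _ hcard) _).trans h3)
    hi hj hi' hj' hJ
  rw [S.X_add_left, S.X_add_left, S.X_add_left, X_hseg, X_vseg, X_hseg, X_vseg] at key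
  exact key

lemma window_row (b : Fin 5) (y0 : ℕ) (h : y0 + k < p.M) :
    ∃ y1, y0 ≤ y1 ∧ y1 ≤ y0 + k ∧ S.goodRow b y1 := by
  obtain ⟨y, hy, -, hint⟩ := exists_intact (Finset.Icc y0 (y0 + k))
    (fun y v => ∃ x, v = base b x y) (by
      rintro y - y' - v ⟨x, rfl⟩ ⟨x', h⟩
      injection h) ∅ S.S0 (by
      have := S.S0_card
      simp only [Finset.card_empty, Nat.card_Icc]; omega)
  have hy' := Finset.mem_Icc.mp hy
  refine ⟨y, hy'.1, hy'.2, by omega, ?_⟩
  intro x _ hmem
  apply hint _ hmem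
  intro v hv
  rcases Sym2.mem_iff.mp hv with rfl | rfl
  · exact ⟨_, rfl⟩
  · exact ⟨_, rfl⟩

lemma window_col (hp : p.Good k a) (b : Fin 5) (x0 : ℕ) (h : x0 + (p.w b + 1 + k) < p.M) :
    ∃ x1, x0 ≤ x1 ∧ x1 ≤ x0 + (p.w b + 1 + k) ∧ S.goodCol b x1 := by
  classical
  have hws := hp.ws b
  have hwk := hp.wk b
  set f : ℕ → ℕ := fun t => if (1 ≤ (x0 + t) % p.s ∧ (x0 + t) % p.s ≤ p.w b + 1)
    then x0 + t + (p.w b + 1) else x0 + t with hf
  have hf1 : ∀ t, x0 + t ≤ f t ∧ f t ≤ x0 + t + (p.w b + 1) := by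
    intro t
    simp only [hf]
    split_ifs <;> omega
  have hf2 : ∀ t, ¬ (1 ≤ (f t) % p.s ∧ (f t) % p.s ≤ p.w b + 1) := by
    intro t
    simp only [hf]
    split_ifs with h1
    · have e : (x0 + t + (p.w b + 1)) % p.s = (x0 + t) % p.s + (p.w b + 1) := by
        rw [Nat.add_mod, Nat.mod_eq_of_lt (b := p.s) (a := p.w b + 1) (by omega)]
        exact Nat.mod_eq_of_lt (by omega)
      rw [e]
      omega
    · exact h1
  obtain ⟨t, ht, -, hint⟩ := exists_intact (Finset.range (k + 1))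
    (fun t v => ∃ y, v = base b (f t) y) (by
      rintro t ht t' ht' v ⟨y, rfl⟩ ⟨y', h'⟩
      injection h' with h1 h2 h3
      have ht := Finset.mem_range.mp ht
      have ht' := Finset.mem_range.mp ht'
      simp only [hf] at h2
      split_ifs at h2 <;> omega) ∅ S.S0 (by
      have := S.S0_card
      simp only [Finset.card_empty, Finset.card_range]; omega)
  have ht' := Finset.mem_range.mp ht
  have h3 := hf1 t
  refine ⟨f t, by omega, by omega, by omega, hf2 t, ?_⟩
  intro y _ hmem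
  apply hint _ hmem
  intro v hv
  rcases Sym2.mem_iff.mp hv with rfl | rfl
  · exact ⟨_, rfl⟩
  · exact ⟨_, rfl⟩

/-- All rectangles spanned by good lines have intersection number zero. -/
lemma rect_all (hp : p.Good k a) {b q : Fin 5} (hbq : b < q) {J : Ch Vtx}
    (hJ : S.JH hp q J) {x x' y y' : ℕ} (hx : S.goodCol b x) (hx' : S.goodCol b x')
    (hy : S.goodRow b y) (hy' : S.goodRow b y') :
    S.Hs J b y x + S.Hs J b y' x + (S.Vs J b x y + S.Vs J b x y')
      = S.Hs J b y x' + S.Hs J b y' x' + (S.Vs J b x' y + S.Vs J b x' y') := by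
  set A : ℕ → ℕ → ℕ → ZMod 2 := fun x y y' =>
    S.Hs J b y x + S.Hs J b y' x + (S.Vs J b x y + S.Vs J b x y') with hA
  have Asymm : ∀ x y y', A x y y' = A x y' y := by intro x y y'; simp only [hA]; ring
  have Aadd : ∀ x y y' y'', A x y y' + A x y' y'' = A x y y'' := by
    intro x y y' y''
    simp only [hA]
    linear_combination z2_add_self (S.Hs J b y' x) + z2_add_self (S.Vs J b x y')
  have small : ∀ x x' y y', S.goodCol b x → S.goodCol b x' → S.goodRow b y → S.goodRow b y' →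
      x < x' → x' ≤ x + (p.w b + 1 + k) + 1 → y < y' → y' ≤ y + k + 1 → A x y y' = A x' y y' := by
    intro x x' y y' hx hx' hy hy' h1 h2 h3 h4
    have := rect_small hp hbq hJ hx hx' hy hy' (by omega) (by omega)
    simp only [hA]
    linear_combination this - z2_add_self (S.Hs J b y x') - z2_add_self (S.Hs J b y' x')
      - z2_add_self (S.Vs J b x' y) - z2_add_self (S.Vs J b x' y')
  -- close rows, all columns
  have step1 : ∀ y y', S.goodRow b y → S.goodRow b y' → y < y' → y' ≤ y + k + 1 →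
      ∀ x x', S.goodCol b x → S.goodCol b x' → x < x' → A x y y' = A x' y y' := by
    intro y y' hy hy' h1 h2 x x' hx hx' hlt
    refine chain_all (S.goodCol b) (fun x x' => A x y y' = A x' y y') (p.w b + 1 + k) p.M
      (fun x1 x2 x3 _ _ _ h h' => h.trans h') (fun x0 h0 => window_col hp b x0 h0)
      (fun x1 x2 g1 g2 h h' => small x1 x2 y y' g1 g2 hy hy' h h' h1 h2)
      (x' - x) x x' le_rfl hx hx' hlt hx'.1
  -- all rows, all columns
  have step2 : ∀ x x', S.goodCol b x → S.goodCol b x' → x < x' →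
      ∀ y y', S.goodRow b y → S.goodRow b y' → y < y' → A x y y' = A x' y y' := by
    intro x x' hx hx' hlt y y' hy hy' hlt'
    refine chain_all (S.goodRow b) (fun y y' => A x y y' = A x' y y') k p.M
      (fun y1 y2 y3 _ _ _ h h' => by rw [← Aadd x y1 y2 y3, ← Aadd x' y1 y2 y3, h, h'])
      (fun y0 h0 => window_row b y0 h0)
      (fun y1 y2 g1 g2 h h' => step1 y1 y2 g1 g2 h h' x x' hx hx' hlt)
      (y' - y) y y' le_rfl hy hy' hlt' hy'.1
  change A x y y' = A x' y y'
  have Aself : ∀ x y, A x y y = 0 := by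
    intro x y
    simp only [hA]
    linear_combination z2_add_self (S.Hs J b y x) + z2_add_self (S.Vs J b x y)
  have step3 : ∀ x x', S.goodCol b x → S.goodCol b x' → x < x' →
      ∀ y y', S.goodRow b y → S.goodRow b y' → A x y y' = A x' y y' := by
    intro x x' hx hx' hlt y y' hy hy'
    rcases lt_trichotomy y y' with h | h | h
    · exact step2 x x' hx hx' hlt y y' hy hy' h
    · subst h; rw [Aself, Aself]
    · rw [Asymm x y y', Asymm x' y y']
      exact step2 x x' hx hx' hlt y' y hy' hy h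
  rcases lt_trichotomy x x' with h | h | h
  · exact step3 x x' hx hx' h y y' hy hy'
  · subst h; rfl
  · exact (step3 x' x hx' hx h y y' hy hy').symm

/-- Existence of a potential on the good lines of block `b`. -/
lemma exists_potential (hp : p.Good k a) {b q : Fin 5} (hbq : b < q) {J : Ch Vtx}
    (hJ : S.JH hp q J) : ∃ φ : ℕ → ℕ → ZMod 2,
      (∀ x x' y, S.goodCol b x → S.goodCol b x' → S.goodRow b y →
        S.X (hseg b y x x') J = φ x y + φ x' y) ∧
      (∀ x y y', S.goodCol b x → S.goodRow b y → S.goodRow b y' →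
        S.X (vseg b x y y') J = φ x y + φ x y') := by
  have hMk : p.w b + 1 + k < p.M := by
    have h1 := hp.ws b
    have h2 := hp.wk b
    have h3 : 1 ≤ p.N := by have := hp.gN; omega
    have : p.s ≤ p.M := by unfold Par.M; exact Nat.le_mul_of_pos_left _ h3
    omega
  obtain ⟨x0, -, -, hx0⟩ := window_col (S := S) hp b 0 (by omega)
  obtain ⟨y0, -, -, hy0⟩ := window_row (S := S) b 0 (by omega)
  refine ⟨fun x y => S.Hs J b y0 x0 + S.Hs J b y0 x + (S.Vs J b x y0 + S.Vs J b x y), ?_, ?_⟩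
  · intro x x' y hx hx' hy
    have key := rect_all hp hbq hJ hx hx' hy0 hy
    rw [X_hseg]
    have t1 := z2_add_self (S.Hs J b y0 x0)
    have t2 := z2_add_self (S.Hs J b y x')
    have t3 := z2_add_self (S.Hs J b y0 x)
    have t4 := z2_add_self (S.Vs J b x y0)
    have t5 := z2_add_self (S.Vs J b x y)
    linear_combination key - t1 + t2 - t3 - t4 - t5
  · intro x y y' hx hy hy'
    rw [X_vseg]
    linear_combination - z2_add_self (S.Hs J b y0 x0) - z2_add_self (S.Hs J b y0 x)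
      - z2_add_self (S.Vs J b x y0)

end Setup

end Pool.Agent.Lib.MP_ec8146_lc
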