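import Pool.Agent.Lib.MP_ec8146_lc.Graph

/-!
# Robust connectivity of the construction
-/

namespace Pool.Agent.Lib.MP_ec8146_lc

open Vtx

variable {p : Par} {AV : Finset Vtx} {AE : Finset (Sym2 Vtx)}

/-- being on a full base row -/
def memRow (y : ℕ) (v : Vtx) : Prop := ∃ c x, v = base c x y

/-- being on a full base column -/
def memCol (x : ℕ) (v : Vtx) : Prop := ∃ c y, v = base c x y

/-- intact lines -/
def Intact (AV : Finset Vtx) (AE : Finset (Sym2 Vtx)) (mem : Vtx → Prop) : Prop :=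
  (∀ v ∈ AV, ¬ mem v) ∧ ∀ e ∈ AE, ¬ (∀ v ∈ e, mem v)

lemma Intact.step {mem : Vtx → Prop} (h : Intact AV AE mem) {u v : Vtx}
    (huv : Gen p u v ∨ Gen p v u) (hu : mem u) (hv : mem v) : Step p AV AE u v := by
  refine ⟨huv, fun hh => h.1 _ hh hu, fun hh => h.1 _ hh hv, fun hh => h.2 _ hh ?_⟩
  intro w hw
  rcases Sym2.mem_iff.mp hw with rfl | rfl
  · exact hu
  · exact hv

lemma row_conn {y : ℕ} (hy : y < p.M) (h : Intact AV AE (memRow y)) (c c' : Fin 5) (x x' : ℕ)
    (hx : x < p.M) (hx' : x' < p.M) : Conn p AV AE (base c x y) (base c' x' y) := by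
  have inblock : ∀ c : Fin 5, ∀ x x' : ℕ, x < p.M → x' < p.M →
      Conn p AV AE (base c x y) (base c x' y) := by
    intro c x x' hx hx'
    refine conn_line (fun i => base c i y) 0 (p.M - 1) ?_ x x' (by omega) (by omega) (by omega)
      (by omega)
    intro i _ hi
    exact h.step (Or.inl (Gen.hor c i y (by omega) hy)) ⟨c, i, rfl⟩ ⟨c, i + 1, rfl⟩
  have next : ∀ c : Fin 5, Conn p AV AE (base c 0 y) (base (c + 1) 0 y) := by
    intro c
    refine (inblock c 0 (p.M - 1) (by omega) (by omega)).trans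
      (Relation.ReflTransGen.single ?_)
    exact h.step (Or.inl (Gen.horc c y hy)) ⟨c, p.M - 1, rfl⟩ ⟨c + 1, 0, rfl⟩
  have all : ∀ c : Fin 5, Conn p AV AE (base 0 0 y) (base c 0 y) := by
    have h1 := next 0
    have h2 := h1.trans (next 1)
    have h3 := h2.trans (next 2)
    have h4 := h3.trans (next 3)
    intro c
    fin_cases c
    · exact Conn.refl _
    · exact h1
    · exact h2
    · exact h3
    · exact h4
  exact (inblock c x 0 hx (by omega)).trans
    (((all c).symm.trans (all c')).trans (inblock c' 0 x' (by omega) hx'))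

lemma col_conn {x : ℕ} (hx : x < p.M) (hxs : x % p.s = 0) (h : Intact AV AE (memCol x))
    (c c' : Fin 5) (y y' : ℕ)
    (hy : y < p.M) (hy' : y' < p.M) : Conn p AV AE (base c x y) (base c' x y') := by
  have inblock : ∀ c : Fin 5, ∀ y y' : ℕ, y < p.M → y' < p.M →
      Conn p AV AE (base c x y) (base c x y') := by
    intro c y y' hy hy'
    refine conn_line (fun i => base c x i) 0 (p.M - 1) ?_ y y' (by omega) (by omega) (by omega)
      (by omega)
    intro i _ hi
    refine h.step (Or.inl (Gen.ver c x i hx (by omega) ?_)) ⟨c, i, rfl⟩ ⟨c, i + 1, rfl⟩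
    intro hw
    have := hw.2.1
    omega
  have next : ∀ c : Fin 5, Conn p AV AE (base c x 0) (base (c + 2) x 0) := by
    intro c
    refine (inblock c 0 (p.M - 1) (by omega) (by omega)).trans
      (Relation.ReflTransGen.single ?_)
    exact h.step (Or.inl (Gen.verc c x hx)) ⟨c, p.M - 1, rfl⟩ ⟨c + 2, 0, rfl⟩
  have all : ∀ c : Fin 5, Conn p AV AE (base 0 x 0) (base c x 0) := by
    have h2 := next 0
    have h4 := h2.trans (next 2)
    have h1 := h4.trans (next 4)
    have h3 := h1.trans (next 1)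
    intro c
    fin_cases c
    · exact Conn.refl _
    · exact h1
    · exact h2
    · exact h3
    · exact h4
  exact (inblock c y 0 hy (by omega)).trans
    (((all c).symm.trans (all c')).trans (inblock c' 0 y' (by omega) hy'))

/-- There is a reference vertex to which all intact rows are connected. -/
lemma exists_giant (hs : 1 ≤ p.s) (hcard : AV.card + AE.card < p.N) :
    ∃ O : Vtx, ∀ y < p.M, Intact AV AE (memRow y) → ∀ c x, x < p.M →
      Conn p AV AE (base c x y) O := by
  obtain ⟨i, hi, hint⟩ := exists_intact (Finset.range p.N) (fun i v => memCol (i * p.s) v)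
    (by
      rintro i - j - v ⟨c, y, rfl⟩ ⟨c', y', h⟩
      injection h with h1 h2 h3
      exact Nat.eq_of_mul_eq_mul_right (by omega) h2) AV AE (by simpa using hcard)
  have hi' : i < p.N := Finset.mem_range.mp hi
  have hiM : i * p.s < p.M := by
    unfold Par.M
    exact Nat.mul_lt_mul_of_pos_right hi' (by omega)
  have hint' : Intact AV AE (memCol (i * p.s)) := hint
  refine ⟨base 0 (i * p.s) 0, ?_⟩
  intro y hy hrow c x hx
  have h1 := row_conn hy hrow c 0 x (i * p.s) hx hiM
  have h2 := col_conn hiM (by simp) hint' 0 0 y 0 hy (by omega)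
  exact h1.trans h2

/-- wall column: base part and wall part -/
def memWC (p : Par) (c : Fin 5) (i j l : ℕ) (v : Vtx) : Prop :=
  (∃ y, v = base c (i * p.s + 1 + l) y ∧ j * p.s ≤ y ∧ y ≤ j * p.s + p.g) ∨
    ∃ r, 1 ≤ r ∧ r ≤ p.D ∧ v = wall c i j r (l * 2 ^ r)

/-- wall row segment in the row `r`, over the interval `[β w, (β+1) w]` of level `ρ` -/
def memWR (p : Par) (c : Fin 5) (i j ρ β r : ℕ) (v : Vtx) : Prop :=
  ∃ m, β * p.w c * 2 ^ (r - ρ) ≤ m ∧ m ≤ (β + 1) * p.w c * 2 ^ (r - ρ) ∧ v = wall c i j r m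

/-- block column -/
def memBC (p : Par) (c : Fin 5) (i j ρ β a l : ℕ) (v : Vtx) : Prop :=
  ∃ t ≤ a, v = wall c i j (ρ + t) ((β * p.w c + l) * 2 ^ t)

lemma cell_lt {i : ℕ} (hi : i < p.N) {x : ℕ} (hx : x < p.s) : i * p.s + x < p.M := by
  unfold Par.M
  calc i * p.s + x < i * p.s + p.s := by omega
    _ = (i + 1) * p.s := by ring
    _ ≤ p.N * p.s := Nat.mul_le_mul_right _ hi

lemma wc_conn (hw : ∀ c, 2 * p.w c + 3 ≤ p.s) (hg : p.g + 1 < p.s) {c : Fin 5} {i j l : ℕ}
    (hi : i < p.N) (hj : j < p.N) (hl : l ≤ p.w c) (h : Intact AV AE (memWC p c i j l))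
    (y : ℕ) (hy : j * p.s ≤ y) (hy' : y ≤ j * p.s + p.g) (r : ℕ) (hr : 1 ≤ r) (hrD : r ≤ p.D) :
    Conn p AV AE (wall c i j r (l * 2 ^ r)) (base c (i * p.s + 1 + l) y) := by
  have hwc := hw c
  have hx : i * p.s + 1 + l < p.M := by
    have := cell_lt hi (x := 1 + l) (by omega)
    omega
  -- base part
  have h1 : Conn p AV AE (base c (i * p.s + 1 + l) y) (base c (i * p.s + 1 + l) (j * p.s + p.g))
      := by
    refine conn_line (fun t => base c (i * p.s + 1 + l) t) (j * p.s) (j * p.s + p.g) ?_ y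
      (j * p.s + p.g) hy hy' (by omega) le_rfl
    intro t ht ht'
    obtain ⟨t', rfl⟩ := Nat.exists_eq_add_of_le ht
    have hlt := cell_lt hj (x := t' + 1) (by omega)
    refine h.step (Or.inl (Gen.ver c _ _ hx (by omega) ?_)) (Or.inl ⟨_, rfl, by omega, by omega⟩)
      (Or.inl ⟨_, rfl, by omega, by omega⟩)
    intro hwall
    have := hwall.1
    rw [Nat.add_comm, Nat.add_mul_mod_self_right, Nat.mod_eq_of_lt (by omega)] at this
    omega
  -- bottom edge
  have h2 : Step p AV AE (base c (i * p.s + 1 + l) (j * p.s + p.g)) (wall c i j 1 (l * 2 ^ 1)) := by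
    have he : wall c i j 1 (l * 2 ^ 1) = wall c i j 1 (2 * l) := by
      congr 1; ring
    rw [he]
    refine h.step (Or.inl (Gen.wbot c i j l hi hj hl)) (Or.inl ⟨_, rfl, by omega, by omega⟩)
      (Or.inr ⟨1, le_rfl, by omega, he.symm⟩)
  -- wall part
  have h3 : Conn p AV AE (wall c i j 1 (l * 2 ^ 1)) (wall c i j r (l * 2 ^ r)) := by
    refine conn_line (fun r => wall c i j r (l * 2 ^ r)) 1 p.D ?_ 1 r le_rfl (by omega) hr hrD
    intro t ht ht'
    have he : wall c i j (t + 1) (l * 2 ^ (t + 1)) = wall c i j (t + 1) (2 * (l * 2 ^ t)) := by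
      congr 1; ring
    refine h.step (Or.inl ?_) (Or.inr ⟨t, ht, by omega, rfl⟩)
      (Or.inr ⟨t + 1, by omega, by omega, rfl⟩)
    rw [he]
    exact Gen.wver c i j t _ hi hj ht (by omega) (Nat.mul_le_mul_right _ hl)
  exact (h3.symm.trans (Conn.symm (Relation.ReflTransGen.single h2))).trans h1.symm

lemma wr_conn {c : Fin 5} {i j ρ β r : ℕ} (hi : i < p.N) (hj : j < p.N) (hr : 1 ≤ r)
    (hrD : r ≤ p.D) (hρ : ρ ≤ r) (hβ : β < 2 ^ ρ) (h : Intact AV AE (memWR p c i j ρ β r))
    (m m' : ℕ)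
    (h1 : β * p.w c * 2 ^ (r - ρ) ≤ m) (h2 : m ≤ (β + 1) * p.w c * 2 ^ (r - ρ))
    (h1' : β * p.w c * 2 ^ (r - ρ) ≤ m') (h2' : m' ≤ (β + 1) * p.w c * 2 ^ (r - ρ)) :
    Conn p AV AE (wall c i j r m) (wall c i j r m') := by
  refine conn_line (fun m => wall c i j r m) (β * p.w c * 2 ^ (r - ρ))
    ((β + 1) * p.w c * 2 ^ (r - ρ)) ?_ m m' h1 h2 h1' h2'
  intro t ht ht'
  refine h.step (Or.inl (Gen.whor c i j r t hi hj hr hrD ?_)) ⟨t, ht, by omega, rfl⟩
    ⟨t + 1, by omega, by omega, rfl⟩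
  have e1 : (β + 1) * p.w c * 2 ^ (r - ρ) ≤ p.w c * 2 ^ r := by
    calc (β + 1) * p.w c * 2 ^ (r - ρ) ≤ 2 ^ ρ * p.w c * 2 ^ (r - ρ) :=
          Nat.mul_le_mul_right _ (Nat.mul_le_mul_right _ hβ)
      _ = p.w c * (2 ^ ρ * 2 ^ (r - ρ)) := by ring
      _ = p.w c * 2 ^ r := by rw [← pow_add, Nat.add_sub_cancel' hρ]
  omega

lemma bc_conn {c : Fin 5} {i j ρ β a l : ℕ} (hi : i < p.N) (hj : j < p.N) (hρ : 1 ≤ ρ)
    (hD : ρ + a ≤ p.D) (hβ : β < 2 ^ ρ) (hl : l ≤ p.w c)
    (h : Intact AV AE (memBC p c i j ρ β a l)) (t t' : ℕ) (ht : t ≤ a) (ht' : t' ≤ a) :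
    Conn p AV AE (wall c i j (ρ + t) ((β * p.w c + l) * 2 ^ t))
      (wall c i j (ρ + t') ((β * p.w c + l) * 2 ^ t')) := by
  refine conn_line (fun t => wall c i j (ρ + t) ((β * p.w c + l) * 2 ^ t)) 0 a ?_ t t' (by omega)
    ht (by omega) ht'
  intro q _ hq
  have he : wall c i j (ρ + (q + 1)) ((β * p.w c + l) * 2 ^ (q + 1))
      = wall c i j (ρ + q + 1) (2 * ((β * p.w c + l) * 2 ^ q)) := by
    congr 1; ring
  refine h.step (Or.inl ?_) ⟨q, by omega, rfl⟩ ⟨q + 1, by omega, rfl⟩
  rw [he]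
  refine Gen.wver c i j (ρ + q) _ hi hj (by omega) (by omega) ?_
  calc (β * p.w c + l) * 2 ^ q ≤ (2 ^ ρ * p.w c) * 2 ^ q := by
        apply Nat.mul_le_mul_right
        calc β * p.w c + l ≤ β * p.w c + p.w c := by omega
          _ = (β + 1) * p.w c := by ring
          _ ≤ 2 ^ ρ * p.w c := Nat.mul_le_mul_right _ hβ
    _ = p.w c * 2 ^ (ρ + q) := by rw [pow_add]; ring

/-- The hole number `β` in the cell `(i,j)` of block `c`: a short vertical segment at the end of
the wall. -/
def memHole (p : Par) (a : ℕ) (c : Fin 5) (i j β : ℕ) (v : Vtx) : Prop :=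
  memBC p c i j (p.D - a) β a 0 v

/-- Robust connectivity of the holes. -/
theorem hole_conn {K a : ℕ} (hw : ∀ c, 2 * p.w c + 3 ≤ p.s) (hg : p.g + 1 < p.s)
    (hcard : AV.card + AE.card ≤ K) (hKg : K ≤ p.g) (hKa : K < a)
    (haD : a + 1 ≤ p.D) {O : Vtx}
    (hO : ∀ y < p.M, Intact AV AE (memRow y) → ∀ c x, x < p.M → Conn p AV AE (base c x y) O)
    {c : Fin 5} (hKw : K ≤ p.w c) {i j β : ℕ} (hi : i < p.N) (hj : j < p.N)
    (hβ : β < 2 ^ (p.D - a)) (hhole : Intact AV AE (memHole p a c i j β)) :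
    Conn p AV AE (wall c i j (p.D - a) (β * p.w c)) O := by
  have hwc := hw c
  have hmono : ∀ {x y : ℕ}, x * p.s = y * p.s → x = y := fun h =>
    Nat.eq_of_mul_eq_mul_right (by omega) h
  -- the key induction
  have key : ∀ ρ ≤ p.D - a, ∀ β < 2 ^ ρ, ∃ r, ρ + 1 ≤ r ∧ r ≤ ρ + a ∧
      ∀ m, β * p.w c * 2 ^ (r - ρ) ≤ m → m ≤ (β + 1) * p.w c * 2 ^ (r - ρ) →
        Conn p AV AE (wall c i j r m) O := by
    intro ρ
    induction ρ with
    | zero =>
      intro _ β hβ
      have hβ0 : β = 0 := by simpa using hβ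
      subst hβ0
      -- an intact wall column
      obtain ⟨l, hl, hlint⟩ := exists_intact (Finset.range (p.w c + 1))
        (fun l v => memWC p c i j l v) (by
          rintro l - l' - v (⟨y, rfl, -, -⟩ | ⟨r, -, -, rfl⟩) (⟨y', h, -, -⟩ | ⟨r', -, -, h⟩)
          · injection h with h1 h2 h3; omega
          · exact absurd h (by simp)
          · exact absurd h (by simp)
          · injection h with h1 h2 h3 h4 h5
            subst h4
            exact Nat.eq_of_mul_eq_mul_right (by positivity) h5) AV AE (by simp; omega)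
      have hl' : l ≤ p.w c := by have := Finset.mem_range.mp hl; omega
      -- an intact base row
      obtain ⟨y, hy, hyint⟩ := exists_intact (Finset.Ico (j * p.s) (j * p.s + p.g + 1))
        (fun y v => memRow y v) (by
          rintro y - y' - v ⟨c, x, rfl⟩ ⟨c', x', h⟩
          injection h) AV AE (by simp only [Nat.card_Ico]; omega)
      have hy' := Finset.mem_Ico.mp hy
      -- an intact wall row
      obtain ⟨r, hr, hrint⟩ := exists_intact (Finset.Ico 1 (a + 1))
        (fun r v => memWR p c i j 0 0 r v) (by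
          rintro r - r' - v ⟨m, -, -, rfl⟩ ⟨m', -, -, h⟩
          injection h) AV AE (by simp only [Nat.card_Ico]; omega)
      have hr' := Finset.mem_Ico.mp hr
      refine ⟨r, by omega, by omega, ?_⟩
      intro m hm hm'
      have hyM : y < p.M := by
        obtain ⟨t, rfl⟩ := Nat.exists_eq_add_of_le hy'.1
        exact cell_lt hj (by omega)
      have hxM : i * p.s + 1 + l < p.M := by
        have := cell_lt hi (x := 1 + l) (by omega)
        omega
      have c1 := wc_conn hw hg hi hj hl' hlint y hy'.1 (by omega) r hr'.1 (by omega)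
      have c2 := hO y hyM hyint c (i * p.s + 1 + l) hxM
      have c3 := wr_conn (p := p) hi hj hr'.1 (by omega) (Nat.zero_le r) (by simp) hrint m
        (l * 2 ^ r) hm hm' (by simp) (by simpa using hl')
      exact c3.trans (c1.trans c2)
    | succ ρ ih =>
      intro hρ β' hβ'
      obtain ⟨r, hr1, hr2, hr3⟩ := ih (by omega) (β' / 2) (by
        rw [pow_succ] at hβ'; omega)
      -- an intact wall row
      obtain ⟨r', hr', hrint⟩ := exists_intact (Finset.Ico (ρ + 2) (ρ + 2 + a))
        (fun r v => memWR p c i j (ρ + 1) β' r v) (by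
          rintro r - r' - v ⟨m, -, -, rfl⟩ ⟨m', -, -, h⟩
          injection h) AV AE (by simp only [Nat.card_Ico]; omega)
      have hr'' := Finset.mem_Ico.mp hr'
      -- an intact block column
      obtain ⟨l, hl, hlint⟩ := exists_intact (Finset.range (p.w c + 1))
        (fun l v => memBC p c i j (ρ + 1) β' a l v) (by
          rintro l - l' - v ⟨t, -, rfl⟩ ⟨t', -, h⟩
          injection h with h1 h2 h3 h4 h5
          have : t = t' := by omega
          subst this
          have := Nat.eq_of_mul_eq_mul_right (by positivity) h5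
          omega) AV AE (by simp; omega)
      have hl' : l ≤ p.w c := by have := Finset.mem_range.mp hl; omega
      refine ⟨r', by omega, by omega, ?_⟩
      intro m hm hm'
      have c1 := wr_conn (p := p) hi hj (by omega) (by omega) (by omega) hβ' hrint m
        ((β' * p.w c + l) * 2 ^ (r' - (ρ + 1))) hm hm' (Nat.mul_le_mul_right _ (by omega))
        (Nat.mul_le_mul_right _ (by nlinarith))
      have c2 := bc_conn (p := p) hi hj (by omega) (by omega) hβ' hl' hlint (r' - (ρ + 1))
        (r - (ρ + 1)) (by omega) (by omega)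
      have e1 : ρ + 1 + (r' - (ρ + 1)) = r' := by omega
      have e2 : ρ + 1 + (r - (ρ + 1)) = r := by omega
      rw [e1, e2] at c2
      have e3 : r - ρ = (r - (ρ + 1)) + 1 := by omega
      have c3 := hr3 ((β' * p.w c + l) * 2 ^ (r - (ρ + 1))) (by
          rw [e3, pow_succ]
          have : β' / 2 * 2 ≤ β' := Nat.div_mul_le_self _ _
          calc β' / 2 * p.w c * (2 ^ (r - (ρ + 1)) * 2)
              = (β' / 2 * 2) * p.w c * 2 ^ (r - (ρ + 1)) := by ring
            _ ≤ β' * p.w c * 2 ^ (r - (ρ + 1)) :=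
                Nat.mul_le_mul_right _ (Nat.mul_le_mul_right _ this)
            _ ≤ (β' * p.w c + l) * 2 ^ (r - (ρ + 1)) := Nat.mul_le_mul_right _ (by omega))
        (by
          rw [e3, pow_succ]
          have : β' + 1 ≤ (β' / 2 + 1) * 2 := by omega
          calc (β' * p.w c + l) * 2 ^ (r - (ρ + 1))
              ≤ ((β' + 1) * p.w c) * 2 ^ (r - (ρ + 1)) :=
                Nat.mul_le_mul_right _ (by nlinarith)
            _ ≤ ((β' / 2 + 1) * 2 * p.w c) * 2 ^ (r - (ρ + 1)) :=
                Nat.mul_le_mul_right _ (Nat.mul_le_mul_right _ this)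
            _ = (β' / 2 + 1) * p.w c * (2 ^ (r - (ρ + 1)) * 2) := by ring)
      exact c1.trans (c2.trans c3)
  obtain ⟨r, hr1, hr2, hr3⟩ := key (p.D - a) le_rfl β hβ
  have c1 := bc_conn (p := p) (l := 0) hi hj (by omega) (by omega) hβ (by omega) hhole 0
    (r - (p.D - a)) (by omega) (by omega)
  have e2 : p.D - a + (r - (p.D - a)) = r := by omega
  rw [e2] at c1
  simp only [add_zero, pow_zero, mul_one] at c1
  exact c1.trans (hr3 _ le_rfl (Nat.mul_le_mul_right _ (by nlinarith)))

end Pool.Agent.Lib.MP_ec8146_lc
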