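import Pool.Agent.Lib.MP_ec8146_lc.Pairs
import Pool.Agent.Lib.MP_ec8146_lc.PP

/-!
# Routing the edges with bounded congestion
-/

namespace Pool.Agent.Lib.MP_ec8146_lc

open FirstOrder FirstOrder.Language

lemma Lnk.rtg_end {V : Type*} {G : SimpleGraph V} {w t : V} {l : List V} (h : Lnk G w l t)
    {A : Set V} (hw : w ∈ A) (hl : ∀ x ∈ l, x ∈ A) (ht : t ∈ A) :
    Relation.ReflTransGen (St G A) w t := by
  induction l generalizing w with
  | nil => exact Relation.ReflTransGen.single ⟨h, hw, ht⟩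
  | cons y l ih =>
    have hy : y ∈ A := hl y (by simp)
    exact Relation.ReflTransGen.head ⟨h.1, hw, hy⟩
      (ih h.2 hy (fun z hz => hl z (List.mem_cons_of_mem _ hz)))

section

variable {V : Type} [Fintype V] {G : SimpleGraph V} {ρ : V → ℕ} {c : ℕ} {C : Fin c → Set V}
  {ψ : (cgLang c).Formula (Fin 2)} {K : SimpleGraph V} {X : Set V}

lemma exists_half {n : ℕ} {u z : V} (hz : z ∈ Wset G ρ n u) :
    ∃ (P : Ch V) (L : Finset V), Bd P u z ∧ InG G (L : Set V) P ∧ L.card ≤ n + 1 ∧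
      ∀ w ∈ L, z ∈ Wset G ρ n w := by
  classical
  rcases mem_Wset.mp hz with h | ⟨l, hl, hlnk, hzu, hab⟩
  · subst h
    refine ⟨0, {z}, Bd.zero z, fun d hd => absurd hd (by simp), by simp, ?_⟩
    intro w hw
    rw [Finset.mem_singleton.mp hw]
    exact self_mem_Wset _ _
  · set L : Finset V := insert u (insert z l.toFinset) with hL
    have hu : u ∈ (L : Set V) := by simp [hL]
    have hz' : z ∈ (L : Set V) := by simp [hL]
    have hlL : ∀ x ∈ l, x ∈ (L : Set V) := fun x hx => by simp [hL, hx]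
    obtain ⟨P, hP, hP'⟩ := exists_chain_of_rtg (hlnk.rtg_end hu hlL hz')
    refine ⟨P, L, hP, hP', ?_, ?_⟩
    · have h1 := Finset.card_insert_le u (insert z l.toFinset)
      have h2 := Finset.card_insert_le z l.toFinset
      have h3 := List.toFinset_card_le l
      rw [hL]
      omega
    · intro w hw
      simp only [hL, Finset.mem_insert, List.mem_toFinset] at hw
      rcases hw with rfl | rfl | hw
      · exact hz
      · exact self_mem_Wset _ _
      · obtain ⟨a, b, hab'⟩ := List.append_of_mem hw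
        rw [hab', Lnk_append] at hlnk
        rw [hab', List.length_append, List.length_cons] at hl
        refine mem_Wset.mpr (Or.inr ⟨b, by omega, hlnk.2, hab w hw, ?_⟩)
        intro x hx
        apply hab
        rw [hab']
        exact List.mem_append_right _ (List.mem_cons_of_mem _ hx)

/-- **Routing.** -/
theorem exists_routes (hρ : Function.Injective ρ)
    (hK : ∀ u v, K.Adj u v ↔ u ∈ X ∧ v ∈ X ∧ (interp G C ψ).Adj u v)
    (hdeg : ∀ v, (nbh K v).card ≤ 4) {m : ℕ}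
    (hm : ∀ v, (Wset G ρ (2 * 3 ^ rk ψ) v).card ≤ m) :
    ∃ (E0 : Finset (V × V)) (P : V → V → Ch V) (L : V → V → Finset V),
      E0.card ≤ CB c m (rk ψ) ∧
      (∀ u v, K.Adj u v → (u, v) ∉ E0 → Bd (P u v) u v ∧ InG G (L u v : Set V) (P u v) ∧
        (L u v).card ≤ 2 * (3 ^ rk ψ + 1)) ∧
      ∀ w, ∀ T : Finset (V × V), (∀ z ∈ T, K.Adj z.1 z.2 ∧ z ∉ E0 ∧ w ∈ L z.1 z.2) →
        T.card ≤ m * (2 ^ m * CB c m (rk ψ)) := by
  classical
  set n := 3 ^ rk ψ with hn
  have hm' : ∀ v, (Wset G ρ n v).card ≤ m := fun v =>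
    (Finset.card_le_card (Wset_mono (by omega) v)).trans (hm v)
  have hprs := fun I : Finset V => card_prs (G := G) (C := C) (ψ := ψ) hρ hK hdeg hm' I
  -- the selected vertex
  have hsel : ∀ u v, ∃ z, (Wset G ρ n u ∩ Wset G ρ n v).Nonempty →
      z ∈ Wset G ρ n u ∧ z ∈ Wset G ρ n v ∧ ∀ x ∈ Wset G ρ n u ∩ Wset G ρ n v, ρ x ≤ ρ z := by
    intro u v
    by_cases h : (Wset G ρ n u ∩ Wset G ρ n v).Nonempty
    · obtain ⟨z, hz, hmax⟩ := Finset.exists_max_image _ ρ h
      obtain ⟨h1, h2⟩ := Finset.mem_inter.mp hz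
      exact ⟨z, fun _ => ⟨h1, h2, hmax⟩⟩
    · exact ⟨u, fun h' => absurd h' h⟩
  choose zs hzs using hsel
  have hhalf : ∀ u z, ∃ (P : Ch V) (L : Finset V), z ∈ Wset G ρ n u →
      Bd P u z ∧ InG G (L : Set V) P ∧ L.card ≤ n + 1 ∧ ∀ w ∈ L, z ∈ Wset G ρ n w := by
    intro u z
    by_cases h : z ∈ Wset G ρ n u
    · obtain ⟨P, L, h1⟩ := exists_half h
      exact ⟨P, L, fun _ => h1⟩
    · exact ⟨0, ∅, fun h' => absurd h' h⟩
  choose P1 L1 hPL using hhalf
  have hE0 : ∀ u v, K.Adj u v → (u, v) ∉ prs G ρ n K ∅ →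
      (Wset G ρ n u ∩ Wset G ρ n v).Nonempty := by
    intro u v huv hnot
    rw [Finset.nonempty_iff_ne_empty]
    intro he
    exact hnot (mem_prs.mpr ⟨huv, he⟩)
  refine ⟨prs G ρ n K ∅, fun u v => P1 u (zs u v) + P1 v (zs u v),
    fun u v => L1 u (zs u v) ∪ L1 v (zs u v), hprs ∅, ?_, ?_⟩
  · intro u v huv hnot
    obtain ⟨z1, z2, -⟩ := hzs u v (hE0 u v huv hnot)
    obtain ⟨b1, i1, c1, -⟩ := hPL u (zs u v) z1
    obtain ⟨b2, i2, c2, -⟩ := hPL v (zs u v) z2
    refine ⟨b1.add b2.symm, InG.add (i1.mono ?_) (i2.mono ?_), ?_⟩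
    · simp
    · simp
    · refine (Finset.card_union_le _ _).trans ?_
      omega
  · intro w T hT
    have hsub : T ⊆ (Wset G ρ n w).biUnion
        (fun y => (Wset G ρ (2 * n) y).powerset.biUnion (fun I => prs G ρ n K I)) := by
      intro z hz
      obtain ⟨h1, h2, h3⟩ := hT z hz
      obtain ⟨g1, g2, g3⟩ := hzs z.1 z.2 (hE0 z.1 z.2 h1 h2)
      have hy : zs z.1 z.2 ∈ Wset G ρ n w := by
        rcases Finset.mem_union.mp h3 with h | h
        · exact (hPL z.1 _ g1).2.2.2 w h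
        · exact (hPL z.2 _ g2).2.2.2 w h
      refine Finset.mem_biUnion.mpr ⟨zs z.1 z.2, hy, Finset.mem_biUnion.mpr
        ⟨Wset G ρ n z.1 ∩ Wset G ρ n z.2, ?_, mem_prs.mpr ⟨h1, rfl⟩⟩⟩
      rw [Finset.mem_powerset]
      intro x hx
      exact Wset_trans hρ g1 (Finset.mem_inter.mp hx).1 (g3 x hx)
    calc T.card ≤ _ := Finset.card_le_card hsub
      _ ≤ ∑ y ∈ Wset G ρ n w,
          ((Wset G ρ (2 * n) y).powerset.biUnion (fun I => prs G ρ n K I)).card :=
          Finset.card_biUnion_le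
      _ ≤ ∑ _y ∈ Wset G ρ n w, 2 ^ m * CB c m (rk ψ) := by
          refine Finset.sum_le_sum (fun y _ => ?_)
          calc _ ≤ ∑ I ∈ (Wset G ρ (2 * n) y).powerset, (prs G ρ n K I).card :=
                Finset.card_biUnion_le
            _ ≤ ∑ _I ∈ (Wset G ρ (2 * n) y).powerset, CB c m (rk ψ) :=
                Finset.sum_le_sum (fun I _ => hprs I)
            _ = 2 ^ (Wset G ρ (2 * n) y).card * CB c m (rk ψ) := by
                rw [Finset.sum_const, smul_eq_mul, Finset.card_powerset]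
            _ ≤ 2 ^ m * CB c m (rk ψ) :=
                Nat.mul_le_mul_right _ (Nat.pow_le_pow_right (by norm_num) (hm y))
      _ = (Wset G ρ n w).card * (2 ^ m * CB c m (rk ψ)) := by rw [Finset.sum_const, smul_eq_mul]
      _ ≤ m * (2 ^ m * CB c m (rk ψ)) := Nat.mul_le_mul_right _ (hm' w)

end

end Pool.Agent.Lib.MP_ec8146_lc
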