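import Pool.Agent.Lib.MP_ec8146_lc.Edge

/-!
# Random selection of the lines and the final contradiction
-/

namespace Pool.Agent.Lib.MP_ec8146_lc

open Vtx

/-- Union bound for functions with independent coordinates. -/
lemma exists_select {V E : Type*} [Fintype V] [DecidableEq V] (Ev : Finset E) (n K : ℕ)
    (var : E → V) (Bad : E → (V → Fin n) → Prop)
    (h : ∀ e ∈ Ev, ∀ ω : V → Fin n, ∀ T : Finset (Fin n),
      (∀ t ∈ T, Bad e (Function.update ω (var e) t)) → T.card ≤ K)
    (hn : Ev.card * K < n) : ∃ ω : V → Fin n, ∀ e ∈ Ev, ¬ Bad e ω := by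
  classical
  by_contra hcon
  push Not at hcon
  have key : ∀ e ∈ Ev, n * (Finset.univ.filter (fun ω : V → Fin n => Bad e ω)).card
      ≤ K * Fintype.card (V → Fin n) := by
    intro e he
    set v := var e with hv
    let φ : (V → Fin n) × Fin n ≃ (V → Fin n) × Fin n :=
      { toFun := fun z => (Function.update z.1 v z.2, z.1 v)
        invFun := fun z => (Function.update z.1 v z.2, z.1 v)
        left_inv := by
          rintro ⟨ω, t⟩
          simp
        right_inv := by
          rintro ⟨ω, t⟩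
          simp }
    have h1 : ∑ z : (V → Fin n) × Fin n, (if Bad e (Function.update z.1 v z.2) then 1 else 0)
        = ∑ z : (V → Fin n) × Fin n, (if Bad e z.1 then 1 else 0) :=
      Equiv.sum_comp φ (fun z => if Bad e z.1 then 1 else 0)
    have h2 : ∑ z : (V → Fin n) × Fin n, (if Bad e z.1 then 1 else 0)
        = n * (Finset.univ.filter (fun ω : V → Fin n => Bad e ω)).card := by
      rw [Fintype.sum_prod_type, Finset.card_filter, Finset.mul_sum]
      refine Finset.sum_congr rfl (fun ω _ => ?_)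
      change ∑ _t : Fin n, (if Bad e ω then 1 else 0) = _
      rw [Finset.sum_const, Finset.card_univ, Fintype.card_fin, smul_eq_mul]
    have h3 : ∑ z : (V → Fin n) × Fin n, (if Bad e (Function.update z.1 v z.2) then 1 else 0)
        ≤ K * Fintype.card (V → Fin n) := by
      rw [Fintype.sum_prod_type]
      calc ∑ ω : V → Fin n, ∑ t : Fin n, (if Bad e (Function.update ω v t) then 1 else 0)
          ≤ ∑ _ω : V → Fin n, K := by
            refine Finset.sum_le_sum (fun ω _ => ?_)
            rw [← Finset.card_filter]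
            exact h e he ω _ (fun t ht => (Finset.mem_filter.mp ht).2)
        _ = K * Fintype.card (V → Fin n) := by
            simp only [Finset.sum_const, Finset.card_univ, smul_eq_mul]
            rw [mul_comm]
    rw [← h2, ← h1]
    exact h3
  have hΩ : 0 < Fintype.card (V → Fin n) := by
    have : Nonempty (Fin n) := ⟨⟨0, by omega⟩⟩
    exact Fintype.card_pos
  have hcover : (Finset.univ : Finset (V → Fin n)) ⊆
      Ev.biUnion (fun e => Finset.univ.filter (fun ω => Bad e ω)) := by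
    intro ω _
    obtain ⟨e, he, hb⟩ := hcon ω
    exact Finset.mem_biUnion.mpr ⟨e, he, by simpa using hb⟩
  have hcard : Fintype.card (V → Fin n)
      ≤ ∑ e ∈ Ev, (Finset.univ.filter (fun ω : V → Fin n => Bad e ω)).card :=
    (Finset.card_le_card hcover).trans Finset.card_biUnion_le
  have hfin : n * Fintype.card (V → Fin n) ≤ Ev.card * K * Fintype.card (V → Fin n) := by
    calc n * Fintype.card (V → Fin n)
        ≤ n * ∑ e ∈ Ev, (Finset.univ.filter (fun ω : V → Fin n => Bad e ω)).card :=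
          Nat.mul_le_mul_left _ hcard
      _ = ∑ e ∈ Ev, n * (Finset.univ.filter (fun ω : V → Fin n => Bad e ω)).card := by
          rw [Finset.mul_sum]
      _ ≤ ∑ _e ∈ Ev, K * Fintype.card (V → Fin n) := Finset.sum_le_sum key
      _ = Ev.card * K * Fintype.card (V → Fin n) := by
          rw [Finset.sum_const, smul_eq_mul, mul_assoc]
  have := Nat.le_of_mul_le_mul_right hfin hΩ
  omega

/-- the 20 parameters of the lines -/
inductive Var : Type
  | H (c : Fin 5) : Var
  | W (c : Fin 5) : Var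
  | X (c : Fin 5) : Var
  | Y (c : Fin 5) : Var
  deriving DecidableEq, Fintype

/-- the 15 protected objects -/
inductive Obj : Type
  | oh (c : Fin 5) : Obj
  | ov (c : Fin 5) : Obj
  | op (c : Fin 5) : Obj
  deriving DecidableEq, Fintype

/-- the variables an object depends on -/
def Obj.vars : Obj → Finset Var
  | .oh c => {Var.H c}
  | .ov c => {Var.W c}
  | .op c => {Var.X c, Var.Y c}

/-- the thick line of a variable with value `t` -/
def LnV (p : Par) : Var → ℕ → Sym2 Vtx → Prop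
  | .H _, t, e => InRow p t e
  | .W _, t, e => InCol p t e
  | .X _, t, e => InCol p t e
  | .Y _, t, e => InRow p t e

namespace Setup

variable {p : Par} {k a : ℕ} (S : Setup p k)

/-- the chain of a protected object -/
noncomputable def ob (hp : p.Good k a) (L mR mL mT mB : ℕ) (A : Var → ℕ) : Obj → Ch Vtx
  | .oh c => oH S hp L c (A (.H c)) mR mL
  | .ov c => oV S hp L c (A (.W c)) mT mB
  | .op c => oP S hp L c (A (.X c)) (A (.Y c))

variable {S}

lemma ob_congr (hp : p.Good k a) (L mR mL mT mB : ℕ) {A A' : Var → ℕ} {o : Obj}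
    (h : ∀ v ∈ o.vars, A v = A' v) :
    S.ob hp L mR mL mT mB A o = S.ob hp L mR mL mT mB A' o := by
  cases o with
  | oh c => simp only [ob]; rw [h (.H c) (by simp [Obj.vars])]
  | ov c => simp only [ob]; rw [h (.W c) (by simp [Obj.vars])]
  | op c => simp only [ob]; rw [h (.X c) (by simp [Obj.vars]), h (.Y c) (by simp [Obj.vars])]

lemma card_hseg_le (c : Fin 5) (y x x' B : ℕ) (h1 : x' ≤ x + B) (h2 : x ≤ x' + B) :
    (hseg c y x x').card ≤ B := by
  rw [hseg, card_seg]; omega

lemma card_vseg_le (c : Fin 5) (x y y' B : ℕ) (h1 : y' ≤ y + B) (h2 : y ≤ y' + B) :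
    (vseg c x y y').card ≤ B := by
  rw [vseg, card_seg]; omega

lemma card_ob (hp : p.Good k a) {L mR mL mT mB : ℕ} (hmR : p.N - 1 - k ≤ mR) (hmL : mL ≤ k)
    (hmT : p.N - 1 - k ≤ mT) (hmB : mB ≤ k) (hmR' : mR < p.N) (hmT' : mT < p.N)
    (A : Var → ℕ) (o : Obj) :
    (S.ob hp L mR mL mT mB A o).card ≤ (2 * k + 2) * p.s + 2 * L * p.s + 2 * tmax p + 1 := by
  have hs := s_pos hp
  have e1 : ∀ m, p.N - 1 - k ≤ m → m < p.N → p.M - 1 ≤ m * p.s + (k + 1) * p.s := by
    intro m hm hm'
    have : p.M ≤ m * p.s + (k + 1) * p.s := by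
      unfold Par.M
      rw [← add_mul]
      exact Nat.mul_le_mul_right _ (by omega)
    omega
  have e1' : ∀ m, m < p.N → m * p.s ≤ p.M - 1 := by
    intro m hm
    have := coarse_lt hs hm
    omega
  have e2 : ∀ m, m ≤ k → m * p.s ≤ k * p.s := fun m hm => Nat.mul_le_mul_right _ hm
  have e3 : (k + 1) * p.s = k * p.s + p.s := by ring
  have e4 : (2 * k + 2) * p.s + 2 * L * p.s = 2 * (k * p.s) + 2 * p.s + 2 * (L * p.s) := by ring
  have e5 : ∀ m, (m + L) * p.s = m * p.s + L * p.s := fun m => by ring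
  cases o with
  | oh c =>
    have t1 := card_tau (S := S) hp c mR (A (.H c))
    have t2 := card_tau (S := S) hp (c + 1) mL (A (.H c))
    have s1 := card_hseg_le c (A (.H c) * p.s) (mR * p.s) (p.M - 1) ((k + 1) * p.s)
      (e1 mR hmR hmR') (by have := e1' mR hmR'; omega)
    have s2 := card_hseg_le (c + 1) (A (.H c) * p.s) (0 * p.s) (mL * p.s) (k * p.s)
      (by have := e2 mL hmL; omega) (by omega)
    have s3 := card_hseg_le c (A (.H c) * p.s) ((p.N - 1 - L) * p.s) ((p.N - 1 - L + L) * p.s)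
      (L * p.s) (by rw [e5]) (by rw [e5]; omega)
    have s4 := card_hseg_le (c + 1) (A (.H c) * p.s) (0 * p.s) ((0 + L) * p.s)
      (L * p.s) (by rw [e5]) (by rw [e5]; omega)
    simp only [ob, oH, kapH, Multiset.card_add, Multiset.card_singleton]
    omega
  | ov c =>
    have t1 := card_tau (S := S) hp c (A (.W c)) mT
    have t2 := card_tau (S := S) hp (c + 2) (A (.W c)) mB
    have s1 := card_vseg_le c (A (.W c) * p.s) (mT * p.s) (p.M - 1) ((k + 1) * p.s)
      (e1 mT hmT hmT') (by have := e1' mT hmT'; omega)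
    have s2 := card_vseg_le (c + 2) (A (.W c) * p.s) (0 * p.s) (mB * p.s) (k * p.s)
      (by have := e2 mB hmB; omega) (by omega)
    have s3 := card_vseg_le c (A (.W c) * p.s) ((p.N - 1 - L) * p.s) ((p.N - 1 - L + L) * p.s)
      (L * p.s) (by rw [e5]) (by rw [e5]; omega)
    have s4 := card_vseg_le (c + 2) (A (.W c) * p.s) (0 * p.s) ((0 + L) * p.s)
      (L * p.s) (by rw [e5]) (by rw [e5]; omega)
    simp only [ob, oV, kapV, Multiset.card_add, Multiset.card_singleton]
    omega
  | op c =>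
    have t1 := card_tau (S := S) hp c (A (.X c)) (A (.Y c))
    have s3 := card_hseg_le c (A (.Y c) * p.s) (A (.X c) * p.s) ((A (.X c) + L) * p.s)
      (L * p.s) (by rw [e5]) (by rw [e5]; omega)
    simp only [ob, oP, Multiset.card_add]
    omega

lemma card_lines (p : Par) (v : Var) (E : Finset (Sym2 Vtx)) (n : ℕ) (T : Finset (Fin n))
    (h : ∀ t ∈ T, ∃ e ∈ E, LnV p v t.val e) : T.card ≤ E.card := by
  classical
  have key : ∃ f : Sym2 Vtx → ℕ, ∀ (t : ℕ) (e : Sym2 Vtx), LnV p v t e → f e = t := by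
    cases v with
    | H c => exact ⟨fun e => rowIx p e.out.1, fun t e h => h _ (Sym2.out_fst_mem e)⟩
    | W c => exact ⟨fun e => colIx p e.out.1, fun t e h => h _ (Sym2.out_fst_mem e)⟩
    | X c => exact ⟨fun e => colIx p e.out.1, fun t e h => h _ (Sym2.out_fst_mem e)⟩
    | Y c => exact ⟨fun e => rowIx p e.out.1, fun t e h => h _ (Sym2.out_fst_mem e)⟩
  obtain ⟨f, hf⟩ := key
  have h1 : T.map Fin.valEmbedding ⊆ E.image f := by
    intro t ht
    obtain ⟨t', ht', rfl⟩ := Finset.mem_map.mp ht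
    obtain ⟨e, he, he'⟩ := h t' ht'
    exact Finset.mem_image.mpr ⟨e, he, hf _ _ he'⟩
  calc T.card = (T.map Fin.valEmbedding).card := (Finset.card_map _).symm
    _ ≤ (E.image f).card := Finset.card_le_card h1
    _ ≤ E.card := Finset.card_image_le

/-- Selection of the lines. -/
lemma exists_lines (S : Setup p k) (hp : p.Good k a) {L mR mL mT mB n : ℕ}
    (hmR : p.N - 1 - k ≤ mR) (hmL : mL ≤ k)
    (hmT : p.N - 1 - k ≤ mT) (hmB : mB ≤ k) (hmR' : mR < p.N) (hmT' : mT < p.N)
    (hn : 300 * (k * ((2 * k + 2) * p.s + 2 * L * p.s + 2 * tmax p + 1) + k) < n) :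
    ∃ A : Var → ℕ, (∀ v, A v < n) ∧ ∀ v o, v ∉ Obj.vars o →
      ∀ e ∈ S.crs (S.ob hp L mR mL mT mB A o) ∪ S.S0, ¬ LnV p v (A v) e := by
  classical
  set K := k * ((2 * k + 2) * p.s + 2 * L * p.s + 2 * tmax p + 1) + k with hK
  set Ev : Finset (Var × Obj) := Finset.univ.filter (fun z => z.1 ∉ z.2.vars) with hEv
  have hEvc : Ev.card ≤ 300 := by
    have h1 : Ev.card ≤ (Finset.univ : Finset (Var × Obj)).card := Finset.card_filter_le _ _
    have h2 : (Finset.univ : Finset (Var × Obj)).card = 300 := by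
      rw [Finset.card_univ, Fintype.card_prod]
      decide
    omega
  obtain ⟨ω, hω⟩ := exists_select Ev n K (fun z => z.1)
    (fun z ω => ∃ e ∈ S.crs (S.ob hp L mR mL mT mB (fun v => (ω v).val) z.2) ∪ S.S0,
      LnV p z.1 (ω z.1).val e) (by
      rintro ⟨v, o⟩ hz ω T hT
      have hvo : v ∉ o.vars := (Finset.mem_filter.mp hz).2
      have h1 : T.card ≤ (S.crs (S.ob hp L mR mL mT mB (fun v => (ω v).val) o) ∪ S.S0).card := by
        apply card_lines p v _ n T
        intro t ht
        obtain ⟨e, he, he'⟩ := hT t ht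
        have e1 : S.ob hp L mR mL mT mB (fun v' => (Function.update ω v t v').val) o
            = S.ob hp L mR mL mT mB (fun v => (ω v).val) o := by
          apply ob_congr
          intro v' hv'
          have : v' ≠ v := fun h => hvo (h ▸ hv')
          simp [Function.update_of_ne this]
        refine ⟨e, ?_, ?_⟩
        · rw [← e1]; exact he
        · simpa using he'
      have h2 := Finset.card_union_le
        (S.crs (S.ob hp L mR mL mT mB (fun v => (ω v).val) o)) S.S0
      have h3 := S.card_crs (S.ob hp L mR mL mT mB (fun v => (ω v).val) o)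
      have h4 := S.S0_card
      have h5 := Nat.mul_le_mul_left k
        (card_ob (S := S) hp (L := L) hmR hmL hmT hmB hmR' hmT' (fun v => (ω v).val) o)
      omega) (by
      calc Ev.card * K ≤ 300 * K := Nat.mul_le_mul_right _ hEvc
        _ < n := hn)
  refine ⟨fun v => (ω v).val, fun v => (ω v).2, ?_⟩
  intro v o hvo e he hL
  exact hω (v, o) (by simp [hEv, hvo]) ⟨e, he, hL⟩

/-- **Main contradiction**: there is no parity setup on the construction. -/
theorem no_setup (S : Setup p k) (hp : p.Good k a) {L n : ℕ}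
    (hL : k * (2 * tmax p + p.s) + k < L + 1) (hN : n + L < p.N)
    (hn : 300 * (k * ((2 * k + 2) * p.s + 2 * L * p.s + 2 * tmax p + 1) + k) < n) : False := by
  have hkL : k < L + 1 := lt_of_le_of_lt (Nat.le_add_left _ _) hL
  have hS0 := S.S0_card
  obtain ⟨mR, r1, r2, r3⟩ := exists_free_col p S.S0 (p.N - 1 - k) k (by omega)
  obtain ⟨mL, -, l2, l3⟩ := exists_free_col p S.S0 0 k (by omega)
  obtain ⟨mT, t1, t2, t3⟩ := exists_free_row p S.S0 (p.N - 1 - k) k (by omega)
  obtain ⟨mB, -, b2, b3⟩ := exists_free_row p S.S0 0 k (by omega)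
  obtain ⟨A, hA, hreq⟩ := S.exists_lines hp (L := L) (mR := mR) (mL := mL) (mT := mT)
    (mB := mB) (n := n) r1 (by omega) t1 (by omega) (by omega) (by omega) hn
  have okmR : S.OKc mR := ⟨by omega, r3⟩
  have okmL : S.OKc mL := ⟨by omega, l3⟩
  have okmT : S.OKr mT := ⟨by omega, t3⟩
  have okmB : S.OKr mB := ⟨by omega, b3⟩
  have okH : ∀ c, S.OKr (A (.H c)) := fun c => ⟨by have := hA (.H c); omega, fun e he =>
    hreq (.H c) (.op 0) (by simp [Obj.vars]) e (Finset.mem_union_right _ he)⟩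
  have okW : ∀ c, S.OKc (A (.W c)) := fun c => ⟨by have := hA (.W c); omega, fun e he =>
    hreq (.W c) (.op 0) (by simp [Obj.vars]) e (Finset.mem_union_right _ he)⟩
  have okX : ∀ c, S.OKc (A (.X c)) := fun c => ⟨by have := hA (.X c); omega, fun e he =>
    hreq (.X c) (.oh 0) (by simp [Obj.vars]) e (Finset.mem_union_right _ he)⟩
  have okY : ∀ c, S.OKr (A (.Y c)) := fun c => ⟨by have := hA (.Y c); omega, fun e he =>
    hreq (.Y c) (.oh 0) (by simp [Obj.vars]) e (Finset.mem_union_right _ he)⟩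
  have hXL : ∀ c, A (.X c) + L < p.N := fun c => by have := hA (.X c); omega
  have crs_add : ∀ P Q : Ch Vtx, ∀ e ∈ S.crs (P + Q), e ∈ S.crs P ∨ e ∈ S.crs Q := by
    intro P Q e he
    obtain ⟨d, hd, hd'⟩ := S.mem_crs.mp he
    rcases Multiset.mem_add.mp hd with h | h
    · exact Or.inl (S.mem_crs.mpr ⟨d, h, hd'⟩)
    · exact Or.inr (S.mem_crs.mpr ⟨d, h, hd'⟩)
  -- the edges
  have dH : ∀ c, EData S hp (2 * tmax p + p.s) c (c + 1)
      (eH p c (A (.X c)) (A (.Y c)) (A (.X (c + 1))) (A (.Y (c + 1))) (A (.H c)) mR mL)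
      (oH S hp L c (A (.H c)) mR mL + oP S hp L c (A (.X c)) (A (.Y c))
        + oP S hp L (c + 1) (A (.X (c + 1))) (A (.Y (c + 1))))
      (fun e => InRow p (A (.H c)) e ∨ InCol p (A (.X c)) e ∨ InCol p (A (.X (c + 1))) e) :=
    fun c => edata_H hp le_rfl hL (by omega) (okX c) (okY c) (okX (c + 1)) (okY (c + 1)) (okH c)
      okmR okmL (hXL c) (hXL (c + 1)) (by omega) (by omega)
  have dV : ∀ c, EData S hp (2 * tmax p + p.s) c (c + 2)
      (eV p c (A (.X c)) (A (.Y c)) (A (.X (c + 2))) (A (.Y (c + 2))) (A (.W c)) mT mB)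
      (oV S hp L c (A (.W c)) mT mB + oP S hp L c (A (.X c)) (A (.Y c))
        + oP S hp L (c + 2) (A (.X (c + 2))) (A (.Y (c + 2))))
      (fun e => InCol p (A (.W c)) e ∨ InRow p (A (.Y c)) e ∨ InRow p (A (.Y (c + 2))) e) :=
    fun c => edata_V hp le_rfl hL (by omega) (okX c) (okY c) (okX (c + 2)) (okY (c + 2)) (okW c)
      okmT okmB (hXL c) (hXL (c + 2)) (by omega) (by omega)
  -- requirements
  have rH : ∀ c v, v ≠ Var.H c → v ≠ Var.X c → v ≠ Var.Y c → v ≠ Var.X (c + 1) →
      v ≠ Var.Y (c + 1) → ∀ e ∈ S.crs (oH S hp L c (A (.H c)) mR mL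
        + oP S hp L c (A (.X c)) (A (.Y c))
        + oP S hp L (c + 1) (A (.X (c + 1))) (A (.Y (c + 1)))), ¬ LnV p v (A v) e := by
    intro c v h1 h2 h3 h4 h5 e he
    rcases crs_add _ _ e he with he | he
    · rcases crs_add _ _ e he with he | he
      · exact hreq v (.oh c) (by simp [Obj.vars, h1]) e (Finset.mem_union_left _ he)
      · exact hreq v (.op c) (by simp [Obj.vars, h2, h3]) e (Finset.mem_union_left _ he)
    · exact hreq v (.op (c + 1)) (by simp [Obj.vars, h4, h5]) e (Finset.mem_union_left _ he)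
  have rV : ∀ c v, v ≠ Var.W c → v ≠ Var.X c → v ≠ Var.Y c → v ≠ Var.X (c + 2) →
      v ≠ Var.Y (c + 2) → ∀ e ∈ S.crs (oV S hp L c (A (.W c)) mT mB
        + oP S hp L c (A (.X c)) (A (.Y c))
        + oP S hp L (c + 2) (A (.X (c + 2))) (A (.Y (c + 2)))), ¬ LnV p v (A v) e := by
    intro c v h1 h2 h3 h4 h5 e he
    rcases crs_add _ _ e he with he | he
    · rcases crs_add _ _ e he with he | he
      · exact hreq v (.ov c) (by simp [Obj.vars, h1]) e (Finset.mem_union_left _ he)
      · exact hreq v (.op c) (by simp [Obj.vars, h2, h3]) e (Finset.mem_union_left _ he)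
    · exact hreq v (.op (c + 2)) (by simp [Obj.vars, h4, h5]) e (Finset.mem_union_left _ he)
  have f5 : ∀ c : Fin 5, c + 2 ≠ c ∧ c + 2 ≠ c + 1 ∧ c + 2 + 1 ≠ c ∧ c + 2 + 1 ≠ c + 1 ∧
      c + 2 + 2 ≠ c ∧ c + 2 + 2 ≠ c + 1 ∧ c + 1 ≠ c ∧ c + 1 ≠ c + 2 ∧ c + 1 + 2 ≠ c ∧
      c + 1 + 2 ≠ c + 2 := by decide
  set z : Fin 5 → Vtx := fun c => base c (A (.X c) * p.s) (A (.Y c) * p.s) with hz
  have hpar := k5_parity S.eta S.N z (by
      intro i j hij
      apply S.eta_add
      intro h
      rw [hz] at h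
      injection h with h1
      exact hij h1)
    (fun c => eH p c (A (.X c)) (A (.Y c)) (A (.X (c + 1))) (A (.Y (c + 1))) (A (.H c)) mR mL)
    (fun c => eV p c (A (.X c)) (A (.Y c)) (A (.X (c + 2))) (A (.Y (c + 2))) (A (.W c)) mT mB)
    (fun c => Bd_eH p c _ _ _ _ _ _ _) (fun c => Bd_eV p c _ _ _ _ _ _ _)
  have nH : ∀ {c d : Fin 5}, c ≠ d → Var.H c ≠ Var.H d := fun h h' => h (Var.H.inj h')
  have nW : ∀ {c d : Fin 5}, c ≠ d → Var.W c ≠ Var.W d := fun h h' => h (Var.W.inj h')
  have nX : ∀ {c d : Fin 5}, c ≠ d → Var.X c ≠ Var.X d := fun h h' => h (Var.X.inj h')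
  have nY : ∀ {c d : Fin 5}, c ≠ d → Var.Y c ≠ Var.Y d := fun h h' => h (Var.Y.inj h')
  have s1 : ∀ c : Fin 5, cr S.eta S.N
      (eH p c (A (.X c)) (A (.Y c)) (A (.X (c + 1))) (A (.Y (c + 1))) (A (.H c)) mR mL)
      (eH p (c + 2) (A (.X (c + 2))) (A (.Y (c + 2))) (A (.X (c + 2 + 1)))
        (A (.Y (c + 2 + 1))) (A (.H (c + 2))) mR mL) = 0 := by
    intro c
    obtain ⟨g1, g2, g3, g4, g5, g6, g7, g8, g9, g10⟩ := f5 c
    refine edata_edata hp (dH c) (dH (c + 2)) g1.symm g3.symm g2.symm g4.symm ?_ ?_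
    · rintro e he (h | h | h)
      · exact rH c (.H (c + 2)) (nH g1) (by simp) (by simp) (by simp) (by simp) e he h
      · exact rH c (.X (c + 2)) (by simp) (nX g1) (by simp) (nX g2) (by simp) e he h
      · exact rH c (.X (c + 2 + 1)) (by simp) (nX g3) (by simp) (nX g4) (by simp) e he h
    · rintro e he (h | h | h)
      · exact rH (c + 2) (.H c) (nH g1.symm) (by simp) (by simp) (by simp) (by simp) e he h
      · exact rH (c + 2) (.X c) (by simp) (nX g1.symm) (by simp) (nX g3.symm) (by simp) e he h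
      · exact rH (c + 2) (.X (c + 1)) (by simp) (nX g2.symm) (by simp) (nX g4.symm) (by simp)
          e he h
  have s2 : ∀ c : Fin 5, cr S.eta S.N
      (eH p c (A (.X c)) (A (.Y c)) (A (.X (c + 1))) (A (.Y (c + 1))) (A (.H c)) mR mL)
      (eV p (c + 2) (A (.X (c + 2))) (A (.Y (c + 2))) (A (.X (c + 2 + 2)))
        (A (.Y (c + 2 + 2))) (A (.W (c + 2))) mT mB) = 0 := by
    intro c
    obtain ⟨g1, g2, g3, g4, g5, g6, g7, g8, g9, g10⟩ := f5 c
    refine edata_edata hp (dH c) (dV (c + 2)) g1.symm g5.symm g2.symm g6.symm ?_ ?_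
    · rintro e he (h | h | h)
      · exact rH c (.W (c + 2)) (by simp) (by simp) (by simp) (by simp) (by simp) e he h
      · exact rH c (.Y (c + 2)) (by simp) (by simp) (nY g1) (by simp) (nY g2) e he h
      · exact rH c (.Y (c + 2 + 2)) (by simp) (by simp) (nY g5) (by simp) (nY g6) e he h
    · rintro e he (h | h | h)
      · exact rV (c + 2) (.H c) (by simp) (by simp) (by simp) (by simp) (by simp) e he h
      · exact rV (c + 2) (.X c) (by simp) (nX g1.symm) (by simp) (nX g5.symm) (by simp) e he h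
      · exact rV (c + 2) (.X (c + 1)) (by simp) (nX g2.symm) (by simp) (nX g6.symm) (by simp)
          e he h
  have s3 : ∀ c : Fin 5, cr S.eta S.N
      (eV p c (A (.X c)) (A (.Y c)) (A (.X (c + 2))) (A (.Y (c + 2))) (A (.W c)) mT mB)
      (eV p (c + 1) (A (.X (c + 1))) (A (.Y (c + 1))) (A (.X (c + 1 + 2)))
        (A (.Y (c + 1 + 2))) (A (.W (c + 1))) mT mB) = 0 := by
    intro c
    obtain ⟨g1, g2, g3, g4, g5, g6, g7, g8, g9, g10⟩ := f5 c
    refine edata_edata hp (dV c) (dV (c + 1)) g7.symm g9.symm g2 g10.symm ?_ ?_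
    · rintro e he (h | h | h)
      · exact rV c (.W (c + 1)) (nW g7) (by simp) (by simp) (by simp) (by simp) e he h
      · exact rV c (.Y (c + 1)) (by simp) (by simp) (nY g7) (by simp) (nY g8) e he h
      · exact rV c (.Y (c + 1 + 2)) (by simp) (by simp) (nY g9) (by simp) (nY g10) e he h
    · rintro e he (h | h | h)
      · exact rV (c + 1) (.W c) (nW g7.symm) (by simp) (by simp) (by simp) (by simp) e he h
      · exact rV (c + 1) (.Y c) (by simp) (by simp) (nY g7.symm) (by simp) (nY g9.symm) e he h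
      · exact rV (c + 1) (.Y (c + 2)) (by simp) (by simp) (nY g2) (by simp) (nY g10.symm)
          e he h
  rw [Finset.sum_eq_zero (fun c _ => s1 c), Finset.sum_eq_zero (fun c _ => s2 c),
    Finset.sum_eq_zero (fun c _ => s3 c)] at hpar
  simp at hpar

end Setup

end Pool.Agent.Lib.MP_ec8146_lc
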