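import Pool.Agent.Lib.MP_ec8146_lc.FO
import Pool.Agent.Lib.MP_ec8146_lc.Order

/-!
# Cutting out a small set; separation through weakly reachable vertices
-/

namespace Pool.Agent.Lib.MP_ec8146_lc

open FirstOrder FirstOrder.Language

variable {V : Type}

/-- remove all edges at the set `I` -/
def cutG (G : SimpleGraph V) (I : Set V) : SimpleGraph V where
  Adj x y := G.Adj x y ∧ x ∉ I ∧ y ∉ I
  symm := ⟨fun _ _ h => ⟨h.1.symm, h.2.2, h.2.1⟩⟩
  loopless := ⟨fun x h => G.loopless.irrefl x h.1⟩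

/-- colours recording the adjacency to the elements of the sets `f k` -/
def cutC (G : SimpleGraph V) {c m : ℕ} (C : Fin c → Set V) (f : Fin m → Set V) :
    Fin c ⊕ (Fin m × Bool) → Set V
  | Sum.inl i => C i
  | Sum.inr (k, false) => f k
  | Sum.inr (k, true) => {x | ∃ z ∈ f k, G.Adj z x}

lemma cut_adj_iff (G : SimpleGraph V) {c m : ℕ} (C : Fin c → Set V) (f : Fin m → Set V)
    {I : Set V} (hf : ∀ k, (f k).Subsingleton) (hI : ∀ x, x ∈ I ↔ ∃ k, x ∈ f k) (u v : V) :
    G.Adj u v ↔ ((cutG G I).edist u v ≤ ((1 : ℕ) : ℕ∞) ∧ ¬ (cutG G I).edist u v ≤ ((0 : ℕ) : ℕ∞)) ∨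
      (∃ k, u ∈ cutC G C f (Sum.inr (k, false)) ∧ v ∈ cutC G C f (Sum.inr (k, true))) ∨
      (∃ k, v ∈ cutC G C f (Sum.inr (k, false)) ∧ u ∈ cutC G C f (Sum.inr (k, true))) := by
  have h1 : ((cutG G I).edist u v ≤ ((1 : ℕ) : ℕ∞) ∧ ¬ (cutG G I).edist u v ≤ ((0 : ℕ) : ℕ∞)) ↔
      (cutG G I).Adj u v := by
    rw [← SimpleGraph.edist_eq_one_iff_adj]
    constructor
    · rintro ⟨h1, h2⟩
      simp only [Nat.cast_one, Nat.cast_zero, nonpos_iff_eq_zero] at h1 h2
      exact le_antisymm h1 (Order.one_le_iff_pos.mpr (pos_iff_ne_zero.mpr h2))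
    · intro h
      rw [h]
      simp
  rw [h1]
  constructor
  · intro h
    by_cases hu : u ∈ I
    · obtain ⟨k, hk⟩ := (hI u).mp hu
      exact Or.inr (Or.inl ⟨k, hk, u, hk, h⟩)
    · by_cases hv : v ∈ I
      · obtain ⟨k, hk⟩ := (hI v).mp hv
        exact Or.inr (Or.inr ⟨k, hk, v, hk, h.symm⟩)
      · exact Or.inl ⟨h, hu, hv⟩
  · rintro (h | ⟨k, hk, z, hz, hzv⟩ | ⟨k, hk, z, hz, hzu⟩)
    · exact h.1
    · rw [hf k hk hz]; exact hzv
    · rw [hf k hk hz]; exact hzu.symm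

lemma cut_hadj (G : SimpleGraph V) {c m : ℕ} (C : Fin c → Set V) (f : Fin m → Set V)
    {I : Set V} (hf : ∀ k, (f k).Subsingleton) (hI : ∀ x, x ∈ I ↔ ∃ k, x ∈ f k)
    (u v u' v' : V)
    (h : at' (cutG G I) (cutC G C f) 0 (two u v) = at' (cutG G I) (cutC G C f) 0 (two u' v')) :
    G.Adj u v ↔ G.Adj u' v' := by
  rw [cut_adj_iff G C f hf hI u v, cut_adj_iff G C f hf hI u' v']
  have d1 : (cutG G I).edist u v ≤ ((1 : ℕ) : ℕ∞) ↔ (cutG G I).edist u' v' ≤ ((1 : ℕ) : ℕ∞) :=
    at_dist h false true 1 (by norm_num)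
  have d0 : (cutG G I).edist u v ≤ ((0 : ℕ) : ℕ∞) ↔ (cutG G I).edist u' v' ≤ ((0 : ℕ) : ℕ∞) :=
    at_dist h false true 0 (by norm_num)
  have cu : ∀ k, u ∈ cutC G C f k ↔ u' ∈ cutC G C f k := fun k => at_col h false k
  have cv : ∀ k, v ∈ cutC G C f k ↔ v' ∈ cutC G C f k := fun k => at_col h true k
  rw [d1, d0]
  simp only [cu, cv]

lemma cut_hcol (G : SimpleGraph V) {c m : ℕ} (C : Fin c → Set V) (f : Fin m → Set V)
    {I : Set V} (i : Fin c) (u u' : V)
    (h : at' (cutG G I) (cutC G C f) 0 (one u) = at' (cutG G I) (cutC G C f) 0 (one u')) :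
    u ∈ C i ↔ u' ∈ C i := at_col h () (Sum.inl i)

lemma exists_link_of_walk {G : SimpleGraph V} {u v : V} (p : G.Walk u v) (hp : 1 ≤ p.length) :
    ∃ l : List V, l.length + 1 = p.length ∧ Lnk G u l v := by
  induction p with
  | nil => simp at hp
  | @cons u w v h p ih =>
    rcases Nat.eq_zero_or_pos p.length with h0 | h0
    · have hwv := SimpleGraph.Walk.eq_of_length_eq_zero h0
      subst hwv
      exact ⟨[], by simp [h0], h⟩
    · obtain ⟨l, hl, hlnk⟩ := ih h0
      exact ⟨w :: l, by simp [hl], h, hlnk⟩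

lemma Lnk.mono {G G' : SimpleGraph V} (hG : ∀ x y, G.Adj x y → G'.Adj x y) {u v : V}
    {l : List V} (h : Lnk G u l v) : Lnk G' u l v := by
  induction l generalizing u with
  | nil => exact hG _ _ h
  | cons x l ih => exact ⟨hG _ _ h.1, ih h.2⟩

lemma Lnk.cut_notMem {G : SimpleGraph V} {I : Set V} {u v : V} {l : List V}
    (h : Lnk (cutG G I) u l v) : u ∉ I ∧ v ∉ I ∧ ∀ x ∈ l, x ∉ I := by
  induction l generalizing u with
  | nil => exact ⟨h.2.1, h.2.2, by simp⟩
  | cons x l ih =>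
    obtain ⟨h1, h2, h3⟩ := ih h.2
    refine ⟨h.1.2.1, h2, ?_⟩
    intro y hy
    rcases List.mem_cons.mp hy with rfl | hy
    · exact h1
    · exact h3 y hy

variable [Fintype V] {G : SimpleGraph V} {ρ : V → ℕ}

lemma mem_Wset {n : ℕ} {v z : V} : z ∈ Wset G ρ n v ↔ z = v ∨ ∃ l : List V, l.length < n ∧
    Lnk G v l z ∧ ρ z < ρ v ∧ ∀ x ∈ l, ρ z < ρ x := by
  classical
  unfold Wset
  simp

lemma self_mem_Wset (n : ℕ) (v : V) : v ∈ Wset G ρ n v := mem_Wset.mpr (Or.inl rfl)

lemma Wset_mono {n n' : ℕ} (h : n ≤ n') (v : V) : Wset G ρ n v ⊆ Wset G ρ n' v := by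
  intro z hz
  rcases mem_Wset.mp hz with h1 | ⟨l, h1, h2⟩
  · rw [h1]; exact self_mem_Wset _ _
  · exact mem_Wset.mpr (Or.inr ⟨l, by omega, h2⟩)

lemma mem_Wset_of_link (hρ : Function.Injective ρ) {n : ℕ} {v z : V} {l : List V}
    (h : Lnk G v l z) (hl : l.length < n) (hab : ∀ x ∈ l, ρ z ≤ ρ x) (hzv : ρ z ≤ ρ v) :
    z ∈ Wset G ρ n v := by
  by_cases hz : z = v
  · rw [hz]; exact self_mem_Wset _ _
  have hzv' : ρ z < ρ v := lt_of_le_of_ne hzv (fun e => hz (hρ e))
  by_cases hzl : ∃ x ∈ l, x = z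
  · obtain ⟨l1, m, l2, e1, e2, e3⟩ := exists_first hzl
    subst e2
    rw [e1, Lnk_append] at h
    rw [e1, List.length_append] at hl
    refine mem_Wset.mpr (Or.inr ⟨l1, by omega, h.1, hzv', ?_⟩)
    intro x hx
    have h1 := hab x (by rw [e1]; exact List.mem_append_left _ hx)
    exact lt_of_le_of_ne h1 (fun e => e3 x hx (hρ e).symm)
  · push Not at hzl
    refine mem_Wset.mpr (Or.inr ⟨l, hl, h, hzv', ?_⟩)
    intro x hx
    exact lt_of_le_of_ne (hab x hx) (fun e => hzl x hx (hρ e).symm)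

/-- short connections between `u` and `v` pass through commonly weakly reachable vertices -/
lemma separation (hρ : Function.Injective ρ) {n : ℕ} {u v : V} (huv : u ≠ v) {I : Set V}
    (hI : ∀ z, z ∈ Wset G ρ n u → z ∈ Wset G ρ n v → z ∈ I) :
    ¬ (cutG G I).edist u v ≤ (n : ℕ∞) := by
  intro hle
  obtain ⟨p, hp⟩ := SimpleGraph.exists_walk_of_edist_ne_top
    (ne_top_of_le_ne_top (ENat.natCast_ne_top n) hle)
  have hpn : p.length ≤ n := by
    rw [← hp] at hle
    exact_mod_cast hle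
  have hp1 : 1 ≤ p.length := by
    by_contra h0
    exact huv (SimpleGraph.Walk.eq_of_length_eq_zero (p := p) (by omega))
  obtain ⟨l, hl, hlnk⟩ := exists_link_of_walk p hp1
  obtain ⟨hu, hv, hlI⟩ := hlnk.cut_notMem
  have hcut : ∀ x y, (cutG G I).Adj x y → G.Adj x y := fun _ _ h => h.1
  have hlnk' : Lnk G u l v := hlnk.mono hcut
  -- the minimum
  obtain ⟨z, hz, hmin⟩ : ∃ z ∈ u :: v :: l, ∀ x ∈ u :: v :: l, ρ z ≤ ρ x := by
    classical
    obtain ⟨z, hz, hmin⟩ := Finset.exists_min_image (u :: v :: l).toFinset ρ ⟨u, by simp⟩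
    exact ⟨z, by simpa using hz, fun x hx => hmin x (by simpa using hx)⟩
  have hmu : ρ z ≤ ρ u := hmin u (by simp)
  have hmv : ρ z ≤ ρ v := hmin v (by simp)
  have hml : ∀ x ∈ l, ρ z ≤ ρ x := fun x hx => hmin x (by simp [hx])
  have hrev : Lnk G v l.reverse u := Lnk_reverse hlnk'
  rcases List.mem_cons.mp hz with rfl | hz
  · exact hu (hI z (self_mem_Wset _ _) (mem_Wset_of_link hρ hrev (by simp; omega)
      (fun x hx => hml x (by simpa using hx)) hmv))
  · rcases List.mem_cons.mp hz with rfl | hz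
    · exact hv (hI z (mem_Wset_of_link hρ hlnk' (by omega) hml hmu) (self_mem_Wset _ _))
    · obtain ⟨a, b, hab⟩ := List.append_of_mem hz
      rw [hab, Lnk_append] at hlnk'
      have hlen : l.length = a.length + b.length + 1 := by
        rw [hab, List.length_append, List.length_cons]
        ring
      have hsub : ∀ x, x ∈ a ∨ x ∈ b → x ∈ l := by
        intro x hx
        rw [hab]
        rcases hx with hx | hx
        · exact List.mem_append_left _ hx
        · exact List.mem_append_right _ (List.mem_cons_of_mem _ hx)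
      refine hlI z hz (hI z ?_ ?_)
      · exact mem_Wset_of_link hρ hlnk'.1 (by omega) (fun x hx => hml x (hsub x (Or.inl hx))) hmu
      · exact mem_Wset_of_link hρ (Lnk_reverse hlnk'.2) (by simp; omega)
          (fun x hx => hml x (hsub x (Or.inr (by simpa using hx)))) hmv

/-- weakly reachable vertices of the same vertex are weakly reachable from each other -/
lemma Wset_trans (hρ : Function.Injective ρ) {n : ℕ} {u y z : V} (hy : y ∈ Wset G ρ n u)
    (hz : z ∈ Wset G ρ n u) (hzy : ρ z ≤ ρ y) : z ∈ Wset G ρ (2 * n) y := by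
  by_cases hne : z = y
  · rw [hne]; exact self_mem_Wset _ _
  have hlt : ρ z < ρ y := lt_of_le_of_ne hzy (fun e => hne (hρ e))
  rcases mem_Wset.mp hy with hy' | ⟨l, hl, hlnk, hyu, hab⟩
  · rw [hy']
    exact Wset_mono (by omega) _ hz
  · rcases mem_Wset.mp hz with hz' | ⟨l', hl', hlnk', hzu, hab'⟩
    · rw [hz'] at hlt
      omega
    · have hlnk2 : Lnk G y (l.reverse ++ u :: l') z := Lnk_append.mpr ⟨Lnk_reverse hlnk, hlnk'⟩
      refine mem_Wset_of_link hρ hlnk2 ?_ ?_ hzy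
      · simp only [List.length_append, List.length_reverse, List.length_cons]
        omega
      · intro x hx
        rcases List.mem_append.mp hx with hx | hx
        · have := hab x (by simpa using hx)
          omega
        · rcases List.mem_cons.mp hx with rfl | hx
          · omega
          · exact (hab' x hx).le

end Pool.Agent.Lib.MP_ec8146_lc
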