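import Pool.Agent.Lib.MP_ec8146_lc.Robust

/-!
# Parity setup on the construction and vanishing of small rectangles
-/

namespace Pool.Agent.Lib.MP_ec8146_lc

open Vtx

/-- Parity data for `T p` minus a small set `S0` of edges, with a bounded crossing relation. -/
structure Setup (p : Par) (k : ℕ) where
  S0 : Finset (Sym2 Vtx)
  S0_card : S0.card ≤ k
  eta : Vtx → Vtx → ZMod 2
  N : Vtx → Vtx → Vtx → ZMod 2
  eta_add : ∀ x y, x ≠ y → eta x y + eta y x = 1
  Fc : Sym2 Vtx → Finset (Sym2 Vtx)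
  Fc_card : ∀ e, (Fc e).card ≤ k
  rel : ∀ u v x y, (T p).Adj u v → s(u, v) ∉ S0 → (T p).Adj x y → s(x, y) ∉ S0 →
    u ≠ x → u ≠ y → v ≠ x → v ≠ y → s(x, y) ∉ Fc s(u, v) → c0 eta N (u, v) (x, y) = 0

namespace Setup

variable {p : Par} {k : ℕ} (S : Setup p k)

/-- intersection number -/
def X (P Q : Ch Vtx) : ZMod 2 := cr S.eta S.N P Q

/-- all darts of the chain are edges of the graph minus `S0` -/
def IsH (P : Ch Vtx) : Prop := ∀ d ∈ P, (Gen p d.1 d.2 ∨ Gen p d.2 d.1) ∧ s(d.1, d.2) ∉ S.S0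

/-- the edges crossing a chain -/
def crs (P : Ch Vtx) : Finset (Sym2 Vtx) := P.toFinset.biUnion (fun d => S.Fc s(d.1, d.2))

lemma card_crs (P : Ch Vtx) : (S.crs P).card ≤ k * P.card := by
  calc (S.crs P).card ≤ ∑ d ∈ P.toFinset, (S.Fc s(d.1, d.2)).card := Finset.card_biUnion_le
    _ ≤ ∑ _d ∈ P.toFinset, k := Finset.sum_le_sum (fun d _ => S.Fc_card _)
    _ = P.toFinset.card * k := by simp
    _ ≤ P.card * k := Nat.mul_le_mul_right _ (Multiset.toFinset_card_le P)
    _ = k * P.card := mul_comm _ _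

lemma mem_crs {P : Ch Vtx} {e : Sym2 Vtx} : e ∈ S.crs P ↔ ∃ d ∈ P, e ∈ S.Fc s(d.1, d.2) := by
  simp [crs]

/-- all vertices of the chain lie in the blocks `B` -/
def InB (P : Ch Vtx) (B : Finset (Fin 5)) : Prop := ∀ d ∈ P, d.1.blk ∈ B ∧ d.2.blk ∈ B

lemma X_add_left (P P' Q : Ch Vtx) : S.X (P + P') Q = S.X P Q + S.X P' Q :=
  cr_add_left _ _ _ _ _

lemma X_add_right (P Q Q' : Ch Vtx) : S.X P (Q + Q') = S.X P Q + S.X P Q' :=
  cr_add_right _ _ _ _ _

lemma ne_of_blk {B B' : Finset (Fin 5)} (hB : Disjoint B B') {u v : Vtx} (hu : u.blk ∈ B)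
    (hv : v.blk ∈ B') : u ≠ v := by
  rintro rfl
  exact (Finset.disjoint_left.mp hB) hu hv

lemma X_comm {P Q : Ch Vtx} {B B' : Finset (Fin 5)} (hP : InB P B) (hQ : InB Q B')
    (hB : Disjoint B B') : S.X P Q = S.X Q P := by
  unfold X cr
  rw [Multiset.sum_map_sum_map]
  congr 1
  apply Multiset.map_congr rfl
  intro e he
  congr 1
  apply Multiset.map_congr rfl
  intro d hd
  have h1 := hP d hd
  have h2 := hQ e he
  exact c0_comm S.eta S.N S.eta_add d e (ne_of_blk hB h1.1 h2.1) (ne_of_blk hB h1.1 h2.2)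
    (ne_of_blk hB h1.2 h2.1) (ne_of_blk hB h1.2 h2.2)

/-- Two vertex-disjoint chains such that no edge of the second crosses an edge of the first have
intersection number zero. -/
lemma X_zero {P Q : Ch Vtx} (hP : S.IsH P) (hQ : S.IsH Q)
    (hd : ∀ d ∈ P, ∀ e ∈ Q, d.1 ≠ e.1 ∧ d.1 ≠ e.2 ∧ d.2 ≠ e.1 ∧ d.2 ≠ e.2)
    (hc : ∀ e ∈ Q, s(e.1, e.2) ∉ S.crs P) : S.X P Q = 0 := by
  apply cr_eq_zero
  intro d hd' e he'
  obtain ⟨h1, h2, h3, h4⟩ := hd d hd' e he'
  have a := hP d hd'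
  have b := hQ e he'
  refine S.rel d.1 d.2 e.1 e.2 ((T_adj p).mpr a.1) a.2 ((T_adj p).mpr b.1) b.2 h1 h2 h3 h4 ?_
  intro hh
  exact hc e he' (S.mem_crs.mpr ⟨d, hd', hh⟩)

lemma X_zero_blk {P Q : Ch Vtx} {B B' : Finset (Fin 5)} (hP : S.IsH P) (hQ : S.IsH Q)
    (hPB : InB P B) (hQB : InB Q B') (hB : Disjoint B B')
    (hc : ∀ e ∈ Q, s(e.1, e.2) ∉ S.crs P) : S.X P Q = 0 := by
  refine S.X_zero hP hQ ?_ hc
  intro d hd e he
  have h1 := hPB d hd
  have h2 := hQB e he
  exact ⟨ne_of_blk hB h1.1 h2.1, ne_of_blk hB h1.1 h2.2, ne_of_blk hB h1.2 h2.1,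
    ne_of_blk hB h1.2 h2.2⟩

lemma IsH.add {P Q : Ch Vtx} (hP : S.IsH P) (hQ : S.IsH Q) : S.IsH (P + Q) := by
  intro d hd
  rcases Multiset.mem_add.mp hd with h | h
  · exact hP d h
  · exact hQ d h

lemma InB.add {P Q : Ch Vtx} {B : Finset (Fin 5)} (hP : InB P B) (hQ : InB Q B) :
    InB (P + Q) B := by
  intro d hd
  rcases Multiset.mem_add.mp hd with h | h
  · exact hP d h
  · exact hQ d h

lemma InB.mono {P : Ch Vtx} {B B' : Finset (Fin 5)} (hP : InB P B) (h : B ⊆ B') : InB P B' :=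
  fun d hd => ⟨h (hP d hd).1, h (hP d hd).2⟩

/-! ### base edges and holes -/

/-- neighbour to the right -/
def rt (p : Par) (c : Fin 5) (x y : ℕ) : Vtx :=
  if x + 1 < p.M then base c (x + 1) y else base (c + 1) 0 y

/-- upper neighbour -/
def up (p : Par) (c : Fin 5) (x y : ℕ) : Vtx :=
  if y + 1 < p.M then base c x (y + 1) else base (c + 2) x 0

/-- the finite set of all base edges -/
def BE (p : Par) : Finset (Sym2 Vtx) :=
  ((Finset.univ : Finset (Fin 5)) ×ˢ (Finset.range p.M ×ˢ Finset.range p.M)).biUnion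
    (fun z => {s(base z.1 z.2.1 z.2.2, rt p z.1 z.2.1 z.2.2),
      s(base z.1 z.2.1 z.2.2, up p z.1 z.2.1 z.2.2)})

lemma card_BE (p : Par) : (BE p).card ≤ 10 * p.M ^ 2 := by
  calc (BE p).card ≤ ∑ z ∈ ((Finset.univ : Finset (Fin 5)) ×ˢ
      (Finset.range p.M ×ˢ Finset.range p.M)), 2 := by
        refine Finset.card_biUnion_le.trans (Finset.sum_le_sum (fun z _ => ?_))
        exact Finset.card_le_two
    _ = 10 * p.M ^ 2 := by
        simp only [Finset.sum_const, Finset.card_product, Finset.card_univ, Fintype.card_fin,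
          Finset.card_range, smul_eq_mul]
        ring

lemma hor_mem_BE {c : Fin 5} {x y : ℕ} (hx : x + 1 < p.M) (hy : y < p.M) :
    s(base c x y, base c (x + 1) y) ∈ BE p := by
  unfold BE
  refine Finset.mem_biUnion.mpr ⟨(c, x, y), by simp; omega, ?_⟩
  simp [rt, hx]

lemma ver_mem_BE {c : Fin 5} {x y : ℕ} (hx : x < p.M) (hy : y + 1 < p.M) :
    s(base c x y, base c x (y + 1)) ∈ BE p := by
  unfold BE
  refine Finset.mem_biUnion.mpr ⟨(c, x, y), by simp; omega, ?_⟩
  simp [up, hy]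

/-- edges crossing a base edge -/
def F : Finset (Sym2 Vtx) := (BE p).biUnion S.Fc

lemma card_F : S.F.card ≤ 10 * p.M ^ 2 * k := by
  calc S.F.card ≤ ∑ e ∈ BE p, (S.Fc e).card := Finset.card_biUnion_le
    _ ≤ ∑ _e ∈ BE p, k := Finset.sum_le_sum (fun e _ => S.Fc_card e)
    _ = (BE p).card * k := by simp
    _ ≤ 10 * p.M ^ 2 * k := Nat.mul_le_mul_right _ (card_BE p)

/-- existence of a hole in each wall -/
lemma exists_hole {a : ℕ} (hw1 : ∀ c, 1 ≤ p.w c) (hD : 10 * p.M ^ 2 * k + k < 2 ^ (p.D - a))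
    (c : Fin 5) (i j : ℕ) :
    ∃ β < 2 ^ (p.D - a), ∀ e ∈ S.F ∪ S.S0, ¬ (∀ v ∈ e, memHole p a c i j β v) := by
  obtain ⟨β, hβ, -, h⟩ := exists_intact (Finset.range (2 ^ (p.D - a)))
    (fun β v => memHole p a c i j β v) (by
      rintro β - β' - v ⟨t, -, rfl⟩ ⟨t', -, h⟩
      injection h with h1 h2 h3 h4 h5
      have : t = t' := by omega
      subst this
      have h6 := Nat.eq_of_mul_eq_mul_right (by positivity) h5
      exact Nat.eq_of_mul_eq_mul_right (hw1 c) (by omega)) ∅ (S.F ∪ S.S0) (by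
      have h1 := Finset.card_union_le S.F S.S0
      have h2 := S.card_F
      have h3 := S.S0_card
      simp only [Finset.card_empty, Finset.card_range, zero_add]
      omega)
  exact ⟨β, Finset.mem_range.mp hβ, h⟩

end Setup

/-- Standing assumptions on the parameters. -/
structure Par.Good (p : Par) (k a : ℕ) : Prop where
  wk : ∀ c, k + 1 ≤ p.w c
  ws : ∀ c, 2 * p.w c + 3 ≤ p.s
  gs : p.g + 1 < p.s
  wg : ∀ c, p.w c ≤ p.g
  wa : ∀ c, p.w c < a
  aD : a + 1 ≤ p.D
  gN : p.g < p.N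
  w_lt : ∀ b c : Fin 5, b < c → 2 * (p.w b + 2 * k + 3) * (k + 2) + k ≤ p.w c
  hD : 10 * p.M ^ 2 * k + k < 2 ^ (p.D - a)

namespace Setup

variable {p : Par} {k a : ℕ} (S : Setup p k)

/-- chosen hole -/
noncomputable def hol (a : ℕ) (hp : p.Good k a) (c : Fin 5) (i j : ℕ) : ℕ :=
  (S.exists_hole (fun c => (Nat.le_add_left 1 k).trans (hp.wk c)) hp.hD c i j).choose

lemma hol_lt (hp : p.Good k a) (c : Fin 5) (i j : ℕ) : S.hol a hp c i j < 2 ^ (p.D - a) :=
  (S.exists_hole (fun c => (Nat.le_add_left 1 k).trans (hp.wk c)) hp.hD c i j).choose_spec.1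

lemma hol_spec (hp : p.Good k a) (c : Fin 5) (i j : ℕ) :
    ∀ e ∈ S.F ∪ S.S0, ¬ (∀ v ∈ e, memHole p a c i j (S.hol a hp c i j) v) :=
  (S.exists_hole (fun c => (Nat.le_add_left 1 k).trans (hp.wk c)) hp.hD c i j).choose_spec.2

/-- corner of the hole of a cell -/
noncomputable def cnr (hp : p.Good k a) (c : Fin 5) (i j : ℕ) : Vtx :=
  wall c i j (p.D - a) (S.hol a hp c i j * p.w c)

/-- Short closed chains of base edges in another, lower block have intersection number zero with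
chains joining two holes. -/
lemma short_closed (hp : p.Good k a) {b q : Fin 5} (hbq : b ≠ q) {R J : Ch Vtx} {u : Vtx}
    (hR : Bd R u u) (hRH : S.IsH R) (hRb : InB R {b})
    (hRbase : ∀ d ∈ R, s(d.1, d.2) ∈ BE p ∧ (∃ x y, d.1 = base b x y) ∧ ∃ x y, d.2 = base b x y)
    (hcard : R.card * (k + 2) + k ≤ p.w q)
    {i j i' j' : ℕ} (hi : i < p.N) (hj : j < p.N) (hi' : i' < p.N) (hj' : j' < p.N)
    (hJ : Bd J (S.cnr hp q i j) (S.cnr hp q i' j')) : S.X R J = 0 := by
  classical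
  -- the set to be avoided
  set AV : Finset Vtx := (R.toFinset.image (fun d => d.1)) ∪ (R.toFinset.image (fun d => d.2))
    with hAV
  set AE : Finset (Sym2 Vtx) := S.crs R ∪ S.S0 with hAE
  have hAVc : AV.card ≤ 2 * R.card := by
    rw [hAV]
    have h1 := Finset.card_union_le (R.toFinset.image (fun d => d.1))
      (R.toFinset.image (fun d => d.2))
    have h2 : (R.toFinset.image (fun d => d.1)).card ≤ R.card :=
      Finset.card_image_le.trans (Multiset.toFinset_card_le R)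
    have h3 : (R.toFinset.image (fun d => d.2)).card ≤ R.card :=
      Finset.card_image_le.trans (Multiset.toFinset_card_le R)
    omega
  have hAEc : AE.card ≤ k * R.card + k := by
    rw [hAE]
    have h1 := Finset.card_union_le (S.crs R) S.S0
    have h2 := S.card_crs R
    have h3 := S.S0_card
    omega
  have hsum : AV.card + AE.card ≤ p.w q := by
    have : R.card * (k + 2) + k = 2 * R.card + (k * R.card + k) := by ring
    omega
  have hwg := hp.wg q
  have hgN := hp.gN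
  have hgs := hp.gs
  obtain ⟨O, hO⟩ := exists_giant (p := p) (AV := AV) (AE := AE) (by omega) (by omega)
  -- holes are intact
  have hint : ∀ i j, Intact AV AE (memHole p a q i j (S.hol a hp q i j)) := by
    intro i j
    constructor
    · intro v hv hmem
      obtain ⟨t, -, rfl⟩ := hmem
      rcases Finset.mem_union.mp hv with h | h
      · obtain ⟨d, hd, hd'⟩ := Finset.mem_image.mp h
        obtain ⟨x, y, hxy⟩ := (hRbase d (Multiset.mem_toFinset.mp hd)).2.1
        rw [hxy] at hd'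
        exact absurd hd' (by simp)
      · obtain ⟨d, hd, hd'⟩ := Finset.mem_image.mp h
        obtain ⟨x, y, hxy⟩ := (hRbase d (Multiset.mem_toFinset.mp hd)).2.2
        rw [hxy] at hd'
        exact absurd hd' (by simp)
    · intro e he
      apply S.hol_spec hp q i j e
      rcases Finset.mem_union.mp he with h | h
      · obtain ⟨d, hd, hd'⟩ := S.mem_crs.mp h
        exact Finset.mem_union_left _ (Finset.mem_biUnion.mpr ⟨_, (hRbase d hd).1, hd'⟩)
      · exact Finset.mem_union_right _ h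
  have c1 := hole_conn (AV := AV) (AE := AE) (K := p.w q) (a := a) hp.ws hp.gs hsum hwg (hp.wa q)
    hp.aD hO (c := q) le_rfl hi hj (S.hol_lt hp q i j) (hint i j)
  have c2 := hole_conn (AV := AV) (AE := AE) (K := p.w q) (a := a) hp.ws hp.gs hsum hwg (hp.wa q)
    hp.aD hO (c := q) le_rfl hi' hj' (S.hol_lt hp q i' j') (hint i' j')
  obtain ⟨Q, hQ, hQ'⟩ := (c2.trans c1.symm).exists_chain
  have hclosed : S.X R (J + Q) = 0 := cr_closed _ _ hR (hJ.add hQ)
  have hRQ : S.X R Q = 0 := by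
    refine S.X_zero hRH ?_ ?_ ?_
    · intro d hd
      have := hQ' d hd
      exact ⟨this.1, fun hh => this.2.2.2 (Finset.mem_union_right _ hh)⟩
    · intro d hd e he
      have hs := hQ' e he
      have m1 : d.1 ∈ AV := Finset.mem_union_left _
        (Finset.mem_image.mpr ⟨d, Multiset.mem_toFinset.mpr hd, rfl⟩)
      have m2 : d.2 ∈ AV := Finset.mem_union_right _
        (Finset.mem_image.mpr ⟨d, Multiset.mem_toFinset.mpr hd, rfl⟩)
      refine ⟨?_, ?_, ?_, ?_⟩
      · intro h; exact hs.2.1 (h ▸ m1)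
      · intro h; exact hs.2.2.1 (h ▸ m1)
      · intro h; exact hs.2.1 (h ▸ m2)
      · intro h; exact hs.2.2.1 (h ▸ m2)
    · intro e he
      have hs := hQ' e he
      exact fun hh => hs.2.2.2 (Finset.mem_union_left _ hh)
  rw [S.X_add_right, hRQ, add_zero] at hclosed
  exact hclosed

end Setup

end Pool.Agent.Lib.MP_ec8146_lc
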