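import Pool.Agent.Lib.MP_ec8146_lc.Potential

/-!
# Tethers: short chains joining coarse base points to the corners of the holes
-/

namespace Pool.Agent.Lib.MP_ec8146_lc

open Vtx

/-- index of the row of cells containing a vertex -/
def rowIx (p : Par) : Vtx → ℕ
  | base _ _ y => y / p.s
  | wall _ _ j _ _ => j

/-- index of the column of cells containing a vertex -/
def colIx (p : Par) : Vtx → ℕ
  | base _ x _ => x / p.s
  | wall _ i _ _ _ => i

/-- position in row `r` of the ancestor of the position `B` of row `h` -/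
def anc (h B r : ℕ) : ℕ := B / 2 ^ (h - r)

lemma anc_succ {h B r : ℕ} (hr : r + 1 ≤ h) : anc h B r = anc h B (r + 1) / 2 := by
  unfold anc
  rw [Nat.div_div_eq_div_mul, ← pow_succ]
  congr 2
  omega

lemma anc_self (h B : ℕ) : anc h B h = B := by simp [anc]

lemma anc_le {h B r w : ℕ} (hr : r ≤ h) (hB : B ≤ w * 2 ^ h) : anc h B r ≤ w * 2 ^ r := by
  unfold anc
  apply Nat.div_le_of_le_mul
  calc B ≤ w * 2 ^ h := hB
    _ = 2 ^ (h - r) * (w * 2 ^ r) := by
      rw [show h = (h - r) + r by omega, pow_add]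
      simp only [Nat.add_sub_cancel]
      ring

/-- the descending part of a tether -/
def desc (c : Fin 5) (i j h B : ℕ) : ℕ → Ch Vtx
  | 0 => 0
  | n + 1 => desc c i j h B n
      + {(wall c i j (n + 1) (anc h B (n + 1)), wall c i j (n + 2) (2 * anc h B (n + 1)))}
      + seg (fun m => wall c i j (n + 2) m) (2 * anc h B (n + 1)) (anc h B (n + 2))

/-- the dart is an edge inside the cell `(i,j)` of block `c` -/
def CellDart (p : Par) (c : Fin 5) (i j : ℕ) (d : Vtx × Vtx) : Prop :=
  Gen p d.1 d.2 ∧ (d.1.blk = c ∧ colIx p d.1 = i ∧ rowIx p d.1 = j) ∧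
    (d.2.blk = c ∧ colIx p d.2 = i ∧ rowIx p d.2 = j)

/-- the tether -/
def teth (p : Par) (c : Fin 5) (i j h B : ℕ) : Ch Vtx :=
  vseg c (i * p.s) (j * p.s) (j * p.s + p.g) + hseg c (j * p.s + p.g) (i * p.s) (i * p.s + 1)
    + {(base c (i * p.s + 1) (j * p.s + p.g), wall c i j 1 0)}
    + seg (fun m => wall c i j 1 m) 0 (anc h B 1) + desc c i j h B (h - 1)

lemma Bd_desc (c : Fin 5) (i j h B n : ℕ) :
    Bd (desc c i j h B n) (wall c i j 1 (anc h B 1)) (wall c i j (n + 1) (anc h B (n + 1))) := by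
  induction n with
  | zero => exact Bd.zero _
  | succ n ih =>
    exact (ih.add (Bd.single _ _)).add (Bd_seg (fun m => wall c i j (n + 2) m) _ _)

lemma Bd_teth (p : Par) (c : Fin 5) (i j h B : ℕ) (hh : 1 ≤ h) :
    Bd (teth p c i j h B) (base c (i * p.s) (j * p.s)) (wall c i j h B) := by
  have b1 : Bd (vseg c (i * p.s) (j * p.s) (j * p.s + p.g)) (base c (i * p.s) (j * p.s))
    (base c (i * p.s) (j * p.s + p.g)) := Bd_seg (fun m => base c (i * p.s) m) _ _
  have b2 : Bd (hseg c (j * p.s + p.g) (i * p.s) (i * p.s + 1))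
    (base c (i * p.s) (j * p.s + p.g)) (base c (i * p.s + 1) (j * p.s + p.g)) :=
    Bd_seg (fun m => base c m (j * p.s + p.g)) _ _
  have b3 : Bd ({(base c (i * p.s + 1) (j * p.s + p.g), wall c i j 1 0)} : Ch Vtx)
    (base c (i * p.s + 1) (j * p.s + p.g)) (wall c i j 1 0) := Bd.single _ _
  have b4 : Bd (seg (fun m => wall c i j 1 m) 0 (anc h B 1)) (wall c i j 1 0)
    (wall c i j 1 (anc h B 1)) := Bd_seg (fun m => wall c i j 1 m) _ _
  have b5 := Bd_desc c i j h B (h - 1)
  rw [show h - 1 + 1 = h by omega, anc_self] at b5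
  exact (((b1.add b2).add b3).add b4).add b5

lemma card_desc (c : Fin 5) (i j h B n : ℕ) (hn : n + 1 ≤ h) :
    (desc c i j h B n).card ≤ 2 * n := by
  induction n with
  | zero => simp [desc]
  | succ n ih =>
    have h1 := ih (by omega)
    have h2 := anc_succ (h := h) (B := B) (r := n + 1) (by omega)
    have h3 : anc h B (n + 1) = anc h B (n + 2) / 2 := h2
    simp only [desc, Multiset.card_add, Multiset.card_singleton, card_seg]
    omega

lemma card_teth (p : Par) (c : Fin 5) (i j h B : ℕ) (hh : 1 ≤ h) (hB : B ≤ p.w c * 2 ^ h) :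
    (teth p c i j h B).card ≤ p.g + 2 + 2 * p.w c + 2 * h := by
  have h1 := card_desc c i j h B (h - 1) (by omega)
  have h2 := anc_le (h := h) (B := B) (r := 1) hh hB
  simp only [teth, vseg, hseg, Multiset.card_add, Multiset.card_singleton, card_seg]
  omega

lemma cell_desc (p : Par) {c : Fin 5} {i j h B n : ℕ} (hi : i < p.N) (hj : j < p.N)
    (hn : n + 1 ≤ h) (hh : h ≤ p.D) (hB : B ≤ p.w c * 2 ^ h) :
    ∀ d ∈ desc c i j h B n, CellDart p c i j d := by
  induction n with
  | zero => intro d hd; simp [desc] at hd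
  | succ n ih =>
    have h2 := anc_succ (h := h) (B := B) (r := n + 1) (by omega)
    have h3 : anc h B (n + 1) = anc h B (n + 2) / 2 := h2
    have h4 := anc_le (h := h) (B := B) (r := n + 1) (w := p.w c) (by omega) hB
    have h5 := anc_le (h := h) (B := B) (r := n + 2) (w := p.w c) (by omega) hB
    intro d hd
    simp only [desc, Multiset.mem_add, Multiset.mem_singleton] at hd
    rcases hd with (hd | hd) | hd
    · exact ih (by omega) d hd
    · subst hd
      exact ⟨Gen.wver c i j (n + 1) _ hi hj (by omega) (by omega) h4,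
        ⟨rfl, rfl, rfl⟩, ⟨rfl, rfl, rfl⟩⟩
    · obtain ⟨m, h6, h7, rfl⟩ := mem_seg.mp hd
      refine ⟨Gen.whor c i j (n + 2) m hi hj (by omega) (by omega) (by omega),
        ⟨rfl, rfl, rfl⟩, ⟨rfl, rfl, rfl⟩⟩

lemma div_cell {i s t : ℕ} (ht : t < s) : (i * s + t) / s = i := by
  rw [mul_comm, Nat.mul_add_div (by omega), Nat.div_eq_of_lt ht, add_zero]

lemma cell_teth (p : Par) {c : Fin 5} {i j h B : ℕ} (hgs : p.g + 1 < p.s) (hi : i < p.N)
    (hj : j < p.N) (hh1 : 1 ≤ h) (hh : h ≤ p.D) (hB : B ≤ p.w c * 2 ^ h) :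
    ∀ d ∈ teth p c i j h B, CellDart p c i j d := by
  have hs0 : 0 < p.s := by omega
  have hxM : ∀ t, t < p.s → ∀ i, i < p.N → i * p.s + t < p.M := by
    intro t ht i hi
    calc i * p.s + t < i * p.s + p.s := by omega
      _ = (i + 1) * p.s := by ring
      _ ≤ p.N * p.s := Nat.mul_le_mul_right _ hi
  intro d hd
  simp only [teth, Multiset.mem_add, Multiset.mem_singleton] at hd
  rcases hd with (((hd | hd) | hd) | hd) | hd
  · obtain ⟨m, h6, h7, rfl⟩ := mem_seg.mp hd
    obtain ⟨t, rfl⟩ : ∃ t, m = j * p.s + t := ⟨m - j * p.s, by omega⟩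
    have ht : t < p.g := by omega
    refine ⟨Gen.ver c (i * p.s) (j * p.s + t) (by simpa using hxM 0 hs0 i hi) ?_ ?_, ?_, ?_⟩
    · have := hxM (t + 1) (by omega) j hj
      omega
    · intro hw
      have := hw.2.1
      simp at this
    · refine ⟨rfl, ?_, ?_⟩
      · simp only [colIx]; exact Nat.mul_div_cancel _ hs0
      · simp only [rowIx]; exact div_cell (by omega)
    · refine ⟨rfl, ?_, ?_⟩
      · simp only [colIx]; exact Nat.mul_div_cancel _ hs0
      · simp only [rowIx, add_assoc]; exact div_cell (by omega)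
  · obtain ⟨m, h6, h7, rfl⟩ := mem_seg.mp hd
    have : m = i * p.s := by omega
    subst this
    refine ⟨Gen.hor c (i * p.s) (j * p.s + p.g) (hxM 1 (by omega) i hi)
      (hxM p.g (by omega) j hj), ?_, ?_⟩
    · refine ⟨rfl, ?_, ?_⟩
      · simp only [colIx]; exact Nat.mul_div_cancel _ hs0
      · simp only [rowIx]; exact div_cell (by omega)
    · refine ⟨rfl, ?_, ?_⟩
      · simp only [colIx]; exact div_cell (by omega)
      · simp only [rowIx]; exact div_cell (by omega)
  · subst hd
    refine ⟨Gen.wbot c i j 0 hi hj (by omega), ?_, ⟨rfl, rfl, rfl⟩⟩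
    refine ⟨rfl, ?_, ?_⟩
    · simp only [colIx]; exact div_cell (by omega)
    · simp only [rowIx]; exact div_cell (by omega)
  · have h4 := anc_le (h := h) (B := B) (r := 1) (w := p.w c) (by omega) hB
    obtain ⟨m, h6, h7, rfl⟩ := mem_seg.mp hd
    exact ⟨Gen.whor c i j 1 m hi hj (by omega) (by omega) (by omega),
        ⟨rfl, rfl, rfl⟩, ⟨rfl, rfl, rfl⟩⟩
  · exact cell_desc p hi hj (by omega) hh hB d hd

end Pool.Agent.Lib.MP_ec8146_lc
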