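import Pool.Agent.Lib.MP_ec8146_lc.Degree

/-!
# The drawing in the torus: plane coordinates and addresses
-/

namespace Pool.Agent.Lib.MP_ec8146_lc

open Vtx

/-- horizontal coordinate -/
noncomputable def PX (p : Par) : Vtx → ℝ
  | base c x _ => ((c.val * p.M + x : ℕ) : ℝ)
  | wall c i _ r m => ((c.val * p.M + (i * p.s + 1) : ℕ) : ℝ) + (m : ℝ) / 2 ^ r

/-- vertical coordinate -/
noncomputable def PY (p : Par) : Vtx → ℝ
  | base _ _ y => (y : ℝ)
  | wall _ _ j r _ => ((j * p.s + p.g : ℕ) : ℝ) + (r : ℝ) / (p.D + 1)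

/-- length of the horizontal edge starting at a vertex -/
noncomputable def lenH : Vtx → ℝ
  | base _ _ _ => 1
  | wall _ _ _ r _ => 1 / 2 ^ r

open Classical in
/-- length of the vertical edge starting at a vertex -/
noncomputable def lenV (p : Par) : Vtx → ℝ
  | base c x y => if inWall p c x y then 1 / (p.D + 1) else 1
  | wall _ _ _ _ _ => 1 / (p.D + 1)

lemma lenH_pos (u : Vtx) : 0 < lenH u := by
  cases u with
  | base c x y => simp [lenH]
  | wall c i j r m => simp only [lenH]; positivity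

lemma lenV_pos (p : Par) (u : Vtx) : 0 < lenV p u := by
  cases u with
  | base c x y =>
    simp only [lenV]
    split_ifs
    · positivity
    · norm_num
  | wall c i j r m => simp only [lenV]; positivity

open Classical in
/-- address of a point inside a wall -/
noncomputable def addrW (c : Fin 5) (i j r : ℕ) (ξ h : ℝ) : Vtx × Fin 3 :=
  if h = r then
    (if (2 : ℝ) ^ r * ξ = ⌊(2 : ℝ) ^ r * ξ⌋₊ then (wall c i j r ⌊(2 : ℝ) ^ r * ξ⌋₊, 0)
      else (wall c i j r ⌊(2 : ℝ) ^ r * ξ⌋₊, 1))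
  else (wall c i j r ⌊(2 : ℝ) ^ r * ξ⌋₊, 2)

open Classical in
/-- address of a point, given its integer parts -/
noncomputable def addr' (p : Par) (X Y : ℝ) (c : Fin 5) (x b : ℕ) : Vtx × Fin 3 :=
  if Y = b then (if X = ((c.val * p.M + x : ℕ) : ℝ) then (base c x b, 0) else (base c x b, 1))
  else if b % p.s = p.g ∧ 1 ≤ x % p.s ∧
      X - ((c.val * p.M + (x / p.s * p.s + 1) : ℕ) : ℝ) ≤ p.w c ∧
      1 ≤ ⌊(Y - b) * (p.D + 1)⌋₊ then
    addrW c (x / p.s) (b / p.s) ⌊(Y - b) * (p.D + 1)⌋₊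
      (X - ((c.val * p.M + (x / p.s * p.s + 1) : ℕ) : ℝ)) ((Y - b) * (p.D + 1))
  else (base c x b, 2)

/-- address of a point: the start vertex and the type (`0` vertex, `1` horizontal edge,
`2` vertical edge) of the vertex or edge containing it -/
noncomputable def addr (p : Par) (X Y : ℝ) : Vtx × Fin 3 :=
  addr' p X Y (Fin.ofNat 5 (⌊X⌋₊ / p.M)) (⌊X⌋₊ % p.M) ⌊Y⌋₊

lemma floor_add {n : ℕ} {t : ℝ} (h0 : 0 ≤ t) (h1 : t < 1) : ⌊(n : ℝ) + t⌋₊ = n := by
  rw [Nat.floor_eq_iff (by positivity)]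
  constructor <;> linarith

lemma addr_eq {p : Par} {X Y : ℝ} {c : Fin 5} {x b : ℕ} (hx : x < p.M)
    (ha : ⌊X⌋₊ = c.val * p.M + x) (hb : ⌊Y⌋₊ = b) : addr p X Y = addr' p X Y c x b := by
  have e1 : (c.val * p.M + x) / p.M = c.val := div_cell hx
  have e2 : (c.val * p.M + x) % p.M = x := mod_cell hx
  have e3 : Fin.ofNat 5 c.val = c := Fin.ext (Nat.mod_eq_of_lt c.2)
  rw [addr, ha, hb, e1, e2, e3]

lemma addr_base0 {p : Par} {c : Fin 5} {x y : ℕ} (hx : x < p.M) :
    addr p ((c.val * p.M + x : ℕ) : ℝ) (y : ℝ) = (base c x y, 0) := by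
  rw [addr_eq hx (Nat.floor_natCast _) (Nat.floor_natCast _), addr', if_pos rfl, if_pos rfl]

lemma addr_base1 {p : Par} {c : Fin 5} {x y : ℕ} (hx : x < p.M) {t : ℝ} (h0 : 0 < t)
    (h1 : t < 1) :
    addr p (((c.val * p.M + x : ℕ) : ℝ) + t) (y : ℝ) = (base c x y, 1) := by
  rw [addr_eq hx (floor_add h0.le h1) (Nat.floor_natCast _), addr', if_pos rfl,
    if_neg (by linarith)]

lemma addr_base2 {p : Par} {c : Fin 5} {x y : ℕ} (hx : x < p.M)
    (hw : ¬ inWall p c x y) {t : ℝ} (h0 : 0 < t) (h1 : t < 1) :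
    addr p ((c.val * p.M + x : ℕ) : ℝ) ((y : ℝ) + t) = (base c x y, 2) := by
  rw [addr_eq hx (Nat.floor_natCast _) (floor_add h0.le h1), addr', if_neg (by linarith),
    if_neg]
  rintro ⟨h2, h3, h4, -⟩
  apply hw
  refine ⟨h2, h3, ?_⟩
  have h5 := Nat.div_add_mod x p.s
  have h6 : ((c.val * p.M + x : ℕ) : ℝ) ≤ ((p.w c + (c.val * p.M + (x / p.s * p.s + 1)) : ℕ) : ℝ)
      := by
    push_cast at h4 ⊢
    linarith
  have h7 : c.val * p.M + x ≤ p.w c + (c.val * p.M + (x / p.s * p.s + 1)) := by exact_mod_cast h6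
  have h8 : x / p.s * p.s = p.s * (x / p.s) := mul_comm _ _
  omega

lemma cell_lt_M {p : Par} {i t : ℕ} (hi : i < p.N) (ht : t < p.s) : i * p.s + t < p.M := by
  unfold Par.M
  calc i * p.s + t < i * p.s + p.s := by omega
    _ = (i + 1) * p.s := by ring
    _ ≤ p.N * p.s := Nat.mul_le_mul_right _ hi

lemma addr_wall {p : Par} (hs : ∀ c, p.w c + 1 < p.s) (hg : p.g + 1 < p.s) {c : Fin 5}
    {i j : ℕ} (hi : i < p.N) {ξ h : ℝ} (hξ0 : 0 ≤ ξ)
    (hξ1 : ξ ≤ p.w c) (h0 : 0 < h) (h1 : h < p.D + 1) :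
    addr p (((c.val * p.M + (i * p.s + 1) : ℕ) : ℝ) + ξ)
      (((j * p.s + p.g : ℕ) : ℝ) + h / (p.D + 1))
      = if 1 ≤ ⌊h⌋₊ then addrW c i j ⌊h⌋₊ ξ h
        else (base c (i * p.s + 1 + ⌊ξ⌋₊) (j * p.s + p.g), 2) := by
  have hsc := hs c
  have hfl : ⌊ξ⌋₊ ≤ p.w c := by
    have := Nat.floor_le_floor hξ1
    rwa [Nat.floor_natCast] at this
  have hfl2 : (⌊ξ⌋₊ : ℝ) ≤ ξ := Nat.floor_le hξ0
  have hfl3 : ξ < (⌊ξ⌋₊ : ℝ) + 1 := Nat.lt_floor_add_one ξ
  have hX : ⌊((c.val * p.M + (i * p.s + 1) : ℕ) : ℝ) + ξ⌋₊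
      = c.val * p.M + (i * p.s + (1 + ⌊ξ⌋₊)) := by
    rw [Nat.floor_eq_iff (by positivity)]
    push_cast
    constructor <;> linarith
  have hDpos : (0 : ℝ) < p.D + 1 := by positivity
  have hq0 : 0 < h / (p.D + 1) := by positivity
  have hq1 : h / (p.D + 1) < 1 := by rw [div_lt_one hDpos]; exact h1
  have hY : ⌊((j * p.s + p.g : ℕ) : ℝ) + h / (p.D + 1)⌋₊ = j * p.s + p.g :=
    floor_add hq0.le hq1
  have e1 : (i * p.s + (1 + ⌊ξ⌋₊)) / p.s = i := div_cell (by omega)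
  have e2 : (i * p.s + (1 + ⌊ξ⌋₊)) % p.s = 1 + ⌊ξ⌋₊ := mod_cell (by omega)
  have e3 : (j * p.s + p.g) / p.s = j := div_cell (by omega)
  have e4 : (j * p.s + p.g) % p.s = p.g := mod_cell (by omega)
  have e5 : ((((j * p.s + p.g : ℕ) : ℝ) + h / (p.D + 1)) - ((j * p.s + p.g : ℕ) : ℝ))
      * (p.D + 1) = h := by
    field_simp
    ring
  have e6 : ((c.val * p.M + (i * p.s + 1) : ℕ) : ℝ) + ξ
      - ((c.val * p.M + (i * p.s + 1) : ℕ) : ℝ) = ξ := by ring
  rw [addr_eq (cell_lt_M hi (by omega)) hX hY, addr', if_neg (by linarith), e1, e2, e3, e4, e5,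
    e6]
  by_cases hh : 1 ≤ ⌊h⌋₊
  · rw [if_pos ⟨rfl, by omega, hξ1, hh⟩, if_pos hh]
  · rw [if_neg (fun hc => hh hc.2.2.2), if_neg hh]
    rw [add_assoc]

lemma pow2_mul_div (r : ℕ) (z : ℝ) : (2 : ℝ) ^ r * (z / 2 ^ r) = z := by
  field_simp

/-- address of a vertex -/
lemma addr_vertex {p : Par} (hs : ∀ c, p.w c + 1 < p.s) (hg : p.g + 1 < p.s) {v : Vtx}
    (hv : Valid p v) : addr p (PX p v) (PY p v) = (v, 0) := by
  cases v with
  | base c x y => exact addr_base0 hv.1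
  | wall c i j r m =>
    obtain ⟨h1, h2, h3, h4, h5⟩ := hv
    have h2r : (0 : ℝ) < 2 ^ r := by positivity
    have hr : (0 : ℝ) < r := by exact_mod_cast h3
    have hr' : (r : ℝ) < p.D + 1 := by
      have : r < p.D + 1 := by omega
      exact_mod_cast this
    have hm : (m : ℝ) / 2 ^ r ≤ p.w c := by
      rw [div_le_iff₀ h2r]
      exact_mod_cast h5
    simp only [PX, PY]
    rw [addr_wall hs hg h1 (by positivity) hm hr hr', Nat.floor_natCast, if_pos h3, addrW,
      if_pos rfl, pow2_mul_div, Nat.floor_natCast, if_pos rfl]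

/-- address of an interior point of a horizontal edge -/
lemma addr_hor {p : Par} (hs : ∀ c, p.w c + 1 < p.s) (hg : p.g + 1 < p.s) {u : Vtx}
    (hu : HG p u) {t : ℝ} (ht0 : 0 < t) (ht1 : t < 1) :
    addr p (PX p u + t * lenH u) (PY p u) = (u, 1) := by
  cases u with
  | base c x y =>
    simp only [PX, PY, lenH, mul_one]
    exact addr_base1 hu.1 ht0 ht1
  | wall c i j r m =>
    obtain ⟨h1, h2, h3, h4, h5⟩ := hu
    have h2r : (0 : ℝ) < 2 ^ r := by positivity
    have hr : (0 : ℝ) < r := by exact_mod_cast h3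
    have hr' : (r : ℝ) < p.D + 1 := by
      have : r < p.D + 1 := by omega
      exact_mod_cast this
    have hm : ((m : ℝ) + t) / 2 ^ r ≤ p.w c := by
      rw [div_le_iff₀ h2r]
      have h6 : (m : ℝ) + 1 ≤ p.w c * 2 ^ r := by exact_mod_cast h5
      linarith
    simp only [PX, PY, lenH]
    have e : ((c.val * p.M + (i * p.s + 1) : ℕ) : ℝ) + (m : ℝ) / 2 ^ r + t * (1 / 2 ^ r)
        = ((c.val * p.M + (i * p.s + 1) : ℕ) : ℝ) + ((m : ℝ) + t) / 2 ^ r := by
      field_simp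
      ring
    rw [e, addr_wall hs hg h1 (by positivity) hm hr hr', Nat.floor_natCast, if_pos h3, addrW,
      if_pos rfl, pow2_mul_div, floor_add ht0.le ht1, if_neg (by linarith)]

/-- address of an interior point of a vertical edge -/
lemma addr_ver {p : Par} (hs : ∀ c, p.w c + 1 < p.s) (hg : p.g + 1 < p.s) {u : Vtx}
    (hu : VG p u) {t : ℝ} (ht0 : 0 < t) (ht1 : t < 1) :
    addr p (PX p u) (PY p u + t * lenV p u) = (u, 2) := by
  have hDpos : (0 : ℝ) < p.D + 1 := by positivity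
  cases u with
  | base c x y =>
    simp only [PX, PY, lenV]
    by_cases hw : inWall p c x y
    · rw [if_pos hw]
      obtain ⟨h1, h2, h3⟩ := hw
      have hMs : p.M = p.N * p.s := rfl
      have hspos : 0 < p.s := by omega
      have hxdiv : x / p.s < p.N := by
        rw [Nat.div_lt_iff_lt_mul hspos, ← hMs]; exact hu.1
      have e1 := Nat.div_add_mod x p.s
      have e2 := Nat.div_add_mod y p.s
      have e3 : p.s * (x / p.s) = x / p.s * p.s := mul_comm _ _
      have e4 : p.s * (y / p.s) = y / p.s * p.s := mul_comm _ _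
      obtain ⟨l, hl⟩ : ∃ l, x % p.s = 1 + l := ⟨x % p.s - 1, by omega⟩
      have ex : x = x / p.s * p.s + 1 + l := by omega
      have ey : y = y / p.s * p.s + p.g := by omega
      have e5 : ((c.val * p.M + x : ℕ) : ℝ)
          = ((c.val * p.M + (x / p.s * p.s + 1) : ℕ) : ℝ) + (l : ℝ) := by
        rw [← Nat.cast_add]
        congr 1
        omega
      have e6 : (y : ℝ) + t * (1 / (p.D + 1))
          = ((y / p.s * p.s + p.g : ℕ) : ℝ) + t / (p.D + 1) := by
        rw [← ey]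
        ring
      rw [e5, e6, addr_wall hs hg hxdiv (by positivity) (by
        have : l ≤ p.w c := by omega
        exact_mod_cast this) ht0 (by
        have : (0 : ℝ) ≤ p.D := by positivity
        linarith)]
      have hf : ⌊t⌋₊ = 0 := Nat.floor_eq_zero.mpr ht1
      rw [hf, if_neg (by omega), Nat.floor_natCast, ← ex, ← ey]
    · rw [if_neg hw, mul_one]
      exact addr_base2 hu.1 hw ht0 ht1
  | wall c i j r m =>
    obtain ⟨h1, h2, h3, h4, h5⟩ := hu
    have h2r : (0 : ℝ) < 2 ^ r := by positivity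
    have hr : (0 : ℝ) < (r : ℝ) + t := by positivity
    have hr' : (r : ℝ) + t < p.D + 1 := by
      have : (r : ℝ) + 1 ≤ p.D := by exact_mod_cast h4
      linarith
    have hm : (m : ℝ) / 2 ^ r ≤ p.w c := by
      rw [div_le_iff₀ h2r]
      exact_mod_cast h5
    simp only [PX, PY, lenV]
    have e : ((j * p.s + p.g : ℕ) : ℝ) + (r : ℝ) / (p.D + 1) + t * (1 / (p.D + 1))
        = ((j * p.s + p.g : ℕ) : ℝ) + ((r : ℝ) + t) / (p.D + 1) := by
      field_simp
      ring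
    rw [e, addr_wall hs hg h1 (by positivity) hm hr hr', floor_add ht0.le ht1, if_pos h3, addrW,
      if_neg (by linarith), pow2_mul_div, Nat.floor_natCast]

end Pool.Agent.Lib.MP_ec8146_lc
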