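import Pool.Agent.Lib.MP_ec8146_lc.Torus

/-!
# The drawing in the torus
-/

namespace Pool.Agent.Lib.MP_ec8146_lc

open Vtx

/-- the map from the plane to the torus -/
noncomputable def phi (p : Par) (X Y : ℝ) : UnitAddCircle × UnitAddCircle :=
  ((((X + 2 * Y) / (5 * p.M) : ℝ) : UnitAddCircle), ((Y / p.M : ℝ) : UnitAddCircle))

/-- the fundamental domain -/
def Dom (p : Par) (X Y : ℝ) : Prop := 0 ≤ X ∧ X < 5 * p.M ∧ 0 ≤ Y ∧ Y < p.M

lemma phi_inj {p : Par} {X Y X' Y' : ℝ} (h : Dom p X Y) (h' : Dom p X' Y')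
    (he : phi p X Y = phi p X' Y') : X = X' ∧ Y = Y' := by
  obtain ⟨a1, a2, a3, a4⟩ := h
  obtain ⟨b1, b2, b3, b4⟩ := h'
  have hM : (0 : ℝ) < p.M := lt_of_le_of_lt a3 a4
  have e1 := congrArg Prod.fst he
  have e2 := congrArg Prod.snd he
  simp only [phi] at e1 e2
  have i1 : Y / p.M ∈ Set.Ico (0 : ℝ) (0 + 1) := by
    constructor
    · positivity
    · rw [zero_add, div_lt_one hM]; exact a4
  have i2 : Y' / p.M ∈ Set.Ico (0 : ℝ) (0 + 1) := by
    constructor
    · positivity
    · rw [zero_add, div_lt_one hM]; exact b4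
  have hY := (AddCircle.coe_eq_coe_iff_of_mem_Ico i1 i2).mp e2
  have hYY : Y = Y' := by
    field_simp at hY
    exact hY
  subst hYY
  have j1 : (X + 2 * Y) / (5 * p.M) ∈ Set.Ico (2 * Y / (5 * p.M)) (2 * Y / (5 * p.M) + 1) := by
    constructor
    · gcongr
      linarith
    · rw [add_div, add_comm]
      have : X / (5 * p.M) < 1 := by rw [div_lt_one (by positivity)]; exact a2
      linarith
  have j2 : (X' + 2 * Y) / (5 * p.M) ∈ Set.Ico (2 * Y / (5 * p.M)) (2 * Y / (5 * p.M) + 1) := by
    constructor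
    · gcongr
      linarith
    · rw [add_div, add_comm]
      have : X' / (5 * p.M) < 1 := by rw [div_lt_one (by positivity)]; exact b2
      linarith
  have hX := (AddCircle.coe_eq_coe_iff_of_mem_Ico j1 j2).mp e1
  refine ⟨?_, rfl⟩
  have h5 : (5 * (p.M : ℝ)) ≠ 0 := by positivity
  rw [div_left_inj' h5] at hX
  linarith

lemma continuous_phi (p : Par) {f g : ℝ → ℝ} (hf : Continuous f) (hg : Continuous g) :
    Continuous (fun t => phi p (f t) (g t)) := by
  unfold phi
  refine Continuous.prodMk ?_ ?_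
  · exact (AddCircle.continuous_mk' (1 : ℝ)).comp (by fun_prop)
  · exact (AddCircle.continuous_mk' (1 : ℝ)).comp (by fun_prop)

lemma phi_perX {p : Par} (hM : 0 < p.M) (X Y : ℝ) : phi p (X + 5 * p.M) Y = phi p X Y := by
  have hM' : (0 : ℝ) < p.M := by exact_mod_cast hM
  unfold phi
  congr 1
  have e : (X + 5 * p.M + 2 * Y) / (5 * p.M) = (X + 2 * Y) / (5 * p.M) + 1 := by
    field_simp
    ring
  rw [e]
  exact AddCircle.coe_add_period (1 : ℝ) _

lemma phi_perY {p : Par} (hM : 0 < p.M) (X Y : ℝ) :
    phi p X (Y + p.M) = phi p (X + 2 * p.M) Y := by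
  have hM' : (0 : ℝ) < p.M := by exact_mod_cast hM
  unfold phi
  have e1 : (X + 2 * (Y + p.M)) / (5 * p.M) = (X + 2 * p.M + 2 * Y) / (5 * p.M) := by ring
  have e2 : (Y + p.M) / (p.M : ℝ) = Y / p.M + 1 := by field_simp
  rw [e1, e2]
  congr 1
  exact AddCircle.coe_add_period (1 : ℝ) _

lemma block_lt {M x : ℕ} (c : Fin 5) {t : ℝ} (hx : x + 1 ≤ M) (ht : t < 1) :
    ((c.val * M + x : ℕ) : ℝ) + t < 5 * M := by
  have h1 : c.val * M + (x + 1) ≤ 5 * M := by
    have : c.val * M + M ≤ 5 * M := by
      calc c.val * M + M = (c.val + 1) * M := by ring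
        _ ≤ 5 * M := Nat.mul_le_mul_right _ (by omega)
    omega
  have h2 : ((c.val * M + (x + 1) : ℕ) : ℝ) ≤ ((5 * M : ℕ) : ℝ) := by exact_mod_cast h1
  push_cast at h2 ⊢
  linarith

lemma dom_wall {p : Par} (hs : ∀ c, p.w c + 1 < p.s) (hg : p.g + 1 < p.s) {c : Fin 5}
    {i j : ℕ} (hi : i < p.N) (hj : j < p.N) {ξ h : ℝ} (hξ0 : 0 ≤ ξ) (hξ1 : ξ ≤ p.w c)
    (h0 : 0 ≤ h) (h1 : h < 1) :
    Dom p (((c.val * p.M + (i * p.s + 1) : ℕ) : ℝ) + ξ) (((j * p.s + p.g : ℕ) : ℝ) + h) := by
  have hsc := hs c
  refine ⟨by positivity, ?_, by positivity, ?_⟩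
  · have h2 : i * p.s + 1 + p.w c + 1 ≤ p.M := by
      have := cell_lt_M (p := p) hi (t := 1 + p.w c) (by omega)
      omega
    have h3 := block_lt (M := p.M) (x := i * p.s + 1 + p.w c) c (t := 0) h2 (by norm_num)
    push_cast at h3 ⊢
    linarith
  · have h2 : j * p.s + p.g + 1 ≤ p.M := cell_lt_M (p := p) hj (t := p.g) (by omega)
    have h3 : ((j * p.s + p.g + 1 : ℕ) : ℝ) ≤ p.M := by exact_mod_cast h2
    push_cast at h3 ⊢
    linarith

lemma dom_vertex {p : Par} (hs : ∀ c, p.w c + 1 < p.s) (hg : p.g + 1 < p.s) {v : Vtx}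
    (hv : Valid p v) : Dom p (PX p v) (PY p v) := by
  cases v with
  | base c x y =>
    have h3 := block_lt (M := p.M) (x := x) c (t := 0) hv.1 (by norm_num)
    refine ⟨by simp only [PX]; positivity, by simpa [PX] using h3, by simp [PY], ?_⟩
    simp only [PY]
    exact_mod_cast hv.2
  | wall c i j r m =>
    obtain ⟨h1, h2, h3, h4, h5⟩ := hv
    simp only [PX, PY]
    refine dom_wall hs hg h1 h2 (by positivity) ?_ (by positivity) ?_
    · rw [div_le_iff₀ (by positivity)]
      exact_mod_cast h5
    · rw [div_lt_one (by positivity)]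
      have : r < p.D + 1 := by omega
      exact_mod_cast this

lemma dom_hor {p : Par} (hs : ∀ c, p.w c + 1 < p.s) (hg : p.g + 1 < p.s) {u : Vtx}
    (hu : HG p u) {t : ℝ} (ht0 : 0 ≤ t) (ht1 : t < 1) :
    Dom p (PX p u + t * lenH u) (PY p u) := by
  cases u with
  | base c x y =>
    have h3 := block_lt (M := p.M) (x := x) c (t := t) hu.1 ht1
    simp only [PX, PY, lenH, mul_one]
    refine ⟨by positivity, h3, by positivity, ?_⟩
    exact_mod_cast hu.2
  | wall c i j r m =>
    obtain ⟨h1, h2, h3, h4, h5⟩ := hu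
    simp only [PX, PY, lenH]
    have e : ((c.val * p.M + (i * p.s + 1) : ℕ) : ℝ) + (m : ℝ) / 2 ^ r + t * (1 / 2 ^ r)
        = ((c.val * p.M + (i * p.s + 1) : ℕ) : ℝ) + ((m : ℝ) + t) / 2 ^ r := by
      field_simp
      ring
    rw [e]
    refine dom_wall hs hg h1 h2 (by positivity) ?_ (by positivity) ?_
    · rw [div_le_iff₀ (by positivity)]
      have h6 : (m : ℝ) + 1 ≤ p.w c * 2 ^ r := by exact_mod_cast h5
      linarith
    · rw [div_lt_one (by positivity)]
      have : r < p.D + 1 := by omega
      exact_mod_cast this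

lemma lenV_le (p : Par) (u : Vtx) : lenV p u ≤ 1 := by
  have h : (1 : ℝ) / (p.D + 1) ≤ 1 := by
    rw [div_le_one (by positivity)]
    have : (0 : ℝ) ≤ p.D := by positivity
    linarith
  cases u with
  | base c x y =>
    simp only [lenV]
    split_ifs
    · exact h
    · exact le_rfl
  | wall c i j r m => exact h

lemma dom_ver {p : Par} (hs : ∀ c, p.w c + 1 < p.s) (hg : p.g + 1 < p.s) {u : Vtx}
    (hu : VG p u) {t : ℝ} (ht0 : 0 ≤ t) (ht1 : t < 1) :
    Dom p (PX p u) (PY p u + t * lenV p u) := by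
  cases u with
  | base c x y =>
    have h3 := block_lt (M := p.M) (x := x) c (t := 0) hu.1 (by norm_num)
    have h4 := lenV_pos p (base c x y)
    have h5 := lenV_le p (base c x y)
    simp only [PX, PY]
    refine ⟨by positivity, by simpa using h3, by positivity, ?_⟩
    have h6 : (y : ℝ) + 1 ≤ p.M := by
      have : y + 1 ≤ p.M := hu.2
      exact_mod_cast this
    have h7 : t * lenV p (base c x y) ≤ t * 1 := mul_le_mul_of_nonneg_left h5 ht0
    linarith
  | wall c i j r m =>
    obtain ⟨h1, h2, h3, h4, h5⟩ := hu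
    simp only [PX, PY, lenV]
    have e : ((j * p.s + p.g : ℕ) : ℝ) + (r : ℝ) / (p.D + 1) + t * (1 / (p.D + 1))
        = ((j * p.s + p.g : ℕ) : ℝ) + ((r : ℝ) + t) / (p.D + 1) := by
      field_simp
      ring
    rw [e]
    refine dom_wall hs hg h1 h2 (by positivity) ?_ (by positivity) ?_
    · rw [div_le_iff₀ (by positivity)]
      exact_mod_cast h5
    · rw [div_lt_one (by positivity)]
      have : (r : ℝ) + 1 ≤ p.D := by exact_mod_cast h4
      linarith

lemma phi_E {p : Par} {u : Vtx} (hu : HG p u) :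
    phi p (PX p u + 1 * lenH u) (PY p u) = phi p (PX p (nE p u)) (PY p (nE p u)) := by
  cases u with
  | base c x y =>
    have hM : 0 < p.M := by have := hu.1; omega
    simp only [nE]
    split_ifs with hx
    · simp only [PX, PY, lenH]
      congr 1
      push_cast
      ring
    · have hxM : x + 1 = p.M := by have := hu.1; omega
      have hxM' : (x : ℝ) + 1 = p.M := by exact_mod_cast hxM
      simp only [PX, PY, lenH]
      by_cases hc : c.val = 4
      · have hc2 : (c + 1).val = 0 := by
          rw [Fin.val_add, hc]; rfl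
        rw [hc2, hc, ← phi_perX hM ((0 * p.M + 0 : ℕ) : ℝ)]
        congr 1
        push_cast
        linarith
      · have hc2 : (c + 1).val = c.val + 1 := by
          rw [Fin.val_add]
          exact Nat.mod_eq_of_lt (by have := c.2; change c.val + 1 < 5; omega)
        rw [hc2]
        congr 1
        push_cast
        linarith
  | wall c i j r m =>
    simp only [nE, PX, PY, lenH]
    congr 1
    push_cast
    ring

lemma phi_N {p : Par} {u : Vtx} (hu : VG p u) :
    phi p (PX p u) (PY p u + 1 * lenV p u) = phi p (PX p (nN p u)) (PY p (nN p u)) := by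
  cases u with
  | base c x y =>
    have hM : 0 < p.M := by have := hu.1; omega
    simp only [nN, lenV]
    by_cases hw : inWall p c x y
    · rw [if_pos hw, if_pos hw]
      obtain ⟨h1, h2, h3⟩ := hw
      have e1 := Nat.div_add_mod x p.s
      have e2 := Nat.div_add_mod y p.s
      have e3 : p.s * (x / p.s) = x / p.s * p.s := mul_comm _ _
      have e4 : p.s * (y / p.s) = y / p.s * p.s := mul_comm _ _
      obtain ⟨l, hl⟩ : ∃ l, x % p.s = 1 + l := ⟨x % p.s - 1, by omega⟩
      have ex : x = x / p.s * p.s + 1 + l := by omega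
      have ey : y = y / p.s * p.s + p.g := by omega
      have ex' : (x : ℝ) = ((x / p.s * p.s + 1 + l : ℕ) : ℝ) := by exact_mod_cast ex
      have ey' : (y : ℝ) = ((y / p.s * p.s + p.g : ℕ) : ℝ) := by exact_mod_cast ey
      simp only [PX, PY, hl]
      congr 1
      · push_cast at ex' ⊢
        rw [show (1 + l - 1 : ℕ) = l by omega]
        linarith
      · push_cast at ey' ⊢
        rw [ey']
        ring
    · rw [if_neg hw, if_neg hw]
      split_ifs with hy
      · simp only [PX, PY]
        congr 1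
        push_cast
        ring
      · have hyM : y + 1 = p.M := by have := hu.2; omega
        have hyM' : (y : ℝ) + 1 = p.M := by exact_mod_cast hyM
        simp only [PX, PY]
        have e : (y : ℝ) + 1 * 1 = 0 + p.M := by linarith
        rw [e, phi_perY hM]
        have hc5 := c.2
        by_cases hc : c.val + 2 < 5
        · have hc2 : (c + 2).val = c.val + 2 := by
            rw [Fin.val_add]
            exact Nat.mod_eq_of_lt hc
          rw [hc2]
          congr 1
          · push_cast
            ring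
          · simp
        · have hc2 : (c + 2).val + 5 = c.val + 2 := by
            rw [Fin.val_add]
            change (c.val + 2) % 5 + 5 = c.val + 2
            omega
          have hc3 : (((c + 2).val : ℕ) : ℝ) + 5 = c.val + 2 := by exact_mod_cast hc2
          rw [← phi_perX hM (((c + 2).val * p.M + x : ℕ) : ℝ)]
          congr 1
          · push_cast
            linear_combination (-(p.M : ℝ)) * hc3
          · simp
  | wall c i j r m =>
    simp only [nN, PX, PY, lenV]
    congr 1
    · rw [pow_succ]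
      push_cast
      field_simp
    · push_cast
      ring

end Pool.Agent.Lib.MP_ec8146_lc
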