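import Pool.Agent.Lib.MP_ec8146_lc.Params
import Pool.Agent.Lib.MP_ec8146_lc.Parity2

/-!
# From plane drawings of the finite graph to parity setups
-/

namespace Pool.Agent.Lib.MP_ec8146_lc

open Vtx

/-- the vertices of the finite graph -/
def Valid (p : Par) : Vtx → Prop
  | base _ x y => x < p.M ∧ y < p.M
  | wall c i j r m => i < p.N ∧ j < p.N ∧ 1 ≤ r ∧ r ≤ p.D ∧ m ≤ p.w c * 2 ^ r

/-- the vertex set of the finite graph -/
abbrev TV (p : Par) : Type := {v : Vtx // Valid p v}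

/-- the finite toroidal graph -/
def Tor (p : Par) : SimpleGraph (TV p) := (T p).comap Subtype.val

lemma finite_valid (p : Par) : {v : Vtx | Valid p v}.Finite := by
  set W := ∑ c, p.w c with hW
  have h1 : (Set.range (fun z : Fin 5 × Fin p.M × Fin p.M => base z.1 z.2.1 z.2.2)).Finite :=
    Set.finite_range _
  have h2 : (Set.range (fun z : Fin 5 × Fin p.N × Fin p.N × Fin (p.D + 1)
      × Fin (W * 2 ^ p.D + 1) => wall z.1 z.2.1 z.2.2.1 z.2.2.2.1 z.2.2.2.2)).Finite :=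
    Set.finite_range _
  refine (h1.union h2).subset ?_
  intro v hv
  cases v with
  | base c x y => exact Or.inl ⟨(c, ⟨x, hv.1⟩, ⟨y, hv.2⟩), rfl⟩
  | wall c i j r m =>
    obtain ⟨h1, h2, h3, h4, h5⟩ := hv
    have h6 : p.w c ≤ W := Finset.single_le_sum (fun _ _ => Nat.zero_le _) (Finset.mem_univ c)
    have h7 : p.w c * 2 ^ r ≤ W * 2 ^ p.D :=
      Nat.mul_le_mul h6 (Nat.pow_le_pow_right (by omega) h4)
    exact Or.inr ⟨(c, ⟨i, h1⟩, ⟨j, h2⟩, ⟨r, by omega⟩, ⟨m, by omega⟩), rfl⟩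

instance (p : Par) : Finite (TV p) := finite_valid p

noncomputable instance (p : Par) : Fintype (TV p) := Fintype.ofFinite _

lemma Gen.valid {p : Par} (hs : ∀ c, p.w c + 1 < p.s) (hg : p.g < p.s) (hD : 1 ≤ p.D) {u v : Vtx}
    (h : Gen p u v) : Valid p u ∧ Valid p v := by
  have hM : ∀ i t, i < p.N → t < p.s → i * p.s + t < p.M := by
    intro i t hi ht
    unfold Par.M
    calc i * p.s + t < i * p.s + p.s := by omega
      _ = (i + 1) * p.s := by ring
      _ ≤ p.N * p.s := Nat.mul_le_mul_right _ hi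
  cases h with
  | hor c x y hx hy => exact ⟨⟨by omega, hy⟩, ⟨hx, hy⟩⟩
  | horc c y hy => exact ⟨⟨by omega, hy⟩, ⟨by omega, hy⟩⟩
  | ver c x y hx hy hw => exact ⟨⟨hx, by omega⟩, ⟨hx, hy⟩⟩
  | verc c x hx => exact ⟨⟨hx, by omega⟩, ⟨hx, by omega⟩⟩
  | wbot c i j l hi hj hl =>
    refine ⟨⟨?_, hM j p.g hj hg⟩, ⟨hi, hj, le_rfl, hD, by omega⟩⟩
    have := hM i (1 + l) hi (by have := hs c; omega)
    omega
  | whor c i j r m hi hj hr hrD hm =>
    exact ⟨⟨hi, hj, hr, hrD, by omega⟩, ⟨hi, hj, hr, hrD, hm⟩⟩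
  | wver c i j r m hi hj hr hrD hm =>
    refine ⟨⟨hi, hj, hr, by omega, hm⟩, ⟨hi, hj, by omega, hrD, ?_⟩⟩
    calc 2 * m ≤ 2 * (p.w c * 2 ^ r) := Nat.mul_le_mul_left _ hm
      _ = p.w c * 2 ^ (r + 1) := by ring

lemma adj_valid {p : Par} (hs : ∀ c, p.w c + 1 < p.s) (hg : p.g < p.s) (hD : 1 ≤ p.D)
    {u v : Vtx} (h : (T p).Adj u v) : Valid p u ∧ Valid p v := by
  rcases (T_adj p).mp h with h | h
  · exact h.valid hs hg hD
  · exact (h.valid hs hg hD).symm

section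

variable {p : Par} {k : ℕ}

open Classical in
/-- extension of an orientation function -/
noncomputable def etaX (e : TV p → TV p → ZMod 2) (x y : Vtx) : ZMod 2 :=
  if h : Valid p x ∧ Valid p y then e ⟨x, h.1⟩ ⟨y, h.2⟩
  else if WellOrderingRel x y then 1 else 0

lemma etaX_add (e : TV p → TV p → ZMod 2) (he : ∀ x y, x ≠ y → e x y + e y x = 1) (x y : Vtx)
    (h : x ≠ y) : etaX e x y + etaX e y x = 1 := by
  by_cases hv : Valid p x ∧ Valid p y
  · rw [etaX, dif_pos hv, etaX, dif_pos hv.symm]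
    exact he _ _ (fun hh => h (congrArg Subtype.val hh))
  · rw [etaX, dif_neg hv, etaX, dif_neg (fun hh => hv hh.symm)]
    rcases trichotomous_of WellOrderingRel x y with h1 | h1 | h1
    · rw [if_pos h1, if_neg (asymm_of WellOrderingRel h1), add_zero]
    · exact absurd h1 h
    · rw [if_pos h1, if_neg (asymm_of WellOrderingRel h1), zero_add]

open Classical in
/-- extension of a winding function -/
noncomputable def NX (n : TV p → TV p → TV p → ZMod 2) (w x y : Vtx) : ZMod 2 :=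
  if h : Valid p w ∧ Valid p x ∧ Valid p y then n ⟨w, h.1⟩ ⟨x, h.2.1⟩ ⟨y, h.2.2⟩ else 0

/-- A `k`-planar drawing of the finite graph minus few edges gives a parity setup. -/
theorem setup_of_kplanar (hs : ∀ c, p.w c + 1 < p.s) (hg : p.g < p.s) (hD : 1 ≤ p.D)
    (S0 : Finset (Sym2 (TV p))) (hS0 : S0.card ≤ k)
    (h : KPlanar k ((Tor p).deleteEdges (S0 : Set (Sym2 (TV p))))) : Nonempty (Setup p k) := by
  classical
  set H := (Tor p).deleteEdges (S0 : Set (Sym2 (TV p))) with hH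
  obtain ⟨D, hD'⟩ := h
  set PD := D.parityData with hPD
  set ι : Sym2 (TV p) → Sym2 Vtx := Sym2.map Subtype.val with hι
  have hι_inj : Function.Injective ι := Sym2.map.injective Subtype.val_injective
  set Fc : Sym2 Vtx → Finset (Sym2 Vtx) := fun e =>
    (Finset.univ.filter (fun f' : Sym2 (TV p) => ∃ e', ι e' = e ∧ e' ∈ H.edgeSet ∧
      f' ∈ H.edgeSet ∧ f' ≠ e' ∧ D.Cross e' f')).image ι with hFc
  have hFcard : ∀ e, (Fc e).card ≤ k := by
    intro e
    refine Finset.card_image_le.trans ?_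
    by_cases hex : ∃ e', ι e' = e ∧ e' ∈ H.edgeSet
    · obtain ⟨e', rfl, he'⟩ := hex
      have hk := hD' e' he'
      set A := Finset.univ.filter (fun f' : Sym2 (TV p) => ∃ e'', ι e'' = ι e' ∧
        e'' ∈ H.edgeSet ∧ f' ∈ H.edgeSet ∧ f' ≠ e'' ∧ D.Cross e'' f') with hA
      have hsub : (A : Set (Sym2 (TV p))) ⊆ Prod.fst '' (D.crossings e') := by
        intro f' hf'
        have hf'2 : f' ∈ A := hf'
        rw [hA, Finset.mem_filter] at hf'2
        obtain ⟨-, e'', h1, h2, h3, h4, q, h5, h6⟩ := hf'2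
        have := hι_inj h1
        subst this
        exact ⟨(f', q), ⟨h3, h4, h5, h6⟩, rfl⟩
      have h1 : (A : Set (Sym2 (TV p))).encard ≤ k :=
        (Set.encard_le_encard hsub).trans ((Set.encard_image_le _ _).trans hk)
      rw [Set.encard_coe_eq_coe_finsetCard] at h1
      exact_mod_cast h1
    · have : Finset.univ.filter (fun f' : Sym2 (TV p) => ∃ e', ι e' = e ∧ e' ∈ H.edgeSet ∧
          f' ∈ H.edgeSet ∧ f' ≠ e' ∧ D.Cross e' f') = ∅ := by
        apply Finset.filter_eq_empty_iff.mpr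
        rintro f' - ⟨e', h1, h2, -⟩
        exact hex ⟨e', h1, h2⟩
      rw [this]
      simp
  refine ⟨⟨S0.image ι, Finset.card_image_le.trans hS0, etaX PD.eta, NX PD.N,
    etaX_add PD.eta PD.eta_add, Fc, hFcard, ?_⟩⟩
  intro u v x y huv huv0 hxy hxy0 hux huy hvx hvy hc
  obtain ⟨hu, hv⟩ := adj_valid hs hg hD huv
  obtain ⟨hx, hy⟩ := adj_valid hs hg hD hxy
  have a1 : H.Adj ⟨u, hu⟩ ⟨v, hv⟩ := by
    rw [hH, SimpleGraph.deleteEdges_adj]
    refine ⟨huv, fun hh => huv0 ?_⟩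
    exact Finset.mem_image.mpr ⟨_, hh, rfl⟩
  have a2 : H.Adj ⟨x, hx⟩ ⟨y, hy⟩ := by
    rw [hH, SimpleGraph.deleteEdges_adj]
    refine ⟨hxy, fun hh => hxy0 ?_⟩
    exact Finset.mem_image.mpr ⟨_, hh, rfl⟩
  have key := PD.rel ⟨u, hu⟩ ⟨v, hv⟩ ⟨x, hx⟩ ⟨y, hy⟩ a1 a2
    (fun hh => hux (congrArg Subtype.val hh)) (fun hh => huy (congrArg Subtype.val hh))
    (fun hh => hvx (congrArg Subtype.val hh)) (fun hh => hvy (congrArg Subtype.val hh)) (by
      intro hcr
      apply hc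
      refine Finset.mem_image.mpr ⟨s(⟨x, hx⟩, ⟨y, hy⟩), ?_, rfl⟩
      rw [Finset.mem_filter]
      refine ⟨Finset.mem_univ _, s(⟨u, hu⟩, ⟨v, hv⟩), rfl, a1, a2, ?_, hcr⟩
      intro hh
      rcases Sym2.eq_iff.mp hh with ⟨h1, -⟩ | ⟨h1, -⟩
      · exact hux (congrArg Subtype.val h1).symm
      · exact hvx (congrArg Subtype.val h1).symm)
  unfold c0
  simp only [etaX, NX, hu, hv, hx, hy, and_self, dite_true]
  exact key

end

/-- **Main theorem, part B**: for every `k` there are good parameters for which no deletion of at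
most `k` edges from the finite graph gives a `k`-planar graph. -/
theorem exists_not_kplanar (k : ℕ) : ∃ (p : Par) (a : ℕ), p.Good k a ∧
    ∀ S0 : Finset (Sym2 (TV p)), S0.card ≤ k →
      ¬ KPlanar k ((Tor p).deleteEdges (S0 : Set (Sym2 (TV p)))) := by
  obtain ⟨p, a, L, n, hp, h1, h2, h3⟩ := exists_params k
  refine ⟨p, a, hp, ?_⟩
  intro S0 hS0 h
  obtain ⟨S⟩ := setup_of_kplanar (fun c => by have := hp.ws c; omega)
    (by have := hp.gs; omega) (by have := hp.aD; omega) S0 hS0 h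
  exact S.no_setup hp h1 h2 h3

end Pool.Agent.Lib.MP_ec8146_lc
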